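import Mathlib

/-! # Holomorphic maps of several variables: Lipschitz bounds, limits, identity theorem, Vitali -/

open Filter Topology Set Metric

namespace Pool.Agent.H906.BD

variable {E F : Type*} [NormedAddCommGroup E] [NormedSpace ℂ E]
  [NormedAddCommGroup F] [NormedSpace ℂ F]

theorem lip_point {f : E → F} {x : E} {R M : ℝ} (hf : DifferentiableOn ℂ f (ball x R))
    (hM : ∀ z ∈ ball x R, ‖f z‖ ≤ M) {z : E} (hz : z ∈ ball x R) :
    ‖f z - f x‖ ≤ 2 * M / R * ‖z - x‖ := by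
  have hR : 0 < R := lt_of_le_of_lt dist_nonneg hz
  have h1 : MapsTo f (ball x R) (closedBall (f x) (2 * M)) := by
    intro w hw
    rw [mem_closedBall, dist_eq_norm]
    have h2 := hM w hw
    have h3 := hM x (mem_ball_self hR)
    have h4 := norm_sub_le (f w) (f x)
    linarith
  have h5 := Complex.dist_le_div_mul_dist_of_mapsTo_ball hf h1 hz
  rwa [dist_eq_norm, dist_eq_norm] at h5

theorem lip_ball {f : E → F} {x : E} {R M : ℝ} (hf : DifferentiableOn ℂ f (ball x R))
    (hM : ∀ z ∈ ball x R, ‖f z‖ ≤ M) {y z : E} (hy : y ∈ ball x (R / 4)) (hz : z ∈ ball x (R / 4)) :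
    ‖f z - f y‖ ≤ 4 * M / R * ‖z - y‖ := by
  have hR : 0 < R := by
    have : 0 < R / 4 := lt_of_le_of_lt dist_nonneg hz
    linarith
  rw [mem_ball, dist_eq_norm] at hy hz
  have hsub : ball y (R / 2) ⊆ ball x R := by
    intro w hw
    rw [mem_ball, dist_eq_norm] at hw ⊢
    have : w - x = (w - y) + (y - x) := by abel
    rw [this]
    have := norm_add_le (w - y) (y - x)
    linarith
  have h1 := lip_point (hf.mono hsub) (fun w hw => hM w (hsub hw)) (z := z) (by
    rw [mem_ball, dist_eq_norm]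
    have : z - y = (z - x) - (y - x) := by abel
    rw [this]
    have := norm_sub_le (z - x) (y - x)
    linarith)
  have h2 : 2 * M / (R / 2) = 4 * M / R := by field_simp; ring
  rwa [h2] at h1

omit [NormedSpace ℂ E] [NormedSpace ℂ F] in
theorem bound_nonneg {f : E → F} {x : E} {R M : ℝ} (hR : 0 < R)
    (hM : ∀ z ∈ ball x R, ‖f z‖ ≤ M) : 0 ≤ M :=
  (norm_nonneg _).trans (hM x (mem_ball_self hR))

theorem fderiv_bound {f : E → F} {x : E} {R M : ℝ} (hf : DifferentiableOn ℂ f (ball x R))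
    (hM : ∀ z ∈ ball x R, ‖f z‖ ≤ M) {z : E} (hz : z ∈ ball x (R / 4)) :
    ‖fderiv ℂ f z‖ ≤ 4 * M / R := by
  have hR4 : 0 < R / 4 := lt_of_le_of_lt dist_nonneg hz
  have hR : 0 < R := by linarith
  have hM0 := bound_nonneg hR hM
  refine norm_fderiv_le_of_lip' ℂ (by positivity) ?_
  filter_upwards [isOpen_ball.mem_nhds hz] with w hw
  exact lip_ball hf hM hz hw

theorem fderiv_lip {f : E → F} {x : E} {R M : ℝ} (hf : DifferentiableOn ℂ f (ball x R))
    (hM : ∀ z ∈ ball x R, ‖f z‖ ≤ M) {y z : E} (hy : y ∈ ball x (R / 32))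
    (hz : z ∈ ball x (R / 32)) :
    ‖fderiv ℂ f z - fderiv ℂ f y‖ ≤ 128 * M / R ^ 2 * ‖z - y‖ := by
  have hR4 : 0 < R / 32 := lt_of_le_of_lt dist_nonneg hz
  have hR : 0 < R := by linarith
  set h := z - y with hh
  have hhn : ‖h‖ < R / 16 := by
    rw [mem_ball, dist_eq_norm] at hy hz
    have : h = (z - x) - (y - x) := by rw [hh]; abel
    rw [this]
    have := norm_sub_le (z - x) (y - x)
    linarith
  have hmem : ∀ w ∈ ball x (R / 8), w + h ∈ ball x (R / 4) := by
    intro w hw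
    rw [mem_ball, dist_eq_norm] at hw ⊢
    have : w + h - x = (w - x) + h := by abel
    rw [this]
    have := norm_add_le (w - x) h
    linarith
  have hb1 : ball x (R / 4) ⊆ ball x R := ball_subset_ball (by linarith)
  have hb2 : ball x (R / 8) ⊆ ball x (R / 4) := ball_subset_ball (by linarith)
  have hdf : ∀ w ∈ ball x R, DifferentiableAt ℂ f w := fun w hw =>
    hf.differentiableAt (isOpen_ball.mem_nhds hw)
  have hdh : ∀ w ∈ ball x (R / 8), HasFDerivAt (𝕜 := ℂ) (fun w => f (w + h))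
      (fderiv ℂ f (w + h)) w := by
    intro w hw
    have h1 := (hdf _ (hb1 (hmem w hw))).hasFDerivAt
    have h2 : HasFDerivAt (𝕜 := ℂ) (fun w => w + h) (ContinuousLinearMap.id ℂ E) w :=
      (hasFDerivAt_id w).add_const h
    have h3 := HasFDerivAt.comp (g := f) w h1 h2
    rwa [ContinuousLinearMap.comp_id] at h3
  have hg : DifferentiableOn ℂ (fun w => f (w + h) - f w) (ball x (R / 8)) := fun w hw =>
    ((hdh w hw).differentiableAt.sub (hdf w (hb1 (hb2 hw)))).differentiableWithinAt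
  have hgb : ∀ w ∈ ball x (R / 8), ‖(fun w => f (w + h) - f w) w‖ ≤ 4 * M / R * ‖h‖ := by
    intro w hw
    have := lip_ball hf hM (hb2 hw) (hmem w hw)
    rwa [add_sub_cancel_left] at this
  have hy8 : y ∈ ball x (R / 8) := ball_subset_ball (by linarith) hy
  have h1 := fderiv_bound hg hgb (z := y) (by
    have : R / 8 / 4 = R / 32 := by ring
    rw [this]; exact hy)
  have h2 : fderiv ℂ (fun w => f (w + h) - f w) y = fderiv ℂ f z - fderiv ℂ f y := by
    have h3 := ((hdh y hy8).sub (hdf y (hb1 (hb2 hy8))).hasFDerivAt).fderiv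
    have h4 : y + h = z := by rw [hh]; abel
    rw [h4] at h3
    exact h3
  rw [h2] at h1
  refine h1.trans (le_of_eq ?_)
  field_simp; ring

/-- second order Taylor estimate -/
theorem taylor2 {f : E → F} {x : E} {R M : ℝ} (hf : DifferentiableOn ℂ f (ball x R))
    (hM : ∀ z ∈ ball x R, ‖f z‖ ≤ M) {y z : E} (hy : y ∈ ball x (R / 32))
    (hz : z ∈ ball x (R / 32)) :
    ‖f z - f y - fderiv ℂ f y (z - y)‖ ≤ 128 * M / R ^ 2 * ‖z - y‖ ^ 2 := by
  have hR4 : 0 < R / 32 := lt_of_le_of_lt dist_nonneg hz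
  have hR : 0 < R := by linarith
  have hM0 := bound_nonneg hR hM
  have hb : ball x (R / 32) ⊆ ball x R := ball_subset_ball (by linarith)
  set s := ball x (R / 32) ∩ closedBall y ‖z - y‖ with hs
  let _ : NormedSpace ℝ E := NormedSpace.restrictScalars ℝ ℂ E
  have hconv : Convex ℝ s := (convex_ball _ _).inter (convex_closedBall _ _)
  have h1 : ∀ w ∈ s, HasFDerivWithinAt (𝕜 := ℂ) (fun w => f w - fderiv ℂ f y w)
      (fderiv ℂ f w - fderiv ℂ f y) s w := by
    intro w hw
    have h2 := (hf.differentiableAt (isOpen_ball.mem_nhds (hb hw.1))).hasFDerivAt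
    exact (h2.sub (fderiv ℂ f y).hasFDerivAt).hasFDerivWithinAt
  have h2 : ∀ w ∈ s, ‖fderiv ℂ f w - fderiv ℂ f y‖ ≤ 128 * M / R ^ 2 * ‖z - y‖ := by
    intro w hw
    refine (fderiv_lip hf hM hy hw.1).trans ?_
    have : ‖w - y‖ ≤ ‖z - y‖ := by
      have := hw.2
      rwa [mem_closedBall, dist_eq_norm] at this
    gcongr
  have h3 := hconv.norm_image_sub_le_of_norm_hasFDerivWithin_le (𝕜 := ℂ) h1 h2
    (x := y) (y := z) ⟨hy, mem_closedBall_self (norm_nonneg _)⟩
    ⟨hz, by rw [mem_closedBall, dist_eq_norm]⟩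
  have h4 : (f z - fderiv ℂ f y z) - (f y - fderiv ℂ f y y) =
      f z - f y - fderiv ℂ f y (z - y) := by
    rw [map_sub]; abel
  rw [h4] at h3
  refine h3.trans (le_of_eq ?_)
  ring

/-- local bound of a holomorphic map -/
theorem exists_bound {f : E → F} {U : Set E} (hU : IsOpen U) (hf : DifferentiableOn ℂ f U)
    {x : E} (hx : x ∈ U) : ∃ R > 0, ∃ M, ball x R ⊆ U ∧ ∀ z ∈ ball x R, ‖f z‖ ≤ M := by
  have h1 : ∀ᶠ y in 𝓝 x, y ∈ U ∧ ‖f y‖ < ‖f x‖ + 1 := by
    refine Filter.Eventually.and (hU.mem_nhds hx) ?_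
    have h2 : ContinuousAt (fun y => ‖f y‖) x :=
      ((hf.differentiableAt (hU.mem_nhds hx)).continuousAt).norm
    exact h2.eventually (gt_mem_nhds (by linarith))
  obtain ⟨r, hr, h2⟩ := Metric.eventually_nhds_iff_ball.1 h1
  exact ⟨r, hr, ‖f x‖ + 1, fun y hy => (h2 y hy).1, fun y hy => (h2 y hy).2.le⟩

/-- identity theorem -/
theorem identity {D : Set E} (hD : IsOpen D) (hc : IsPreconnected D) {f : E → F} [CompleteSpace F]
    (hf : DifferentiableOn ℂ f D) {z₀ : E} (hz₀ : z₀ ∈ D) (h0 : ∀ᶠ z in 𝓝 z₀, f z = 0) :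
    ∀ z ∈ D, f z = 0 := by
  set U : Set E := {z | ∀ᶠ w in 𝓝 z, f w = 0} with hU
  have hUo : IsOpen U := by
    rw [isOpen_iff_mem_nhds]
    intro z hz
    exact (eventually_eventually_nhds.2 hz)
  have key : ∀ z ∈ D, z ∈ closure U → z ∈ U := by
    intro z hz hzc
    obtain ⟨ε, hε, hsub⟩ := Metric.isOpen_iff.1 hD z hz
    obtain ⟨p, hpU, hpz⟩ := Metric.mem_closure_iff.1 hzc ε hε
    rw [dist_comm] at hpz
    have hpb : p ∈ ball z ε := hpz
    refine Filter.eventually_of_mem (ball_mem_nhds z hε) ?_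
    intro w hw
    have hcont : Continuous (fun t : ℂ => p + t • (w - p)) := by fun_prop
    have hopen : IsOpen {t : ℂ | p + t • (w - p) ∈ ball z ε} := isOpen_ball.preimage hcont
    have han : AnalyticOnNhd ℂ (fun t : ℂ => f (p + t • (w - p)))
        {t : ℂ | p + t • (w - p) ∈ ball z ε} := by
      refine DifferentiableOn.analyticOnNhd ?_ hopen
      intro t ht
      have h1 : DifferentiableAt ℂ f (p + t • (w - p)) :=
        (hf _ (hsub ht)).differentiableAt (hD.mem_nhds (hsub ht))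
      have h2 : DifferentiableAt ℂ (fun t : ℂ => p + t • (w - p)) t := by fun_prop
      exact (DifferentiableAt.comp t h1 h2).differentiableWithinAt
    have hconv : Convex ℝ {t : ℂ | p + t • (w - p) ∈ ball z ε} := by
      let _ : NormedSpace ℝ E := NormedSpace.restrictScalars ℝ ℂ E
      intro s hs t ht a b ha hb hab
      have h1 := (convex_ball z ε) hs ht ha hb hab
      have e : a • (p + s • (w - p)) + b • (p + t • (w - p)) = p + (a • s + b • t) • (w - p) := by
        have e1 : ∀ (c : ℝ) (v : E), c • v = (c : ℂ) • v := fun c v => rfl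
        rw [e1, e1, smul_add, smul_add, smul_smul, smul_smul]
        have e2 : (a : ℂ) • p + (b : ℂ) • p = p := by
          rw [← add_smul]
          have : (a : ℂ) + b = 1 := by exact_mod_cast hab
          rw [this, one_smul]
        have e3 : (a • s + b • t) • (w - p) = ((a : ℂ) * s) • (w - p) + ((b : ℂ) * t) • (w - p) := by
          rw [← add_smul]; rfl
        rw [e3]
        calc _ = ((a : ℂ) • p + (b : ℂ) • p) +
              (((a : ℂ) * s) • (w - p) + ((b : ℂ) * t) • (w - p)) := by abel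
          _ = _ := by rw [e2]
      show p + (a • s + b • t) • (w - p) ∈ ball z ε
      rw [← e]; exact h1
    have h0mem : (0 : ℂ) ∈ {t : ℂ | p + t • (w - p) ∈ ball z ε} := by
      show p + (0 : ℂ) • (w - p) ∈ ball z ε
      rw [zero_smul, add_zero]; exact hpb
    have h1mem : (1 : ℂ) ∈ {t : ℂ | p + t • (w - p) ∈ ball z ε} := by
      show p + (1 : ℂ) • (w - p) ∈ ball z ε
      rw [one_smul, add_sub_cancel]; exact hw
    have hev : (fun t : ℂ => f (p + t • (w - p))) =ᶠ[𝓝 0] 0 := by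
      have h3 : Tendsto (fun t : ℂ => p + t • (w - p)) (𝓝 0) (𝓝 p) := by
        have := hcont.tendsto 0
        simpa using this
      exact h3.eventually hpU
    have := han.eqOn_zero_of_preconnected_of_eventuallyEq_zero hconv.isPreconnected h0mem hev h1mem
    have h5 : f (p + (1 : ℂ) • (w - p)) = 0 := this
    rwa [one_smul, add_sub_cancel] at h5
  have h1 : D ⊆ U := hc.subset_of_closure_inter_subset hUo ⟨z₀, hz₀, h0⟩
    (fun z hz => key z hz.2 hz.1)
  intro z hz
  exact (h1 hz).self_of_nhds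

/-- locally uniform convergence, on a ball around each point -/
def LU {ι : Type*} (f : ι → E → F) (g : E → F) (l : Filter ι) (U : Set E) : Prop :=
  ∀ x ∈ U, ∃ r > 0, ball x r ⊆ U ∧ ∀ ε > 0, ∀ᶠ i in l, ∀ z ∈ ball x r, ‖f i z - g z‖ < ε

omit [NormedSpace ℂ E] [NormedSpace ℂ F] in
theorem LU.compact {ι : Type*} {f : ι → E → F} {g : E → F} {l : Filter ι} {U : Set E}
    (h : LU f g l U) {K : Set E} (hK : IsCompact K) (hKU : K ⊆ U) {ε : ℝ} (hε : 0 < ε) :
    ∀ᶠ i in l, ∀ z ∈ K, ‖f i z - g z‖ < ε := by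
  choose! r hr hrU hrl using h
  obtain ⟨t, htK, ht⟩ := hK.elim_nhds_subcover (fun x => ball x (r x))
    (fun x hx => ball_mem_nhds x (hr x (hKU hx)))
  have h1 : ∀ᶠ i in l, ∀ x ∈ t, ∀ z ∈ ball x (r x), ‖f i z - g z‖ < ε :=
    (Finset.eventually_all t).2 fun x hx => hrl x (hKU (htK x hx)) ε hε
  filter_upwards [h1] with i hi z hz
  obtain ⟨x, hx, hzx⟩ := mem_iUnion₂.1 (ht hz)
  exact hi x hx z hzx

omit [NormedSpace ℂ E] [NormedSpace ℂ F] in
theorem LU.tendsto {ι : Type*} {f : ι → E → F} {g : E → F} {l : Filter ι} {U : Set E}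
    (h : LU f g l U) {x : E} (hx : x ∈ U) : Tendsto (fun i => f i x) l (𝓝 (g x)) := by
  obtain ⟨r, hr, -, h1⟩ := h x hx
  rw [Metric.tendsto_nhds]
  intro ε hε
  filter_upwards [h1 ε hε] with i hi
  rw [dist_eq_norm]
  exact hi x (mem_ball_self hr)

omit [NormedSpace ℂ E] [NormedSpace ℂ F] in
theorem LU.mono_filter {ι : Type*} {f : ι → E → F} {g : E → F} {l l' : Filter ι} {U : Set E}
    (h : LU f g l U) (hl : l' ≤ l) : LU f g l' U := by
  intro x hx
  obtain ⟨r, hr, hrU, h1⟩ := h x hx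
  exact ⟨r, hr, hrU, fun ε hε => hl (h1 ε hε)⟩

/-- locally uniform limits of holomorphic maps -/
theorem LU.limit {ι : Type*} {l : Filter ι} [l.NeBot] {U : Set E}
    [CompleteSpace F] {f : ι → E → F} {g : E → F} (hf : ∀ i, DifferentiableOn ℂ (f i) U)
    (hfg : LU f g l U) :
    DifferentiableOn ℂ g U ∧ LU (fun i => fderiv ℂ (f i)) (fderiv ℂ g) l U := by
  have key : ∀ x ∈ U, ∃ r > 0, ball x r ⊆ U ∧ ∃ g' : E → (E →L[ℂ] F),
      (∀ z ∈ ball x r, HasFDerivAt g (g' z) z) ∧
      ∀ ε > 0, ∀ᶠ i in l, ∀ z ∈ ball x r, ‖fderiv ℂ (f i) z - g' z‖ < ε := by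
    intro x hx
    obtain ⟨r, hr, hrU, h1⟩ := hfg x hx
    have hdf : ∀ i, ∀ w ∈ ball x r, DifferentiableAt ℂ (f i) w := fun i w hw =>
      ((hf i).mono hrU).differentiableAt (isOpen_ball.mem_nhds hw)
    -- estimate for two good indices
    have h2 : ∀ δ > 0, ∀ i j, (∀ z ∈ ball x r, ‖f i z - g z‖ < δ) →
        (∀ z ∈ ball x r, ‖f j z - g z‖ < δ) → ∀ z ∈ ball x (r / 4),
        ‖fderiv ℂ (f i) z - fderiv ℂ (f j) z‖ ≤ 8 * δ / r := by
      intro δ hδ i j hi hj z hz
      have h3 : DifferentiableOn ℂ (fun w => f i w - f j w) (ball x r) := fun w hw =>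
        ((hdf i w hw).sub (hdf j w hw)).differentiableWithinAt
      have h4 : ∀ w ∈ ball x r, ‖(fun w => f i w - f j w) w‖ ≤ 2 * δ := by
        intro w hw
        have e : f i w - f j w = (f i w - g w) - (f j w - g w) := by abel
        show ‖f i w - f j w‖ ≤ 2 * δ
        rw [e]
        have := norm_sub_le (f i w - g w) (f j w - g w)
        linarith [hi w hw, hj w hw]
      have h5 := fderiv_bound h3 h4 hz
      have hz' : z ∈ ball x r := ball_subset_ball (by linarith) hz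
      have h6 : fderiv ℂ (fun w => f i w - f j w) z = fderiv ℂ (f i) z - fderiv ℂ (f j) z :=
        ((hdf i z hz').hasFDerivAt.sub (hdf j z hz').hasFDerivAt).fderiv
      rw [h6] at h5
      refine h5.trans (le_of_eq ?_)
      ring
    have h3 : ∀ z, ∃ y : E →L[ℂ] F, z ∈ ball x (r / 4) →
        Tendsto (fun i => fderiv ℂ (f i) z) l (𝓝 y) := by
      intro z
      by_cases hz : z ∈ ball x (r / 4)
      · have h4 : Cauchy (map (fun i => fderiv ℂ (f i) z) l) := by
          rw [Metric.cauchy_iff]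
          refine ⟨inferInstance, fun ε hε => ?_⟩
          set δ := ε * r / 16 with hδ
          have hδ0 : 0 < δ := by positivity
          refine ⟨_, image_mem_map (h1 δ hδ0), ?_⟩
          rintro _ ⟨i, hi, rfl⟩ _ ⟨j, hj, rfl⟩
          rw [dist_eq_norm]
          refine (h2 δ hδ0 i j hi hj z hz).trans_lt ?_
          rw [hδ]
          have : 8 * (ε * r / 16) / r = ε / 2 := by field_simp; ring
          rw [this]; linarith
        obtain ⟨y, hy⟩ := CompleteSpace.complete h4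
        exact ⟨y, fun _ => hy⟩
      · exact ⟨0, fun h => absurd h hz⟩
    choose g' hg' using h3
    have h5 : ∀ ε > 0, ∀ᶠ i in l, ∀ z ∈ ball x (r / 4), ‖fderiv ℂ (f i) z - g' z‖ < ε := by
      intro ε hε
      set δ := ε * r / 16 with hδ
      have hδ0 : 0 < δ := by positivity
      filter_upwards [h1 δ hδ0] with i hi z hz
      have h6 : Tendsto (fun j => ‖fderiv ℂ (f i) z - fderiv ℂ (f j) z‖) l
          (𝓝 ‖fderiv ℂ (f i) z - g' z‖) := (tendsto_const_nhds.sub (hg' z hz)).norm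
      have h7 : ‖fderiv ℂ (f i) z - g' z‖ ≤ 8 * δ / r := by
        refine le_of_tendsto h6 ?_
        filter_upwards [h1 δ hδ0] with j hj
        exact h2 δ hδ0 i j hi hj z hz
      refine h7.trans_lt ?_
      have : 8 * δ / r = ε / 2 := by rw [hδ]; field_simp; ring
      rw [this]; linarith
    have hsub : ball x (r / 4) ⊆ ball x r := ball_subset_ball (by linarith)
    refine ⟨r / 4, by positivity, hsub.trans hrU, g', ?_, h5⟩
    intro z hz
    refine hasFDerivAt_of_tendstoUniformlyOn (l := l) (f := f) (f' := fun i => fderiv ℂ (f i))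
      (s := ball x (r / 4)) isOpen_ball ?_ ?_ ?_ hz
    · rw [Metric.tendstoUniformlyOn_iff]
      intro ε hε
      filter_upwards [h5 ε hε] with i hi w hw
      rw [dist_comm, dist_eq_norm]
      exact hi w hw
    · exact fun i w hw => (hdf i w (hsub hw)).hasFDerivAt
    · exact fun w hw => hfg.tendsto (hrU (hsub hw))
  refine ⟨fun x hx => ?_, fun x hx => ?_⟩
  · obtain ⟨r, hr, -, g', h1, -⟩ := key x hx
    exact (h1 x (mem_ball_self hr)).differentiableAt.differentiableWithinAt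
  · obtain ⟨r, hr, hrU, g', h1, h2⟩ := key x hx
    refine ⟨r, hr, hrU, fun ε hε => ?_⟩
    filter_upwards [h2 ε hε] with i hi z hz
    rw [(h1 z hz).fderiv]
    exact hi z hz

/-- Montel: ultralimits of locally bounded families of holomorphic maps -/
theorem exists_limit [ProperSpace E] [ProperSpace F] {ι : Type*} (l : Ultrafilter ι) {U : Set E}
    {f : ι → E → F} (hf : ∀ i, DifferentiableOn ℂ (f i) U)
    (hb : ∀ x ∈ U, ∃ r > 0, ball x r ⊆ U ∧ ∃ M, ∀ᶠ i in (l : Filter ι), ∀ z ∈ ball x r,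
      ‖f i z‖ ≤ M) : ∃ g : E → F, LU f g (l : Filter ι) U := by
  have h1 : ∀ z, ∃ y : F, z ∈ U → Tendsto (fun i => f i z) (l : Filter ι) (𝓝 y) := by
    intro z
    by_cases hz : z ∈ U
    · obtain ⟨r, hr, -, M, hM⟩ := hb z hz
      have h2 : ((l.map fun i => f i z : Ultrafilter F) : Filter F) ≤ 𝓟 (closedBall 0 M) := by
        rw [le_principal_iff, Ultrafilter.mem_coe, Ultrafilter.mem_map]
        filter_upwards [hM] with i hi
        rw [mem_preimage, mem_closedBall_zero_iff]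
        exact hi z (mem_ball_self hr)
      obtain ⟨y, -, hy⟩ := (isCompact_closedBall (0 : F) M).ultrafilter_le_nhds _ h2
      exact ⟨y, fun _ => hy⟩
    · exact ⟨0, fun h => absurd h hz⟩
  choose g hg using h1
  refine ⟨g, fun x hx => ?_⟩
  obtain ⟨r, hr, hrU, M, hM⟩ := hb x hx
  have hM0 : 0 ≤ M := by
    obtain ⟨i, hi⟩ := hM.exists
    exact bound_nonneg hr hi
  have hs1 : closedBall x (r / 8) ⊆ ball x (r / 4) := closedBall_subset_ball (by linarith)
  have hs2 : ball x (r / 4) ⊆ ball x r := ball_subset_ball (by linarith)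
  refine ⟨r / 8, by positivity, (ball_subset_ball (by linarith)).trans hrU, fun ε hε => ?_⟩
  set L := 4 * M / r with hL
  have hL0 : 0 ≤ L := by positivity
  set δ := min (r / 16) (ε / (3 * (L + 1))) with hδ
  have hδ0 : 0 < δ := by positivity
  have hLδ : L * δ ≤ ε / 3 := by
    calc L * δ ≤ (L + 1) * (ε / (3 * (L + 1))) := by
          gcongr
          · linarith
          · exact min_le_right _ _
      _ = ε / 3 := by field_simp
  have hLip : ∀ᶠ i in (l : Filter ι), ∀ y ∈ ball x (r / 4), ∀ z ∈ ball x (r / 4),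
      ‖f i z - f i y‖ ≤ L * ‖z - y‖ := by
    filter_upwards [hM] with i hi y hy z hz
    exact lip_ball ((hf i).mono hrU) hi hy hz
  have hgL : ∀ y ∈ ball x (r / 4), ∀ z ∈ ball x (r / 4), ‖g z - g y‖ ≤ L * ‖z - y‖ := by
    intro y hy z hz
    have h2 : Tendsto (fun i => ‖f i z - f i y‖) (l : Filter ι) (𝓝 ‖g z - g y‖) :=
      ((hg z (hrU (hs2 hz))).sub (hg y (hrU (hs2 hy)))).norm
    refine le_of_tendsto h2 ?_
    filter_upwards [hLip] with i hi
    exact hi y hy z hz
  obtain ⟨t, htK, ht⟩ := (isCompact_closedBall x (r / 8)).elim_nhds_subcover (fun y => ball y δ)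
    (fun y _ => ball_mem_nhds y hδ0)
  have h3 : ∀ᶠ i in (l : Filter ι), ∀ y ∈ t, ‖f i y - g y‖ < ε / 3 := by
    refine (Finset.eventually_all t).2 fun y hy => ?_
    have h4 := hg y (hrU (hs2 (hs1 (htK y hy))))
    rw [Metric.tendsto_nhds] at h4
    filter_upwards [h4 (ε / 3) (by positivity)] with i hi
    rwa [dist_eq_norm] at hi
  filter_upwards [hLip, h3] with i hi1 hi2 z hz
  obtain ⟨y, hy, hzy⟩ := mem_iUnion₂.1 (ht (ball_subset_closedBall hz))
  have hy4 := hs1 (htK y hy)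
  have hz4 := hs1 (ball_subset_closedBall hz)
  have hzy' : ‖z - y‖ ≤ δ := by
    rw [mem_ball, dist_eq_norm] at hzy
    exact hzy.le
  have e1 := hi1 y hy4 z hz4
  have e2 := hgL y hy4 z hz4
  have e3 := hi2 y hy
  have e4 : L * ‖z - y‖ ≤ ε / 3 := (mul_le_mul_of_nonneg_left hzy' hL0).trans hLδ
  have e5 : f i z - g z = (f i z - f i y) + (f i y - g y) + -(g z - g y) := by abel
  rw [e5]
  refine (norm_add₃_le).trans_lt ?_
  rw [norm_neg]
  linarith

/-- Vitali: smallness propagates -/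
theorem vitali [ProperSpace E] [ProperSpace F] {D : Set E} (hD : IsOpen D) (hc : IsPreconnected D)
    {z₀ : E} {r : ℝ} (hr : 0 < r) (hz₀ : z₀ ∈ D) {K : Set E} (hK : IsCompact K) (hKD : K ⊆ D)
    (M : ℝ) {c : ℝ} (hc0 : 0 < c) :
    ∃ c' > 0, ∀ f : E → F, DifferentiableOn ℂ f D → (∀ z ∈ D, ‖f z‖ ≤ M) →
      (∀ z ∈ closedBall z₀ r, ‖f z‖ ≤ c') → ∀ z ∈ K, ‖f z‖ ≤ c := by
  by_contra hcon
  push Not at hcon
  have h1 : ∀ n : ℕ, ∃ f : E → F, DifferentiableOn ℂ f D ∧ (∀ z ∈ D, ‖f z‖ ≤ M) ∧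
      (∀ z ∈ closedBall z₀ r, ‖f z‖ ≤ 1 / ((n : ℝ) + 1)) ∧ ∃ z ∈ K, c < ‖f z‖ :=
    fun n => hcon (1 / ((n : ℝ) + 1)) (by positivity)
  choose f hf hfM hfr hfK using h1
  obtain ⟨g, hg⟩ := exists_limit (hyperfilter ℕ) hf (fun x hx => by
    obtain ⟨ρ, hρ, hρD⟩ := Metric.isOpen_iff.1 hD x hx
    exact ⟨ρ, hρ, hρD, M, Eventually.of_forall fun n z hz => hfM n z (hρD hz)⟩)
  obtain ⟨hg1, -⟩ := hg.limit hf
  have h2 : ∀ᶠ z in 𝓝 z₀, g z = 0 := by
    filter_upwards [closedBall_mem_nhds z₀ hr, hD.mem_nhds hz₀] with z hz hzD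
    have h3 := hg.tendsto hzD
    have h4 : Tendsto (fun n => f n z) (hyperfilter ℕ : Filter ℕ) (𝓝 0) := by
      refine Tendsto.mono_left ?_ (Nat.hyperfilter_le_atTop)
      exact squeeze_zero_norm (fun n => hfr n z hz) tendsto_one_div_add_atTop_nhds_zero_nat
    exact tendsto_nhds_unique h3 h4
  have h3 := identity hD hc hg1 hz₀ h2
  have h4 := hg.compact hK hKD hc0
  obtain ⟨n, hn⟩ := h4.exists
  obtain ⟨z, hz, hcz⟩ := hfK n
  have h5 := hn z hz
  rw [h3 z (hKD hz), sub_zero] at h5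
  linarith

end Pool.Agent.H906.BD
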