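import Pool.Agent.H906.BD.Setup

/-! # T05 Adj: the adjugate of a Kähler matrix is divergence free

`g` is a `C^1` positive definite (in particular Hermitian) matrix function on the open set
`U ⊆ ℂ^N` with `∂_i g_{jk} = ∂_j g_{ik}` (closedness of the form). Then
`∑_j ∂_j adj(g)_{kj} = 0` for every `k` and `∑_k \bar∂_k adj(g)_{kj} = 0` for every `j`.

Proof. `adj(g)_{kj} = det (g.updateRow j e_k)` (`Matrix.adjugate_apply`). The determinant is
multilinear, so by the product rule (`dz k` is a derivation; `det` is the sum over permutations, or
use the continuous multilinear map `det`) `∂_j det (g.updateRow j e_k) =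
∑_{p ≠ j} det ((g.updateRow j e_k).updateRow p (∂_j g_p))` where `g_p` is the row `p`. By
closedness `∂_j g_p = ∂_p g_j` as rows: `(∂_j g_{pq})_q = (∂_p g_{jq})_q =: R_{jp}`, symmetric in
`j, p`. The sum over all ordered pairs `j ≠ p` of `det (rows: j ↦ e_k, p ↦ R_{jp}, rest g)` is
zero, because interchanging `j` and `p` interchanges two rows (`Matrix.det_permute` or
`det_swap`-like lemma) and so changes the sign. For the second identity conjugate the first:
`adj(g)` is Hermitian (`Matrix.adjugate_conjTranspose`), and `\bar∂_k (star f) = star (∂_k f)`. -/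

open Filter Topology Set Metric Matrix
open scoped ComplexOrder

namespace Pool.Agent.H906.BD

variable {N : Type*} [Fintype N] [DecidableEq N]

/-- the determinant as a continuous real multilinear map of the rows -/
noncomputable def adj_detM (N : Type*) [Fintype N] [DecidableEq N] :
    ContinuousMultilinearMap ℝ (fun _ : N => N → ℂ) ℂ where
  toMultilinearMap :=
    (Matrix.detRowAlternating (R := ℂ) (n := N)).toMultilinearMap.restrictScalars ℝ
  cont := by
    show Continuous fun M : N → N → ℂ => Matrix.det (Matrix.of M)
    exact Continuous.matrix_det continuous_id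

theorem adj_detM_apply (M : N → N → ℂ) : adj_detM N M = (Matrix.of M).det := rfl

theorem adj_fderiv_det {M : (N → ℂ) → Matrix N N ℂ} {x : N → ℂ}
    (h : ∀ i j, DifferentiableAt ℝ (fun y => M y i j) x) (v : N → ℂ) :
    fderiv ℝ (fun y => (M y).det) x v =
      ∑ p, ((M x).updateRow p (fun q => fderiv ℝ (fun y => M y p q) x v)).det := by
  have hrow : ∀ i, HasFDerivAt (fun y => (M y i : N → ℂ))
      (ContinuousLinearMap.pi fun j => fderiv ℝ (fun y => M y i j) x) x := fun i =>
    hasFDerivAt_pi.2 fun j => (h i j).hasFDerivAt
  have h1 := HasFDerivAt.multilinear_comp (adj_detM N) hrow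
  have h2 : HasFDerivAt (fun y => (M y).det) _ x := h1
  rw [h2.fderiv, ContinuousLinearMap.sum_apply]
  refine Finset.sum_congr rfl fun p _ => ?_
  rw [ContinuousLinearMap.comp_apply, ContinuousMultilinearMap.toContinuousLinearMap_apply,
    adj_detM_apply]
  rfl

theorem adj_dz_det {M : (N → ℂ) → Matrix N N ℂ} {x : N → ℂ}
    (h : ∀ i j, DifferentiableAt ℝ (fun y => M y i j) x) (k : N) :
    dz k (fun y => (M y).det) x =
      ∑ p, ((M x).updateRow p (fun q => dz k (fun y => M y p q) x)).det := by
  unfold dz
  rw [adj_fderiv_det h, adj_fderiv_det h, Finset.mul_sum, ← Finset.sum_sub_distrib,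
    Finset.sum_div]
  refine Finset.sum_congr rfl fun p _ => ?_
  have e : (fun q => (fderiv ℝ (fun y => M y p q) x (Pi.single k 1) -
      Complex.I * fderiv ℝ (fun y => M y p q) x (Pi.single k Complex.I)) / 2) =
      (1 / 2 : ℂ) • ((fun q => fderiv ℝ (fun y => M y p q) x (Pi.single k 1)) +
        (-Complex.I) • fun q => fderiv ℝ (fun y => M y p q) x (Pi.single k Complex.I)) := by
    funext q
    simp only [Pi.smul_apply, Pi.add_apply, smul_eq_mul]
    ring
  rw [e, Matrix.det_updateRow_smul, Matrix.det_updateRow_add, Matrix.det_updateRow_smul]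
  ring

theorem adj_dz_const (k : N) (c : ℂ) (x : N → ℂ) : dz k (fun _ => c) x = 0 := by
  unfold dz
  simp

theorem adj_dzb_star (k : N) (f : (N → ℂ) → ℂ) (x : N → ℂ) :
    dzb k (fun y => star (f y)) x = star (dz k f x) := by
  unfold dz dzb
  rw [fderiv_star]
  simp only [ContinuousLinearMap.comp_apply, ContinuousLinearEquiv.coe_coe, starL'_apply,
    star_div₀, star_sub, star_mul', Complex.star_def, Complex.conj_I, map_ofNat]
  ring

/-- interchanging two rows -/
theorem adj_swap (G : Matrix N N ℂ) {j p : N} (hjp : j ≠ p) (a b : N → ℂ) :
    ((G.updateRow p a).updateRow j b).det = -((G.updateRow j a).updateRow p b).det := by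
  have h := (Matrix.detRowAlternating (R := ℂ) (n := N)).map_swap
    (v := ((G.updateRow j a).updateRow p b : N → N → ℂ)) hjp
  have e : ((G.updateRow j a).updateRow p b : N → N → ℂ) ∘ Equiv.swap j p =
      ((G.updateRow p a).updateRow j b : N → N → ℂ) := by
    funext i q
    simp only [Function.comp_apply, Matrix.updateRow_apply]
    by_cases h1 : i = j
    · subst h1
      simp [hjp]
    · by_cases h2 : i = p
      · subst h2
        simp [h1, hjp]
      · rw [Equiv.swap_apply_of_ne_of_ne h1 h2]
        simp [h1, h2]
  rw [e] at h
  exact h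

theorem adj_row {U : Set (N → ℂ)} (hU : IsOpen U) {g : (N → ℂ) → Matrix N N ℂ}
    (hg : Kahler U g) {x : N → ℂ} (hx : x ∈ U) (k : N) :
    ∑ j, dz j (fun y => (g y).adjugate k j) x = 0 := by
  have hd : ∀ i j, DifferentiableAt ℝ (fun y => g y i j) x := fun i j =>
    ((hg.smooth i j).differentiableOn (by norm_num)).differentiableAt (hU.mem_nhds hx)
  have key : ∀ j, dz j (fun y => (g y).adjugate k j) x =
      ∑ p, if p = j then 0 else
        (((g x).updateRow j (Pi.single k 1)).updateRow p (fun q => dz j (fun y => g y p q) x)).det := by
    intro j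
    have e : (fun y => (g y).adjugate k j) = fun y => ((g y).updateRow j (Pi.single k 1)).det := by
      funext y; exact Matrix.adjugate_apply (g y) k j
    rw [e, adj_dz_det]
    · refine Finset.sum_congr rfl fun p _ => ?_
      by_cases hp : p = j
      · subst hp
        rw [if_pos rfl]
        have e2 : (fun q => dz p (fun y => (g y).updateRow p (Pi.single k 1) p q) x) =
            (0 : ℂ) • (0 : N → ℂ) := by
          funext q
          have : (fun y => (g y).updateRow p (Pi.single k 1) p q) =
              fun _ : N → ℂ => (Pi.single k 1 : N → ℂ) q := by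
            funext y
            rw [Matrix.updateRow_self]
          rw [this, adj_dz_const]
          simp
        rw [e2, Matrix.det_updateRow_smul, zero_mul]
      · rw [if_neg hp]
        have e2 : (fun q => dz j (fun y => (g y).updateRow j (Pi.single k 1) p q) x) =
            fun q => dz j (fun y => g y p q) x := by
          funext q
          have : (fun y => (g y).updateRow j (Pi.single k 1) p q) = fun y => g y p q := by
            funext y
            rw [Matrix.updateRow_ne hp]
          rw [this]
        rw [e2]
    · intro i q
      by_cases hi : i = j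
      · have : (fun y => (g y).updateRow j (Pi.single k 1) i q) =
            fun _ : N → ℂ => (Pi.single k 1 : N → ℂ) q := by
          funext y
          rw [hi, Matrix.updateRow_self]
        rw [this]
        exact differentiableAt_const _
      · have : (fun y => (g y).updateRow j (Pi.single k 1) i q) = fun y => g y i q := by
          funext y
          rw [Matrix.updateRow_ne hi]
        rw [this]
        exact hd i q
  rw [Finset.sum_congr rfl fun j _ => key j]
  -- antisymmetry
  set T : N → N → ℂ := fun j p => if p = j then 0 else
    (((g x).updateRow j (Pi.single k 1)).updateRow p (fun q => dz j (fun y => g y p q) x)).det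
    with hT
  have hanti : ∀ j p, T p j = - T j p := by
    intro j p
    simp only [hT]
    by_cases hjp : j = p
    · subst hjp; simp
    · rw [if_neg hjp, if_neg (fun h => hjp h.symm)]
      have e : (fun q => dz p (fun y => g y j q) x) = fun q => dz j (fun y => g y p q) x := by
        funext q
        exact hg.closed x hx p j q
      rw [e]
      exact adj_swap (g x) hjp _ _
  have h1 : ∑ j, ∑ p, T j p = - ∑ j, ∑ p, T j p := by
    conv_lhs => rw [Finset.sum_comm]
    rw [← Finset.sum_neg_distrib]
    refine Finset.sum_congr rfl fun j _ => ?_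
    rw [← Finset.sum_neg_distrib]
    exact Finset.sum_congr rfl fun p _ => hanti j p
  exact self_eq_neg.1 h1

theorem divFree_adjugate {U : Set (N → ℂ)} (hU : IsOpen U) {g : (N → ℂ) → Matrix N N ℂ}
    (hg : Kahler U g) : DivFree U (fun x => (g x).adjugate) := by
  refine ⟨?_, ?_, ?_⟩
  · intro k j
    have e : (fun x => (g x).adjugate k j) = fun x => ∑ σ : Equiv.Perm N,
        (Equiv.Perm.sign σ : ℤ) * ∏ i, (g x).updateRow j (Pi.single k 1) (σ i) i := by
      funext x
      rw [Matrix.adjugate_apply, Matrix.det_apply']
    show ContDiffOn ℝ 1 (fun x => (g x).adjugate k j) U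
    rw [e]
    refine ContDiffOn.sum fun σ _ => ?_
    refine contDiffOn_const.mul ?_
    refine contDiffOn_prod fun i _ => ?_
    by_cases hi : σ i = j
    · have : (fun y => (g y).updateRow j (Pi.single k 1) (σ i) i) =
          fun _ : N → ℂ => (Pi.single k 1 : N → ℂ) i := by
        funext y
        rw [hi, Matrix.updateRow_self]
      rw [this]
      exact contDiffOn_const
    · have : (fun y => (g y).updateRow j (Pi.single k 1) (σ i) i) = fun y => g y (σ i) i := by
        funext y
        rw [Matrix.updateRow_ne hi]
      rw [this]
      exact hg.smooth _ _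
  · intro x hx k
    exact adj_row hU hg hx k
  · intro x hx j
    have e : ∀ k, dzb k (fun y => (g y).adjugate k j) x =
        star (dz k (fun y => (g y).adjugate j k) x) := by
      intro k
      rw [← adj_dzb_star]
      have hev : (fun y => (g y).adjugate k j) =ᶠ[𝓝 x] fun y => star ((g y).adjugate j k) := by
        filter_upwards [hU.mem_nhds hx] with y hy
        have hH : (g y)ᴴ = g y := (hg.pos y hy).isHermitian
        have h1 := Matrix.adjugate_conjTranspose (g y)
        rw [hH] at h1
        have h2 := congrFun (congrFun h1 k) j
        rw [Matrix.conjTranspose_apply] at h2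
        exact h2.symm
      unfold dzb
      rw [hev.fderiv_eq]
    show ∑ k, dzb k (fun y => (g y).adjugate k j) x = 0
    rw [Finset.sum_congr rfl fun k _ => e k, ← star_sum, adj_row hU hg hx j, star_zero]

end Pool.Agent.H906.BD

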