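import Pool.Agent.H906.BD.Setup

/-! # T04 Basis: a totally real family of holomorphic fields has a finite real basis

`V` is a real vector space of holomorphic vector fields on the domain `D` such that
`v z = i w z` implies `w z = 0` (for `v w ∈ V`, `z ∈ D`).

Proof. Let `r` be the maximal number such that there are `v_1, …, v_r ∈ V` and `z₁ ∈ D` with
`v_i z₁` linearly independent over `ℂ` (`r ≤ dim E`; `r ≥ 1` because some field of `V` does not
vanish identically on `D`). Choose linear functionals `φ_i` with `det (φ_i (v_j z₁)) ≠ 0`; on a ball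
`W` around `z₁` the determinant stays nonzero. Let `u ∈ V`. By maximality `v_1 z, …, v_r z, u z` are
linearly dependent for every `z ∈ W`, so `u z = ∑ c_j(z) v_j z`, where by Cramer's rule
`c_j(z) = (det with column j replaced by φ_i (u z)) / det`, holomorphic on `W`.
Let `z ∈ W`, `c_j(z) = α_j + i β_j`. Then `v' = u - ∑ α_j v_j ∈ V` and `w' = ∑ β_j v_j ∈ V` satisfy
`v' z = i w' z`, so `w' z = 0` and `β = 0` by independence: `c_j` is real-valued on `W`, hence
locally constant, constant on the ball `W` (e.g. restrict to complex lines, or: a holomorphic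
function with zero imaginary part has `fderiv ℂ c y e` and `fderiv ℂ c y (i e) = i fderiv ℂ c y e`
both real, so zero; `IsOpen.is_const_of_fderiv_eq_zero` / convexity). So
`u = ∑ c_j v_j` on `W` and on `D` by the identity theorem (`identity` in `BD/Hol.lean`). -/

open Filter Topology Set Metric

namespace Pool.Agent.H906.BD

variable {E : Type*} [NormedAddCommGroup E] [NormedSpace ℂ E]

/-- a real-valued holomorphic function on a connected open set is constant -/
theorem basis_const {W : Set E} (hW : IsOpen W) (hWc : IsPreconnected W) {f : E → ℂ}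
    (hf : DifferentiableOn ℂ f W) (hre : ∀ z ∈ W, (f z).im = 0) {z₁ : E} (hz₁ : z₁ ∈ W) :
    ∀ z ∈ W, f z = f z₁ := by
  have hne : ∀ z ∈ W, f z + Complex.I ≠ 0 := by
    intro z hz h
    have h1 := congrArg Complex.im h
    rw [Complex.add_im, hre z hz, Complex.I_im, Complex.zero_im] at h1
    norm_num at h1
  have hg : DifferentiableOn ℂ (fun z => (f z - Complex.I) / (f z + Complex.I)) W := by
    intro z hz
    have hfz : DifferentiableAt ℂ f z := hf.differentiableAt (hW.mem_nhds hz)
    have ha : DifferentiableAt ℂ (fun x : ℂ => (x - Complex.I) / (x + Complex.I)) (f z) :=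
      (differentiableAt_id.sub_const Complex.I).div (differentiableAt_id.add_const Complex.I)
        (hne z hz)
    have hb : DifferentiableAt ℂ ((fun x : ℂ => (x - Complex.I) / (x + Complex.I)) ∘ f) z :=
      ha.comp z hfz
    exact hb.differentiableWithinAt
  have hn : ∀ z ∈ W, ‖(f z - Complex.I) / (f z + Complex.I)‖ = 1 := by
    intro z hz
    rw [norm_div, div_eq_one_iff_eq (norm_ne_zero_iff.2 (hne z hz))]
    have h1 : f z - Complex.I = (starRingEnd ℂ) (f z + Complex.I) := by
      apply Complex.ext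
      · simp
      · simp [hre z hz]
    rw [h1, Complex.norm_conj]
  have hmax : IsMaxOn (norm ∘ fun z => (f z - Complex.I) / (f z + Complex.I)) W z₁ := by
    intro z hz
    show ‖(f z - Complex.I) / (f z + Complex.I)‖ ≤ ‖(f z₁ - Complex.I) / (f z₁ + Complex.I)‖
    rw [hn z hz, hn z₁ hz₁]
  have h2 := Complex.eqOn_of_isPreconnected_of_isMaxOn_norm hWc hW hg hz₁ hmax
  intro z hz
  have h3 : (f z - Complex.I) / (f z + Complex.I) = (f z₁ - Complex.I) / (f z₁ + Complex.I) :=
    h2 hz
  rw [div_eq_div_iff (hne z hz) (hne z₁ hz₁)] at h3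
  have h4 : 2 * Complex.I * (f z - f z₁) = 0 := by linear_combination h3
  have h5 : f z - f z₁ = 0 := by
    rcases mul_eq_zero.1 h4 with h | h
    · exact absurd h (mul_ne_zero two_ne_zero Complex.I_ne_zero)
    · exact h
  exact sub_eq_zero.1 h5

/-- real combinations stay in the family -/
theorem basis_sum {V : Set (E → E)} (hadd : ∀ v ∈ V, ∀ w ∈ V, (fun z => v z + w z) ∈ V)
    (hsmul : ∀ c : ℝ, ∀ v ∈ V, (fun z => (c : ℂ) • v z) ∈ V) (hne : V.Nonempty) {r : ℕ}
    {v : Fin r → E → E} (hv : ∀ i, v i ∈ V) (a : Fin r → ℝ) (s : Finset (Fin r)) :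
    (fun z => ∑ i ∈ s, (a i : ℂ) • v i z) ∈ V := by
  classical
  induction s using Finset.induction_on with
  | empty =>
    obtain ⟨w, hw⟩ := hne
    have h1 := hsmul 0 w hw
    have e : (fun z => ((0 : ℝ) : ℂ) • w z) = fun z => ∑ i ∈ (∅ : Finset (Fin r)), (a i : ℂ) • v i z := by
      funext z
      rw [Complex.ofReal_zero, zero_smul, Finset.sum_empty]
    rwa [e] at h1
  | insert i s hi ih =>
    have h1 := hadd _ (hsmul (a i) (v i) (hv i)) _ ih
    have e : (fun z => (a i : ℂ) • v i z + ∑ i ∈ s, (a i : ℂ) • v i z) =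
        fun z => ∑ i ∈ insert i s, (a i : ℂ) • v i z := by
      funext z
      rw [Finset.sum_insert hi]
    rwa [e] at h1

theorem exists_real_basis [FiniteDimensional ℂ E] {D : Set E} (hD : IsOpen D)
    (hc : IsPreconnected D) (V : Set (E → E)) (hhol : ∀ v ∈ V, DifferentiableOn ℂ v D)
    (hadd : ∀ v ∈ V, ∀ w ∈ V, (fun z => v z + w z) ∈ V)
    (hsmul : ∀ c : ℝ, ∀ v ∈ V, (fun z => (c : ℂ) • v z) ∈ V)
    (hreal : ∀ v ∈ V, ∀ w ∈ V, ∀ z ∈ D, v z = Complex.I • w z → w z = 0)
    (hne : ∃ v ∈ V, ∃ z ∈ D, v z ≠ 0) :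
    ∃ (r : ℕ) (v : Fin r → E → E) (z₁ : E), 0 < r ∧ z₁ ∈ D ∧ (∀ i, v i ∈ V) ∧
      LinearIndependent ℂ (fun i => v i z₁) ∧
      ∀ u ∈ V, ∃ c : Fin r → ℝ, ∀ z ∈ D, u z = ∑ i, (c i : ℂ) • v i z := by
  classical
  obtain ⟨P, hP⟩ : ∃ P : ℕ → Prop, ∀ r, P r ↔ ∃ (v : Fin r → E → E) (z₁ : E), z₁ ∈ D ∧
      (∀ i, v i ∈ V) ∧ LinearIndependent ℂ (fun i => v i z₁) := ⟨_, fun r => Iff.rfl⟩
  have hP1 : P 1 := by
    rw [hP]
    obtain ⟨v, hv, z, hz, hvz⟩ := hne
    exact ⟨fun _ => v, z, hz, fun _ => hv, LinearIndependent.of_subsingleton (R := ℂ) 0 hvz⟩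
  have hPb : ∀ r, P r → r ≤ Module.finrank ℂ E := by
    intro r hr
    rw [hP] at hr
    obtain ⟨v, z₁, -, -, hli⟩ := hr
    have := hli.fintype_card_le_finrank
    rwa [Fintype.card_fin] at this
  have hbdd : BddAbove {r | P r} := ⟨Module.finrank ℂ E, fun r hr => hPb r hr⟩
  have hmem : P (sSup {r | P r}) := Nat.sSup_mem (s := {r | P r}) ⟨1, hP1⟩ hbdd
  have hmaxi : ∀ r', P r' → r' ≤ sSup {r | P r} := fun r' h => le_csSup hbdd h
  obtain ⟨r, hr⟩ : ∃ r, r = sSup {r | P r} := ⟨_, rfl⟩
  rw [← hr] at hmem hmaxi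
  have hr0 : 0 < r := hmaxi 1 hP1
  obtain ⟨v, z₁, hz₁, hv, hli⟩ := (hP r).1 hmem
  refine ⟨r, v, z₁, hr0, hz₁, hv, hli, ?_⟩
  -- a left inverse at `z₁`
  have hker : LinearMap.ker (Fintype.linearCombination ℂ (fun i => v i z₁)) = ⊥ := by
    rw [LinearMap.ker_eq_bot']
    intro g hg
    rw [Fintype.linearCombination_apply] at hg
    exact funext (Fintype.linearIndependent_iff.1 hli g hg)
  obtain ⟨Φ0, hΦ0⟩ := LinearMap.exists_leftInverse_of_injective _ hker
  obtain ⟨Φ, hΦ⟩ : ∃ Φ : E →L[ℂ] (Fin r → ℂ), ∀ g : Fin r → ℂ, Φ (∑ i, g i • v i z₁) = g := by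
    refine ⟨LinearMap.toContinuousLinearMap Φ0, fun g => ?_⟩
    have h1 := LinearMap.congr_fun hΦ0 g
    rw [LinearMap.comp_apply, Fintype.linearCombination_apply, LinearMap.id_apply] at h1
    exact h1
  obtain ⟨L, hL⟩ : ∃ L : Fin r → ((Fin r → ℂ) →L[ℂ] ((Fin r → ℂ) →L[ℂ] (Fin r → ℂ))),
      ∀ j x g, L j x g = g j • x :=
    ⟨fun j => ContinuousLinearMap.smulRightL ℂ (Fin r → ℂ) (Fin r → ℂ)
      (ContinuousLinearMap.proj j), fun j x g => rfl⟩
  obtain ⟨A, hA⟩ : ∃ A : E → ((Fin r → ℂ) →L[ℂ] (Fin r → ℂ)), ∀ z, A z = ∑ j, L j (Φ (v j z)) :=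
    ⟨_, fun z => rfl⟩
  have hAg : ∀ z g, A z g = Φ (∑ i, g i • v i z) := by
    intro z g
    rw [hA, _root_.sum_apply, map_sum]
    refine Finset.sum_congr rfl fun j _ => ?_
    rw [hL, map_smul]
  have hA1 : A z₁ = 1 := by
    refine ContinuousLinearMap.ext fun g => ?_
    rw [hAg, hΦ]
    rfl
  have hAd : DifferentiableOn ℂ A D := by
    have e : A = fun z => ∑ j, L j (Φ (v j z)) := funext hA
    rw [e]
    refine DifferentiableOn.fun_sum fun j _ => ?_
    exact (L j).differentiable.comp_differentiableOn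
      (Φ.differentiable.comp_differentiableOn (hhol (v j) (hv j)))
  -- the ball
  have hev : ∀ᶠ z in 𝓝 z₁, z ∈ D ∧ IsUnit (A z) := by
    refine (hD.eventually_mem hz₁).and ?_
    have hcont : ContinuousAt A z₁ := (hAd.differentiableAt (hD.mem_nhds hz₁)).continuousAt
    apply hcont.eventually
    apply Units.isOpen.mem_nhds
    show IsUnit (A z₁)
    rw [hA1]
    exact isUnit_one
  obtain ⟨ε, hε, hball⟩ := Metric.eventually_nhds_iff_ball.1 hev
  have hzW : z₁ ∈ ball z₁ ε := mem_ball_self hε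
  have hinv : ∀ z ∈ ball z₁ ε, ∀ g : Fin r → ℂ, Ring.inverse (A z) (A z g) = g := by
    intro z hz g
    have h1 := Ring.inverse_mul_cancel (A z) (hball z hz).2
    exact DFunLike.congr_fun h1 g
  have hlz : ∀ z ∈ ball z₁ ε, LinearIndependent ℂ (fun i => v i z) := by
    intro z hz
    rw [Fintype.linearIndependent_iff]
    intro g hg
    have h1 := hinv z hz g
    rw [hAg, hg, map_zero, map_zero] at h1
    intro i
    rw [← h1]
    rfl
  intro u hu
  obtain ⟨c, hc'⟩ : ∃ c : E → Fin r → ℂ, ∀ z, c z = Ring.inverse (A z) (Φ (u z)) :=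
    ⟨_, fun z => rfl⟩
  have hcu : ∀ z ∈ ball z₁ ε, u z = ∑ i, c z i • v i z := by
    intro z hz
    have hsp : u z ∈ Submodule.span ℂ (range fun i => v i z) := by
      by_contra hcon
      have h1 : P (r + 1) := by
        rw [hP]
        refine ⟨Fin.cons u v, z, (hball z hz).1, ?_, ?_⟩
        · intro i
          refine Fin.cases ?_ (fun i => ?_) i
          · exact hu
          · exact hv i
        · have e : (fun i => (Fin.cons u v : Fin (r + 1) → E → E) i z) =
              Fin.cons (u z) (fun i => v i z) := by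
            funext i
            refine Fin.cases ?_ (fun i => ?_) i
            · rfl
            · rfl
          rw [e, linearIndependent_finCons]
          exact ⟨hlz z hz, hcon⟩
      have := hmaxi _ h1
      omega
    obtain ⟨g, hg⟩ := (Submodule.mem_span_range_iff_exists_fun ℂ).1 hsp
    have h2 : c z = g := by
      rw [hc', ← hg, ← hAg, hinv z hz]
    rw [h2, hg]
  have hcd : DifferentiableOn ℂ c (ball z₁ ε) := by
    intro z hz
    have h1 : DifferentiableAt ℂ A z := hAd.differentiableAt (hD.mem_nhds (hball z hz).1)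
    have h2 : DifferentiableAt ℂ (fun z => Ring.inverse (A z)) z :=
      (differentiableAt_inverse (hball z hz).2).comp z h1
    have h3 : DifferentiableAt ℂ (fun z => Φ (u z)) z :=
      Φ.differentiableAt.comp z ((hhol u hu).differentiableAt (hD.mem_nhds (hball z hz).1))
    have e : c = fun z => Ring.inverse (A z) (Φ (u z)) := funext hc'
    rw [e]
    exact (h2.clm_apply h3).differentiableWithinAt
  have hVne : V.Nonempty := ⟨u, hu⟩
  have hreal' : ∀ z ∈ ball z₁ ε, ∀ i, (c z i).im = 0 := by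
    intro z hz
    have h1 := basis_sum hadd hsmul hVne hv (fun i => (c z i).im) Finset.univ
    have h2 := basis_sum hadd hsmul hVne hv (fun i => -(c z i).re) Finset.univ
    have h3 := hadd _ hu _ h2
    have h4 := hreal _ h3 _ h1 z (hball z hz).1 (by
      show u z + ∑ i, ((-(c z i).re : ℝ) : ℂ) • v i z =
        Complex.I • ∑ i, (((c z i).im : ℝ) : ℂ) • v i z
      rw [hcu z hz, ← Finset.sum_add_distrib, Finset.smul_sum]
      refine Finset.sum_congr rfl fun i _ => ?_
      rw [← add_smul, smul_smul]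
      congr 1
      apply Complex.ext
      · simp
      · simp)
    have h5 := (Fintype.linearIndependent_iff.1 (hlz z hz)) (fun i => (((c z i).im : ℝ) : ℂ)) h4
    intro i
    exact_mod_cast h5 i
  have hconst : ∀ i, ∀ z ∈ ball z₁ ε, c z i = c z₁ i := by
    intro i
    refine basis_const isOpen_ball (convex_ball z₁ ε).isPreconnected ?_
      (fun z hz => hreal' z hz i) hzW
    exact (differentiableOn_pi.1 hcd) i
  refine ⟨fun i => (c z₁ i).re, ?_⟩
  have hfd : DifferentiableOn ℂ (fun z => u z - ∑ i, ((c z₁ i).re : ℂ) • v i z) D := by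
    refine (hhol u hu).sub (DifferentiableOn.fun_sum fun i _ => ?_)
    exact (hhol (v i) (hv i)).const_smul _
  have hcomp : CompleteSpace E := FiniteDimensional.complete ℂ E
  have hid := identity hD hc hfd hz₁ (by
    filter_upwards [ball_mem_nhds z₁ hε] with z hz
    rw [sub_eq_zero, hcu z hz]
    refine Finset.sum_congr rfl fun i _ => ?_
    rw [hconst i z hz]
    congr 1
    apply Complex.ext
    · simp
    · simp [hreal' z₁ hzW i])
  intro z hz
  exact sub_eq_zero.1 (hid z hz)

end Pool.Agent.H906.BD
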