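import Pool.Agent.H906.BD.Nbh

/-! # Cartan's lemma: near the identity, displacements on different compact sets are comparable -/

open Filter Topology Set Metric

namespace Pool.Agent.H906.BD

variable {E : Type*} [NormedAddCommGroup E] [NormedSpace ℂ E]
variable {Γ : Type*} [Group Γ] {D : Set E} {σ : Γ → E → E}

/-- displacement on a set -/
noncomputable def disp (σ : Γ → E → E) (B : Set E) (γ : Γ) : ℝ :=
  sSup ((fun z => ‖σ γ z - z‖) '' B)

theorem cont_disp (hσ : HolAct D σ) (γ : Γ) : ContinuousOn (fun z => ‖σ γ z - z‖) D :=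
  ((hσ.hol γ).continuousOn.sub continuousOn_id).norm

theorem le_disp (hσ : HolAct D σ) {B : Set E} (hB : B ⊆ D) (hBc : IsCompact B) (γ : Γ) {z : E}
    (hz : z ∈ B) : ‖σ γ z - z‖ ≤ disp σ B γ :=
  le_csSup (hBc.image_of_continuousOn ((cont_disp hσ γ).mono hB)).bddAbove
    (mem_image_of_mem _ hz)

theorem exists_disp (hσ : HolAct D σ) {B : Set E} (hB : B ⊆ D) (hBc : IsCompact B)
    (hBn : B.Nonempty) (γ : Γ) : ∃ z ∈ B, ‖σ γ z - z‖ = disp σ B γ := by
  have h := (hBc.image_of_continuousOn ((cont_disp hσ γ).mono hB)).sSup_mem (hBn.image _)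
  obtain ⟨z, hz, h1⟩ := h
  exact ⟨z, hz, h1⟩

omit [NormedSpace ℂ E] in
theorem disp_lt {B : Set E} (hBn : B.Nonempty) {γ : Γ} {ε : ℝ} (h : Near σ B ε γ) :
    disp σ B γ ≤ ε := by
  refine csSup_le (hBn.image _) ?_
  rintro _ ⟨z, hz, rfl⟩
  exact (h z hz).1.le

theorem disp_pos (hD : IsOpen D) (hc : IsPreconnected D) (hσ : HolAct D σ) [CompleteSpace E]
    {z₀ : E} {r : ℝ} (hr : 0 < r) (hB : closedBall z₀ r ⊆ D) (hBc : IsCompact (closedBall z₀ r))
    {γ : Γ} (hγ : ¬ Triv D σ γ) : 0 < disp σ (closedBall z₀ r) γ := by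
  by_contra hneg
  apply hγ
  have h1 : ∀ z ∈ closedBall z₀ r, σ γ z - z = 0 := by
    intro z hz
    have := le_disp hσ hB hBc γ hz
    have h0 := norm_nonneg (σ γ z - z)
    exact norm_eq_zero.1 (by linarith)
  have h2 := identity hD hc (f := fun z => σ γ z - z)
    ((hσ.hol γ).sub differentiableOn_id) (hB (mem_closedBall_self hr.le))
    (by filter_upwards [closedBall_mem_nhds z₀ hr] with z hz; exact h1 z hz)
  intro z hz
  exact sub_eq_zero.1 (h2 z hz)

theorem HolAct.pow_succ_apply (hσ : HolAct D σ) (γ : Γ) (i : ℕ) {z : E} (hz : z ∈ D) :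
    σ (γ ^ (i + 1)) z = σ (γ ^ i) (σ γ z) := by
  rw [pow_succ, hσ.mul _ _ z hz]

/-- the average of the first iterates -/
noncomputable def avgIter (σ : Γ → E → E) (γ : Γ) (p : ℕ) (z : E) : E :=
  ((p : ℂ)⁻¹) • ∑ i ∈ Finset.range p, σ (γ ^ i) z

theorem avgIter_comp (hσ : HolAct D σ) (γ : Γ) (p : ℕ) {z : E} (hz : z ∈ D) :
    avgIter σ γ p (σ γ z) - avgIter σ γ p z = ((p : ℂ)⁻¹) • (σ (γ ^ p) z - z) := by
  unfold avgIter
  rw [← smul_sub, ← Finset.sum_sub_distrib]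
  congr 1
  have : ∀ i ∈ Finset.range p, σ (γ ^ i) (σ γ z) - σ (γ ^ i) z =
      σ (γ ^ (i + 1)) z - σ (γ ^ i) z := fun i _ => by rw [hσ.pow_succ_apply γ i hz]
  rw [Finset.sum_congr rfl this, Finset.sum_range_sub (fun i => σ (γ ^ i) z), pow_zero,
    hσ.one z hz]

theorem avgIter_diff (hσ : HolAct D σ) (γ : Γ) (p : ℕ) :
    DifferentiableOn ℂ (avgIter σ γ p) D := by
  unfold avgIter
  refine DifferentiableOn.const_smul ?_ _
  have : (fun z => ∑ i ∈ Finset.range p, σ (γ ^ i) z) = ∑ i ∈ Finset.range p, σ (γ ^ i) := by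
    ext z; simp
  rw [this]
  exact DifferentiableOn.sum fun i _ => hσ.hol _

theorem avgIter_near {p : ℕ} (hp : 0 < p) {γ : Γ} {K : Set E} {c : ℝ}
    (h : ∀ i < p, ∀ z ∈ K, ‖σ (γ ^ i) z - z‖ ≤ c) {z : E} (hz : z ∈ K) :
    ‖avgIter σ γ p z - z‖ ≤ c := by
  have hp0 : (p : ℂ) ≠ 0 := by exact_mod_cast hp.ne'
  have e : avgIter σ γ p z - z = ((p : ℂ)⁻¹) • ∑ i ∈ Finset.range p, (σ (γ ^ i) z - z) := by
    unfold avgIter
    rw [Finset.sum_sub_distrib, smul_sub, Finset.sum_const, Finset.card_range]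
    congr 1
    rw [← Nat.cast_smul_eq_nsmul ℂ, smul_smul, inv_mul_cancel₀ hp0, one_smul]
  rw [e, norm_smul, norm_inv, Complex.norm_natCast]
  have hp' : (0 : ℝ) < p := by exact_mod_cast hp
  have h1 : ‖∑ i ∈ Finset.range p, (σ (γ ^ i) z - z)‖ ≤ p * c := by
    refine (norm_sum_le _ _).trans ?_
    refine (Finset.sum_le_sum fun i hi => h i (Finset.mem_range.1 hi) z hz).trans ?_
    rw [Finset.sum_const, Finset.card_range, nsmul_eq_mul]
  calc (p : ℝ)⁻¹ * ‖∑ i ∈ Finset.range p, (σ (γ ^ i) z - z)‖ ≤ (p : ℝ)⁻¹ * (p * c) := by gcongr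
    _ = c := by field_simp

/-- one step against many -/
theorem step_compare (hσ : HolAct D σ) {K : Set E} {δ : ℝ} (hδ : 0 < δ)
    (hsub : cthickening δ K ⊆ D) {γ : Γ} (hγ : ∀ z ∈ K, ‖σ γ z - z‖ < δ / 4) {p : ℕ} (hp : 0 < p)
    (h : ∀ i < p, ∀ z ∈ cthickening δ K, ‖σ (γ ^ i) z - z‖ ≤ δ / 8) {z : E} (hz : z ∈ K) :
    ‖σ γ z - z‖ ≤ 2 / p * ‖σ (γ ^ p) z - z‖ ∧
      ‖σ (γ ^ p) z - z‖ ≤ 3 / 2 * p * ‖σ γ z - z‖ := by
  have hp' : (0 : ℝ) < p := by exact_mod_cast hp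
  have hball : ball z δ ⊆ cthickening δ K := by
    intro w hw
    rw [mem_ball, dist_eq_norm] at hw
    exact mem_thick hz hw.le
  have hzD : z ∈ D := hsub (hball (mem_ball_self hδ))
  have h1 : DifferentiableOn ℂ (fun w => avgIter σ γ p w - w) (ball z δ) :=
    ((avgIter_diff hσ γ p).mono (hball.trans hsub)).sub differentiableOn_id
  have h2 : ∀ w ∈ ball z δ, ‖(fun w => avgIter σ γ p w - w) w‖ ≤ δ / 8 := fun w hw =>
    avgIter_near hp h (hball hw)
  have h3 := lip_ball h1 h2 (y := z) (z := σ γ z) (mem_ball_self (by positivity)) (by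
    rw [mem_ball, dist_eq_norm]; exact hγ z hz)
  have e1 : 4 * (δ / 8) / δ = 1 / 2 := by field_simp; norm_num
  rw [e1] at h3
  have e2 : (avgIter σ γ p (σ γ z) - σ γ z) - (avgIter σ γ p z - z) =
      (avgIter σ γ p (σ γ z) - avgIter σ γ p z) - (σ γ z - z) := by abel
  simp only [e2, avgIter_comp hσ γ p hzD] at h3
  set a := ((p : ℂ)⁻¹) • (σ (γ ^ p) z - z) with ha
  have ha1 : ‖a‖ = ‖σ (γ ^ p) z - z‖ / p := by
    rw [ha, norm_smul, norm_inv, Complex.norm_natCast]; ring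
  have h4 : ‖σ γ z - z‖ - ‖a‖ ≤ ‖a - (σ γ z - z)‖ := by
    rw [norm_sub_rev a]; exact norm_sub_norm_le _ _
  have h5 : ‖a‖ - ‖σ γ z - z‖ ≤ ‖a - (σ γ z - z)‖ := norm_sub_norm_le _ _
  rw [ha1] at h4 h5
  constructor
  · have : ‖σ γ z - z‖ ≤ 2 * (‖σ (γ ^ p) z - z‖ / p) := by linarith
    refine this.trans (le_of_eq ?_)
    ring
  · have : ‖σ (γ ^ p) z - z‖ / p ≤ 3 / 2 * ‖σ γ z - z‖ := by linarith
    rw [div_le_iff₀ hp'] at this
    refine this.trans (le_of_eq ?_)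
    ring

/-- **Cartan's lemma.** -/
theorem cartan [ProperSpace E] (hD : IsOpen D) (hc : IsPreconnected D) (hσ : HolAct D σ)
    {R : ℝ} (hR : ∀ z ∈ D, ‖z‖ ≤ R) {z₀ : E} {r : ℝ} (hr : 0 < r) (hB : closedBall z₀ r ⊆ D)
    {K : Set E} (hK : IsCompact K) (hKD : K ⊆ D) :
    ∃ C, 0 ≤ C ∧ ∀ᶠ γ in Nbh D σ, ∀ z ∈ K, ‖σ γ z - z‖ ≤ C * disp σ (closedBall z₀ r) γ := by
  set K' := K ∪ closedBall z₀ r with hK'
  have hK'c : IsCompact K' := hK.union (isCompact_closedBall _ _)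
  have hK'D : K' ⊆ D := union_subset hKD hB
  have hR0 : 0 ≤ R := (norm_nonneg _).trans (hR z₀ (hB (mem_closedBall_self hr.le)))
  obtain ⟨δ, hδ, hthc, hth⟩ := exists_thick hD hK'D hK'c
  obtain ⟨c', hc', hvit⟩ := vitali (F := E) hD hc hr (hB (mem_closedBall_self hr.le)) hthc hth
    (2 * R) (show 0 < δ / 8 by positivity)
  refine ⟨6 * R / c', by positivity, ?_⟩
  have hev := eventually_near (σ := σ) hth hthc (show 0 < δ / 4 by positivity)
  filter_upwards [hev] with γ hγ z hz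
  have hzK' : z ∈ K' := Or.inl hz
  have hγ' : ∀ z ∈ K', ‖σ γ z - z‖ < δ / 4 := fun w hw =>
    (hγ w (self_subset_cthickening _ hw)).1
  have hdisp0 : 0 ≤ disp σ (closedBall z₀ r) γ :=
    (norm_nonneg _).trans (le_disp hσ hB (isCompact_closedBall _ _) γ (mem_closedBall_self hr.le))
  have hbdd : ∀ q : ℕ, ∀ w ∈ D, ‖σ (γ ^ q) w - w‖ ≤ 2 * R := by
    intro q w hw
    have h1 := hR _ (hσ.maps (γ ^ q) w hw)
    have h2 := hR w hw
    have := norm_sub_le (σ (γ ^ q) w) w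
    linarith
  by_cases hall : ∀ i : ℕ, ∀ w ∈ cthickening δ K', ‖σ (γ ^ i) w - w‖ ≤ δ / 8
  · -- all powers stay near the identity
    have h1 : ∀ p : ℕ, 0 < p → ‖σ γ z - z‖ ≤ 2 / p * (2 * R) := by
      intro p hp
      refine (step_compare hσ hδ hth hγ' hp (fun i _ => hall i) hzK').1.trans ?_
      have := hbdd p z (hKD hz)
      gcongr
    have h2 : ‖σ γ z - z‖ ≤ 0 := by
      have h3 : Tendsto (fun p : ℕ => 4 * R / (p : ℝ)) atTop (𝓝 0) :=
        tendsto_const_div_atTop_nhds_zero_nat (4 * R)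
      refine ge_of_tendsto h3 ?_
      filter_upwards [eventually_gt_atTop 0] with p hp
      refine (h1 p hp).trans (le_of_eq ?_)
      ring
    exact h2.trans (by positivity)
  · classical
    push Not at hall
    set p := Nat.find hall with hp
    obtain ⟨w, hw, hwp⟩ := Nat.find_spec hall
    rw [← hp] at hwp
    have hmin : ∀ i < p, ∀ w ∈ cthickening δ K', ‖σ (γ ^ i) w - w‖ ≤ δ / 8 := by
      intro i hi w hw
      have := Nat.find_min hall (hp ▸ hi)
      push Not at this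
      exact this w hw
    have hp0 : 0 < p := by
      rcases Nat.eq_zero_or_pos p with h0 | h0
      · exfalso
        rw [h0, pow_zero, hσ.one w (hth hw), sub_self, norm_zero] at hwp
        linarith
      · exact h0
    have hp' : (0 : ℝ) < p := by exact_mod_cast hp0
    -- Vitali
    have h1 : ∃ y ∈ closedBall z₀ r, c' < ‖σ (γ ^ p) y - y‖ := by
      by_contra hcon
      push Not at hcon
      have h2 := hvit (fun y => σ (γ ^ p) y - y) ((hσ.hol _).sub differentiableOn_id)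
        (fun y hy => hbdd p y hy) hcon w hw
      linarith
    obtain ⟨y, hy, hyc⟩ := h1
    have h3 := (step_compare hσ hδ hth hγ' hp0 hmin (z := y) (Or.inr hy)).2
    have h4 := le_disp hσ hB (isCompact_closedBall _ _) γ hy
    have h5 := (step_compare hσ hδ hth hγ' hp0 hmin hzK').1
    have h6 := hbdd p z (hKD hz)
    have h7 : c' < 3 / 2 * p * disp σ (closedBall z₀ r) γ := by
      refine (hyc.trans_le h3).trans_le ?_
      gcongr
    have h8 : ‖σ γ z - z‖ ≤ 2 / p * (2 * R) := by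
      refine h5.trans ?_
      gcongr
    refine h8.trans ?_
    rw [div_mul_eq_mul_div, div_mul_eq_mul_div, div_le_div_iff₀ hp' hc']
    nlinarith [mul_nonneg hR0 (sub_nonneg.2 h7.le)]

end Pool.Agent.H906.BD
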