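import Pool.Agent.H906.BD.Setup

/-! # T01 Close: limit fields: approximation criterion, zero, negatives, positive multiples

`IsLim D σ S v` (file `BD/Field.lean`) says: `v = 0` off `D` and there is an ultrafilter on
`ℝ × Γ` along which `m → ∞`, `γ → 1` (filter `Nbh D σ`, file `BD/Nbh.lean`), `γ ∈ S` and
`m • (σ γ z - z) → v z` locally uniformly (`LU`, file `BD/Hol.lean`).

Task T01 of helper906, by helper588. -/

open Filter Topology Set Metric

namespace Pool.Agent.H906.BD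

variable {E : Type*} [NormedAddCommGroup E] [NormedSpace ℂ E]
variable {Γ : Type*} [Group Γ] {D : Set E} {σ : Γ → E → E}

theorem IsLim.approx [ProperSpace E] {S : Set Γ} {v : E → E} (hv : IsLim D σ S v) {K : Set E}
    (hK : K ⊆ D) (hKc : IsCompact K) {η : ℝ} (hη : 0 < η) {N : Set Γ} (hN : N ∈ Nbh D σ) (R : ℝ) :
    ∃ t ≥ R, ∃ γ ∈ S, γ ∈ N ∧ ∀ z ∈ K, ‖(t : ℂ) • (σ γ z - z) - v z‖ < η := by
  obtain ⟨l, h1, h2, h3, h4⟩ := hv.lim
  have h5 : ∀ᶠ p in (l : Filter (ℝ × Γ)), R ≤ p.1 := h1.eventually (eventually_ge_atTop R)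
  have h6 : ∀ᶠ p in (l : Filter (ℝ × Γ)), p.2 ∈ N := h2 hN
  obtain ⟨p, ⟨⟨hp1, hp2⟩, hp3⟩, hp4⟩ :=
    (((h5.and h6).and h3).and (h4.compact hKc hK hη)).exists
  exact ⟨p.1, hp1, p.2, hp3, hp2, hp4⟩

/-- the filter generated by the approximation sets -/
def close_filter (D : Set E) (σ : Γ → E → E) (S : Set Γ) (v : E → E) : Filter (ℝ × Γ) where
  sets := {A | ∃ K ⊆ D, IsCompact K ∧ ∃ η > 0, ∃ N ∈ Nbh D σ, ∃ R : ℝ, ∀ p : ℝ × Γ,
    R ≤ p.1 → p.2 ∈ S → p.2 ∈ N → (∀ z ∈ K, ‖(p.1 : ℂ) • (σ p.2 z - z) - v z‖ < η) → p ∈ A}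
  univ_sets := ⟨∅, empty_subset _, isCompact_empty, 1, one_pos, univ, univ_mem, 0,
    fun _ _ _ _ _ => mem_univ _⟩
  sets_of_superset := by
    rintro A B ⟨K, hK, hKc, η, hη, N, hN, R, h⟩ hAB
    exact ⟨K, hK, hKc, η, hη, N, hN, R, fun p h1 h2 h3 h4 => hAB (h p h1 h2 h3 h4)⟩
  inter_sets := by
    rintro A B ⟨K, hK, hKc, η, hη, N, hN, R, h⟩ ⟨K', hK', hKc', η', hη', N', hN', R', h'⟩
    refine ⟨K ∪ K', union_subset hK hK', hKc.union hKc', min η η', lt_min hη hη', N ∩ N',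
      inter_mem hN hN', max R R', fun p h1 h2 h3 h4 => ⟨?_, ?_⟩⟩
    · exact h p ((le_max_left _ _).trans h1) h2 h3.1
        fun z hz => (h4 z (Or.inl hz)).trans_le (min_le_left _ _)
    · exact h' p ((le_max_right _ _).trans h1) h2 h3.2
        fun z hz => (h4 z (Or.inr hz)).trans_le (min_le_right _ _)

theorem IsLim.of_approx [ProperSpace E] (hD : IsOpen D) {S : Set Γ} {v : E → E}
    (hzero : ∀ z ∉ D, v z = 0)
    (h : ∀ K ⊆ D, IsCompact K → ∀ η > 0, ∀ N ∈ Nbh D σ, ∀ R : ℝ,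
      ∃ t ≥ R, ∃ γ ∈ S, γ ∈ N ∧ ∀ z ∈ K, ‖(t : ℂ) • (σ γ z - z) - v z‖ < η) :
    IsLim D σ S v := by
  have hne : (close_filter D σ S v).NeBot := by
    rw [Filter.neBot_iff]
    intro hbot
    have h0 : (∅ : Set (ℝ × Γ)) ∈ close_filter D σ S v := by
      rw [hbot]
      exact mem_bot
    obtain ⟨K, hK, hKc, η, hη, N, hN, R, h1⟩ := h0
    obtain ⟨t, ht, γ, hγ, hγN, h2⟩ := h K hK hKc η hη N hN R
    exact h1 (t, γ) ht hγ hγN h2
  have hle : ((Ultrafilter.of (close_filter D σ S v) : Ultrafilter (ℝ × Γ)) :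
      Filter (ℝ × Γ)) ≤ close_filter D σ S v := Ultrafilter.of_le _
  refine ⟨hzero, Ultrafilter.of (close_filter D σ S v), ?_, ?_, ?_, ?_⟩
  · rw [Filter.tendsto_atTop]
    intro R
    exact hle ⟨∅, empty_subset _, isCompact_empty, 1, one_pos, univ, univ_mem, R,
      fun p hp _ _ _ => hp⟩
  · intro N hN
    exact hle ⟨∅, empty_subset _, isCompact_empty, 1, one_pos, N, hN, 0,
      fun p _ _ hp _ => hp⟩
  · exact hle ⟨∅, empty_subset _, isCompact_empty, 1, one_pos, univ, univ_mem, 0,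
      fun p _ hp _ _ => hp⟩
  · intro x hx
    obtain ⟨r, hr, hrD⟩ : ∃ r > 0, closedBall x r ⊆ D :=
      Metric.nhds_basis_closedBall.mem_iff.1 (hD.mem_nhds hx)
    refine ⟨r, hr, ball_subset_closedBall.trans hrD, fun ε hε => ?_⟩
    exact hle ⟨closedBall x r, hrD, isCompact_closedBall x r, ε, hε, univ, univ_mem, 0,
      fun p _ _ _ hp z hz => hp z (ball_subset_closedBall hz)⟩

theorem IsLim.zero' [ProperSpace E] (hD : IsOpen D) (hσ : HolAct D σ) (S : Subgroup Γ) :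
    IsLim D σ (S : Set Γ) (fun _ => 0) := by
  refine IsLim.of_approx hD (fun _ _ => rfl) fun K hK _ η hη N hN R => ?_
  have ht : Triv D σ (1 : Γ) := fun z hz => hσ.one z hz
  refine ⟨R, le_refl _, 1, S.one_mem, eventually_of_triv hN ht (ht.inv hσ), fun z hz => ?_⟩
  rw [ht z (hK hz), sub_self, smul_zero, sub_zero, norm_zero]
  exact hη

theorem IsLim.neg [ProperSpace E] (hD : IsOpen D) (hσ : HolAct D σ) {S : Subgroup Γ} {v : E → E}
    (hv : IsLim D σ (S : Set Γ) v) : IsLim D σ (S : Set Γ) (fun z => - v z) := by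
  refine IsLim.of_approx hD (fun z hz => by rw [hv.zero z hz, neg_zero])
    fun K hK hKc η hη N hN R => ?_
  obtain ⟨δ, hδ, hc, hsub⟩ := exists_thick hD hK hKc
  have huc : UniformContinuousOn v (cthickening δ K) :=
    hc.uniformContinuousOn_of_continuous ((hv.hol hσ).continuousOn.mono hsub)
  rw [Metric.uniformContinuousOn_iff] at huc
  obtain ⟨ρ, hρ, hρ2⟩ := huc (η / 2) (by positivity)
  have hm : 0 < min δ ρ := lt_min hδ hρ
  have hN' : (fun γ : Γ => γ⁻¹) ⁻¹' N ∩ {γ | Near σ K (min δ ρ) γ} ∈ Nbh D σ :=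
    inter_mem (tendsto_inv hN) (eventually_near hK hKc hm)
  obtain ⟨t, ht, β, hβ, hβN, h1⟩ := hv.approx hsub hc (show 0 < η / 2 by positivity) hN' R
  refine ⟨t, ht, β⁻¹, S.inv_mem hβ, hβN.1, fun z hz => ?_⟩
  have h2 : ‖σ β⁻¹ z - z‖ < min δ ρ := (hβN.2 z hz).2
  have hy : σ β⁻¹ z ∈ cthickening δ K := mem_thick hz (h2.le.trans (min_le_left _ _))
  have hzt : z ∈ cthickening δ K := self_subset_cthickening K hz
  have h3 := h1 _ hy
  rw [hσ.act_inv β (hK hz)] at h3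
  have h4 := hρ2 _ hzt _ hy (by
    rw [dist_comm, dist_eq_norm]
    exact h2.trans_le (min_le_right _ _))
  rw [dist_eq_norm] at h4
  have e : (t : ℂ) • (σ β⁻¹ z - z) - -v z =
      -((t : ℂ) • (z - σ β⁻¹ z) - v (σ β⁻¹ z)) + (v z - v (σ β⁻¹ z)) := by
    rw [smul_sub, smul_sub]
    abel
  rw [e]
  refine (norm_add_le _ _).trans_lt ?_
  rw [norm_neg]
  linarith

theorem close_smul_pos [ProperSpace E] (hD : IsOpen D) {S : Subgroup Γ} {v : E → E}
    (hv : IsLim D σ (S : Set Γ) v) {c : ℝ} (hc : 0 < c) :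
    IsLim D σ (S : Set Γ) (fun z => (c : ℂ) • v z) := by
  refine IsLim.of_approx hD (fun z hz => by rw [hv.zero z hz, smul_zero])
    fun K hK hKc η hη N hN R => ?_
  obtain ⟨t, ht, γ, hγ, hγN, h1⟩ := hv.approx hK hKc (show 0 < η / c by positivity) hN (R / c)
  refine ⟨c * t, ?_, γ, hγ, hγN, fun z hz => ?_⟩
  · have := (div_le_iff₀ hc).1 ht
    linarith
  · have h2 := h1 z hz
    rw [lt_div_iff₀ hc] at h2
    have e : ((c * t : ℝ) : ℂ) • (σ γ z - z) - (c : ℂ) • v z =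
        (c : ℂ) • ((t : ℂ) • (σ γ z - z) - v z) := by
      rw [smul_sub (c : ℂ), smul_smul, Complex.ofReal_mul]
    rw [e, norm_smul, Complex.norm_real, Real.norm_eq_abs, abs_of_pos hc]
    linarith

theorem IsLim.smul [ProperSpace E] (hD : IsOpen D) (hσ : HolAct D σ) {S : Subgroup Γ} {v : E → E}
    (hv : IsLim D σ (S : Set Γ) v) (c : ℝ) : IsLim D σ (S : Set Γ) (fun z => (c : ℂ) • v z) := by
  rcases lt_trichotomy c 0 with hc | hc | hc
  · have h1 := close_smul_pos hD (hv.neg hD hσ) (show 0 < -c by linarith)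
    have e : (fun z => ((-c : ℝ) : ℂ) • -v z) = fun z => (c : ℂ) • v z := by
      funext z
      rw [Complex.ofReal_neg, neg_smul, smul_neg, neg_neg]
    rwa [e] at h1
  · have e : (fun z => (c : ℂ) • v z) = fun _ => (0 : E) := by
      funext z
      rw [hc, Complex.ofReal_zero, zero_smul]
    rw [e]
    exact IsLim.zero' hD hσ S
  · exact close_smul_pos hD hv hc

end Pool.Agent.H906.BD
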