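import Pool.Agent.H906.BD.Seq

/-! # T23 Conv: weak convergence of the approximants

`ua j g f` (file `BD/Seq.lean`) is `log (exp (-2 j p) + ∑_{i ≤ j} q_i ^ p) / (2 p)`, `p = (j + 1)²`,
`q_i = |g_i|² e^{∑_l |f_{i,l}|²} = qe (g i) (f i)`; `Q = ⨆ i, q_i`.

Proof. Where `g_0 x ≠ 0` (almost everywhere on `U`): lower bound: the sum is `≥ q_0 ^ p ≥ |g_0|^{2p}`, so
`ua j ≥ log |g_0 x|`, and `≥ (max_{i ≤ j} q_i)^p`, so `ua j ≥ log (max_{i≤j} q_i) / 2 → log Q / 2`. Upper bound: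
the argument of the logarithm is `≤ (j + 2) (max (e^{-2j}) Q)^p`, so
`ua j ≤ log (j + 2) / (2 (j+1)²) + log (max (e^{-2j}) Q) / 2`, which tends to `log Q / 2` and is locally
bounded above. So `ua j x → log (Q x) / 2` for almost every `x ∈ U`, and on a compact subset of `U`
`|ua j x| ≤ C + |log |g_0 x||` (`hb` and compactness), an integrable function (`hlog`). Dominated
convergence (`MeasureTheory.tendsto_integral_of_dominated_convergence`) for `ua j · φ`; `ua j` is measurable: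
continuous on `U` (argument of the logarithm `≥ exp > 0`), `φ = 0` off `U`. Local integrability of
`log Q / 2` from the same bounds (as an a.e. limit it is a.e.-strongly measurable on `U`). -/

set_option linter.unusedSectionVars false

open Filter Topology Set Metric MeasureTheory

namespace Pool.Agent.H906.BD

variable {N : Type*} [Fintype N] [DecidableEq N]

theorem conv_qe_nonneg {E : Type*} [NormedAddCommGroup E] [NormedSpace ℂ E] {r : ℕ} (g : E → ℂ)
    (f : Fin r → E → ℂ) (x : E) : 0 ≤ qe g f x := by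
  unfold qe
  positivity

/-- lower bound -/
theorem conv_lower {r : ℕ} {g : ℕ → (N → ℂ) → ℂ} {f : ℕ → Fin r → (N → ℂ) → ℂ} {x : N → ℂ}
    {i j : ℕ} (hij : i ≤ j) (hq : 0 < qe (g i) (f i) x) :
    Real.log (qe (g i) (f i) x) / 2 ≤ ua j g f x := by
  rw [ua_eq]
  unfold app
  have hP : (0 : ℝ) < (((j + 1) ^ 2 : ℕ) : ℝ) := by positivity
  have h1 : qe (g i) (f i) x ^ ((j + 1) ^ 2) ≤
      Real.exp (-(2 * (j : ℝ) * ((j : ℝ) + 1) ^ 2)) +
        ∑ i ∈ Finset.range (j + 1), qe (g i) (f i) x ^ ((j + 1) ^ 2) := by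
    have h2 := Finset.single_le_sum (f := fun i => qe (g i) (f i) x ^ ((j + 1) ^ 2))
      (fun i _ => pow_nonneg (conv_qe_nonneg _ _ _) _) (Finset.mem_range.2 (Nat.lt_succ_of_le hij))
    have h3 := (Real.exp_pos (-(2 * (j : ℝ) * ((j : ℝ) + 1) ^ 2))).le
    exact h2.trans (le_add_of_nonneg_left h3)
  have h4 := Real.log_le_log (pow_pos hq _) h1
  rw [Real.log_pow] at h4
  rw [le_div_iff₀ (by positivity)]
  calc Real.log (qe (g i) (f i) x) / 2 * (2 * (((j + 1) ^ 2 : ℕ) : ℝ)) =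
      (((j + 1) ^ 2 : ℕ) : ℝ) * Real.log (qe (g i) (f i) x) := by ring
    _ ≤ _ := h4

/-- upper bound -/
theorem conv_upper {r : ℕ} {g : ℕ → (N → ℂ) → ℂ} {f : ℕ → Fin r → (N → ℂ) → ℂ} {x : N → ℂ}
    {j : ℕ} {A : ℝ} (hA : Real.exp (-(2 * (j : ℝ))) ≤ A) (hq : ∀ i, qe (g i) (f i) x ≤ A) :
    ua j g f x ≤ Real.log ((j : ℝ) + 2) / (2 * ((j : ℝ) + 1) ^ 2) + Real.log A / 2 := by
  have hA0 : 0 < A := (Real.exp_pos _).trans_le hA
  rw [ua_eq]
  unfold app
  have hP : (0 : ℝ) < (((j + 1) ^ 2 : ℕ) : ℝ) := by positivity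
  have h1 : Real.exp (-(2 * (j : ℝ) * ((j : ℝ) + 1) ^ 2)) +
        ∑ i ∈ Finset.range (j + 1), qe (g i) (f i) x ^ ((j + 1) ^ 2) ≤
      ((j : ℝ) + 2) * A ^ ((j + 1) ^ 2) := by
    have h2 : Real.exp (-(2 * (j : ℝ) * ((j : ℝ) + 1) ^ 2)) ≤ A ^ ((j + 1) ^ 2) := by
      have e : Real.exp (-(2 * (j : ℝ) * ((j : ℝ) + 1) ^ 2)) =
          Real.exp (-(2 * (j : ℝ))) ^ ((j + 1) ^ 2) := by
        rw [← Real.exp_nat_mul]
        congr 1
        push_cast
        ring
      rw [e]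
      exact pow_le_pow_left₀ (Real.exp_pos _).le hA _
    have h3 : ∑ i ∈ Finset.range (j + 1), qe (g i) (f i) x ^ ((j + 1) ^ 2) ≤
        ∑ i ∈ Finset.range (j + 1), A ^ ((j + 1) ^ 2) :=
      Finset.sum_le_sum fun i _ => pow_le_pow_left₀ (conv_qe_nonneg _ _ _) (hq i) _
    rw [Finset.sum_const, Finset.card_range, nsmul_eq_mul] at h3
    push_cast at h3
    linarith
  have h0 : 0 < Real.exp (-(2 * (j : ℝ) * ((j : ℝ) + 1) ^ 2)) +
        ∑ i ∈ Finset.range (j + 1), qe (g i) (f i) x ^ ((j + 1) ^ 2) :=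
    add_pos_of_pos_of_nonneg (Real.exp_pos _)
      (Finset.sum_nonneg fun i _ => pow_nonneg (conv_qe_nonneg _ _ _) _)
  have h4 := Real.log_le_log h0 h1
  rw [Real.log_mul (by positivity) (by positivity), Real.log_pow] at h4
  rw [div_le_iff₀ (by positivity)]
  refine h4.trans (le_of_eq ?_)
  push_cast
  field_simp

theorem conv_log_small (j : ℕ) : Real.log ((j : ℝ) + 2) / (2 * ((j : ℝ) + 1) ^ 2) ≤ 1 := by
  rw [div_le_one (by positivity)]
  have h1 := Real.log_le_sub_one_of_pos (show (0 : ℝ) < (j : ℝ) + 2 by positivity)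
  have h2 : (0 : ℝ) ≤ j := Nat.cast_nonneg j
  nlinarith

theorem conv_log_tendsto :
    Tendsto (fun j : ℕ => Real.log ((j : ℝ) + 2) / (2 * ((j : ℝ) + 1) ^ 2)) atTop (𝓝 0) := by
  have h1 : Tendsto (fun j : ℕ => 1 / ((j : ℝ) + 1)) atTop (𝓝 0) :=
    tendsto_one_div_add_atTop_nhds_zero_nat
  refine squeeze_zero (fun j => ?_) (fun j => ?_) h1
  · have h2 : (0 : ℝ) ≤ j := Nat.cast_nonneg j
    exact div_nonneg (Real.log_nonneg (by linarith)) (by positivity)
  · have h2 : (0 : ℝ) ≤ j := Nat.cast_nonneg j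
    have h3 := Real.log_le_sub_one_of_pos (show (0 : ℝ) < (j : ℝ) + 2 by positivity)
    rw [div_le_div_iff₀ (by positivity) (by positivity)]
    nlinarith

/-- the supremum bounds all terms -/
theorem conv_le_sup {r : ℕ} {g : ℕ → (N → ℂ) → ℂ} {f : ℕ → Fin r → (N → ℂ) → ℂ} {x : N → ℂ}
    (hb : ∃ M, ∀ i, qe (g i) (f i) x ≤ M) (i : ℕ) :
    qe (g i) (f i) x ≤ ⨆ i, qe (g i) (f i) x := by
  obtain ⟨M, hM⟩ := hb
  refine le_ciSup (f := fun i => qe (g i) (f i) x) ⟨M, ?_⟩ i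
  rintro _ ⟨i, rfl⟩
  exact hM i

/-- pointwise convergence -/
theorem conv_point {r : ℕ} {g : ℕ → (N → ℂ) → ℂ} {f : ℕ → Fin r → (N → ℂ) → ℂ} {x : N → ℂ}
    (hb : ∃ M, ∀ i, qe (g i) (f i) x ≤ M) (h0 : g 0 x ≠ 0) :
    Tendsto (fun j => ua j g f x) atTop (𝓝 (Real.log (⨆ i, qe (g i) (f i) x) / 2)) := by
  have hq0 : 0 < qe (g 0) (f 0) x := by
    unfold qe
    have := norm_pos_iff.2 h0
    positivity
  obtain ⟨Q, hQ⟩ : ∃ Q : ℝ, Q = ⨆ i, qe (g i) (f i) x := ⟨_, rfl⟩
  have hle : ∀ i, qe (g i) (f i) x ≤ Q := fun i => by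
    rw [hQ]
    exact conv_le_sup hb i
  have hQ0 : 0 < Q := hq0.trans_le (hle 0)
  rw [← hQ]
  refine tendsto_order.2 ⟨fun a ha => ?_, fun b hb' => ?_⟩
  · have h1 : Real.exp (2 * a) < Q := by
      rw [← Real.exp_log hQ0]
      exact Real.exp_lt_exp.2 (by linarith)
    rw [hQ] at h1
    obtain ⟨i, hi⟩ := exists_lt_of_lt_ciSup h1
    have hqi : 0 < qe (g i) (f i) x := (Real.exp_pos _).trans hi
    have h2 : a < Real.log (qe (g i) (f i) x) / 2 := by
      have h3 := Real.log_lt_log (Real.exp_pos _) hi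
      rw [Real.log_exp] at h3
      linarith
    filter_upwards [eventually_ge_atTop i] with j hj
    exact h2.trans_le (conv_lower hj hqi)
  · have h1 : ∀ᶠ j : ℕ in atTop, Real.log ((j : ℝ) + 2) / (2 * ((j : ℝ) + 1) ^ 2) <
        b - Real.log Q / 2 := conv_log_tendsto.eventually (gt_mem_nhds (by linarith))
    have h2 : ∀ᶠ j : ℕ in atTop, Real.exp (-(2 * (j : ℝ))) ≤ Q := by
      have h3 : Tendsto (fun j : ℕ => Real.exp (-(2 * (j : ℝ)))) atTop (𝓝 0) := by
        refine Real.tendsto_exp_neg_atTop_nhds_zero.comp ?_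
        exact tendsto_natCast_atTop_atTop.const_mul_atTop (by norm_num)
      filter_upwards [h3.eventually (gt_mem_nhds hQ0)] with j hj
      exact hj.le
    filter_upwards [h1, h2] with j hj1 hj2
    have h3 := conv_upper (g := g) (f := f) (x := x) hj2 hle
    linarith

/-- `ua j` is continuous -/
theorem conv_cont {U : Set (N → ℂ)} {r : ℕ} {g : ℕ → (N → ℂ) → ℂ}
    {f : ℕ → Fin r → (N → ℂ) → ℂ} (hg : ∀ i, ContinuousOn (g i) U)
    (hf : ∀ i l, ContinuousOn (f i l) U) (j : ℕ) : ContinuousOn (ua j g f) U := by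
  unfold ua
  refine ContinuousOn.div_const (ContinuousOn.log ?_ ?_) _
  · refine continuousOn_const.add (continuousOn_finsetSum _ fun i _ => ?_)
    refine ContinuousOn.pow (((hg i).norm.pow 2).mul ?_) _
    refine Real.continuous_exp.comp_continuousOn ?_
    exact continuousOn_finsetSum _ fun l _ => (hf i l).norm.pow 2
  · intro x _
    refine (add_pos_of_pos_of_nonneg (Real.exp_pos _) (Finset.sum_nonneg fun i _ => ?_)).ne'
    positivity

/-- bound on compact sets -/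
theorem conv_bound {U K : Set (N → ℂ)} {r : ℕ} {g : ℕ → (N → ℂ) → ℂ}
    {f : ℕ → Fin r → (N → ℂ) → ℂ}
    (hb : ∀ x₀ ∈ U, ∃ ρ > 0, ∃ M, ball x₀ ρ ⊆ U ∧ ∀ i, ∀ x ∈ ball x₀ ρ, qe (g i) (f i) x ≤ M)
    (hK : IsCompact K) (hKU : K ⊆ U) : ∃ C : ℝ, 0 ≤ C ∧ ∀ j, ∀ x ∈ K, g 0 x ≠ 0 →
      |ua j g f x| ≤ C + |Real.log ‖g 0 x‖| := by
  have h1 : ∃ M : ℝ, ∀ x ∈ K, ∀ i, qe (g i) (f i) x ≤ M := by
    refine hK.induction_on (p := fun s => ∃ M : ℝ, ∀ x ∈ s, ∀ i, qe (g i) (f i) x ≤ M) ?_ ?_ ?_ ?_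
    · exact ⟨0, fun x hx => absurd hx (notMem_empty x)⟩
    · rintro s t hst ⟨M, hM⟩
      exact ⟨M, fun x hx => hM x (hst hx)⟩
    · rintro s t ⟨M, hM⟩ ⟨M', hM'⟩
      refine ⟨max M M', fun x hx i => ?_⟩
      rcases hx with hx | hx
      · exact (hM x hx i).trans (le_max_left _ _)
      · exact (hM' x hx i).trans (le_max_right _ _)
    · intro x hx
      obtain ⟨ρ, hρ, M, -, hM⟩ := hb x (hKU hx)
      exact ⟨ball x ρ, mem_nhdsWithin_of_mem_nhds (ball_mem_nhds x hρ), M,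
        fun y hy i => hM i y hy⟩
  obtain ⟨M, hM⟩ := h1
  refine ⟨1 + Real.log (max M 1), ?_, fun j x hx h0 => ?_⟩
  · have := Real.log_nonneg (le_max_right M 1)
    linarith
  · have hM1 : (1 : ℝ) ≤ max M 1 := le_max_right _ _
    have hlM : 0 ≤ Real.log (max M 1) := Real.log_nonneg hM1
    have hq0 : 0 < qe (g 0) (f 0) x := by
      unfold qe
      have := norm_pos_iff.2 h0
      positivity
    have h2 := conv_lower (g := g) (f := f) (x := x) (Nat.zero_le j) hq0
    have h3 : Real.log ‖g 0 x‖ ≤ Real.log (qe (g 0) (f 0) x) / 2 := by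
      have hn := norm_pos_iff.2 h0
      have h4 : ‖g 0 x‖ ^ 2 ≤ qe (g 0) (f 0) x := by
        unfold qe
        have h5 : (1 : ℝ) ≤ Real.exp (∑ l, ‖f 0 l x‖ ^ 2) :=
          Real.one_le_exp (Finset.sum_nonneg fun l _ => by positivity)
        nlinarith [sq_nonneg ‖g 0 x‖]
      have h5 := Real.log_le_log (by positivity) h4
      rw [Real.log_pow] at h5
      push_cast at h5
      linarith
    have h6 := conv_upper (g := g) (f := f) (x := x) (j := j) (A := max M 1)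
      ((Real.exp_le_one_iff.2 (by
        have : (0 : ℝ) ≤ j := Nat.cast_nonneg j
        linarith)).trans hM1) (fun i => (hM x hx i).trans (le_max_left _ _))
    have h7 := conv_log_small j
    have h8 := neg_abs_le (Real.log ‖g 0 x‖)
    have h9 := abs_nonneg (Real.log ‖g 0 x‖)
    rw [abs_le]
    constructor <;> linarith

theorem ua_tendsto {U : Set (N → ℂ)} (hU : IsOpen U) {r : ℕ} {g : ℕ → (N → ℂ) → ℂ}
    {f : ℕ → Fin r → (N → ℂ) → ℂ} (hg : ∀ i, DifferentiableOn ℂ (g i) U)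
    (hf : ∀ i l, DifferentiableOn ℂ (f i l) U)
    (hb : ∀ x₀ ∈ U, ∃ ρ > 0, ∃ M, ball x₀ ρ ⊆ U ∧ ∀ i, ∀ x ∈ ball x₀ ρ, qe (g i) (f i) x ≤ M)
    (hne : ∀ᵐ x ∂(volume.restrict U), g 0 x ≠ 0)
    (hlog : LocallyIntegrableOn (fun x => Real.log ‖g 0 x‖) U volume) :
    LocallyIntegrableOn (fun x => Real.log (⨆ i, qe (g i) (f i) x) / 2) U volume ∧
    ∀ φ : (N → ℂ) → ℂ, Continuous φ → HasCompactSupport φ → tsupport φ ⊆ U →
      Tendsto (fun j => ∫ x, (ua j g f x : ℂ) * φ x) atTop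
        (𝓝 (∫ x, ((Real.log (⨆ i, qe (g i) (f i) x) / 2 : ℝ) : ℂ) * φ x)) := by
  have hgc : ∀ i, ContinuousOn (g i) U := fun i => (hg i).continuousOn
  have hfc : ∀ i l, ContinuousOn (f i l) U := fun i l => (hf i l).continuousOn
  have hb' : ∀ x ∈ U, ∃ M, ∀ i, qe (g i) (f i) x ≤ M := by
    intro x hx
    obtain ⟨ρ, hρ, M, -, hM⟩ := hb x hx
    exact ⟨M, fun i => hM i x (mem_ball_self hρ)⟩
  have hne' : ∀ᵐ x ∂(volume : Measure (N → ℂ)), x ∈ U → g 0 x ≠ 0 :=
    (ae_restrict_iff' hU.measurableSet).1 hne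
  have hlogK : ∀ K ⊆ U, IsCompact K →
      IntegrableOn (fun x => Real.log ‖g 0 x‖) K volume := fun K hKU hK =>
    hlog.integrableOn_compact_subset hKU hK
  have hbdK : ∀ K ⊆ U, IsCompact K → ∀ C : ℝ,
      IntegrableOn (fun x => C + |Real.log ‖g 0 x‖|) K volume := by
    intro K hKU hK C
    have h1 : IntegrableOn (fun _ : N → ℂ => C) K volume :=
      integrableOn_const hK.measure_lt_top.ne
    exact h1.add (hlogK K hKU hK).abs
  constructor
  · refine (locallyIntegrableOn_iff hU.isLocallyClosed).2 fun K hKU hK => ?_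
    obtain ⟨C, hC0, hC⟩ := conv_bound hb hK hKU
    have hKm : MeasurableSet K := hK.measurableSet
    have hneK : ∀ᵐ x ∂(volume.restrict K), x ∈ K ∧ g 0 x ≠ 0 := by
      rw [ae_restrict_iff' hKm]
      filter_upwards [hne'] with x hx hxK
      exact ⟨hxK, hx (hKU hxK)⟩
    have hlim : ∀ᵐ x ∂(volume.restrict K), Tendsto (fun j => ua j g f x) atTop
        (𝓝 (Real.log (⨆ i, qe (g i) (f i) x) / 2)) := by
      filter_upwards [hneK] with x hx
      exact conv_point (hb' x (hKU hx.1)) hx.2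
    refine Integrable.mono' (hbdK K hKU hK C) ?_ ?_
    · refine aestronglyMeasurable_of_tendsto_ae atTop (f := fun j => ua j g f) (fun j => ?_) hlim
      exact ((conv_cont hgc hfc j).mono hKU).aestronglyMeasurable hKm
    · filter_upwards [hneK, hlim] with x hx hlx
      rw [Real.norm_eq_abs]
      exact le_of_tendsto hlx.abs (Eventually.of_forall fun j => hC j x hx.1 hx.2)
  · intro φ hφ hφc hφU
    obtain ⟨C, hC0, hC⟩ := conv_bound hb hφc hφU
    obtain ⟨B, hB⟩ := hφc.exists_bound_of_continuous hφ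
    have hB0 : 0 ≤ B := (norm_nonneg _).trans (hB 0)
    have hKm : MeasurableSet (tsupport φ) := hφc.measurableSet
    refine tendsto_integral_of_dominated_convergence
      ((tsupport φ).indicator fun x => (C + |Real.log ‖g 0 x‖|) * B) (fun j => ?_) ?_
      (fun j => ?_) ?_
    · have h1 : (fun x => (ua j g f x : ℂ) * φ x) =
          (tsupport φ).indicator (fun x => (ua j g f x : ℂ) * φ x) := by
        funext x
        by_cases hx : x ∈ tsupport φ
        · rw [indicator_of_mem hx]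
        · rw [indicator_of_notMem hx, image_eq_zero_of_notMem_tsupport hx, mul_zero]
      rw [h1, aestronglyMeasurable_indicator_iff hKm]
      refine ContinuousOn.aestronglyMeasurable ?_ hKm
      exact (Complex.continuous_ofReal.comp_continuousOn
        ((conv_cont hgc hfc j).mono hφU)).mul hφ.continuousOn
    · rw [integrable_indicator_iff hKm]
      exact (hbdK _ hφU hφc C).mul_const B
    · filter_upwards [hne'] with x hx
      by_cases hxK : x ∈ tsupport φ
      · rw [indicator_of_mem hxK, norm_mul, Complex.norm_real, Real.norm_eq_abs]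
        exact mul_le_mul (hC j x hxK (hx (hφU hxK))) (hB x) (norm_nonneg _)
          (add_nonneg hC0 (abs_nonneg _))
      · rw [indicator_of_notMem hxK, image_eq_zero_of_notMem_tsupport hxK, mul_zero, norm_zero]
    · filter_upwards [hne'] with x hx
      by_cases hxK : x ∈ tsupport φ
      · have h1 := conv_point (hb' x (hφU hxK)) (hx (hφU hxK))
        exact ((Complex.continuous_ofReal.tendsto _).comp h1).mul_const (φ x)
      · rw [image_eq_zero_of_notMem_tsupport hxK]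
        simp only [mul_zero]
        exact tendsto_const_nhds

end Pool.Agent.H906.BD
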