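import Pool.Agent.H906.BD.Setup

/-! # T13 Countable: the supremum of the `q`-functions is the supremum of a sequence

`D` open in a proper space, `v_1, …, v_r` holomorphic fields on `D`. For `f = (f_1, …, f_r)`,
`f_i ∈ HolB D` (holomorphic, bounded by one), `qe (detf v f) f z = |det (d f_i(v_j))|² e^{∑|f_l|²}`. -/

open Filter Topology Set Metric

namespace Pool.Agent.H906.BD

variable {E : Type*} [NormedAddCommGroup E] [NormedSpace ℂ E]

theorem countable_detf_hol [FiniteDimensional ℂ E] {D : Set E} (hD : IsOpen D) {r : ℕ}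
    {v : Fin r → E → E} (hv : ∀ i, DifferentiableOn ℂ (v i) D) {h : Fin r → E → ℂ}
    (hh : ∀ l, h l ∈ HolB D) : DifferentiableOn ℂ (detf v h) D := by
  have e : detf v h = fun z => ∑ σ : Equiv.Perm (Fin r), ((Equiv.Perm.sign σ : ℤ) : ℂ) *
      ∏ i, fderiv ℂ (h (σ i)) z (v i z) := by
    funext z
    rw [detf, Matrix.det_apply']
    rfl
  rw [e]
  refine DifferentiableOn.fun_sum fun σ _ => ?_
  refine DifferentiableOn.const_mul ?_ _
  have key : ∀ s : Finset (Fin r), DifferentiableOn ℂ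
      (fun z => ∏ i ∈ s, fderiv ℂ (h (σ i)) z (v i z)) D := by
    intro s
    induction s using Finset.induction_on with
    | empty =>
      simp only [Finset.prod_empty]
      exact differentiableOn_const _
    | insert a s ha ih =>
      simp only [Finset.prod_insert ha]
      exact (hol_fderiv_apply hD (hh (σ a)).1 (hv a)).mul ih
  exact key Finset.univ

/-- uniform bound of the entries -/
theorem countable_entries [FiniteDimensional ℂ E] {D : Set E} (hD : IsOpen D) {r : ℕ}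
    {v : Fin r → E → E} (hv : ∀ i, DifferentiableOn ℂ (v i) D) {z₀ : E} (hz₀ : z₀ ∈ D) :
    ∃ ρ > 0, ∃ M, 0 ≤ M ∧ ball z₀ ρ ⊆ D ∧ ∀ f ∈ HolB D, ∀ j, ∀ z ∈ ball z₀ ρ,
      ‖fderiv ℂ f z (v j z)‖ ≤ M := by
  obtain ⟨ρ0, hρ0, hρ0D⟩ := Metric.isOpen_iff.1 hD z₀ hz₀
  have h1 : ∀ j, ∃ ρ > 0, ball z₀ ρ ⊆ D ∧ ∃ M, ∀ h ∈ famD D (v j), ∀ z ∈ ball z₀ ρ, ‖h z‖ ≤ M :=
    fun j => (locBdd_famD hD (hv j)).bdd z₀ hz₀
  choose ρ hρ hρD M hM using h1
  have h2 : ∀ s : Finset (Fin r), ∃ ρ' > 0, ρ' ≤ ρ0 ∧ ∀ j ∈ s, ρ' ≤ ρ j := by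
    intro s
    induction s using Finset.induction_on with
    | empty => exact ⟨ρ0, hρ0, le_refl _, fun j hj => absurd hj (Finset.notMem_empty j)⟩
    | insert a s ha ih =>
      obtain ⟨ρ', hp, hle, hs⟩ := ih
      refine ⟨min ρ' (ρ a), lt_min hp (hρ a), (min_le_left _ _).trans hle, fun j hj => ?_⟩
      rcases Finset.mem_insert.1 hj with h | h
      · rw [h]; exact min_le_right _ _
      · exact (min_le_left _ _).trans (hs j h)
  obtain ⟨ρ', hp, hle, hs⟩ := h2 Finset.univ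
  refine ⟨ρ', hp, ∑ j, |M j|, Finset.sum_nonneg fun j _ => abs_nonneg _,
    (ball_subset_ball hle).trans hρ0D, ?_⟩
  intro f hf j z hz
  have h3 := hM j (fun z => fderiv ℂ f z (v j z)) ⟨f, hf, rfl⟩ z
    (ball_subset_ball (hs j (Finset.mem_univ j)) hz)
  refine (h3.trans (le_abs_self _)).trans ?_
  exact Finset.single_le_sum (f := fun j => |M j|) (fun j _ => abs_nonneg _) (Finset.mem_univ j)

theorem countable_exp_lip {a b c : ℝ} (ha : a ≤ c) (hb : b ≤ c) :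
    |Real.exp a - Real.exp b| ≤ Real.exp c * |a - b| := by
  have key : ∀ a b : ℝ, a ≤ c → b ≤ a → Real.exp a - Real.exp b ≤ Real.exp c * (a - b) := by
    intro a b ha hba
    have h1 : Real.exp b = Real.exp a * Real.exp (b - a) := by
      rw [← Real.exp_add]
      congr 1
      ring
    have h2 : b - a + 1 ≤ Real.exp (b - a) := Real.add_one_le_exp _
    have h3 : Real.exp a ≤ Real.exp c := Real.exp_le_exp.2 ha
    have h4 : 0 < Real.exp a := Real.exp_pos a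
    calc Real.exp a - Real.exp b = Real.exp a * (1 - Real.exp (b - a)) := by rw [h1]; ring
      _ ≤ Real.exp a * (a - b) := mul_le_mul_of_nonneg_left (by linarith) h4.le
      _ ≤ Real.exp c * (a - b) := mul_le_mul_of_nonneg_right h3 (by linarith)
  rcases le_total b a with h | h
  · rw [abs_of_nonneg (sub_nonneg.2 (Real.exp_le_exp.2 h)), abs_of_nonneg (sub_nonneg.2 h)]
    exact key a b ha h
  · rw [abs_sub_comm, abs_sub_comm a b, abs_of_nonneg (sub_nonneg.2 (Real.exp_le_exp.2 h)),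
      abs_of_nonneg (sub_nonneg.2 h)]
    exact key b a hb h

/-- local bound and Lipschitz estimate, uniform in the family -/
theorem countable_key [FiniteDimensional ℂ E] {D : Set E} (hD : IsOpen D) {r : ℕ}
    {v : Fin r → E → E} (hv : ∀ i, DifferentiableOn ℂ (v i) D) {z₀ : E} (hz₀ : z₀ ∈ D) :
    ∃ ρ > 0, ∃ M, ∃ K, 0 ≤ K ∧ ball z₀ ρ ⊆ D ∧ ∀ h : Fin r → E → ℂ, (∀ l, h l ∈ HolB D) →
      (∀ z ∈ ball z₀ ρ, qe (detf v h) h z ≤ M) ∧
      ∀ y ∈ ball z₀ ρ, ∀ z ∈ ball z₀ ρ,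
        |qe (detf v h) h z - qe (detf v h) h y| ≤ K * ‖z - y‖ := by
  obtain ⟨ρ, hρ, M, hM0, hρD, hM⟩ := countable_entries hD hv hz₀
  set B : ℝ := (r.factorial : ℝ) * M ^ r with hB
  have hB0 : 0 ≤ B := by positivity
  set S : ℝ := (r : ℝ) with hS
  have hS0 : 0 ≤ S := by positivity
  have hsub : ball z₀ (ρ / 4) ⊆ ball z₀ ρ := ball_subset_ball (by linarith)
  refine ⟨ρ / 4, by positivity, B ^ 2 * Real.exp S,
    (2 * B * (4 * B / ρ)) * Real.exp S + B ^ 2 * (Real.exp S * (S * (2 * (4 * 1 / ρ)))),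
    by positivity, hsub.trans hρD, ?_⟩
  intro h hh
  have hG : DifferentiableOn ℂ (detf v h) (ball z₀ ρ) := (countable_detf_hol hD hv hh).mono hρD
  have hGB : ∀ z ∈ ball z₀ ρ, ‖detf v h z‖ ≤ B := by
    intro z hz
    have h1 := Matrix.det_le (abv := (⟨⟨norm, norm_mul⟩, norm_nonneg, fun _ => norm_eq_zero, norm_add_le⟩ :
        AbsoluteValue ℂ ℝ))
      (A := Matrix.of fun i j => fderiv ℂ (h i) z (v j z)) (x := M)
      (fun i j => hM (h i) (hh i) j z hz)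
    rw [Fintype.card_fin, nsmul_eq_mul] at h1
    exact h1
  have hSle : ∀ z ∈ ball z₀ ρ, ∑ l, ‖h l z‖ ^ 2 ≤ S := by
    intro z hz
    have h1 : ∑ l, ‖h l z‖ ^ 2 ≤ ∑ l : Fin r, (1 : ℝ) := by
      refine Finset.sum_le_sum fun l _ => ?_
      have h2 := (hh l).2 z (hρD hz)
      have h3 := norm_nonneg (h l z)
      nlinarith
    refine h1.trans (le_of_eq ?_)
    rw [Finset.sum_const, Finset.card_univ, Fintype.card_fin, nsmul_eq_mul, mul_one]
  constructor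
  · intro z hz
    unfold qe
    have h1 := hGB z (hsub hz)
    have h2 := hSle z (hsub hz)
    exact mul_le_mul (pow_le_pow_left₀ (norm_nonneg _) h1 2) (Real.exp_le_exp.2 h2)
      (Real.exp_pos _).le (by positivity)
  · intro y hy z hz
    have hy' := hsub hy
    have hz' := hsub hz
    have a1 := lip_ball hG hGB hy hz
    have a2 : |‖detf v h z‖ - ‖detf v h y‖| ≤ 4 * B / ρ * ‖z - y‖ :=
      (abs_norm_sub_norm_le _ _).trans a1
    have a3 : |‖detf v h z‖ ^ 2 - ‖detf v h y‖ ^ 2| ≤ 2 * B * (4 * B / ρ * ‖z - y‖) := by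
      have e : ‖detf v h z‖ ^ 2 - ‖detf v h y‖ ^ 2 =
          (‖detf v h z‖ + ‖detf v h y‖) * (‖detf v h z‖ - ‖detf v h y‖) := by ring
      rw [e, abs_mul]
      refine mul_le_mul ?_ a2 (abs_nonneg _) (by positivity)
      rw [abs_of_nonneg (by positivity)]
      have := hGB z hz'
      have := hGB y hy'
      linarith
    have b1 : |(∑ l, ‖h l z‖ ^ 2) - ∑ l, ‖h l y‖ ^ 2| ≤ S * (2 * (4 * 1 / ρ)) * ‖z - y‖ := by
      rw [← Finset.sum_sub_distrib]
      refine (Finset.abs_sum_le_sum_abs _ _).trans ?_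
      have b2 : ∀ l : Fin r, |‖h l z‖ ^ 2 - ‖h l y‖ ^ 2| ≤ (2 * (4 * 1 / ρ)) * ‖z - y‖ := by
        intro l
        have c1 := lip_ball ((hh l).1.mono hρD) (fun z hz => (hh l).2 z (hρD hz)) hy hz
        have c2 : |‖h l z‖ - ‖h l y‖| ≤ 4 * 1 / ρ * ‖z - y‖ :=
          (abs_norm_sub_norm_le _ _).trans c1
        have e : ‖h l z‖ ^ 2 - ‖h l y‖ ^ 2 = (‖h l z‖ + ‖h l y‖) * (‖h l z‖ - ‖h l y‖) := by ring
        rw [e, abs_mul, mul_assoc]
        refine mul_le_mul ?_ c2 (abs_nonneg _) (by norm_num)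
        rw [abs_of_nonneg (by positivity)]
        have := (hh l).2 z (hρD hz')
        have := (hh l).2 y (hρD hy')
        linarith
      refine (Finset.sum_le_sum fun l _ => b2 l).trans (le_of_eq ?_)
      rw [Finset.sum_const, Finset.card_univ, Fintype.card_fin, nsmul_eq_mul, hS]
      ring
    have b3 := countable_exp_lip (hSle z hz') (hSle y hy')
    have b4 : |Real.exp (∑ l, ‖h l z‖ ^ 2) - Real.exp (∑ l, ‖h l y‖ ^ 2)| ≤
        Real.exp S * (S * (2 * (4 * 1 / ρ)) * ‖z - y‖) :=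
      b3.trans (mul_le_mul_of_nonneg_left b1 (Real.exp_pos S).le)
    unfold qe
    have e : ‖detf v h z‖ ^ 2 * Real.exp (∑ l, ‖h l z‖ ^ 2) -
        ‖detf v h y‖ ^ 2 * Real.exp (∑ l, ‖h l y‖ ^ 2) =
        (‖detf v h z‖ ^ 2 - ‖detf v h y‖ ^ 2) * Real.exp (∑ l, ‖h l z‖ ^ 2) +
        ‖detf v h y‖ ^ 2 * (Real.exp (∑ l, ‖h l z‖ ^ 2) - Real.exp (∑ l, ‖h l y‖ ^ 2)) := by ring
    rw [e]
    refine (abs_add_le _ _).trans ?_
    rw [abs_mul, abs_mul, abs_of_pos (Real.exp_pos _), abs_of_nonneg (sq_nonneg ‖detf v h y‖)]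
    have c1 : |‖detf v h z‖ ^ 2 - ‖detf v h y‖ ^ 2| * Real.exp (∑ l, ‖h l z‖ ^ 2) ≤
        2 * B * (4 * B / ρ * ‖z - y‖) * Real.exp S :=
      mul_le_mul a3 (Real.exp_le_exp.2 (hSle z hz')) (Real.exp_pos _).le (by positivity)
    have c2 : ‖detf v h y‖ ^ 2 *
        |Real.exp (∑ l, ‖h l z‖ ^ 2) - Real.exp (∑ l, ‖h l y‖ ^ 2)| ≤
        B ^ 2 * (Real.exp S * (S * (2 * (4 * 1 / ρ)) * ‖z - y‖)) :=
      mul_le_mul (pow_le_pow_left₀ (norm_nonneg _) (hGB y hy') 2) b4 (abs_nonneg _) (by positivity)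
    refine (add_le_add c1 c2).trans (le_of_eq ?_)
    ring

/-- local bound, used elsewhere -/
theorem qe_bound [FiniteDimensional ℂ E] {D : Set E} (hD : IsOpen D) {r : ℕ} {v : Fin r → E → E}
    (hv : ∀ i, DifferentiableOn ℂ (v i) D) {z₀ : E} (hz₀ : z₀ ∈ D) :
    ∃ ρ > 0, ∃ M, ball z₀ ρ ⊆ D ∧ ∀ h : Fin r → E → ℂ, (∀ l, h l ∈ HolB D) →
      ∀ z ∈ ball z₀ ρ, qe (detf v h) h z ≤ M := by
  obtain ⟨ρ, hρ, M, K, -, hsub, h⟩ := countable_key hD hv hz₀
  exact ⟨ρ, hρ, M, hsub, fun f hf => (h f hf).1⟩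

theorem exists_seq [FiniteDimensional ℂ E] {D : Set E} (hD : IsOpen D) {r : ℕ} {v : Fin r → E → E}
    (hv : ∀ i, DifferentiableOn ℂ (v i) D) (f₀ : Fin r → E → ℂ) (hf₀ : ∀ l, f₀ l ∈ HolB D) :
    ∃ f : ℕ → Fin r → E → ℂ, f 0 = f₀ ∧ (∀ i l, f i l ∈ HolB D) ∧
      ∀ z ∈ D, BddAbove (range fun i => qe (detf v (f i)) (f i) z) ∧
        ∀ h : Fin r → E → ℂ, (∀ l, h l ∈ HolB D) →
          qe (detf v h) h z ≤ ⨆ i, qe (detf v (f i)) (f i) z := by
  rcases D.eq_empty_or_nonempty with hDe | hDn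
  · refine ⟨fun _ => f₀, rfl, fun _ => hf₀, ?_⟩
    intro z hz
    rw [hDe] at hz
    exact absurd hz (notMem_empty z)
  have hprop : ProperSpace E := FiniteDimensional.proper ℂ E
  have hne : Nonempty D := hDn.to_subtype
  -- the supremum at a point
  have hbdd : ∀ z ∈ D, ∃ M, ∀ h : Fin r → E → ℂ, (∀ l, h l ∈ HolB D) → qe (detf v h) h z ≤ M := by
    intro z hz
    obtain ⟨ρ, hρ, M, -, h⟩ := qe_bound hD hv hz
    exact ⟨M, fun f hf => h f hf z (mem_ball_self hρ)⟩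
  have hch : ∀ (p : D) (n : ℕ), ∃ g : Fin r → E → ℂ, (∀ l, g l ∈ HolB D) ∧
      ∀ h : Fin r → E → ℂ, (∀ l, h l ∈ HolB D) →
        qe (detf v h) h p ≤ qe (detf v g) g p + 1 / ((n : ℝ) + 1) := by
    intro p n
    set 𝓢 : Set ℝ := {t | ∃ h : Fin r → E → ℂ, (∀ l, h l ∈ HolB D) ∧ t = qe (detf v h) h p} with h𝓢
    have hSne : 𝓢.Nonempty := ⟨_, f₀, hf₀, rfl⟩
    have hSb : BddAbove 𝓢 := by
      obtain ⟨M, hM⟩ := hbdd p p.2
      refine ⟨M, ?_⟩
      rintro _ ⟨h, hh, rfl⟩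
      exact hM h hh
    have hp : 0 < 1 / ((n : ℝ) + 1) := by positivity
    obtain ⟨_, ⟨g, hg, rfl⟩, hlt⟩ := exists_lt_of_lt_csSup hSne
      (show sSup 𝓢 - 1 / ((n : ℝ) + 1) < sSup 𝓢 by linarith)
    refine ⟨g, hg, fun h hh => ?_⟩
    have h1 : qe (detf v h) h p ≤ sSup 𝓢 := le_csSup hSb ⟨h, hh, rfl⟩
    linarith
  choose g hg hgm using hch
  set f : ℕ → Fin r → E → ℂ := fun m => match m with
    | 0 => f₀
    | m + 1 => g (TopologicalSpace.denseSeq D (Nat.unpair m).1) (Nat.unpair m).2 with hf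
  have hfH : ∀ i l, f i l ∈ HolB D := by
    intro i
    rcases i with _ | m
    · exact hf₀
    · exact hg _ _
  refine ⟨f, rfl, hfH, ?_⟩
  intro z hz
  have hb : BddAbove (range fun i => qe (detf v (f i)) (f i) z) := by
    obtain ⟨M, hM⟩ := hbdd z hz
    refine ⟨M, ?_⟩
    rintro _ ⟨i, rfl⟩
    exact hM (f i) (hfH i)
  refine ⟨hb, fun h hh => ?_⟩
  obtain ⟨ρ, hρ, M, K, hK0, hsub, hkey⟩ := countable_key hD hv hz
  refine le_of_forall_pos_le_add fun ε hε => ?_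
  -- a point of the dense sequence near `z`
  set δ : ℝ := min ρ (ε / (4 * (K + 1))) with hδ
  have hδ0 : 0 < δ := lt_min hρ (by positivity)
  obtain ⟨k, hk⟩ := (TopologicalSpace.denseRange_denseSeq D).exists_dist_lt (⟨z, hz⟩ : D) hδ0
  obtain ⟨n, hn⟩ := exists_nat_one_div_lt (show (0 : ℝ) < ε / 2 by positivity)
  set p : D := TopologicalSpace.denseSeq D k with hp
  have hd : ‖z - (p : E)‖ < δ := by
    rw [← dist_eq_norm]
    exact hk
  have hpb : (p : E) ∈ ball z ρ := by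
    rw [mem_ball, dist_comm, dist_eq_norm]
    exact hd.trans_le (min_le_left _ _)
  have hzb : z ∈ ball z ρ := mem_ball_self hρ
  have h1 := (hkey h hh).2 p hpb z hzb
  have h2 := (hkey (g p n) (hg p n)).2 z hzb p hpb
  have h3 := hgm p n h hh
  have h4 : qe (detf v (g p n)) (g p n) z ≤ ⨆ i, qe (detf v (f i)) (f i) z := by
    have e : f (Nat.pair k n + 1) = g p n := by
      show g (TopologicalSpace.denseSeq D (Nat.unpair (Nat.pair k n)).1)
        (Nat.unpair (Nat.pair k n)).2 = g p n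
      rw [Nat.unpair_pair]
    have h5 := le_ciSup hb (Nat.pair k n + 1)
    rw [e] at h5
    exact h5
  have h6 : K * ‖z - (p : E)‖ ≤ ε / 4 := by
    have h7 : ‖z - (p : E)‖ ≤ ε / (4 * (K + 1)) := hd.le.trans (min_le_right _ _)
    calc K * ‖z - (p : E)‖ ≤ (K + 1) * (ε / (4 * (K + 1))) :=
          mul_le_mul (by linarith) h7 (norm_nonneg _) (by linarith)
      _ = ε / 4 := by
          have : K + 1 ≠ 0 := by positivity
          field_simp
  rw [norm_sub_rev (p : E) z] at h2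
  have h8 := (abs_le.1 h1).2
  have h9 := (abs_le.1 h2).2
  linarith

end Pool.Agent.H906.BD
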