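import Pool.Agent.H906.BD.Setup

/-! # T12 LogInt: `log |h|` is locally integrable, for a holomorphic function `h ≢ 0` on a domain of `ℂ^N`

Also: the zero set of `h` has measure zero.

Proof. (1) Sub-mean inequality with a positive constant inside: for `ζ ↦ k(ζ)` holomorphic near the
closed disc `|ζ| ≤ 1` and `ε > 0`,
`log (|k(0)|² + ε) ≤ (1/2π) ∫ log (|k(e^{iθ})|² + ε) dθ` (log of the norm of the vector-valued
holomorphic function `(k, √ε)`: pair with the unit vector in the direction of the value at `0` and use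
Jensen's inequality for a scalar holomorphic function `c k + d`,
Mathlib: `MeromorphicOn.circleAverage_log_norm`, `AnalyticOnNhd.circleAverage_log_norm...`, or a direct
proof). (2) For a closed ball `closedBall x' R ⊆ U` with `h x' ≠ 0`: average over `x ∈ ball x' R` and
over the rotations `x ↦ x' + e^{iθ} (x - x')` (measure preserving on `ℂ^N`, they map the ball to itself):
`∫_{B} log (|h|² + ε) ≥ vol(B) log (|h(x')|² + ε) ≥ vol(B) log |h(x')|²`. Let `ε → 0` (monotone
convergence; `log(|h|²+ε)` is bounded above on `B`): `h ≠ 0` almost everywhere on `B` and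
`log |h|` is integrable on `B`. (The library module
`Pool/Graph/R_pool_sql_team_seeded_f72693b1/W738/HS/Montel.lean` has the rotations of balls and
sub-mean inequalities: fetch it with `team-store fetch /workdir/pool <path>` and import it if useful.)
(3) Every `x₀ ∈ U` lies in such a ball: choose `R` with `closedBall x₀ (3R) ⊆ U`; by the identity theorem
(`identity` in `BD/Hol.lean`) `h` does not vanish identically on `ball x₀ R`; take `x' ∈ ball x₀ R`
with `h x' ≠ 0`. Then `x₀ ∈ ball x' R`. The null set statement follows by Lindelöf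
(`MeasureTheory.measure_null_of_locally_null` or a countable cover). -/

open Filter Topology Set Metric MeasureTheory

namespace Pool.Agent.H906.BD

variable {N : Type*} [Fintype N] [DecidableEq N]

open scoped ENNReal

/-- multiplication by a complex number of absolute value one preserves Haar measure -/
theorem logint_rot {F : Type*} [NormedAddCommGroup F] [NormedSpace ℂ F] [FiniteDimensional ℂ F]
    [MeasurableSpace F] [BorelSpace F] (μ : Measure F) [μ.IsAddHaarMeasure] (c : ℂ)
    (hc : ‖c‖ = 1) : MeasurePreserving (fun y : F => c • y) μ μ := by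
  let _ : NormedSpace ℝ F := NormedSpace.restrictScalars ℝ ℂ F
  have _ : IsScalarTower ℝ ℂ F := RestrictScalars.isScalarTower ℝ ℂ F
  have _ : FiniteDimensional ℝ F := FiniteDimensional.trans ℝ ℂ F
  have hc0 : c ≠ 0 := by
    intro h
    rw [h, norm_zero] at hc
    exact zero_ne_one hc
  let L : F →ₗ[ℝ] F := (LinearMap.lsmul ℂ F c).restrictScalars ℝ
  have hL : ∀ y, L y = c • y := fun y => rfl
  have hinj : Function.Injective L := by
    intro y z h
    rw [hL, hL] at h
    exact smul_right_injective F hc0 h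
  have hdet : LinearMap.det L ≠ 0 := by
    have hu : IsUnit L := (LinearMap.isUnit_iff_ker_eq_bot L).2 (LinearMap.ker_eq_bot.2 hinj)
    exact (LinearMap.isUnit_det L hu).ne_zero
  have hmap := Measure.map_linearMap_addHaar_eq_smul_addHaar μ hdet
  have hmeas : Measurable (fun y : F => c • y) := (continuous_const_smul c).measurable
  have hball : (fun y : F => c • y) ⁻¹' ball 0 1 = ball 0 1 := by
    ext y
    simp [norm_smul, hc]
  have hval : μ (ball (0:F) 1) = ENNReal.ofReal |(LinearMap.det L)⁻¹| * μ (ball (0:F) 1) := by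
    have h1 := congrArg (fun ν : Measure F => ν (ball 0 1)) hmap
    simp only [Measure.smul_apply, smul_eq_mul] at h1
    rw [← h1]
    change _ = (Measure.map (fun y : F => c • y) μ) (ball 0 1)
    rw [Measure.map_apply hmeas measurableSet_ball, hball]
  have hpos : μ (ball (0:F) 1) ≠ 0 := (measure_ball_pos μ 0 one_pos).ne'
  have hfin : μ (ball (0:F) 1) ≠ ⊤ := measure_ball_lt_top.ne
  have hone : ENNReal.ofReal |(LinearMap.det L)⁻¹| = 1 := by
    have h2 : 1 * μ (ball (0:F) 1) = ENNReal.ofReal |(LinearMap.det L)⁻¹| * μ (ball (0:F) 1) := by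
      rw [one_mul]; exact hval
    exact ((ENNReal.mul_left_inj hpos hfin).1 h2).symm
  refine ⟨hmeas, ?_⟩
  change Measure.map L μ = μ
  rw [hmap, hone, one_smul]

/-- averaging over the rotations of a ball -/
theorem logint_avg {F : Type*} [NormedAddCommGroup F] [NormedSpace ℂ F] [FiniteDimensional ℂ F]
    [MeasurableSpace F] [BorelSpace F] (μ : Measure F) [μ.IsAddHaarMeasure] (x : F) (R : ℝ)
    (h : F → ℝ≥0∞) (hhm : Measurable h) (h0 : ∀ y, y ∉ ball x R → h y = 0) (c : ℝ≥0∞)
    (hc : ∀ y ∈ ball x R, ∫⁻ θ in Ioc 0 (2 * Real.pi), h (x + circleMap 0 1 θ • (y - x)) ≤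
      ENNReal.ofReal (2 * Real.pi) * c) :
    ∫⁻ y, h y ∂μ ≤ c * μ (ball x R) := by
  have hpi : (0:ℝ) < 2 * Real.pi := by positivity
  have _ : FiniteDimensional ℝ F := FiniteDimensional.trans ℝ ℂ F
  have _ : ProperSpace F := FiniteDimensional.proper ℂ F
  have _ : SecondCountableTopology F := inferInstance
  have hrot : ∀ θ : ℝ, ∫⁻ y, h (x + circleMap 0 1 θ • (y - x)) ∂μ = ∫⁻ y, h y ∂μ := by
    intro θ
    have hc : ‖circleMap 0 1 θ‖ = 1 := by simp
    have e1 := lintegral_sub_right_eq_self (μ := μ)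
      (fun y => h (x + circleMap 0 1 θ • y)) x
    have e2 := (logint_rot μ (circleMap 0 1 θ) hc).lintegral_comp
      (f := fun y => h (x + y)) (hhm.comp (measurable_const_add x))
    have e3 := lintegral_add_left_eq_self (μ := μ) h x
    rw [e1, e2, e3]
  have hJ : Measurable (fun q : ℝ × F => h (x + circleMap 0 1 q.1 • (q.2 - x))) := by
    apply hhm.comp
    apply Continuous.measurable
    have : Continuous (fun q : ℝ × F => circleMap 0 1 q.1) :=
      (continuous_circleMap 0 1).comp continuous_fst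
    exact continuous_const.add (this.smul (continuous_snd.sub continuous_const))
  have hswap : ∫⁻ θ in Ioc 0 (2 * Real.pi), ∫⁻ y, h (x + circleMap 0 1 θ • (y - x)) ∂μ =
      ∫⁻ y, (∫⁻ θ in Ioc 0 (2 * Real.pi), h (x + circleMap 0 1 θ • (y - x))) ∂μ :=
    lintegral_lintegral_swap hJ.aemeasurable
  have hleft : ∫⁻ θ in Ioc 0 (2 * Real.pi), ∫⁻ y, h (x + circleMap 0 1 θ • (y - x)) ∂μ =
      ENNReal.ofReal (2 * Real.pi) * ∫⁻ y, h y ∂μ := by
    simp_rw [hrot]
    rw [setLIntegral_const, Real.volume_Ioc, sub_zero, mul_comm]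
  have hright : ∫⁻ y, (∫⁻ θ in Ioc 0 (2 * Real.pi), h (x + circleMap 0 1 θ • (y - x))) ∂μ ≤
      ENNReal.ofReal (2 * Real.pi) * (c * μ (ball x R)) := by
    calc ∫⁻ y, (∫⁻ θ in Ioc 0 (2 * Real.pi), h (x + circleMap 0 1 θ • (y - x))) ∂μ
        = ∫⁻ y in ball x R, (∫⁻ θ in Ioc 0 (2 * Real.pi),
            h (x + circleMap 0 1 θ • (y - x))) ∂μ := by
          rw [← lintegral_indicator measurableSet_ball]
          apply lintegral_congr
          intro y
          by_cases hy : y ∈ ball x R
          · rw [Set.indicator_of_mem hy]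
          · rw [Set.indicator_of_notMem hy]
            have : ∀ θ : ℝ, h (x + circleMap 0 1 θ • (y - x)) = 0 := by
              intro θ
              apply h0
              intro hin
              apply hy
              rw [mem_ball, dist_eq_norm, add_sub_cancel_left, norm_smul] at hin
              have hc : ‖circleMap 0 1 θ‖ = 1 := by simp
              rw [hc, one_mul] at hin
              rwa [mem_ball, dist_eq_norm]
            simp_rw [this]
            simp
      _ ≤ ∫⁻ _ in ball x R, ENNReal.ofReal (2 * Real.pi) * c ∂μ :=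
          setLIntegral_mono' measurableSet_ball hc
      _ = _ := by rw [setLIntegral_const, mul_assoc]
  rw [← hswap, hleft] at hright
  have hpi0 : ENNReal.ofReal (2 * Real.pi) ≠ 0 := (ENNReal.ofReal_pos.2 hpi).ne'
  exact (ENNReal.mul_le_mul_iff_right hpi0 ENNReal.ofReal_ne_top).1 hright

/-- `log (M / |w|)`, infinite at `0` -/
noncomputable def logint_phi (M : ℝ) (w : ℂ) : ℝ≥0∞ :=
  if w = 0 then ⊤ else ENNReal.ofReal (Real.log M - Real.log ‖w‖)

theorem logint_phi_meas (M : ℝ) : Measurable (logint_phi M) := by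
  unfold logint_phi
  refine Measurable.ite (measurableSet_singleton (0 : ℂ)) measurable_const ?_
  exact (measurable_const.sub (Real.measurable_log.comp measurable_norm)).ennreal_ofReal

/-- Jensen's inequality on the unit circle -/
theorem logint_jensen {g : ℂ → ℂ} {M : ℝ} (hg : AnalyticOnNhd ℂ g (closedBall 0 1))
    (h0 : g 0 ≠ 0) (hM : ∀ z ∈ closedBall (0 : ℂ) 1, ‖g z‖ ≤ M) :
    ∫⁻ θ in Ioc 0 (2 * Real.pi), logint_phi M (g (circleMap 0 1 θ)) ≤
      ENNReal.ofReal (2 * Real.pi) * ENNReal.ofReal (Real.log M - Real.log ‖g 0‖) := by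
  have hpi : (0:ℝ) < 2 * Real.pi := by positivity
  have hmem : ∀ θ : ℝ, circleMap 0 1 θ ∈ closedBall (0 : ℂ) 1 := by
    intro θ
    simp
  have hfin : (closedBall (0 : ℂ) 1 \ g ⁻¹' {0}ᶜ).Finite := by
    refine (isCompact_closedBall (0 : ℂ) 1).finite_sdiff_of_mem_codiscreteWithin ?_
    refine hg.preimage_zero_mem_codiscreteWithin h0 (by simp) ?_
    exact (convex_closedBall (0 : ℂ) 1).isConnected ⟨0, by simp⟩
  have hnull : volume ((circleMap 0 1) ⁻¹' (closedBall (0 : ℂ) 1 \ g ⁻¹' {0}ᶜ)) = 0 :=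
    (hfin.countable.preimage_circleMap 0 one_ne_zero).measure_zero _
  have hne : ∀ᵐ θ : ℝ, g (circleMap 0 1 θ) ≠ 0 := by
    rw [ae_iff]
    refine measure_mono_null ?_ hnull
    intro θ hθ
    refine ⟨hmem θ, ?_⟩
    intro h
    exact hθ h
  have hne' : ∀ᵐ θ ∂(volume.restrict (Ioc 0 (2 * Real.pi))), g (circleMap 0 1 θ) ≠ 0 :=
    ae_restrict_of_ae hne
  have hci : CircleIntegrable (fun z => Real.log ‖g z‖) 0 1 := by
    refine MeromorphicOn.circleIntegrable_log_norm ?_
    intro z hz
    refine (hg z ?_).meromorphicAt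
    rw [abs_one] at hz
    exact sphere_subset_closedBall hz
  have hint : IntegrableOn (fun θ : ℝ => Real.log ‖g (circleMap 0 1 θ)‖)
      (Ioc 0 (2 * Real.pi)) volume := by
    rw [← intervalIntegrable_iff_integrableOn_Ioc_of_le hpi.le]
    exact hci
  have hcI : IntegrableOn (fun _ : ℝ => Real.log M) (Ioc 0 (2 * Real.pi)) volume :=
    integrableOn_const measure_Ioc_lt_top.ne
  have hint2 : IntegrableOn (fun θ : ℝ => Real.log M - Real.log ‖g (circleMap 0 1 θ)‖)
      (Ioc 0 (2 * Real.pi)) volume := by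
    refine Integrable.sub ?_ hint
    exact hcI
  have hnonneg : 0 ≤ᵐ[volume.restrict (Ioc 0 (2 * Real.pi))]
      (fun θ : ℝ => Real.log M - Real.log ‖g (circleMap 0 1 θ)‖) := by
    filter_upwards [hne'] with θ hθ
    have : Real.log ‖g (circleMap 0 1 θ)‖ ≤ Real.log M :=
      Real.log_le_log (norm_pos_iff.2 hθ) (hM _ (hmem θ))
    show 0 ≤ _
    linarith
  have e1 : ∫⁻ θ in Ioc 0 (2 * Real.pi), logint_phi M (g (circleMap 0 1 θ)) =
      ∫⁻ θ in Ioc 0 (2 * Real.pi),
        ENNReal.ofReal (Real.log M - Real.log ‖g (circleMap 0 1 θ)‖) := by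
    apply lintegral_congr_ae
    filter_upwards [hne'] with θ hθ
    unfold logint_phi
    rw [if_neg hθ]
  rw [e1, ← ofReal_integral_eq_lintegral_ofReal hint2 hnonneg, ← ENNReal.ofReal_mul hpi.le]
  apply ENNReal.ofReal_le_ofReal
  have e2 : ∫ θ in Ioc 0 (2 * Real.pi), (Real.log M - Real.log ‖g (circleMap 0 1 θ)‖) =
      2 * Real.pi * Real.log M - ∫ θ in (0:ℝ)..2 * Real.pi, Real.log ‖g (circleMap 0 1 θ)‖ := by
    rw [integral_sub hcI hint, intervalIntegral.integral_of_le hpi.le]
    congr 1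
    rw [setIntegral_const, smul_eq_mul]
    congr 1
    rw [measureReal_def, Real.volume_Ioc, sub_zero, ENNReal.toReal_ofReal hpi.le]
  rw [e2]
  have hJ := AnalyticOnNhd.circleAverage_log_norm (c := 0) (R := 1) (f := g) one_ne_zero
    (by rw [abs_one]; exact hg) h0
  have hs : 0 ≤ ∑ᶠ u, (MeromorphicOn.divisor g (closedBall 0 |1|) u : ℝ) *
      Real.log (1 * ‖(0 : ℂ) - u‖⁻¹) := by
    refine finsum_nonneg fun u => ?_
    by_cases hu : u ∈ closedBall (0 : ℂ) |1|
    · refine mul_nonneg ?_ ?_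
      · have h1 : 0 ≤ MeromorphicOn.divisor g (closedBall 0 |1|) :=
          MeromorphicOn.AnalyticOnNhd.divisor_nonneg (by rw [abs_one]; exact hg)
        exact_mod_cast h1 u
      · rw [one_mul, zero_sub, norm_neg, Real.log_inv]
        have : Real.log ‖u‖ ≤ 0 := Real.log_nonpos (norm_nonneg _) (by simpa using hu)
        linarith
    · rw [Function.locallyFinsuppWithin.apply_eq_zero_of_notMem _ hu]
      simp
  rw [Real.circleAverage_def, smul_eq_mul] at hJ
  have h3 : Real.log ‖g 0‖ ≤ (2 * Real.pi)⁻¹ *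
      ∫ θ in (0:ℝ)..2 * Real.pi, Real.log ‖g (circleMap 0 1 θ)‖ := by
    rw [hJ]; linarith
  have h4 : 2 * Real.pi * Real.log ‖g 0‖ ≤
      ∫ θ in (0:ℝ)..2 * Real.pi, Real.log ‖g (circleMap 0 1 θ)‖ := by
    have := mul_le_mul_of_nonneg_left h3 hpi.le
    rwa [← mul_assoc, mul_inv_cancel₀ hpi.ne', one_mul] at this
  linarith

/-- the theorem on a ball -/
theorem logint_ball {x : N → ℂ} {R M : ℝ} {h : (N → ℂ) → ℂ}
    (hh : DifferentiableOn ℂ h (ball x R)) (hM : ∀ y ∈ ball x R, ‖h y‖ ≤ M) (hx : h x ≠ 0) :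
    volume ({y | h y = 0} ∩ ball x R) = 0 ∧
      IntegrableOn (fun y => Real.log ‖h y‖) (ball x R) volume := by
  classical
  set k : (N → ℂ) → ℂ := (ball x R).indicator h with hk
  have hkm : Measurable k := by
    rw [hk, ← Set.piecewise_eq_indicator]
    exact hh.continuousOn.measurable_piecewise continuousOn_const isOpen_ball.measurableSet
  have hkeq : ∀ y ∈ ball x R, k y = h y := fun y hy => by rw [hk, Set.indicator_of_mem hy]
  set H : (N → ℂ) → ℝ≥0∞ := (ball x R).indicator (fun y => logint_phi M (k y)) with hH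
  have hHm : Measurable H := ((logint_phi_meas M).comp hkm).indicator measurableSet_ball
  have key : ∫⁻ y, H y ≤ ENNReal.ofReal (Real.log M - Real.log ‖h x‖) * volume (ball x R) := by
    refine logint_avg volume x R H hHm (fun y hy => by rw [hH, Set.indicator_of_notMem hy]) _ ?_
    intro y hy
    have hd : ‖y - x‖ < R := by rwa [mem_ball, dist_eq_norm] at hy
    have hin : ∀ z ∈ closedBall (0 : ℂ) 1, x + z • (y - x) ∈ ball x R := by
      intro z hz
      have hz1 : ‖z‖ ≤ 1 := by simpa using hz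
      rw [mem_ball, dist_eq_norm, add_sub_cancel_left, norm_smul]
      calc ‖z‖ * ‖y - x‖ ≤ 1 * ‖y - x‖ := by gcongr
        _ < R := by rw [one_mul]; exact hd
    have hg : AnalyticOnNhd ℂ (fun z : ℂ => h (x + z • (y - x))) (closedBall 0 1) := by
      have hV : IsOpen ((fun z : ℂ => x + z • (y - x)) ⁻¹' (ball x R)) :=
        isOpen_ball.preimage (by fun_prop)
      have hdiff : DifferentiableOn ℂ (fun z : ℂ => h (x + z • (y - x)))
          ((fun z : ℂ => x + z • (y - x)) ⁻¹' (ball x R)) := by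
        refine hh.comp (Differentiable.differentiableOn (by fun_prop)) ?_
        intro z hz
        exact hz
      exact (hdiff.analyticOnNhd hV).mono hin
    have hJ := logint_jensen hg (by simpa using hx) (fun z hz => hM _ (hin z hz))
    have e0 : x + (0 : ℂ) • (y - x) = x := by simp
    simp only [e0] at hJ
    refine (le_of_eq ?_).trans hJ
    apply lintegral_congr
    intro θ
    have hc := hin (circleMap 0 1 θ) (by simp)
    rw [hH, Set.indicator_of_mem hc, hkeq _ hc]
  have hfin : ∫⁻ y, H y ≠ ⊤ := by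
    refine ne_top_of_le_ne_top ?_ key
    exact ENNReal.mul_ne_top ENNReal.ofReal_ne_top measure_ball_lt_top.ne
  have hae : ∀ᵐ y, H y < ⊤ := ae_lt_top hHm hfin
  have hzero : volume ({y | h y = 0} ∩ ball x R) = 0 := by
    rw [ae_iff] at hae
    refine measure_mono_null ?_ hae
    rintro y ⟨hy1, hy2⟩
    intro hlt
    rw [hH, Set.indicator_of_mem hy2, hkeq y hy2] at hlt
    unfold logint_phi at hlt
    have hy1' : h y = 0 := hy1
    rw [if_pos hy1'] at hlt
    exact lt_irrefl _ hlt
  refine ⟨hzero, ?_⟩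
  have hmeas : AEStronglyMeasurable (fun y => Real.log ‖h y‖) (volume.restrict (ball x R)) := by
    refine AEStronglyMeasurable.congr
      (f := fun y => Real.log ‖k y‖) (Real.measurable_log.comp hkm.norm).aestronglyMeasurable ?_
    rw [EventuallyEq, ae_restrict_iff' measurableSet_ball]
    exact Eventually.of_forall fun y hy => by rw [hkeq y hy]
  refine ⟨hmeas, ?_⟩
  unfold HasFiniteIntegral
  have hbd : ∫⁻ y in ball x R, ‖Real.log ‖h y‖‖ₑ ≤
      ∫⁻ y in ball x R, (ENNReal.ofReal |Real.log M| + H y) := by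
    refine lintegral_mono_ae ?_
    rw [ae_restrict_iff' measurableSet_ball]
    have hz' : ∀ᵐ y, y ∉ {y | h y = 0} ∩ ball x R := measure_eq_zero_iff_ae_notMem.1 hzero
    filter_upwards [hz'] with y hy hyb
    have hy0 : h y ≠ 0 := fun h0 => hy ⟨h0, hyb⟩
    have hle : Real.log ‖h y‖ ≤ Real.log M := Real.log_le_log (norm_pos_iff.2 hy0) (hM y hyb)
    rw [hH, Set.indicator_of_mem hyb, hkeq y hyb]
    unfold logint_phi
    rw [if_neg hy0, ← ENNReal.ofReal_add (abs_nonneg _) (by linarith), Real.enorm_eq_ofReal_abs]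
    apply ENNReal.ofReal_le_ofReal
    have h1 : |Real.log ‖h y‖| ≤ |Real.log M| + |Real.log M - Real.log ‖h y‖| := by
      have := abs_sub (Real.log M) (Real.log M - Real.log ‖h y‖)
      rwa [sub_sub_cancel] at this
    rwa [abs_of_nonneg (show 0 ≤ Real.log M - Real.log ‖h y‖ by linarith)] at h1
  refine lt_of_le_of_lt hbd ?_
  rw [lintegral_add_left measurable_const, setLIntegral_const]
  refine ENNReal.add_lt_top.2 ⟨ENNReal.mul_lt_top ENNReal.ofReal_lt_top measure_ball_lt_top, ?_⟩
  exact lt_of_le_of_lt (setLIntegral_le_lintegral _ _) (lt_top_iff_ne_top.2 hfin)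

theorem log_locallyIntegrable {U : Set (N → ℂ)} (hU : IsOpen U) (hc : IsPreconnected U)
    {h : (N → ℂ) → ℂ} (hh : DifferentiableOn ℂ h U) (hne : ∃ x ∈ U, h x ≠ 0) :
    (∀ᵐ x ∂(volume.restrict U), h x ≠ 0) ∧
      LocallyIntegrableOn (fun x => Real.log ‖h x‖) U volume := by
  have hloc : ∀ x₀ ∈ U, ∃ (x : N → ℂ) (R : ℝ), ball x R ∈ 𝓝 x₀ ∧
      volume ({y | h y = 0} ∩ ball x R) = 0 ∧
      IntegrableOn (fun y => Real.log ‖h y‖) (ball x R) volume := by
    intro x₀ hx₀
    obtain ⟨ε, hε, hεU⟩ := Metric.isOpen_iff.1 hU x₀ hx₀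
    set R := ε / 4 with hR
    have hR0 : 0 < R := by positivity
    have hsub : closedBall x₀ (3 * R) ⊆ U :=
      (closedBall_subset_ball (by rw [hR]; linarith)).trans hεU
    obtain ⟨x, hxb, hx⟩ : ∃ x ∈ ball x₀ R, h x ≠ 0 := by
      by_contra hcon
      push Not at hcon
      obtain ⟨y, hy, hy0⟩ := hne
      refine hy0 (identity hU hc hh hx₀ ?_ y hy)
      filter_upwards [ball_mem_nhds x₀ hR0] with z hz
      exact hcon z hz
    have hsub2 : ball x (2 * R) ⊆ closedBall x₀ (3 * R) := by
      intro y hy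
      rw [mem_ball] at hy hxb
      rw [mem_closedBall]
      have := dist_triangle y x x₀
      linarith
    obtain ⟨M, hM⟩ := (isCompact_closedBall x₀ (3 * R)).exists_bound_of_continuousOn
      (hh.continuousOn.mono hsub)
    obtain ⟨h1, h2⟩ := logint_ball (x := x) (R := 2 * R) (M := M)
      (hh.mono (hsub2.trans hsub)) (fun y hy => hM y (hsub2 hy)) hx
    refine ⟨x, 2 * R, isOpen_ball.mem_nhds ?_, h1, h2⟩
    rw [mem_ball, dist_comm]
    rw [mem_ball] at hxb
    linarith
  constructor
  · rw [ae_restrict_iff' hU.measurableSet, ae_iff]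
    refine measure_null_of_locally_null _ fun x₀ hx₀ => ?_
    have hx₀' : x₀ ∈ U := by
      by_contra hcon
      exact hx₀ (fun h => absurd h hcon)
    obtain ⟨x, R, h1, h2, -⟩ := hloc x₀ hx₀'
    refine ⟨{a | ¬(a ∈ U → h a ≠ 0)} ∩ ball x R,
      inter_mem self_mem_nhdsWithin (mem_nhdsWithin_of_mem_nhds h1), ?_⟩
    refine measure_mono_null ?_ h2
    rintro y ⟨hy1, hy2⟩
    refine ⟨?_, hy2⟩
    by_contra hcon
    exact hy1 (fun _ => hcon)
  · intro x₀ hx₀
    obtain ⟨x, R, h1, -, h3⟩ := hloc x₀ hx₀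
    exact ⟨ball x R, mem_nhdsWithin_of_mem_nhds h1, h3⟩

end Pool.Agent.H906.BD
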