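import Pool.Agent.H906.BD.Setup

/-! # T22 NoField: a group without invariant fields is discrete

`NoField D σ` (definition below): there are no holomorphic fields `v_1, …, v_r` (`r ≥ 1`), `ℂ`-independent at
some point, which `Γ` transforms by real matrices.

`discrete_of_noField`. Suppose not: there are frequently `γ → 1`, `γ ∈ S`, not acting trivially.
By `exists_isLim` (`BD/Field.lean`) there is a limit field of `S` which is not identically zero. Let
`V = {v | IsLim D σ S v}`. It is closed under sums and real multiples (`hadd`, `hsmul`: tasks T01, T02),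
its elements are holomorphic (`IsLim.hol`), and `v z = i w z` implies `w z = 0` (`hreal`: task T03 gives
`fderiv ℂ f z (w z) = 0` for all `f ∈ HolB D`; take linear functionals scaled by the bound `R` of `D`). By
`exists_real_basis` (task T04, here the hypothesis `hbasis`) `V` has a basis `v_1, …, v_r` as in
`NoField`. For `γ ∈ Γ`, `push D σ γ (v i) ∈ V` (`IsLim.push`, `S` is normal), so it is `∑_j M_{ij} v_j` on
`D`; at the point `σ γ z` this says `fderiv ℂ (σ γ) z (v i z) = ∑_j M_{ij} v_j (σ γ z)`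
(`push` evaluated at `σ γ z`, `HolAct.inv_act`). Contradiction to `NoField`.

`discrete_of_split`. `Γ` acts on `D × ℂ^B` by `SplitAct`, properly discontinuously. Let
`Γ1 = {γ | ∀ j, a γ j = 1}` (normal, contains all commutators) and `Γ2 = {γ | a γ = 1, b γ = 0}`.
Commutators of elements of `Γ1` are in `Γ2` (translations commute; `SplitAct.snd` at a point of `Tot D B`,
`D` nonempty). (i) `∀ᶠ γ in Nbh D σ, γ ∈ Γ2 → Triv D σ γ`: take `z₀ ∈ D`, `K₀ = closedBall z₀ r ⊆ D`;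
if `γ ∈ Γ2` is `r`-near the identity on `{z₀}` then `ρ γ` maps the point `(z₀, 0)` of the compact set
`K₀ × {0}` into it, so (`hpd`) these `γ` form a finite set; a finite set of nontrivial `γ`'s is excluded by
a smaller neighbourhood (for each one a point `z_γ` with `σ γ z_γ ≠ z_γ`). (ii) The commutator of two
elements near the identity is near the identity (`tendsto_mul`, `tendsto_inv` for the filter
`Nbh D σ ×ˢ Nbh D σ`), so by (i) elements of `Γ1` near the identity commute on `D`: `CommNear D σ Γ1`, hence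
by the first theorem `∀ᶠ γ in Nbh D σ, γ ∈ Γ1 → Triv D σ γ`. (iii) Again commutators of elements of `Γ` near
the identity are in `Γ1` near the identity, so trivial: `CommNear D σ ⊤`, and the first theorem for
`S = ⊤` gives the claim. -/

open Filter Topology Set Metric

namespace Pool.Agent.H906.BD

section General

variable {E : Type*} [NormedAddCommGroup E] [NormedSpace ℂ E]
variable {Γ : Type*} [Group Γ] {D : Set E} {σ : Γ → E → E}

/-- there are no nonzero real-invariant finite-dimensional totally real spaces of fields -/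
def NoField (D : Set E) (σ : Γ → E → E) : Prop :=
  ∀ (r : ℕ) (v : Fin r → E → E) (z₁ : E), 0 < r → z₁ ∈ D →
    (∀ i, DifferentiableOn ℂ (v i) D) → LinearIndependent ℂ (fun i => v i z₁) →
    (∀ γ, ∃ M : Matrix (Fin r) (Fin r) ℝ, ∀ z ∈ D, ∀ i,
      fderiv ℂ (σ γ) z (v i z) = ∑ j, (M i j : ℂ) • v j (σ γ z)) → False

theorem nofield_zero {R : ℝ} (hR : ∀ z ∈ D, ‖z‖ ≤ R) {z x : E} (hz : z ∈ D)
    (h : ∀ f ∈ HolB D, fderiv ℂ f z x = 0) : x = 0 := by
  have hR0 : 0 ≤ R := (norm_nonneg z).trans (hR z hz)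
  refine NormedSpace.eq_zero_of_forall_dual_eq_zero ℂ fun l => ?_
  set c : ℝ := (‖l‖ * R + 1)⁻¹ with hc
  have hpos : 0 < ‖l‖ * R + 1 := by positivity
  have hcpos : 0 < c := inv_pos.2 hpos
  have hmem : (fun y : E => (c : ℂ) * l y) ∈ HolB D := by
    refine ⟨(l.differentiable.const_mul _).differentiableOn, fun y hy => ?_⟩
    rw [norm_mul, Complex.norm_real, Real.norm_eq_abs, abs_of_pos hcpos]
    have h1 : ‖l y‖ ≤ ‖l‖ * R := (l.le_opNorm y).trans
      (mul_le_mul_of_nonneg_left (hR y hy) (norm_nonneg l))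
    rw [hc, inv_mul_le_iff₀ hpos]
    linarith
  have h2 := h _ hmem
  have h3 : HasFDerivAt (fun y : E => (c : ℂ) * l y) ((c : ℂ) • l) z :=
    l.hasFDerivAt.const_mul (c : ℂ)
  rw [h3.fderiv] at h2
  have h4 : (c : ℂ) * l x = 0 := h2
  rcases mul_eq_zero.1 h4 with h5 | h5
  · exact absurd (by exact_mod_cast h5) hcpos.ne'
  · exact h5

theorem discrete_of_noField [FiniteDimensional ℂ E] (hD : IsOpen D) (hc : IsPreconnected D)
    {R : ℝ} (hR : ∀ z ∈ D, ‖z‖ ≤ R) (hσ : HolAct D σ) {S : Subgroup Γ} (hS : S.Normal)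
    (hcomm : CommNear D σ S)
    (hadd : ∀ v w : E → E, IsLim D σ (S : Set Γ) v → IsLim D σ (S : Set Γ) w →
      IsLim D σ (S : Set Γ) (fun z => v z + w z))
    (hsmul : ∀ (c : ℝ) (v : E → E), IsLim D σ (S : Set Γ) v →
      IsLim D σ (S : Set Γ) (fun z => (c : ℂ) • v z))
    (hreal : ∀ v w : E → E, IsLim D σ (S : Set Γ) v → IsLim D σ (S : Set Γ) w →
      ∀ z ∈ D, v z = Complex.I • w z → ∀ f ∈ HolB D, fderiv ℂ f z (w z) = 0)
    (hbasis : ∀ V : Set (E → E), (∀ v ∈ V, DifferentiableOn ℂ v D) →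
      (∀ v ∈ V, ∀ w ∈ V, (fun z => v z + w z) ∈ V) →
      (∀ c : ℝ, ∀ v ∈ V, (fun z => (c : ℂ) • v z) ∈ V) →
      (∀ v ∈ V, ∀ w ∈ V, ∀ z ∈ D, v z = Complex.I • w z → w z = 0) →
      (∃ v ∈ V, ∃ z ∈ D, v z ≠ 0) →
      ∃ (r : ℕ) (v : Fin r → E → E) (z₁ : E), 0 < r ∧ z₁ ∈ D ∧ (∀ i, v i ∈ V) ∧
        LinearIndependent ℂ (fun i => v i z₁) ∧
        ∀ u ∈ V, ∃ c : Fin r → ℝ, ∀ z ∈ D, u z = ∑ i, (c i : ℂ) • v i z)
    (hno : NoField D σ) : ∀ᶠ γ in Nbh D σ, γ ∈ S → Triv D σ γ := by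
  rcases D.eq_empty_or_nonempty with hDe | hne
  · refine Eventually.of_forall fun γ _ z hz => ?_
    rw [hDe] at hz
    exact absurd hz (notMem_empty z)
  by_contra hcon
  rw [Filter.not_eventually] at hcon
  have hprop : ProperSpace E := FiniteDimensional.proper ℂ E
  have hfreq : ∃ᶠ γ in Nbh D σ, γ ∈ (S : Set Γ) ∧ ¬ Triv D σ γ :=
    hcon.mono fun γ hγ => Classical.not_imp.1 hγ
  obtain ⟨v0, hv0, z0, hz0, hne0⟩ := exists_isLim hD hc hσ hR hne hfreq
  have hcomp : CompleteSpace E := FiniteDimensional.complete ℂ E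
  obtain ⟨r, v, z₁, hr, hz₁, hvV, hli, hspan⟩ := hbasis {v | IsLim D σ (S : Set Γ) v}
    (fun v hv => IsLim.hol hσ hv) (fun v hv w hw => hadd v w hv hw)
    (fun c v hv => hsmul c v hv)
    (fun v hv w hw z hz hvw => nofield_zero hR (z := z) hz fun f hf =>
      hreal v w hv hw z hz hvw f hf)
    ⟨v0, hv0, z0, hz0, hne0⟩
  refine hno r v z₁ hr hz₁ (fun i => IsLim.hol hσ (hvV i)) hli (fun γ => ?_)
  have hpush : ∀ i, IsLim D σ (S : Set Γ) (push D σ γ (v i)) := fun i =>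
    IsLim.push hD hσ (hvV i) γ (fun a ha => hS.conj_mem a ha γ)
  choose c hcz using fun i => hspan _ (hpush i)
  refine ⟨Matrix.of c, fun z hz i => ?_⟩
  have h1 := hcz i (σ γ z) (hσ.maps γ z hz)
  have h2 : push D σ γ (v i) (σ γ z) = fderiv ℂ (σ γ) z (v i z) := by
    unfold push
    rw [if_pos (hσ.maps γ z hz), hσ.inv_act γ hz]
  rw [h2] at h1
  rw [h1]
  rfl

end General

section Split

variable {A B : Type*} [Fintype A] [Fintype B] [DecidableEq A] [DecidableEq B]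
variable {Γ : Type*} [Group Γ]

/-- commutators near the identity -/
theorem nofield_commNear {D : Set (A → ℂ)} (hD : IsOpen D) {σ : Γ → (A → ℂ) → (A → ℂ)}
    (hσ : HolAct D σ) {P : Γ → Prop} (hP : ∀ᶠ γ in Nbh D σ, P γ → Triv D σ γ) {S : Subgroup Γ}
    (hS : ∀ γ ∈ S, ∀ δ ∈ S, P (γ * δ * γ⁻¹ * δ⁻¹)) : CommNear D σ S := by
  have h1 : Tendsto (fun p : Γ × Γ => p.1) (Nbh D σ ×ˢ Nbh D σ) (Nbh D σ) := tendsto_fst
  have h2 : Tendsto (fun p : Γ × Γ => p.2) (Nbh D σ ×ˢ Nbh D σ) (Nbh D σ) := tendsto_snd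
  have h3 : Tendsto (fun p : Γ × Γ => p.1⁻¹) (Nbh D σ ×ˢ Nbh D σ) (Nbh D σ) := tendsto_inv.comp h1
  have h4 : Tendsto (fun p : Γ × Γ => p.2⁻¹) (Nbh D σ ×ˢ Nbh D σ) (Nbh D σ) := tendsto_inv.comp h2
  have h5 : Tendsto (fun p : Γ × Γ => p.1 * p.2 * p.1⁻¹ * p.2⁻¹) (Nbh D σ ×ˢ Nbh D σ)
      (Nbh D σ) := tendsto_mul hD hσ (tendsto_mul hD hσ (tendsto_mul hD hσ h1 h2) h3) h4
  have h6 := h5.eventually hP
  obtain ⟨N, hN, hsub⟩ := Filter.mem_prod_self_iff.1 h6
  refine ⟨N, hN, fun γ hγ hγN δ hδ hδN z hz => ?_⟩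
  have h7 : Triv D σ (γ * δ * γ⁻¹ * δ⁻¹) := by
    have h8 : (γ, δ) ∈ N ×ˢ N := ⟨hγN, hδN⟩
    exact hsub h8 (hS γ hγ δ hδ)
  have e : γ * δ = (γ * δ * γ⁻¹ * δ⁻¹) * (δ * γ) := by group
  rw [← hσ.mul γ δ z hz, e, hσ.mul _ _ z hz, h7 _ (hσ.maps _ _ hz), hσ.mul _ _ z hz]

/-- a finite set of nontrivial elements is excluded by a neighbourhood -/
theorem nofield_ne {D : Set (A → ℂ)} {σ : Γ → (A → ℂ) → (A → ℂ)} {γ : Γ}
    (h : ¬ Triv D σ γ) : ∀ᶠ γ' in Nbh D σ, γ' ≠ γ := by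
  unfold Triv at h
  push Not at h
  obtain ⟨z, hz, hne⟩ := h
  have hε : 0 < ‖σ γ z - z‖ := norm_pos_iff.2 (sub_ne_zero.2 hne)
  filter_upwards [eventually_near (σ := σ) (singleton_subset_iff.2 hz) isCompact_singleton hε]
    with γ' hγ' heq
  have := (hγ' z rfl).1
  rw [heq] at this
  exact lt_irrefl _ this

theorem discrete_of_split {D : Set (A → ℂ)} (hD : IsOpen D) (hne : D.Nonempty)
    {ρ : Γ → (A ⊕ B → ℂ) → (A ⊕ B → ℂ)} {σ : Γ → (A → ℂ) → (A → ℂ)} {a b : Γ → B → ℂ}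
    (h : SplitAct D ρ σ a b) (ha : ∀ γ δ j, a (γ * δ) j = a γ j * a δ j)
    (ha0 : ∀ γ j, a γ j ≠ 0) (hpd : PD (Tot D B) ρ)
    (hstep : ∀ S : Subgroup Γ, S.Normal → CommNear D σ S →
      ∀ᶠ γ in Nbh D σ, γ ∈ S → Triv D σ γ) :
    ∀ᶠ γ in Nbh D σ, Triv D σ γ := by
  obtain ⟨z₀, hz₀⟩ := hne
  have hσ := h.base
  -- the points `(z, 0)`
  set pt : (A → ℂ) → (A ⊕ B → ℂ) := fun z => Sum.elim z 0 with hpt
  have hptD : ∀ z ∈ D, pt z ∈ Tot D B := fun z hz => hz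
  have hpt0 : ∀ z j, pt z (Sum.inr j) = 0 := fun z j => rfl
  have hb : ∀ γ δ j, b (γ * δ) j = a γ j * b δ j + b γ j := by
    intro γ δ j
    have h1 := congrFun (h.act.mul γ δ (pt z₀) (hptD z₀ hz₀)) (Sum.inr j)
    rw [h.snd _ _ (hptD z₀ hz₀), h.snd _ _ (h.act.maps δ _ (hptD z₀ hz₀)),
      h.snd _ _ (hptD z₀ hz₀), hpt0, mul_zero, mul_zero, zero_add, zero_add] at h1
    exact h1
  have ha1 : ∀ j, a 1 j = 1 := by
    intro j
    have h1 := ha 1 1 j
    rw [mul_one] at h1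
    have h2 : a 1 j * (a 1 j - 1) = 0 := by
      rw [mul_sub, mul_one, ← h1, sub_self]
    rcases mul_eq_zero.1 h2 with h3 | h3
    · exact absurd h3 (ha0 1 j)
    · exact sub_eq_zero.1 h3
  have hainv : ∀ γ j, a γ j * a γ⁻¹ j = 1 := by
    intro γ j
    rw [← ha, mul_inv_cancel, ha1]
  -- commutators
  have hac : ∀ γ δ j, a (γ * δ * γ⁻¹ * δ⁻¹) j = 1 := by
    intro γ δ j
    rw [ha, ha, ha]
    calc a γ j * a δ j * a γ⁻¹ j * a δ⁻¹ j = (a γ j * a γ⁻¹ j) * (a δ j * a δ⁻¹ j) := by ring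
      _ = 1 := by rw [hainv, hainv, one_mul]
  have hbc : ∀ γ δ j, a γ j = 1 → a δ j = 1 → b (γ * δ * γ⁻¹ * δ⁻¹) j = 0 := by
    intro γ δ j hγ hδ
    have e : γ * δ = (γ * δ * γ⁻¹ * δ⁻¹) * (δ * γ) := by group
    have h1 := hb (γ * δ * γ⁻¹ * δ⁻¹) (δ * γ) j
    rw [← e, hac, hb, hb, hγ, hδ] at h1
    have h2 : b (γ * δ * γ⁻¹ * δ⁻¹) j = (1 * b δ j + b γ j) - 1 * (1 * b γ j + b δ j) := by
      rw [h1]
      ring
    rw [h2]
    ring
  -- (i)
  have hi : ∀ᶠ γ in Nbh D σ, ((∀ j, a γ j = 1) ∧ ∀ j, b γ j = 0) → Triv D σ γ := by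
    obtain ⟨r, hr, hB⟩ : ∃ r > 0, closedBall z₀ r ⊆ D :=
      Metric.nhds_basis_closedBall.mem_iff.1 (hD.mem_nhds hz₀)
    have hcont : Continuous pt := by
      refine continuous_pi fun i => ?_
      rcases i with i | j
      · exact continuous_apply i
      · exact continuous_const
    have hKc : IsCompact (pt '' closedBall z₀ r) := (isCompact_closedBall z₀ r).image hcont
    have hKD : pt '' closedBall z₀ r ⊆ Tot D B := by
      rintro _ ⟨z, hz, rfl⟩
      exact hB hz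
    have hfin := hpd _ hKD hKc
    have hfin' : ({γ : Γ | (ρ γ '' (pt '' closedBall z₀ r) ∩ pt '' closedBall z₀ r).Nonempty} ∩
        {γ | ¬ Triv D σ γ}).Finite := hfin.subset inter_subset_left
    have h2 : ∀ᶠ γ' in Nbh D σ, ∀ γ ∈ ({γ : Γ | (ρ γ '' (pt '' closedBall z₀ r) ∩
        pt '' closedBall z₀ r).Nonempty} ∩ {γ | ¬ Triv D σ γ}), γ' ≠ γ :=
      (Filter.eventually_all_finite hfin').2 fun γ hγ => nofield_ne hγ.2
    filter_upwards [h2, eventually_near (σ := σ) (singleton_subset_iff.2 hz₀)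
      isCompact_singleton hr] with γ hγ hnear hγ2
    by_contra hnt
    refine hγ γ ⟨?_, hnt⟩ rfl
    have h3 : ρ γ (pt z₀) = pt (σ γ z₀) := by
      funext i
      rcases i with i | j
      · exact congrFun (h.fst γ (pt z₀) (hptD z₀ hz₀)) i
      · rw [h.snd γ (pt z₀) (hptD z₀ hz₀), hpt0, hpt0, hγ2.2 j, mul_zero, add_zero]
    refine ⟨ρ γ (pt z₀), mem_image_of_mem _ (mem_image_of_mem _ (mem_closedBall_self hr.le)), ?_⟩
    rw [h3]
    refine mem_image_of_mem _ ?_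
    rw [mem_closedBall, dist_eq_norm]
    exact (hnear z₀ rfl).1.le
  -- (ii)
  let Γ1 : Subgroup Γ :=
    { carrier := {γ | ∀ j, a γ j = 1}
      mul_mem' := fun {γ δ} hγ hδ j => by rw [ha, hγ j, hδ j, one_mul]
      one_mem' := ha1
      inv_mem' := fun {γ} hγ j => by
        have := hainv γ j
        rwa [hγ j, one_mul] at this }
  have hΓ1 : ∀ γ, γ ∈ Γ1 ↔ ∀ j, a γ j = 1 := fun γ => Iff.rfl
  have hnorm : Γ1.Normal := ⟨fun n hn g => by
    rw [hΓ1] at hn ⊢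
    intro j
    rw [ha, ha, hn j, mul_one, hainv]⟩
  have hii : CommNear D σ Γ1 := nofield_commNear hD hσ hi fun γ hγ δ hδ =>
    ⟨fun j => hac γ δ j, fun j => hbc γ δ j (hγ j) (hδ j)⟩
  have hiii := hstep Γ1 hnorm hii
  have hiv : CommNear D σ ⊤ := nofield_commNear hD hσ hiii fun γ _ δ _ =>
    (hΓ1 _).2 fun j => hac γ δ j
  filter_upwards [hstep ⊤ inferInstance hiv] with γ hγ
  exact hγ (Subgroup.mem_top γ)

end Split

end Pool.Agent.H906.BD
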