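import Pool.Agent.H906.BD.Setup

/-! # T11 Psh: the approximants are `C^2` and plurisubharmonic, with a quantitative bound -/

open Filter Topology Set Metric
open scoped ComplexOrder

namespace Pool.Agent.H906.BD

variable {N : Type*} [Fintype N] [DecidableEq N]

section Calculus

/-- the real linear map `v ↦ α v + conj (β v)` -/
noncomputable def psh_L (α β : (N → ℂ) →L[ℂ] ℂ) : (N → ℂ) →L[ℝ] ℂ :=
  α.restrictScalars ℝ + (Complex.conjCLE : ℂ →L[ℝ] ℂ).comp (β.restrictScalars ℝ)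

omit [DecidableEq N] in
theorem psh_L_apply (α β : (N → ℂ) →L[ℂ] ℂ) (v : N → ℂ) :
    psh_L α β v = α v + star (β v) := by
  simp [psh_L]

/-- the real derivative of `F` at `x` is `v ↦ α v + conj (β v)` -/
def psh_HW (F : (N → ℂ) → ℂ) (x : N → ℂ) (α β : (N → ℂ) →L[ℂ] ℂ) : Prop :=
  HasFDerivAt (𝕜 := ℝ) F (psh_L α β) x

variable {F G : (N → ℂ) → ℂ} {x : N → ℂ} {α β α' β' : (N → ℂ) →L[ℂ] ℂ}

theorem psh_single (k : N) : (Pi.single k Complex.I : N → ℂ) = Complex.I • Pi.single k 1 := by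
  rw [← Pi.single_smul, smul_eq_mul, mul_one]

theorem psh_dz (h : psh_HW F x α β) (k : N) : dz k F x = α (Pi.single k 1) := by
  unfold dz
  have h' : HasFDerivAt (𝕜 := ℝ) F (psh_L α β) x := h
  rw [h'.fderiv, psh_L_apply, psh_L_apply, psh_single, map_smul, map_smul, smul_eq_mul,
    smul_eq_mul, star_mul', Complex.star_def, Complex.conj_I]
  linear_combination (- (1/2) * (α (Pi.single k 1)) + (1/2) * (starRingEnd ℂ) (β (Pi.single k 1))) *
    Complex.I_sq

theorem psh_dzb (h : psh_HW F x α β) (k : N) : dzb k F x = star (β (Pi.single k 1)) := by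
  unfold dzb
  have h' : HasFDerivAt (𝕜 := ℝ) F (psh_L α β) x := h
  rw [h'.fderiv, psh_L_apply, psh_L_apply, psh_single, map_smul, map_smul, smul_eq_mul,
    smul_eq_mul, star_mul', Complex.star_def, Complex.conj_I]
  linear_combination ((1/2) * (α (Pi.single k 1)) - (1/2) * (starRingEnd ℂ) (β (Pi.single k 1))) *
    Complex.I_sq

omit [DecidableEq N] in
theorem psh_of_eq (h : psh_HW F x α β) (h1 : α = α') (h2 : β = β') : psh_HW F x α' β' := by
  rw [← h1, ← h2]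
  exact h

omit [DecidableEq N] in
theorem psh_congr (h : psh_HW F x α β) (h1 : G =ᶠ[𝓝 x] F) : psh_HW G x α β :=
  HasFDerivAt.congr_of_eventuallyEq (f := F) h h1

omit [DecidableEq N] in
theorem psh_hol (h : DifferentiableAt ℂ F x) : psh_HW F x (fderiv ℂ F x) 0 := by
  have h1 := h.hasFDerivAt.restrictScalars ℝ
  have h2 : psh_L (fderiv ℂ F x) 0 = (fderiv ℂ F x).restrictScalars ℝ := by
    ext v
    rw [psh_L_apply]
    simp
  show HasFDerivAt (𝕜 := ℝ) F (psh_L (fderiv ℂ F x) 0) x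
  rw [h2]
  exact h1

omit [DecidableEq N] in
theorem psh_const (c : ℂ) : psh_HW (fun _ => c) x 0 0 := by
  have h2 : psh_L (0 : (N → ℂ) →L[ℂ] ℂ) 0 = 0 := by
    ext v
    rw [psh_L_apply]
    simp
  show HasFDerivAt (𝕜 := ℝ) (fun _ => c) (psh_L (0 : (N → ℂ) →L[ℂ] ℂ) 0) x
  rw [h2]
  exact hasFDerivAt_const c x

omit [DecidableEq N] in
theorem psh_star (h : psh_HW F x α β) : psh_HW (fun y => star (F y)) x β α := by
  have h1 := (Complex.conjCLE : ℂ →L[ℝ] ℂ).hasFDerivAt.comp x h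
  have h2 : psh_L β α = (Complex.conjCLE : ℂ →L[ℝ] ℂ).comp (psh_L α β) := by
    ext v
    rw [psh_L_apply, ContinuousLinearMap.comp_apply, psh_L_apply]
    simp [add_comm]
  show HasFDerivAt (𝕜 := ℝ) (fun y => star (F y)) (psh_L β α) x
  rw [h2]
  exact h1

omit [DecidableEq N] in
theorem psh_add (h : psh_HW F x α β) (h' : psh_HW G x α' β') :
    psh_HW (fun y => F y + G y) x (α + α') (β + β') := by
  have h1 := HasFDerivAt.add h h'
  have h2 : psh_L (α + α') (β + β') = psh_L α β + psh_L α' β' := by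
    ext v
    rw [ContinuousLinearMap.add_apply, psh_L_apply, psh_L_apply, psh_L_apply]
    simp only [ContinuousLinearMap.add_apply, star_add]
    ring
  show HasFDerivAt (𝕜 := ℝ) (fun y => F y + G y) (psh_L (α + α') (β + β')) x
  rw [h2]
  exact h1

omit [DecidableEq N] in
theorem psh_mul (h : psh_HW F x α β) (h' : psh_HW G x α' β') :
    psh_HW (fun y => F y * G y) x (F x • α' + G x • α)
      (star (F x) • β' + star (G x) • β) := by
  have h1 := HasFDerivAt.mul h h'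
  have h2 : psh_L (F x • α' + G x • α) (star (F x) • β' + star (G x) • β) =
      F x • psh_L α' β' + G x • psh_L α β := by
    ext v
    simp only [ContinuousLinearMap.add_apply, psh_L_apply, ContinuousLinearMap.smul_apply,
      star_add, smul_eq_mul, star_mul', star_star]
    ring
  show HasFDerivAt (𝕜 := ℝ) (fun y => F y * G y) (psh_L (F x • α' + G x • α)
    (star (F x) • β' + star (G x) • β)) x
  rw [h2]
  exact h1

omit [DecidableEq N] in
theorem psh_comp (h : psh_HW F x α β) {g : ℂ → ℂ} {c : ℂ} (hg : HasDerivAt g c (F x)) :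
    psh_HW (fun y => g (F y)) x (c • α) (star c • β) := by
  have h1 := (hg.hasFDerivAt.restrictScalars ℝ).comp x h
  have h2 : psh_L (c • α) (star c • β) =
      ((ContinuousLinearMap.smulRight (1 : ℂ →L[ℂ] ℂ) c).restrictScalars ℝ).comp (psh_L α β) := by
    ext v
    rw [psh_L_apply, ContinuousLinearMap.comp_apply, psh_L_apply]
    simp only [ContinuousLinearMap.smul_apply, smul_eq_mul, star_mul', star_star,
      ContinuousLinearMap.coe_restrictScalars', ContinuousLinearMap.smulRight_apply,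
      ContinuousLinearMap.one_apply]
    ring
  show HasFDerivAt (𝕜 := ℝ) (fun y => g (F y)) (psh_L (c • α) (star c • β)) x
  rw [h2]
  exact h1

omit [DecidableEq N] in
theorem psh_sum {ι : Type*} (s : Finset ι) {F : ι → (N → ℂ) → ℂ}
    {α β : ι → (N → ℂ) →L[ℂ] ℂ} (h : ∀ i ∈ s, psh_HW (F i) x (α i) (β i)) :
    psh_HW (fun y => ∑ i ∈ s, F i y) x (∑ i ∈ s, α i) (∑ i ∈ s, β i) := by
  classical
  induction s using Finset.induction_on with
  | empty => simpa using psh_const (x := x) 0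
  | insert a s ha ih =>
    simp only [Finset.sum_insert ha]
    exact psh_add (h a (Finset.mem_insert_self a s))
      (ih fun i hi => h i (Finset.mem_insert_of_mem hi))

end Calculus

section Main

variable {r : ℕ}

/-- `∑ |f_l|²` -/
noncomputable def psh_tau (f : Fin r → (N → ℂ) → ℂ) (y : N → ℂ) : ℂ := ∑ l, f l y * star (f l y)

/-- `exp (∑ |f_l|²)` -/
noncomputable def psh_ex (f : Fin r → (N → ℂ) → ℂ) (y : N → ℂ) : ℂ := Complex.exp (psh_tau f y)

/-- `|g|² exp (∑ |f_l|²)` -/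
noncomputable def psh_T (g : (N → ℂ) → ℂ) (f : Fin r → (N → ℂ) → ℂ) (y : N → ℂ) : ℂ :=
  g y * star (g y) * psh_ex f y

/-- `∂ (∑ |f_l|²)` -/
noncomputable def psh_a (f : Fin r → (N → ℂ) → ℂ) (y : N → ℂ) : (N → ℂ) →L[ℂ] ℂ :=
  ∑ l, star (f l y) • fderiv ℂ (f l) y

/-- `∂ g + g ∂ (∑ |f_l|²)` -/
noncomputable def psh_W (g : (N → ℂ) → ℂ) (f : Fin r → (N → ℂ) → ℂ) (y : N → ℂ) :
    (N → ℂ) →L[ℂ] ℂ := fderiv ℂ g y + g y • psh_a f y

omit [DecidableEq N] in
theorem psh_ex_real (f : Fin r → (N → ℂ) → ℂ) (y : N → ℂ) :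
    psh_ex f y = (Real.exp (∑ l, ‖f l y‖ ^ 2) : ℝ) := by
  unfold psh_ex psh_tau
  rw [Complex.ofReal_exp]
  congr 1
  rw [Complex.ofReal_sum]
  refine Finset.sum_congr rfl fun l _ => ?_
  rw [Complex.star_def, Complex.mul_conj', Complex.ofReal_pow]

omit [DecidableEq N] in
theorem psh_ex_star (f : Fin r → (N → ℂ) → ℂ) (y : N → ℂ) : star (psh_ex f y) = psh_ex f y := by
  rw [psh_ex_real, Complex.star_def, Complex.conj_ofReal]

variable {g : (N → ℂ) → ℂ} {f : Fin r → (N → ℂ) → ℂ} {y : N → ℂ}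

omit [DecidableEq N] in
theorem psh_hw_tau (hf : ∀ l, DifferentiableAt ℂ (f l) y) :
    psh_HW (psh_tau f) y (psh_a f y) (psh_a f y) := by
  refine psh_of_eq (psh_sum Finset.univ fun l _ => psh_mul (psh_hol (hf l))
    (psh_star (psh_hol (hf l)))) ?_ ?_
  · refine Finset.sum_congr rfl fun l _ => ?_
    ext v
    simp
  · refine Finset.sum_congr rfl fun l _ => ?_
    ext v
    simp

omit [DecidableEq N] in
theorem psh_hw_ex (hf : ∀ l, DifferentiableAt ℂ (f l) y) :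
    psh_HW (psh_ex f) y (psh_ex f y • psh_a f y) (psh_ex f y • psh_a f y) := by
  refine psh_of_eq (psh_comp (psh_hw_tau hf) (Complex.hasDerivAt_exp _)) rfl ?_
  show star (psh_ex f y) • _ = _
  rw [psh_ex_star]

omit [DecidableEq N] in
theorem psh_hw_T (hg : DifferentiableAt ℂ g y) (hf : ∀ l, DifferentiableAt ℂ (f l) y) :
    psh_HW (psh_T g f) y ((psh_ex f y * star (g y)) • psh_W g f y)
      ((psh_ex f y * star (g y)) • psh_W g f y) := by
  refine psh_of_eq (psh_mul (psh_mul (psh_hol hg) (psh_star (psh_hol hg))) (psh_hw_ex hf)) ?_ ?_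
  · ext v
    simp only [psh_W, ContinuousLinearMap.add_apply, ContinuousLinearMap.smul_apply, smul_eq_mul,
      ContinuousLinearMap.zero_apply]
    ring
  · rw [psh_ex_star]
    ext v
    simp only [psh_W, ContinuousLinearMap.add_apply, ContinuousLinearMap.smul_apply, smul_eq_mul,
      ContinuousLinearMap.zero_apply, star_mul', star_star]
    ring

variable {g : ℕ → (N → ℂ) → ℂ} {f : ℕ → Fin r → (N → ℂ) → ℂ} {n : ℕ} {ε : ℝ}

/-- the sum -/
noncomputable def psh_S (ε : ℝ) (n : ℕ) (g : ℕ → (N → ℂ) → ℂ) (f : ℕ → Fin r → (N → ℂ) → ℂ)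
    (y : N → ℂ) : ℂ := ε + ∑ i ∈ Finset.range n, psh_T (g i) (f i) y

/-- its holomorphic derivative -/
noncomputable def psh_A (n : ℕ) (g : ℕ → (N → ℂ) → ℂ) (f : ℕ → Fin r → (N → ℂ) → ℂ)
    (y : N → ℂ) : (N → ℂ) →L[ℂ] ℂ :=
  ∑ i ∈ Finset.range n, (psh_ex (f i) y * star (g i y)) • psh_W (g i) (f i) y

omit [DecidableEq N] in
theorem psh_hw_S (hg : ∀ i, DifferentiableAt ℂ (g i) y)
    (hf : ∀ i l, DifferentiableAt ℂ (f i l) y) :
    psh_HW (psh_S ε n g f) y (psh_A n g f y) (psh_A n g f y) := by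
  refine psh_of_eq (psh_add (psh_const (ε : ℂ)) (psh_sum (Finset.range n) fun i _ =>
    psh_hw_T (hg i) (hf i))) ?_ ?_
  · rw [zero_add]; rfl
  · rw [zero_add]; rfl

/-- the real value of the sum -/
noncomputable def psh_SR (ε : ℝ) (n : ℕ) (g : ℕ → (N → ℂ) → ℂ) (f : ℕ → Fin r → (N → ℂ) → ℂ)
    (y : N → ℂ) : ℝ :=
  ε + ∑ i ∈ Finset.range n, ‖g i y‖ ^ 2 * Real.exp (∑ l, ‖f i l y‖ ^ 2)

omit [DecidableEq N] in
theorem psh_S_real (y : N → ℂ) : psh_S ε n g f y = (psh_SR ε n g f y : ℝ) := by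
  unfold psh_S psh_SR psh_T
  rw [Complex.ofReal_add, Complex.ofReal_sum]
  congr 1
  refine Finset.sum_congr rfl fun i _ => ?_
  rw [psh_ex_real, Complex.star_def, Complex.mul_conj', Complex.ofReal_mul, Complex.ofReal_pow]

omit [DecidableEq N] in
theorem psh_SR_pos (hε : 0 < ε) (y : N → ℂ) : 0 < psh_SR ε n g f y := by
  unfold psh_SR
  have : 0 ≤ ∑ i ∈ Finset.range n, ‖g i y‖ ^ 2 * Real.exp (∑ l, ‖f i l y‖ ^ 2) :=
    Finset.sum_nonneg fun i _ => by positivity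
  linarith

/-- the logarithm -/
noncomputable def psh_F (c ε : ℝ) (n : ℕ) (g : ℕ → (N → ℂ) → ℂ) (f : ℕ → Fin r → (N → ℂ) → ℂ)
    (y : N → ℂ) : ℂ := (c : ℂ) * Complex.log (psh_S ε n g f y)

/-- the conjugate of the derivative of `g + g ∑ |f_l|²` -/
noncomputable def psh_in (g : (N → ℂ) → ℂ) (f : Fin r → (N → ℂ) → ℂ) (k : N) (y : N → ℂ) : ℂ :=
  star (fderiv ℂ g y (Pi.single k 1)) +
    star (g y) * ∑ l, f l y * star (fderiv ℂ (f l) y (Pi.single k 1))

/-- the antiholomorphic derivative of the logarithm -/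
noncomputable def psh_H (c ε : ℝ) (n : ℕ) (g : ℕ → (N → ℂ) → ℂ) (f : ℕ → Fin r → (N → ℂ) → ℂ)
    (k : N) (y : N → ℂ) : ℂ :=
  (c : ℂ) * ((psh_S ε n g f y)⁻¹ *
    ∑ i ∈ Finset.range n, (psh_ex (f i) y * g i y) * psh_in (g i) (f i) k y)

theorem psh_dzb_F (hε : 0 < ε) (c : ℝ) (hg : ∀ i, DifferentiableAt ℂ (g i) y)
    (hf : ∀ i l, DifferentiableAt ℂ (f i l) y) (k : N) :
    dzb k (psh_F c ε n g f) y = psh_H c ε n g f k y := by
  have hS : psh_S ε n g f y ∈ Complex.slitPlane := by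
    rw [psh_S_real, Complex.ofReal_mem_slitPlane]
    exact psh_SR_pos hε y
  have h1 := psh_mul (psh_const (x := y) (c : ℂ)) (psh_comp (psh_hw_S (ε := ε) (n := n) hg hf)
    (Complex.hasDerivAt_log hS))
  rw [psh_dzb (F := psh_F c ε n g f) h1]
  simp only [ContinuousLinearMap.add_apply, ContinuousLinearMap.smul_apply,
    ContinuousLinearMap.zero_apply, mul_zero, add_zero, smul_eq_mul, star_mul', star_star]
  unfold psh_H psh_A
  congr 1
  congr 1
  rw [ContinuousLinearMap.sum_apply, star_sum]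
  refine Finset.sum_congr rfl fun i _ => ?_
  simp only [psh_W, psh_a, psh_in, ContinuousLinearMap.add_apply, ContinuousLinearMap.smul_apply,
    smul_eq_mul, ContinuousLinearMap.sum_apply, star_mul', star_add, star_star, psh_ex_star,
    star_sum]

theorem psh_in_eq (g : (N → ℂ) → ℂ) (f : Fin r → (N → ℂ) → ℂ) (k : N) (y : N → ℂ) :
    psh_in g f k y = star (psh_W g f y (Pi.single k 1)) := by
  simp only [psh_W, psh_a, psh_in, ContinuousLinearMap.add_apply, ContinuousLinearMap.smul_apply,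
    smul_eq_mul, ContinuousLinearMap.sum_apply, star_mul', star_add, star_star, star_sum]

theorem psh_hw_in {U : Set (N → ℂ)} (hU : IsOpen U) {g : (N → ℂ) → ℂ}
    {f : Fin r → (N → ℂ) → ℂ} (hg : DifferentiableOn ℂ g U)
    (hf : ∀ l, DifferentiableOn ℂ (f l) U) {x : N → ℂ} (hx : x ∈ U) (k : N) :
    ∃ β, psh_HW (psh_in g f k) x (star (g x) • ∑ l, star (fderiv ℂ (f l) x (Pi.single k 1)) •
      fderiv ℂ (f l) x) β := by
  have hd : ∀ h : (N → ℂ) → ℂ, DifferentiableOn ℂ h U →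
      DifferentiableAt ℂ (fun y => fderiv ℂ h y (Pi.single k 1)) x := fun h hh =>
    (hol_fderiv_apply hU hh (differentiableOn_const _)).differentiableAt (hU.mem_nhds hx)
  have h1 := psh_add (psh_star (psh_hol (hd g hg)))
    (psh_mul (psh_star (psh_hol (hg.differentiableAt (hU.mem_nhds hx))))
      (psh_sum Finset.univ fun l _ => psh_mul (psh_hol ((hf l).differentiableAt (hU.mem_nhds hx)))
        (psh_star (psh_hol (hd (f l) (hf l))))))
  refine ⟨_, psh_of_eq h1 ?_ rfl⟩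
  ext v
  simp only [ContinuousLinearMap.add_apply, ContinuousLinearMap.smul_apply, smul_eq_mul,
    ContinuousLinearMap.sum_apply, ContinuousLinearMap.zero_apply, mul_zero, zero_add, add_zero]

/-- the Levi form of the logarithm -/
theorem psh_levi_F {U : Set (N → ℂ)} (hU : IsOpen U) (hg : ∀ i, DifferentiableOn ℂ (g i) U)
    (hf : ∀ i l, DifferentiableOn ℂ (f i l) U) (hε : 0 < ε) (c : ℝ) {x : N → ℂ} (hx : x ∈ U)
    (j k : N) : levi (psh_F c ε n g f) x j k =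
      c * (-(psh_S ε n g f x ^ 2)⁻¹ * (psh_A n g f x (Pi.single j 1) *
        star (psh_A n g f x (Pi.single k 1))) + (psh_S ε n g f x)⁻¹ *
        ∑ i ∈ Finset.range n, psh_ex (f i) x * (psh_W (g i) (f i) x (Pi.single j 1) *
          star (psh_W (g i) (f i) x (Pi.single k 1)) + g i x * star (g i x) *
          ∑ l, fderiv ℂ (f i l) x (Pi.single j 1) *
            star (fderiv ℂ (f i l) x (Pi.single k 1)))) := by
  have hgx : ∀ y ∈ U, ∀ i, DifferentiableAt ℂ (g i) y := fun y hy i =>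
    (hg i).differentiableAt (hU.mem_nhds hy)
  have hfx : ∀ y ∈ U, ∀ i l, DifferentiableAt ℂ (f i l) y := fun y hy i l =>
    (hf i l).differentiableAt (hU.mem_nhds hy)
  have hev : dzb k (psh_F c ε n g f) =ᶠ[𝓝 x] psh_H c ε n g f k := by
    filter_upwards [hU.mem_nhds hx] with y hy
    exact psh_dzb_F hε c (hgx y hy) (hfx y hy) k
  have hS0 : psh_S ε n g f x ≠ 0 := by
    rw [psh_S_real]
    exact Complex.ofReal_ne_zero.2 (psh_SR_pos hε x).ne'
  choose β hβ using fun i => psh_hw_in hU (hg i) (hf i) hx k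
  have h1 := psh_mul (psh_const (x := x) (c : ℂ)) (psh_mul (psh_comp (psh_hw_S (ε := ε) (n := n)
    (hgx x hx) (hfx x hx)) (hasDerivAt_inv hS0)) (psh_sum (Finset.range n) fun i _ =>
      psh_mul (psh_mul (psh_hw_ex (hfx x hx i)) (psh_hol (hgx x hx i))) (hβ i)))
  have h2 := psh_congr (G := dzb k (psh_F c ε n g f)) h1 hev
  show dz j (dzb k (psh_F c ε n g f)) x = _
  rw [psh_dz h2]
  have e1 : star (psh_A n g f x (Pi.single k 1)) = ∑ i ∈ Finset.range n,
      psh_ex (f i) x * g i x * psh_in (g i) (f i) k x := by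
    unfold psh_A
    rw [ContinuousLinearMap.sum_apply, star_sum]
    refine Finset.sum_congr rfl fun i _ => ?_
    rw [psh_in_eq]
    simp only [ContinuousLinearMap.smul_apply, smul_eq_mul, star_mul', star_star, psh_ex_star]
  rw [e1]
  simp only [ContinuousLinearMap.add_apply, ContinuousLinearMap.smul_apply,
    ContinuousLinearMap.zero_apply, mul_zero, add_zero, smul_eq_mul,
    ContinuousLinearMap.sum_apply]
  have e2 : ∑ i ∈ Finset.range n, (psh_ex (f i) x * g i x * (star (g i x) *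
      ∑ l, star (fderiv ℂ (f i l) x (Pi.single k 1)) * fderiv ℂ (f i l) x (Pi.single j 1)) +
      psh_in (g i) (f i) k x * (psh_ex (f i) x * fderiv ℂ (g i) x (Pi.single j 1) +
        g i x * (psh_ex (f i) x * psh_a (f i) x (Pi.single j 1)))) =
      ∑ i ∈ Finset.range n, psh_ex (f i) x * (psh_W (g i) (f i) x (Pi.single j 1) *
          star (psh_W (g i) (f i) x (Pi.single k 1)) + g i x * star (g i x) *
          ∑ l, fderiv ℂ (f i l) x (Pi.single j 1) *
            star (fderiv ℂ (f i l) x (Pi.single k 1))) := by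
    refine Finset.sum_congr rfl fun i _ => ?_
    have e3 : ∑ l, star (fderiv ℂ (f i l) x (Pi.single k 1)) *
        fderiv ℂ (f i l) x (Pi.single j 1) = ∑ l, fderiv ℂ (f i l) x (Pi.single j 1) *
            star (fderiv ℂ (f i l) x (Pi.single k 1)) :=
      Finset.sum_congr rfl fun l _ => mul_comm _ _
    rw [e3, psh_in_eq]
    have e4 : psh_W (g i) (f i) x (Pi.single j 1) = fderiv ℂ (g i) x (Pi.single j 1) +
        g i x * psh_a (f i) x (Pi.single j 1) := by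
      simp only [psh_W, ContinuousLinearMap.add_apply, ContinuousLinearMap.smul_apply,
        smul_eq_mul]
    rw [e4]
    ring
  rw [e2]
  ring

end Main

section Algebra

/-- the value of a sesquilinear form -/
noncomputable def psh_Q (ξ : N → ℂ) (M : N → N → ℂ) : ℂ := ∑ j, ∑ k, ξ j * star (ξ k) * M j k

omit [DecidableEq N] in
theorem psh_Q_add (ξ : N → ℂ) (M M' : N → N → ℂ) :
    psh_Q ξ (fun j k => M j k + M' j k) = psh_Q ξ M + psh_Q ξ M' := by
  unfold psh_Q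
  rw [← Finset.sum_add_distrib]
  refine Finset.sum_congr rfl fun j _ => ?_
  rw [← Finset.sum_add_distrib]
  exact Finset.sum_congr rfl fun k _ => mul_add _ _ _

omit [DecidableEq N] in
theorem psh_Q_smul (ξ : N → ℂ) (a : ℂ) (M : N → N → ℂ) :
    psh_Q ξ (fun j k => a * M j k) = a * psh_Q ξ M := by
  unfold psh_Q
  rw [Finset.mul_sum]
  refine Finset.sum_congr rfl fun j _ => ?_
  rw [Finset.mul_sum]
  exact Finset.sum_congr rfl fun k _ => by ring

omit [DecidableEq N] in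
theorem psh_Q_sum {ι : Type*} (s : Finset ι) (ξ : N → ℂ) (M : ι → N → N → ℂ) :
    psh_Q ξ (fun j k => ∑ i ∈ s, M i j k) = ∑ i ∈ s, psh_Q ξ (M i) := by
  unfold psh_Q
  rw [Finset.sum_comm (s := s)]
  refine Finset.sum_congr rfl fun j _ => ?_
  rw [Finset.sum_comm (s := s)]
  refine Finset.sum_congr rfl fun k _ => ?_
  rw [Finset.mul_sum]

theorem psh_apply (A : (N → ℂ) →L[ℂ] ℂ) (ξ : N → ℂ) : A ξ = ∑ j, ξ j * A (Pi.single j 1) := by
  have h := A.toLinearMap.pi_apply_eq_sum_univ ξ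
  refine h.trans (Finset.sum_congr rfl fun j _ => ?_)
  have e : (fun i => if j = i then (1 : ℂ) else 0) = Pi.single j 1 := by
    funext i
    rw [Pi.single_apply]
    simp [eq_comm]
  rw [smul_eq_mul, e]
  rfl

theorem psh_Q_rank (ξ : N → ℂ) (A : (N → ℂ) →L[ℂ] ℂ) :
    psh_Q ξ (fun j k => A (Pi.single j 1) * star (A (Pi.single k 1))) = A ξ * star (A ξ) := by
  rw [psh_apply A ξ, star_sum, Finset.sum_mul_sum]
  unfold psh_Q
  refine Finset.sum_congr rfl fun j _ => Finset.sum_congr rfl fun k _ => ?_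
  rw [star_mul']
  ring

theorem psh_cs (n : ℕ) (e : ℕ → ℝ) (he : ∀ i, 0 < e i) (G W : ℕ → ℂ) :
    ‖∑ i ∈ Finset.range n, (e i : ℂ) * star (G i) * W i‖ ^ 2 ≤
      (∑ i ∈ Finset.range n, e i * ‖G i‖ ^ 2) * ∑ i ∈ Finset.range n, e i * ‖W i‖ ^ 2 := by
  have h1 : ‖∑ i ∈ Finset.range n, (e i : ℂ) * star (G i) * W i‖ ≤
      ∑ i ∈ Finset.range n, (Real.sqrt (e i) * ‖G i‖) * (Real.sqrt (e i) * ‖W i‖) := by
    refine (norm_sum_le _ _).trans (Finset.sum_le_sum fun i _ => ?_)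
    rw [norm_mul, norm_mul, norm_star, Complex.norm_real, Real.norm_of_nonneg (he i).le]
    have h2 := Real.mul_self_sqrt (he i).le
    calc e i * ‖G i‖ * ‖W i‖ = (Real.sqrt (e i) * Real.sqrt (e i)) * ‖G i‖ * ‖W i‖ := by rw [h2]
      _ ≤ _ := by apply le_of_eq; ring
  have h3 := Finset.sum_mul_sq_le_sq_mul_sq (Finset.range n)
    (fun i => Real.sqrt (e i) * ‖G i‖) (fun i => Real.sqrt (e i) * ‖W i‖)
  have h4 : ∀ X : ℕ → ℂ, ∑ i ∈ Finset.range n, (Real.sqrt (e i) * ‖X i‖) ^ 2 =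
      ∑ i ∈ Finset.range n, e i * ‖X i‖ ^ 2 := fun X =>
    Finset.sum_congr rfl fun i _ => by rw [mul_pow, Real.sq_sqrt (he i).le]
  rw [h4 G, h4 W] at h3
  exact (pow_le_pow_left₀ (norm_nonneg _) h1 2).trans h3

end Algebra

section Final

variable {r : ℕ} {g : ℕ → (N → ℂ) → ℂ} {f : ℕ → Fin r → (N → ℂ) → ℂ} {n : ℕ} {ε : ℝ}

theorem psh_form {U : Set (N → ℂ)} (hU : IsOpen U) (hg : ∀ i, DifferentiableOn ℂ (g i) U)
    (hf : ∀ i l, DifferentiableOn ℂ (f i l) U) (hε : 0 < ε) (c : ℝ) {x : N → ℂ} (hx : x ∈ U)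
    (ξ : N → ℂ) : ∑ j, ∑ k, ξ j * star (ξ k) * levi (psh_F c ε n g f) x j k =
      ((c * (-(psh_SR ε n g f x ^ 2)⁻¹ * ‖psh_A n g f x ξ‖ ^ 2 + (psh_SR ε n g f x)⁻¹ *
        ∑ i ∈ Finset.range n, Real.exp (∑ l, ‖f i l x‖ ^ 2) * (‖psh_W (g i) (f i) x ξ‖ ^ 2 +
          ‖g i x‖ ^ 2 * ∑ l, ‖fderiv ℂ (f i l) x ξ‖ ^ 2)) : ℝ) : ℂ) := by
  have h1 : ∑ j, ∑ k, ξ j * star (ξ k) * levi (psh_F c ε n g f) x j k =
      psh_Q ξ (fun j k => c * (-(psh_S ε n g f x ^ 2)⁻¹ * (psh_A n g f x (Pi.single j 1) *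
        star (psh_A n g f x (Pi.single k 1))) + (psh_S ε n g f x)⁻¹ *
        ∑ i ∈ Finset.range n, psh_ex (f i) x * (psh_W (g i) (f i) x (Pi.single j 1) *
          star (psh_W (g i) (f i) x (Pi.single k 1)) + g i x * star (g i x) *
          ∑ l, fderiv ℂ (f i l) x (Pi.single j 1) *
            star (fderiv ℂ (f i l) x (Pi.single k 1))))) := by
    unfold psh_Q
    refine Finset.sum_congr rfl fun j _ => Finset.sum_congr rfl fun k _ => ?_
    rw [psh_levi_F hU hg hf hε c hx]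
  rw [h1, psh_Q_smul, psh_Q_add, psh_Q_smul, psh_Q_rank, psh_Q_smul, psh_Q_sum]
  have h2 : ∀ i, psh_Q ξ (fun j k => psh_ex (f i) x * (psh_W (g i) (f i) x (Pi.single j 1) *
          star (psh_W (g i) (f i) x (Pi.single k 1)) + g i x * star (g i x) *
          ∑ l, fderiv ℂ (f i l) x (Pi.single j 1) *
            star (fderiv ℂ (f i l) x (Pi.single k 1)))) =
      psh_ex (f i) x * (psh_W (g i) (f i) x ξ * star (psh_W (g i) (f i) x ξ) +
        g i x * star (g i x) * ∑ l, fderiv ℂ (f i l) x ξ * star (fderiv ℂ (f i l) x ξ)) := by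
    intro i
    rw [psh_Q_smul, psh_Q_add, psh_Q_rank, psh_Q_smul, psh_Q_sum]
    simp only [psh_Q_rank]
  simp only [h2]
  have h3 : ∀ z : ℂ, z * star z = ((‖z‖ ^ 2 : ℝ) : ℂ) := fun z => by
    rw [Complex.star_def, Complex.mul_conj', Complex.ofReal_pow]
  simp only [h3, psh_ex_real, psh_S_real]
  push_cast
  ring

theorem psh_ineq {U : Set (N → ℂ)} (hU : IsOpen U) (hg : ∀ i, DifferentiableOn ℂ (g i) U)
    (hf : ∀ i l, DifferentiableOn ℂ (f i l) U) (hε : 0 < ε) {c : ℝ} (hc : 0 ≤ c) {x : N → ℂ}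
    (hx : x ∈ U) (ξ : N → ℂ) :
    c * ∑ i ∈ Finset.range n, (‖g i x‖ ^ 2 * Real.exp (∑ l, ‖f i l x‖ ^ 2) /
      psh_SR ε n g f x) * ∑ l, ‖fderiv ℂ (f i l) x ξ‖ ^ 2 ≤
      (∑ j, ∑ k, ξ j * star (ξ k) * levi (psh_F c ε n g f) x j k).re := by
  rw [psh_form hU hg hf hε c hx ξ, Complex.ofReal_re]
  apply mul_le_mul_of_nonneg_left _ hc
  have hS := psh_SR_pos (n := n) (g := g) (f := f) hε x
  have hA : ‖psh_A n g f x ξ‖ ^ 2 ≤ psh_SR ε n g f x *
      ∑ i ∈ Finset.range n, Real.exp (∑ l, ‖f i l x‖ ^ 2) * ‖psh_W (g i) (f i) x ξ‖ ^ 2 := by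
    have h1 := psh_cs n (fun i => Real.exp (∑ l, ‖f i l x‖ ^ 2)) (fun i => Real.exp_pos _)
      (fun i => g i x) (fun i => psh_W (g i) (f i) x ξ)
    have h2 : psh_A n g f x ξ = ∑ i ∈ Finset.range n,
        ((Real.exp (∑ l, ‖f i l x‖ ^ 2) : ℝ) : ℂ) * star (g i x) * psh_W (g i) (f i) x ξ := by
      unfold psh_A
      rw [ContinuousLinearMap.sum_apply]
      refine Finset.sum_congr rfl fun i _ => ?_
      rw [ContinuousLinearMap.smul_apply, smul_eq_mul, psh_ex_real]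
    rw [h2]
    refine h1.trans ?_
    apply mul_le_mul_of_nonneg_right _ (Finset.sum_nonneg fun i _ => by positivity)
    unfold psh_SR
    have h3 : ∑ i ∈ Finset.range n, Real.exp (∑ l, ‖f i l x‖ ^ 2) * ‖g i x‖ ^ 2 =
        ∑ i ∈ Finset.range n, ‖g i x‖ ^ 2 * Real.exp (∑ l, ‖f i l x‖ ^ 2) :=
      Finset.sum_congr rfl fun i _ => mul_comm _ _
    rw [h3]
    linarith
  have e1 : ∑ i ∈ Finset.range n, Real.exp (∑ l, ‖f i l x‖ ^ 2) *
      (‖psh_W (g i) (f i) x ξ‖ ^ 2 + ‖g i x‖ ^ 2 * ∑ l, ‖fderiv ℂ (f i l) x ξ‖ ^ 2) =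
      ∑ i ∈ Finset.range n, Real.exp (∑ l, ‖f i l x‖ ^ 2) * ‖psh_W (g i) (f i) x ξ‖ ^ 2 +
      ∑ i ∈ Finset.range n, (‖g i x‖ ^ 2 * Real.exp (∑ l, ‖f i l x‖ ^ 2)) *
        ∑ l, ‖fderiv ℂ (f i l) x ξ‖ ^ 2 := by
    rw [← Finset.sum_add_distrib]
    exact Finset.sum_congr rfl fun i _ => by ring
  have e2 : ∑ i ∈ Finset.range n, (‖g i x‖ ^ 2 * Real.exp (∑ l, ‖f i l x‖ ^ 2) /
      psh_SR ε n g f x) * ∑ l, ‖fderiv ℂ (f i l) x ξ‖ ^ 2 = (psh_SR ε n g f x)⁻¹ *
      ∑ i ∈ Finset.range n, (‖g i x‖ ^ 2 * Real.exp (∑ l, ‖f i l x‖ ^ 2)) *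
        ∑ l, ‖fderiv ℂ (f i l) x ξ‖ ^ 2 := by
    rw [Finset.mul_sum]
    exact Finset.sum_congr rfl fun i _ => by ring
  rw [e1, e2, mul_add]
  have e3 : (psh_SR ε n g f x ^ 2)⁻¹ * ‖psh_A n g f x ξ‖ ^ 2 ≤ (psh_SR ε n g f x)⁻¹ *
      ∑ i ∈ Finset.range n, Real.exp (∑ l, ‖f i l x‖ ^ 2) * ‖psh_W (g i) (f i) x ξ‖ ^ 2 := by
    have h1 := mul_le_mul_of_nonneg_left hA (by positivity : 0 ≤ (psh_SR ε n g f x ^ 2)⁻¹)
    refine h1.trans (le_of_eq ?_)
    field_simp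
  linarith

theorem psh_herm {U : Set (N → ℂ)} (hU : IsOpen U) (hg : ∀ i, DifferentiableOn ℂ (g i) U)
    (hf : ∀ i l, DifferentiableOn ℂ (f i l) U) (hε : 0 < ε) (c : ℝ) {x : N → ℂ} (hx : x ∈ U) :
    (levi (psh_F c ε n g f) x).IsHermitian := by
  refine Matrix.IsHermitian.ext fun j k => ?_
  rw [psh_levi_F hU hg hf hε c hx, psh_levi_F hU hg hf hε c hx]
  have hS : star (psh_S ε n g f x) = psh_S ε n g f x := by
    rw [psh_S_real, Complex.star_def, Complex.conj_ofReal]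
  have hc : star (c : ℂ) = c := Complex.conj_ofReal c
  simp only [star_mul', star_add, star_neg, star_inv₀, star_pow, star_sum, star_star, hS, hc,
    psh_ex_star]
  congr 1
  congr 1
  · ring
  · congr 1
    refine Finset.sum_congr rfl fun i _ => ?_
    have e3 : ∑ l, star (fderiv ℂ (f i l) x (Pi.single k 1)) *
        fderiv ℂ (f i l) x (Pi.single j 1) = ∑ l, fderiv ℂ (f i l) x (Pi.single j 1) *
            star (fderiv ℂ (f i l) x (Pi.single k 1)) :=
      Finset.sum_congr rfl fun l _ => mul_comm _ _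
    rw [e3]
    ring

end Final

omit [DecidableEq N] in
theorem psh_pow {r : ℕ} (g : (N → ℂ) → ℂ) (f : Fin r → (N → ℂ) → ℂ) (p : ℕ) (y : N → ℂ) :
    qe g f y ^ p = ‖g y ^ p‖ ^ 2 * Real.exp (∑ l, ‖(Real.sqrt p : ℂ) * f l y‖ ^ 2) := by
  unfold qe
  rw [mul_pow, ← Real.exp_nat_mul, norm_pow, Finset.mul_sum]
  congr 1
  · rw [← pow_mul, ← pow_mul, mul_comm]
  · congr 1
    refine Finset.sum_congr rfl fun l _ => ?_
    rw [norm_mul, mul_pow, Complex.norm_real, Real.norm_of_nonneg (Real.sqrt_nonneg _),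
      Real.sq_sqrt (Nat.cast_nonneg p)]

omit [DecidableEq N] in
theorem psh_app_eq {r : ℕ} (g : ℕ → (N → ℂ) → ℂ) (f : ℕ → Fin r → (N → ℂ) → ℂ) (p : ℕ) {ε : ℝ}
    (hε : 0 < ε) (n : ℕ) : (fun y => (app p ε n g f y : ℂ)) =
      psh_F (1 / (2 * p)) ε n (fun i y => g i y ^ p) (fun i l y => (Real.sqrt p : ℂ) * f i l y) := by
  funext y
  have h := psh_SR_pos (n := n) (g := fun i y => g i y ^ p)
    (f := fun i l y => (Real.sqrt p : ℂ) * f i l y) hε y
  unfold app psh_F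
  rw [psh_S_real, ← Complex.ofReal_log h.le, ← Complex.ofReal_mul]
  congr 1
  have e1 : ε + ∑ i ∈ Finset.range n, qe (g i) (f i) y ^ p = psh_SR ε n (fun i y => g i y ^ p)
      (fun i l y => (Real.sqrt p : ℂ) * f i l y) y := by
    unfold psh_SR
    congr 1
    exact Finset.sum_congr rfl fun i _ => psh_pow (g i) (f i) p y
  rw [e1]
  ring

theorem app_contDiffOn {U : Set (N → ℂ)} (hU : IsOpen U) {r : ℕ} {g : ℕ → (N → ℂ) → ℂ}
    {f : ℕ → Fin r → (N → ℂ) → ℂ} (hg : ∀ i, DifferentiableOn ℂ (g i) U)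
    (hf : ∀ i l, DifferentiableOn ℂ (f i l) U) (p : ℕ) {ε : ℝ} (hε : 0 < ε) (n : ℕ) :
    ContDiffOn ℝ 2 (app p ε n g f) U := by
  have h2 : ∀ h : (N → ℂ) → ℂ, DifferentiableOn ℂ h U → ContDiffOn ℝ 2 (fun y => ‖h y‖ ^ 2) U :=
    fun h hh => (hol_contDiffOn_real hU 2 hh).norm_sq ℝ
  have h3 : ∀ i, ContDiffOn ℝ 2 (fun y => qe (g i) (f i) y) U := fun i =>
    (h2 _ (hg i)).mul (ContDiffOn.exp (ContDiffOn.sum fun l _ => h2 _ (hf i l)))
  have h4 : ContDiffOn ℝ 2 (fun y => ε + ∑ i ∈ Finset.range n, qe (g i) (f i) y ^ p) U :=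
    contDiffOn_const.add (ContDiffOn.sum fun i _ => (h3 i).pow p)
  refine ContDiffOn.div_const (ContDiffOn.log h4 fun y _ => ?_) _
  have h5 : 0 ≤ ∑ i ∈ Finset.range n, qe (g i) (f i) y ^ p := Finset.sum_nonneg fun i _ => by
    unfold qe
    positivity
  linarith

theorem levi_app {U : Set (N → ℂ)} (hU : IsOpen U) {r : ℕ} {g : ℕ → (N → ℂ) → ℂ}
    {f : ℕ → Fin r → (N → ℂ) → ℂ} (hg : ∀ i, DifferentiableOn ℂ (g i) U)
    (hf : ∀ i l, DifferentiableOn ℂ (f i l) U) {p : ℕ} (hp : 0 < p) {ε : ℝ} (hε : 0 < ε) (n : ℕ)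
    {x : N → ℂ} (hx : x ∈ U) :
    (levi (fun y => (app p ε n g f y : ℂ)) x).IsHermitian ∧ ∀ ξ : N → ℂ,
      (1 / 2) * ∑ i ∈ Finset.range n,
        (qe (g i) (f i) x ^ p / (ε + ∑ i ∈ Finset.range n, qe (g i) (f i) x ^ p)) *
          ∑ l, ‖fderiv ℂ (f i l) x ξ‖ ^ 2 ≤
        (∑ j, ∑ k, ξ j * star (ξ k) * levi (fun y => (app p ε n g f y : ℂ)) x j k).re := by
  rw [psh_app_eq g f p hε n]
  have hg' : ∀ i, DifferentiableOn ℂ (fun y => g i y ^ p) U := fun i => (hg i).pow p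
  have hf' : ∀ i l, DifferentiableOn ℂ (fun y => (Real.sqrt p : ℂ) * f i l y) U := fun i l =>
    (hf i l).const_mul _
  have hpR : (0 : ℝ) < p := by exact_mod_cast hp
  refine ⟨psh_herm hU hg' hf' hε _ hx, fun ξ => ?_⟩
  refine le_trans (le_of_eq ?_) (psh_ineq hU hg' hf' hε (c := 1 / (2 * p)) (by positivity) hx ξ)
  have e1 : ε + ∑ i ∈ Finset.range n, qe (g i) (f i) x ^ p = psh_SR ε n (fun i y => g i y ^ p)
      (fun i l y => (Real.sqrt p : ℂ) * f i l y) x := by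
    unfold psh_SR
    congr 1
    exact Finset.sum_congr rfl fun i _ => psh_pow (g i) (f i) p x
  rw [e1, Finset.mul_sum, Finset.mul_sum]
  refine Finset.sum_congr rfl fun i _ => ?_
  rw [psh_pow (g i) (f i) p x]
  have e2 : ∑ l, ‖fderiv ℂ (fun y => (Real.sqrt p : ℂ) * f i l y) x ξ‖ ^ 2 =
      p * ∑ l, ‖fderiv ℂ (f i l) x ξ‖ ^ 2 := by
    rw [Finset.mul_sum]
    refine Finset.sum_congr rfl fun l _ => ?_
    rw [fderiv_const_mul ((hf i l).differentiableAt (hU.mem_nhds hx)),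
      ContinuousLinearMap.smul_apply, smul_eq_mul, norm_mul, mul_pow, Complex.norm_real,
      Real.norm_of_nonneg (Real.sqrt_nonneg _), Real.sq_sqrt (Nat.cast_nonneg p)]
  rw [e2]
  field_simp

end Pool.Agent.H906.BD
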