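import Pool.Agent.H906.BD.Seq

open Filter Topology Set Metric
open scoped ComplexOrder

namespace Pool.Agent.H906.BD

variable {N : Type*} [Fintype N] [DecidableEq N]

omit [DecidableEq N] in
/-- a nonnegative Hermitian form is bounded by the trace -/
theorem strict_trace (H : Matrix N N ℂ) (hH : H.IsHermitian)
    (hpos : ∀ ξ : N → ℂ, 0 ≤ (∑ a, ∑ b, ξ a * star (ξ b) * H a b).re) :
    0 ≤ (∑ k, H k k).re ∧ ∀ ξ : N → ℂ, (∑ a, ∑ b, ξ a * star (ξ b) * H a b).re ≤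
      (∑ a, ‖ξ a‖ ^ 2) * (∑ k, H k k).re := by
  have hps : H.PosSemidef := by
    refine Matrix.PosSemidef.of_dotProduct_mulVec_nonneg hH fun x => ?_
    have h1 : star x ⬝ᵥ (H.mulVec x) = ∑ a, ∑ b, (star x) a * star ((star x) b) * H a b := by
      rw [dotProduct]
      refine Finset.sum_congr rfl fun a _ => ?_
      rw [Matrix.mulVec, dotProduct, Finset.mul_sum]
      refine Finset.sum_congr rfl fun b _ => ?_
      rw [Pi.star_apply, Pi.star_apply, star_star]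
      ring
    have h2 : (star x ⬝ᵥ (H.mulVec x)).im = 0 := hH.im_star_dotProduct_mulVec_self x
    have h3 : 0 ≤ (star x ⬝ᵥ (H.mulVec x)).re := by
      rw [h1]
      exact hpos _
    rw [Complex.nonneg_iff]
    exact ⟨h3, h2.symm⟩
  obtain ⟨m, v, hv⟩ := Matrix.posSemidef_iff_eq_sum_vecMulVec.1 hps
  have hab : ∀ a b, H a b = ∑ i, v i a * star (v i b) := by
    intro a b
    conv_lhs => rw [hv]
    rw [Matrix.sum_apply]
    rfl
  have hnn : ∀ z : ℂ, z * star z = ((‖z‖ ^ 2 : ℝ) : ℂ) := by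
    intro z
    rw [Complex.star_def, Complex.mul_conj, Complex.normSq_eq_norm_sq]
  have htr : ∑ k, H k k = ((∑ i, ∑ a, ‖v i a‖ ^ 2 : ℝ) : ℂ) := by
    rw [Finset.sum_comm, Complex.ofReal_sum]
    refine Finset.sum_congr rfl fun a _ => ?_
    rw [hab, Complex.ofReal_sum]
    exact Finset.sum_congr rfl fun i _ => hnn _
  have hfo : ∀ ξ : N → ℂ, ∑ a, ∑ b, ξ a * star (ξ b) * H a b =
      ((∑ i, ‖∑ a, ξ a * v i a‖ ^ 2 : ℝ) : ℂ) := by
    intro ξ
    rw [Complex.ofReal_sum]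
    have h1 : ∀ i, ((‖∑ a, ξ a * v i a‖ ^ 2 : ℝ) : ℂ) =
        ∑ a, ∑ b, ξ a * star (ξ b) * (v i a * star (v i b)) := by
      intro i
      rw [← hnn, star_sum, Finset.sum_mul_sum]
      refine Finset.sum_congr rfl fun a _ => Finset.sum_congr rfl fun b _ => ?_
      rw [star_mul']
      ring
    rw [Finset.sum_congr rfl fun i _ => h1 i, Finset.sum_comm (s := (Finset.univ : Finset (Fin m)))]
    refine Finset.sum_congr rfl fun a _ => ?_
    rw [Finset.sum_comm (s := (Finset.univ : Finset (Fin m)))]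
    refine Finset.sum_congr rfl fun b _ => ?_
    rw [hab, Finset.mul_sum]
  constructor
  · rw [htr, Complex.ofReal_re]
    exact Finset.sum_nonneg fun _ _ => Finset.sum_nonneg fun _ _ => sq_nonneg _
  · intro ξ
    rw [htr, hfo, Complex.ofReal_re, Complex.ofReal_re, Finset.mul_sum]
    refine Finset.sum_le_sum fun i _ => ?_
    have h1 : ‖∑ a, ξ a * v i a‖ ≤ ∑ a, ‖ξ a‖ * ‖v i a‖ := by
      refine (norm_sum_le _ _).trans (le_of_eq ?_)
      exact Finset.sum_congr rfl fun a _ => norm_mul _ _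
    calc ‖∑ a, ξ a * v i a‖ ^ 2 ≤ (∑ a, ‖ξ a‖ * ‖v i a‖) ^ 2 := by gcongr
      _ ≤ _ := Finset.sum_mul_sq_le_sq_mul_sq _ _ _

/-- choice of the constant -/
theorem strict_const {r : ℕ} (hr : 0 < r) {c : ℝ} (hc : 0 < c) :
    ∃ c' > 0, ∀ F : ℝ, 0 ≤ F → c ≤ ((r.factorial : ℝ) * Real.sqrt F ^ r) ^ 2 → c' ≤ F := by
  have hf : (0 : ℝ) < (r.factorial : ℝ) := by exact_mod_cast r.factorial_pos
  refine ⟨min 1 (c / (2 * (r.factorial : ℝ) ^ 2)), by positivity, ?_⟩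
  intro F hF h
  by_contra hcon
  push Not at hcon
  have h1 : F < 1 := lt_of_lt_of_le hcon (min_le_left _ _)
  have h2 : F < c / (2 * (r.factorial : ℝ) ^ 2) := lt_of_lt_of_le hcon (min_le_right _ _)
  have h3 : ((r.factorial : ℝ) * Real.sqrt F ^ r) ^ 2 = (r.factorial : ℝ) ^ 2 * F ^ r := by
    rw [mul_pow, ← pow_mul, mul_comm r 2, pow_mul, Real.sq_sqrt hF]
  have h4 : F ^ r ≤ F := by
    calc F ^ r ≤ F ^ 1 := pow_le_pow_of_le_one hF h1.le hr
      _ = F := pow_one F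
  rw [h3] at h
  have h5 : (r.factorial : ℝ) ^ 2 * F ^ r ≤ (r.factorial : ℝ) ^ 2 * F := by gcongr
  have h6 : (r.factorial : ℝ) ^ 2 * F < (r.factorial : ℝ) ^ 2 * (c / (2 * (r.factorial : ℝ) ^ 2)) := by
    gcongr
  have h7 : (r.factorial : ℝ) ^ 2 * (c / (2 * (r.factorial : ℝ) ^ 2)) = c / 2 := by
    field_simp
  linarith

/-- the determinant is bounded by the squares of the entries -/
theorem strict_det {r : ℕ} (M : Matrix (Fin r) (Fin r) ℂ) :
    ‖M.det‖ ≤ (r.factorial : ℝ) * Real.sqrt (∑ i, ∑ j, ‖M i j‖ ^ 2) ^ r := by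
  have h := Matrix.det_le (A := M) (abv := NormedField.toAbsoluteValue ℂ)
    (x := Real.sqrt (∑ i, ∑ j, ‖M i j‖ ^ 2)) (fun i j => by
      refine Real.le_sqrt_of_sq_le ?_
      have h1 : ‖M i j‖ ^ 2 ≤ ∑ j, ‖M i j‖ ^ 2 :=
        Finset.single_le_sum (f := fun j => ‖M i j‖ ^ 2) (fun _ _ => sq_nonneg _)
          (Finset.mem_univ j)
      have h2 : ∑ j, ‖M i j‖ ^ 2 ≤ ∑ i, ∑ j, ‖M i j‖ ^ 2 :=
        Finset.single_le_sum (f := fun i => ∑ j, ‖M i j‖ ^ 2)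
          (fun _ _ => Finset.sum_nonneg fun _ _ => sq_nonneg _)
          (Finset.mem_univ i)
      exact h1.trans h2)
  rw [Fintype.card_fin, nsmul_eq_mul] at h
  exact h

/-- the bad indices carry at most half of the weight -/
theorem strict_weight {c₁ : ℝ} (hc₁ : 0 < c₁) {j : ℕ} (hj : 1 ≤ j)
    (hj2 : Real.exp (-(2 * (j : ℝ))) ≤ c₁ / 2) (q : ℕ → ℝ) (hq : ∀ i, 0 ≤ q i) (hq0 : c₁ ≤ q 0) :
    (1 / 2) * (Real.exp (-(2 * (j : ℝ) * ((j : ℝ) + 1) ^ 2)) +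
        ∑ i ∈ Finset.range (j + 1), q i ^ ((j + 1) ^ 2)) ≤
      ∑ i ∈ (Finset.range (j + 1)).filter (fun i => c₁ / 2 ≤ q i), q i ^ ((j + 1) ^ 2) := by
  set p := (j + 1) ^ 2 with hp
  have hexp : Real.exp (-(2 * (j : ℝ) * ((j : ℝ) + 1) ^ 2)) ≤ (c₁ / 2) ^ p := by
    have h1 : Real.exp (-(2 * (j : ℝ) * ((j : ℝ) + 1) ^ 2)) = Real.exp (-(2 * (j : ℝ))) ^ p := by
      rw [← Real.exp_nat_mul]
      congr 1
      rw [hp]
      push_cast
      ring
    rw [h1]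
    exact pow_le_pow_left₀ (Real.exp_nonneg _) hj2 _
  have hsplit := Finset.sum_filter_add_sum_filter_not (Finset.range (j + 1))
    (fun i => c₁ / 2 ≤ q i) (fun i => q i ^ p)
  have hbad : ∑ i ∈ (Finset.range (j + 1)).filter (fun i => ¬ c₁ / 2 ≤ q i), q i ^ p ≤
      ((j : ℝ) + 1) * (c₁ / 2) ^ p := by
    calc ∑ i ∈ (Finset.range (j + 1)).filter (fun i => ¬ c₁ / 2 ≤ q i), q i ^ p
        ≤ ∑ _i ∈ (Finset.range (j + 1)).filter (fun i => ¬ c₁ / 2 ≤ q i), (c₁ / 2) ^ p := by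
          refine Finset.sum_le_sum fun i hi => ?_
          rw [Finset.mem_filter, not_le] at hi
          exact pow_le_pow_left₀ (hq i) hi.2.le _
      _ = (((Finset.range (j + 1)).filter (fun i => ¬ c₁ / 2 ≤ q i)).card : ℝ) * (c₁ / 2) ^ p := by
          rw [Finset.sum_const, nsmul_eq_mul]
      _ ≤ ((j : ℝ) + 1) * (c₁ / 2) ^ p := by
          have h2 : ((Finset.range (j + 1)).filter (fun i => ¬ c₁ / 2 ≤ q i)).card ≤ j + 1 := by
            have := Finset.card_filter_le (Finset.range (j + 1)) (fun i => ¬ c₁ / 2 ≤ q i)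
            rwa [Finset.card_range] at this
          have h3 : (((Finset.range (j + 1)).filter (fun i => ¬ c₁ / 2 ≤ q i)).card : ℝ) ≤
              (j : ℝ) + 1 := by exact_mod_cast h2
          gcongr
  have hpow : ((j : ℝ) + 2) * (c₁ / 2) ^ p ≤ (1 / 2) * c₁ ^ p := by
    rw [div_pow]
    have h1 : j + 2 ≤ 2 ^ (j + 1) := by
      have := Nat.lt_two_pow_self (n := j + 1)
      omega
    have h2 : j + 1 ≤ p - 1 := by
      have : (j + 1) ^ 2 = j * j + 2 * j + 1 := by ring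
      have h3 : 1 ≤ j * j := Nat.one_le_iff_ne_zero.mpr (by positivity)
      omega
    have h3 : j + 2 ≤ 2 ^ (p - 1) := h1.trans (Nat.pow_le_pow_right (by norm_num) h2)
    have h4 : ((j : ℝ) + 2) ≤ (2 : ℝ) ^ (p - 1) := by exact_mod_cast h3
    have h5 : (2 : ℝ) ^ p = 2 * (2 : ℝ) ^ (p - 1) := by
      have : p = (p - 1) + 1 := by omega
      conv_lhs => rw [this, pow_succ]
      ring
    rw [h5]
    have h6 : (0 : ℝ) < (2 : ℝ) ^ (p - 1) := by positivity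
    have h7 : (0 : ℝ) ≤ c₁ ^ p := by positivity
    calc ((j : ℝ) + 2) * (c₁ ^ p / (2 * (2 : ℝ) ^ (p - 1)))
        ≤ (2 : ℝ) ^ (p - 1) * (c₁ ^ p / (2 * (2 : ℝ) ^ (p - 1))) := by gcongr
      _ = (1 / 2) * c₁ ^ p := by field_simp
  have hS : c₁ ^ p ≤ ∑ i ∈ Finset.range (j + 1), q i ^ p := by
    calc c₁ ^ p ≤ q 0 ^ p := pow_le_pow_left₀ hc₁.le hq0 _
      _ ≤ _ := Finset.single_le_sum (f := fun i => q i ^ p) (fun i _ => pow_nonneg (hq i) _)
          (Finset.mem_range.2 (by omega))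
  have hexp0 := Real.exp_nonneg (-(2 * (j : ℝ) * ((j : ℝ) + 1) ^ 2))
  linarith

theorem ua_strict {U : Set (N → ℂ)} (hU : IsOpen U) {r : ℕ} (hr : 0 < r)
    {f : ℕ → Fin r → (N → ℂ) → ℂ} (hf : ∀ i l, DifferentiableOn ℂ (f i l) U)
    (hf1 : ∀ i l, ∀ x ∈ U, ‖f i l x‖ ≤ 1) {w : Fin r → (N → ℂ) → (N → ℂ)}
    (hw : ∀ k, DifferentiableOn ℂ (w k) U) {x₁ : N → ℂ} (hx₁ : x₁ ∈ U)
    (h0 : detf w (f 0) x₁ ≠ 0)
    (hlevi : ∀ j : ℕ, ∀ x ∈ U,
      (levi (fun y => (ua j (fun i => detf w (f i)) f y : ℂ)) x).IsHermitian ∧ ∀ ξ : N → ℂ,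
        (1 / 2) * ∑ i ∈ Finset.range (j + 1),
          (qe (detf w (f i)) (f i) x ^ ((j + 1) ^ 2) /
            (Real.exp (-(2 * (j : ℝ) * ((j : ℝ) + 1) ^ 2)) +
              ∑ i ∈ Finset.range (j + 1), qe (detf w (f i)) (f i) x ^ ((j + 1) ^ 2))) *
            ∑ l, ‖fderiv ℂ (f i l) x ξ‖ ^ 2 ≤
          (∑ a, ∑ b, ξ a * star (ξ b) *
            levi (fun y => (ua j (fun i => detf w (f i)) f y : ℂ)) x a b).re) :
    ∃ ρ > 0, ∃ δ > 0, ∀ᶠ j : ℕ in atTop, ∀ x ∈ ball x₁ ρ, x ∈ U →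
      δ ≤ (∑ k, levi (fun y => (ua j (fun i => detf w (f i)) f y : ℂ)) x k k).re := by
  -- constants
  set c₁ : ℝ := ‖detf w (f 0) x₁‖ ^ 2 / 2 with hc₁
  have hc₁0 : 0 < c₁ := by
    have := norm_pos_iff.2 h0
    positivity
  set W : ℝ := ∑ k, ∑ a, ‖w k x₁ a‖ ^ 2 + 1 with hW
  have hW0 : 0 < W := by
    have h1 : 0 ≤ ∑ k, ∑ a, ‖w k x₁ a‖ ^ 2 :=
      Finset.sum_nonneg fun _ _ => Finset.sum_nonneg fun _ _ => sq_nonneg _
    rw [hW]
    linarith
  have hcont : ContinuousAt (fun x => detf w (f 0) x) x₁ := by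
    unfold detf
    have h1 : ∀ i j, ContinuousAt (fun x => fderiv ℂ (f 0 i) x (w j x)) x₁ := by
      intro i j
      have h2 : ContDiffOn ℂ 1 (f 0 i) U := by
        have := hol_contDiffOn hU 1 (hf 0 i)
        exact_mod_cast this
      have h3 : ContinuousAt (fderiv ℂ (f 0 i)) x₁ :=
        (h2.continuousOn_fderiv_of_isOpen hU le_rfl).continuousAt (hU.mem_nhds hx₁)
      have h4 : ContinuousAt (w j) x₁ :=
        ((hw j).differentiableAt (hU.mem_nhds hx₁)).continuousAt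
      exact h3.clm_apply h4
    simp only [Matrix.det_apply]
    refine tendsto_finsetSum _ fun σ _ => ?_
    refine Tendsto.const_smul ?_ _
    refine tendsto_finsetProd _ fun i _ => ?_
    exact h1 (σ i) i
  have hlt : c₁ < ‖detf w (f 0) x₁‖ ^ 2 := by
    rw [hc₁]
    have := norm_pos_iff.2 h0
    have : 0 < ‖detf w (f 0) x₁‖ ^ 2 := by positivity
    linarith
  have hev1 : ∀ᶠ x in 𝓝 x₁, c₁ < ‖detf w (f 0) x‖ ^ 2 :=
    (hcont.norm.pow 2).eventually (lt_mem_nhds hlt)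
  have hev2 : ∀ᶠ x in 𝓝 x₁, ∑ k, ∑ a, ‖w k x a‖ ^ 2 < W := by
    have h1 : ContinuousAt (fun x => ∑ k, ∑ a, ‖w k x a‖ ^ 2) x₁ := by
      refine tendsto_finsetSum _ fun k _ => tendsto_finsetSum _ fun a _ => ?_
      have h4 : ContinuousAt (w k) x₁ :=
        ((hw k).differentiableAt (hU.mem_nhds hx₁)).continuousAt
      exact (((continuous_apply a).continuousAt.comp h4).norm).pow 2
    refine h1.eventually (gt_mem_nhds ?_)
    rw [hW]
    linarith
  clear_value W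
  obtain ⟨ρ, hρ, hball⟩ := Metric.eventually_nhds_iff_ball.1 (hev1.and hev2)
  obtain ⟨c', hc'0, hc'⟩ := strict_const hr (c := c₁ / 2 * Real.exp (-(r : ℝ)))
    (by positivity)
  have hev3 : ∀ᶠ j : ℕ in atTop, Real.exp (-(2 * (j : ℝ))) ≤ c₁ / 2 := by
    have h1 : Tendsto (fun j : ℕ => Real.exp (-(2 * (j : ℝ)))) atTop (𝓝 0) := by
      refine Real.tendsto_exp_neg_atTop_nhds_zero.comp ?_
      exact Tendsto.const_mul_atTop (by norm_num) tendsto_natCast_atTop_atTop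
    exact (h1.eventually (gt_mem_nhds (by positivity : (0 : ℝ) < c₁ / 2))).mono
      fun _ h => le_of_lt h
  refine ⟨ρ, hρ, c' / (4 * W), by positivity, ?_⟩
  filter_upwards [hev3, eventually_ge_atTop 1] with j hj3 hj1 x hx hxU
  obtain ⟨hb1, hb2⟩ := hball x hx
  obtain ⟨hHerm, hform⟩ := hlevi j x hxU
  set H := levi (fun y => (ua j (fun i => detf w (f i)) f y : ℂ)) x with hH
  set q : ℕ → ℝ := fun i => qe (detf w (f i)) (f i) x with hq
  have hq0 : ∀ i, 0 ≤ q i := fun i => by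
    rw [hq]
    unfold qe
    exact mul_nonneg (sq_nonneg _) (Real.exp_nonneg _)
  have hqc : c₁ ≤ q 0 := by
    rw [hq]
    unfold qe
    have h1 : 1 ≤ Real.exp (∑ l, ‖f 0 l x‖ ^ 2) := Real.one_le_exp
      (Finset.sum_nonneg fun _ _ => sq_nonneg _)
    have h2 : 0 ≤ ‖detf w (f 0) x‖ ^ 2 := by positivity
    nlinarith
  set S : ℝ := Real.exp (-(2 * (j : ℝ) * ((j : ℝ) + 1) ^ 2)) +
    ∑ i ∈ Finset.range (j + 1), q i ^ ((j + 1) ^ 2) with hS
  have hS0 : 0 < S := by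
    have : 0 ≤ ∑ i ∈ Finset.range (j + 1), q i ^ ((j + 1) ^ 2) :=
      Finset.sum_nonneg fun i _ => pow_nonneg (hq0 i) _
    have := Real.exp_pos (-(2 * (j : ℝ) * ((j : ℝ) + 1) ^ 2))
    rw [hS]
    linarith
  have hweight : (1 / 2) * S ≤
      ∑ i ∈ (Finset.range (j + 1)).filter (fun i => c₁ / 2 ≤ q i), q i ^ ((j + 1) ^ 2) :=
    strict_weight hc₁0 hj1 hj3 q hq0 hqc
  clear_value S
  -- the energy
  set F : ℕ → ℝ := fun i => ∑ k, ∑ l, ‖fderiv ℂ (f i l) x (w k x)‖ ^ 2 with hF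
  have hF0 : ∀ i, 0 ≤ F i := fun i => by
    rw [hF]
    exact Finset.sum_nonneg fun _ _ => Finset.sum_nonneg fun _ _ => sq_nonneg _
  have hgood : ∀ i, c₁ / 2 ≤ q i → c' ≤ F i := by
    intro i hi
    refine hc' (F i) (hF0 i) ?_
    have h1 : ‖detf w (f i) x‖ ≤ (r.factorial : ℝ) * Real.sqrt (F i) ^ r := by
      have := strict_det (Matrix.of fun i' j' => fderiv ℂ (f i i') x (w j' x))
      rw [Finset.sum_comm] at this
      exact this
    have h2 : q i = ‖detf w (f i) x‖ ^ 2 * Real.exp (∑ l, ‖f i l x‖ ^ 2) := rfl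
    have h3 : Real.exp (∑ l, ‖f i l x‖ ^ 2) ≤ Real.exp (r : ℝ) := by
      refine Real.exp_le_exp.2 ?_
      calc ∑ l, ‖f i l x‖ ^ 2 ≤ ∑ _l : Fin r, (1 : ℝ) := by
            refine Finset.sum_le_sum fun l _ => ?_
            exact pow_le_one₀ (norm_nonneg _) (hf1 i l x hxU)
        _ = r := by simp
    have h4 : c₁ / 2 ≤ ‖detf w (f i) x‖ ^ 2 * Real.exp (r : ℝ) := by
      rw [h2] at hi
      refine hi.trans ?_
      gcongr
    have h5 : c₁ / 2 * Real.exp (-(r : ℝ)) ≤ ‖detf w (f i) x‖ ^ 2 := by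
      have h6 : Real.exp (-(r : ℝ)) * Real.exp (r : ℝ) = 1 := by
        rw [← Real.exp_add]
        simp
      have h7 := mul_le_mul_of_nonneg_right h4 (Real.exp_nonneg (-(r : ℝ)))
      calc c₁ / 2 * Real.exp (-(r : ℝ)) ≤ ‖detf w (f i) x‖ ^ 2 * Real.exp (r : ℝ) *
            Real.exp (-(r : ℝ)) := h7
        _ = ‖detf w (f i) x‖ ^ 2 * (Real.exp (-(r : ℝ)) * Real.exp (r : ℝ)) := by ring
        _ = ‖detf w (f i) x‖ ^ 2 := by rw [h6, mul_one]
    refine h5.trans ?_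
    gcongr
  -- sum over the fields
  obtain ⟨htr0, htr⟩ := strict_trace H hHerm (fun ξ => by
    refine le_trans ?_ (hform ξ)
    refine mul_nonneg (by norm_num) (Finset.sum_nonneg fun i _ => mul_nonneg
      (div_nonneg (pow_nonneg (hq0 i) _) hS0.le) (Finset.sum_nonneg fun l _ => sq_nonneg _)))
  have hsum : (1 / 2) * ∑ i ∈ Finset.range (j + 1), (q i ^ ((j + 1) ^ 2) / S) * F i ≤
      W * (∑ k, H k k).re := by
    calc (1 / 2) * ∑ i ∈ Finset.range (j + 1), (q i ^ ((j + 1) ^ 2) / S) * F i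
        = ∑ k, (1 / 2) * ∑ i ∈ Finset.range (j + 1), (q i ^ ((j + 1) ^ 2) / S) *
            ∑ l, ‖fderiv ℂ (f i l) x (w k x)‖ ^ 2 := by
          rw [← Finset.mul_sum, Finset.sum_comm]
          simp only [hF, Finset.mul_sum]
      _ ≤ ∑ k, (∑ a, ‖w k x a‖ ^ 2) * (∑ k, H k k).re :=
          Finset.sum_le_sum fun k _ => (hform (w k x)).trans (htr (w k x))
      _ = (∑ k, ∑ a, ‖w k x a‖ ^ 2) * (∑ k, H k k).re := by rw [Finset.sum_mul]
      _ ≤ W * (∑ k, H k k).re := by gcongr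
  have hlow : c' / 2 ≤ ∑ i ∈ Finset.range (j + 1), (q i ^ ((j + 1) ^ 2) / S) * F i := by
    calc c' / 2 = c' * ((1 / 2) * S) / S := by field_simp
      _ ≤ c' * (∑ i ∈ (Finset.range (j + 1)).filter (fun i => c₁ / 2 ≤ q i),
            q i ^ ((j + 1) ^ 2)) / S := by gcongr
      _ = ∑ i ∈ (Finset.range (j + 1)).filter (fun i => c₁ / 2 ≤ q i),
            (q i ^ ((j + 1) ^ 2) / S) * c' := by
          rw [Finset.mul_sum, Finset.sum_div]
          exact Finset.sum_congr rfl fun i _ => by ring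
      _ ≤ ∑ i ∈ (Finset.range (j + 1)).filter (fun i => c₁ / 2 ≤ q i),
            (q i ^ ((j + 1) ^ 2) / S) * F i := by
          refine Finset.sum_le_sum fun i hi => ?_
          exact mul_le_mul_of_nonneg_left (hgood i (Finset.mem_filter.1 hi).2)
            (div_nonneg (pow_nonneg (hq0 i) _) hS0.le)
      _ ≤ _ := Finset.sum_le_sum_of_subset_of_nonneg (Finset.filter_subset _ _) fun i _ _ =>
          mul_nonneg (div_nonneg (pow_nonneg (hq0 i) _) hS0.le) (hF0 i)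
  rw [div_le_iff₀ (by positivity)]
  linarith

end Pool.Agent.H906.BD
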