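import Pool.Agent.H906.BD.Stokes
import Pool.Agent.H906.BD.Conv
import Pool.Agent.H906.BD.Strict
import Pool.Agent.H906.BD.Psh
import Pool.Agent.H906.BD.LogInt
import Pool.Agent.H906.BD.Countable
import Pool.Agent.H906.BD.NoField

/-! # There are no invariant fields on `D` if `(D × ℂ^B) / Γ` is a compact Kähler space -/

set_option linter.unusedSectionVars false

open Filter Topology Set Metric MeasureTheory
open scoped ComplexOrder

namespace Pool.Agent.H906.BD

theorem exists_f0 {E : Type*} [NormedAddCommGroup E] [NormedSpace ℂ E] [FiniteDimensional ℂ E]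
    {D : Set E} {R : ℝ} (hR : ∀ z ∈ D, ‖z‖ ≤ R) {z₁ : E} {r : ℕ} {v : Fin r → E → E}
    (hli : LinearIndependent ℂ (fun i => v i z₁)) :
    ∃ f₀ : Fin r → E → ℂ, (∀ l, f₀ l ∈ HolB D) ∧ detf v f₀ z₁ ≠ 0 := by
  set L : (Fin r → ℂ) →ₗ[ℂ] E := Fintype.linearCombination ℂ (fun i => v i z₁) with hL
  have hinj : LinearMap.ker L = ⊥ := by
    rw [LinearMap.ker_eq_bot]
    exact linearIndependent_iff_injective_fintypeLinearCombination.1 hli
  obtain ⟨g, hg⟩ := LinearMap.exists_leftInverse_of_injective L hinj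
  set G : E →L[ℂ] (Fin r → ℂ) := LinearMap.toContinuousLinearMap g with hG
  have hGv : ∀ j, G (v j z₁) = Pi.single j 1 := by
    intro j
    have h1 : L (Pi.single j 1) = v j z₁ := by
      rw [hL, Fintype.linearCombination_apply_single, one_smul]
    have h2 := LinearMap.congr_fun hg (Pi.single j 1)
    rw [LinearMap.comp_apply, h1] at h2
    exact h2
  set c : ℝ := 1 / (‖G‖ * |R| + 1) with hc
  have hc0 : 0 < c := by positivity
  refine ⟨fun l z => (c : ℂ) * G z l, fun l => ⟨?_, fun z hz => ?_⟩, ?_⟩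
  · have h1 : Differentiable ℂ (fun z => G z l) :=
      (differentiable_pi.1 G.differentiable) l
    exact (h1.const_mul _).differentiableOn
  · rw [norm_mul, Complex.norm_real, Real.norm_eq_abs, abs_of_pos hc0]
    have h1 : ‖G z l‖ ≤ ‖G‖ * |R| := (norm_le_pi_norm _ l).trans ((G.le_opNorm z).trans (by
      have := hR z hz
      have h2 := le_abs_self R
      gcongr
      linarith))
    calc c * ‖G z l‖ ≤ c * (‖G‖ * |R| + 1) := by
          gcongr
          linarith
      _ = 1 := by rw [hc]; field_simp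
  · have h1 : (Matrix.of fun i j => fderiv ℂ (fun z => (c : ℂ) * G z i) z₁ (v j z₁)) =
        (c : ℂ) • (1 : Matrix (Fin r) (Fin r) ℂ) := by
      ext i j
      have h2 : HasFDerivAt (fun z => (c : ℂ) * G z i)
          ((c : ℂ) • ((ContinuousLinearMap.proj i).comp G)) z₁ := by
        have h3 : HasFDerivAt (fun z => G z i) ((ContinuousLinearMap.proj (R := ℂ) i).comp G) z₁ :=
          ((ContinuousLinearMap.proj (R := ℂ) (φ := fun _ : Fin r => ℂ) i).comp G).hasFDerivAt
        exact h3.const_mul _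
      rw [Matrix.of_apply, h2.fderiv]
      have h4 : ((c : ℂ) • ((ContinuousLinearMap.proj (R := ℂ) (φ := fun _ : Fin r => ℂ) i).comp G))
          (v j z₁) = (c : ℂ) * (G (v j z₁) i) := rfl
      rw [h4, hGv j, Matrix.smul_apply, Matrix.one_apply, smul_eq_mul, Pi.single_apply]
    show (Matrix.of fun i j => fderiv ℂ (fun z => (c : ℂ) * G z i) z₁ (v j z₁)).det ≠ 0
    rw [h1, Matrix.det_smul, Matrix.det_one, mul_one]
    exact pow_ne_zero _ (by exact_mod_cast hc0.ne')

/-- transformation of the determinant under a map which transforms the fields by a matrix -/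
theorem detf_comp {E : Type*} [NormedAddCommGroup E] [NormedSpace ℂ E] {D : Set E}
    (hD : IsOpen D) {s : E → E} (hs : DifferentiableOn ℂ s D) (hm : ∀ z ∈ D, s z ∈ D) {r : ℕ}
    {v : Fin r → E → E} {M : Matrix (Fin r) (Fin r) ℝ}
    (hM : ∀ z ∈ D, ∀ i, fderiv ℂ s z (v i z) = ∑ j, (M i j : ℂ) • v j (s z))
    {h : Fin r → E → ℂ} (hh : ∀ l, DifferentiableOn ℂ (h l) D) {z : E} (hz : z ∈ D) :
    detf v (fun l y => h l (s y)) z = detf v h (s z) * (M.det : ℂ) := by
  have h1 : (Matrix.of fun i j => fderiv ℂ (fun y => h i (s y)) z (v j z)) =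
      (Matrix.of fun i j => fderiv ℂ (h i) (s z) (v j (s z))) *
        (M.map (algebraMap ℝ ℂ)).transpose := by
    ext i j
    have h2 : HasFDerivAt (fun y => h i (s y)) ((fderiv ℂ (h i) (s z)).comp (fderiv ℂ s z)) z :=
      (((hh i).differentiableAt (hD.mem_nhds (hm z hz))).hasFDerivAt).comp z
        ((hs.differentiableAt (hD.mem_nhds hz)).hasFDerivAt)
    rw [Matrix.of_apply, h2.fderiv, ContinuousLinearMap.comp_apply, hM z hz j, map_sum,
      Matrix.mul_apply]
    refine Finset.sum_congr rfl fun k _ => ?_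
    rw [map_smul, smul_eq_mul, mul_comm]
    rfl
  unfold detf
  rw [h1, Matrix.det_mul, Matrix.det_transpose]
  congr 1
  have := RingHom.map_det (algebraMap ℝ ℂ) M
  rw [RingHom.mapMatrix_apply] at this
  exact this.symm

section

variable {A B : Type*} [Fintype A] [Fintype B] [DecidableEq A] [DecidableEq B]
variable {Γ : Type*} [Group Γ]

/-- `prA` as a continuous linear map -/
noncomputable def prAL : (A ⊕ B → ℂ) →L[ℂ] (A → ℂ) :=
  ContinuousLinearMap.pi fun i => ContinuousLinearMap.proj (Sum.inl i)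

theorem prAL_apply (x : A ⊕ B → ℂ) : prAL x = prA x := rfl

theorem continuous_prA : Continuous (prA : (A ⊕ B → ℂ) → (A → ℂ)) :=
  (prAL (A := A) (B := B)).continuous

theorem isOpen_tot {D : Set (A → ℂ)} (hD : IsOpen D) : IsOpen (Tot D B) :=
  hD.preimage continuous_prA

theorem prA_elim (z : A → ℂ) (w : B → ℂ) : prA (Sum.elim z w) = z := rfl

theorem elim_pr (x : A ⊕ B → ℂ) : Sum.elim (prA x) (prB x) = x := by
  funext k
  rcases k with i | j <;> rfl

theorem continuous_elim : Continuous fun p : (A → ℂ) × (B → ℂ) => Sum.elim p.1 p.2 := by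
  refine continuous_pi fun k => ?_
  rcases k with i | j
  · exact (continuous_apply i).comp continuous_fst
  · exact (continuous_apply j).comp continuous_snd

theorem isPreconnected_tot {D : Set (A → ℂ)} (hc : IsPreconnected D) :
    IsPreconnected (Tot D B) := by
  have h1 : Tot D B = (fun p : (A → ℂ) × (B → ℂ) => Sum.elim p.1 p.2) '' (D ×ˢ univ) := by
    ext x
    constructor
    · intro hx
      exact ⟨(prA x, prB x), ⟨hx, mem_univ _⟩, elim_pr x⟩
    · rintro ⟨p, ⟨hp, -⟩, rfl⟩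
      exact hp
  rw [h1]
  exact (hc.prod isPreconnected_univ).image _ continuous_elim.continuousOn

theorem dist_prA_le (x y : A ⊕ B → ℂ) : dist (prA x) (prA y) ≤ dist x y := by
  rw [dist_pi_le_iff dist_nonneg]
  intro i
  exact dist_le_pi_dist x y (Sum.inl i)

theorem noField_of_kahler {D : Set (A → ℂ)} (hD : IsOpen D) (hc : IsPreconnected D) {R : ℝ}
    (hR : ∀ z ∈ D, ‖z‖ ≤ R) {ρ : Γ → (A ⊕ B → ℂ) → (A ⊕ B → ℂ)}
    {σ : Γ → (A → ℂ) → (A → ℂ)} {a b : Γ → B → ℂ} (h : SplitAct D ρ σ a b)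
    (hpd : PD (Tot D B) ρ) (hcc : CC (Tot D B) ρ)
    {g : (A ⊕ B → ℂ) → Matrix (A ⊕ B) (A ⊕ B) ℂ} (hg : Kahler (Tot D B) g)
    (hinv : InvForm (Tot D B) ρ g) : NoField D σ := by
  intro r v z₁ hr hz₁ hv hli hM
  obtain ⟨f₀, hf₀, hf₀ne⟩ := exists_f0 hR hli
  obtain ⟨f, hf0, hfB, hsup⟩ := exists_seq hD hv f₀ hf₀
  have hU : IsOpen (Tot D B) := isOpen_tot hD
  have hUc : IsPreconnected (Tot D B) := isPreconnected_tot hc
  -- lifted functions
  set F : ℕ → Fin r → (A ⊕ B → ℂ) → ℂ := fun i l x => f i l (prA x) with hF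
  set W : Fin r → (A ⊕ B → ℂ) → (A ⊕ B → ℂ) := fun k x => Sum.elim (v k (prA x)) 0 with hW
  set G : ℕ → (A ⊕ B → ℂ) → ℂ := fun i => detf W (F i) with hG
  have hprd : Differentiable ℂ (prA : (A ⊕ B → ℂ) → (A → ℂ)) :=
    (prAL (A := A) (B := B)).differentiable
  have hFh : ∀ i l, DifferentiableOn ℂ (F i l) (Tot D B) := fun i l =>
    (hfB i l).1.comp hprd.differentiableOn fun x hx => hx
  have hFB : ∀ i l, F i l ∈ HolB (Tot D B) := fun i l =>
    ⟨hFh i l, fun x hx => (hfB i l).2 _ hx⟩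
  have hWh : ∀ k, DifferentiableOn ℂ (W k) (Tot D B) := by
    intro k
    rw [differentiableOn_pi]
    rintro (i | j)
    · have h1 : DifferentiableOn ℂ (fun z => v k z i) D := (differentiableOn_pi.1 (hv k)) i
      exact h1.comp hprd.differentiableOn fun x hx => hx
    · exact differentiableOn_const _
  have hGeq : ∀ i, ∀ x ∈ Tot D B, G i x = detf v (f i) (prA x) := by
    intro i x hx
    show (Matrix.of fun l k => fderiv ℂ (F i l) x (W k x)).det =
      (Matrix.of fun l k => fderiv ℂ (f i l) (prA x) (v k (prA x))).det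
    congr 1
    ext l k
    have h2 : HasFDerivAt (F i l) ((fderiv ℂ (f i l) (prA x)).comp prAL) x :=
      (((hfB i l).1.differentiableAt (hD.mem_nhds hx)).hasFDerivAt).comp x
        (prAL (A := A) (B := B)).hasFDerivAt
    rw [Matrix.of_apply, Matrix.of_apply, h2.fderiv]
    rfl
  have hqe : ∀ i, ∀ x ∈ Tot D B, qe (G i) (F i) x = qe (detf v (f i)) (f i) (prA x) := by
    intro i x hx
    unfold qe
    rw [hGeq i x hx]
  have hGh : ∀ i, DifferentiableOn ℂ (G i) (Tot D B) := fun i =>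
    countable_detf_hol hU hWh (hFB i)
  set x₁ : A ⊕ B → ℂ := Sum.elim z₁ 0 with hx₁
  have hx₁U : x₁ ∈ Tot D B := hz₁
  have hG0 : G 0 x₁ ≠ 0 := by
    rw [hGeq 0 x₁ hx₁U, hf0]
    exact hf₀ne
  -- the function
  set Q : (A → ℂ) → ℝ := fun z => ⨆ i, qe (detf v (f i)) (f i) z with hQ
  have hQle : ∀ z ∈ D, ∀ k : Fin r → (A → ℂ) → ℂ, (∀ l, k l ∈ HolB D) →
      qe (detf v k) k z ≤ Q z := fun z hz => (hsup z hz).2
  have hQeq : ∀ x ∈ Tot D B, (⨆ i, qe (G i) (F i) x) = Q (prA x) := by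
    intro x hx
    rw [hQ]
    exact congrArg _ (funext fun i => hqe i x hx)
  obtain ⟨hae, hlog⟩ := log_locallyIntegrable hU hUc (hGh 0) ⟨x₁, hx₁U, hG0⟩
  have hb : ∀ x₀ ∈ Tot D B, ∃ ρ > 0, ∃ M, ball x₀ ρ ⊆ Tot D B ∧ ∀ i, ∀ x ∈ ball x₀ ρ,
      qe (G i) (F i) x ≤ M := by
    intro x₀ hx₀
    obtain ⟨s, hs, M, hsD, hsM⟩ := qe_bound hD hv hx₀
    have hsub : ∀ x ∈ ball x₀ s, prA x ∈ ball (prA x₀) s := fun x hx =>
      (dist_prA_le x x₀).trans_lt hx
    refine ⟨s, hs, M, fun x hx => hsD (hsub x hx), fun i x hx => ?_⟩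
    rw [hqe i x (hsD (hsub x hx))]
    exact hsM (f i) (hfB i) _ (hsub x hx)
  obtain ⟨hlu, hlim⟩ := ua_tendsto hU hGh hFh hb hae hlog
  set u : (A ⊕ B → ℂ) → ℝ := fun x => Real.log (⨆ i, qe (G i) (F i) x) / 2 with hu
  -- Levi forms
  have hlevi : ∀ j : ℕ, ∀ x ∈ Tot D B,
      (levi (fun y => (ua j (fun i => detf W (F i)) F y : ℂ)) x).IsHermitian ∧
        ∀ ξ : A ⊕ B → ℂ, (1 / 2) * ∑ i ∈ Finset.range (j + 1),
          (qe (detf W (F i)) (F i) x ^ ((j + 1) ^ 2) /
            (Real.exp (-(2 * (j : ℝ) * ((j : ℝ) + 1) ^ 2)) +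
              ∑ i ∈ Finset.range (j + 1), qe (detf W (F i)) (F i) x ^ ((j + 1) ^ 2))) *
            ∑ l, ‖fderiv ℂ (F i l) x ξ‖ ^ 2 ≤
          (∑ a, ∑ b, ξ a * star (ξ b) *
            levi (fun y => (ua j (fun i => detf W (F i)) F y : ℂ)) x a b).re := by
    intro j x hx
    rw [ua_eq]
    exact levi_app hU hGh hFh (by positivity) (Real.exp_pos _) (j + 1) hx
  obtain ⟨s, hs, δ, hδ, hstr⟩ := ua_strict hU hr hFh (fun i l x hx => (hFB i l).2 x hx) hWh hx₁U
    hG0 hlevi
  -- automorphy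
  choose M hM using hM
  have hHol : ∀ γ (k : Fin r → (A → ℂ) → ℂ), (∀ l, k l ∈ HolB D) →
      ∀ l, (fun y => k l (σ γ y)) ∈ HolB D := by
    intro γ k hk l
    exact ⟨(hk l).1.comp (h.base.hol γ) fun z hz => h.base.maps γ z hz,
      fun z hz => (hk l).2 _ (h.base.maps γ z hz)⟩
  have hqM : ∀ γ (k : Fin r → (A → ℂ) → ℂ), (∀ l, k l ∈ HolB D) → ∀ z ∈ D,
      qe (detf v (fun l y => k l (σ γ y))) (fun l y => k l (σ γ y)) z =
        (M γ).det ^ 2 * qe (detf v k) k (σ γ z) := by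
    intro γ k hk z hz
    unfold qe
    rw [detf_comp hD (h.base.hol γ) (h.base.maps γ) (hM γ) (fun l => (hk l).1) hz, norm_mul,
      Complex.norm_real, Real.norm_eq_abs, mul_pow, sq_abs]
    ring
  have hQM : ∀ γ, ∀ z ∈ D, Q z = (M γ).det ^ 2 * Q (σ γ z) := by
    intro γ z hz
    have hz' := h.base.maps γ z hz
    refine le_antisymm ?_ ?_
    · refine ciSup_le fun i => ?_
      set k : Fin r → (A → ℂ) → ℂ := fun l y => f i l (σ γ⁻¹ y) with hk
      have hkB : ∀ l, k l ∈ HolB D := hHol γ⁻¹ (f i) (hfB i)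
      have h1 := hqM γ k hkB z hz
      have h2 := hQle _ hz' k hkB
      have h3 : qe (detf v (fun l y => k l (σ γ y))) (fun l y => k l (σ γ y)) z =
          qe (detf v (f i)) (f i) z := by
        have h4 : ∀ y ∈ D, ∀ l, k l (σ γ y) = f i l y := by
          intro y hy l
          show f i l (σ γ⁻¹ (σ γ y)) = f i l y
          rw [h.base.inv_act γ hy]
        have h5 : detf v (fun l y => k l (σ γ y)) z = detf v (f i) z := by
          unfold detf
          congr 1
          ext l m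
          rw [Matrix.of_apply, Matrix.of_apply]
          have h6 : (fun y => k l (σ γ y)) =ᶠ[𝓝 z] f i l := by
            filter_upwards [hD.mem_nhds hz] with y hy using h4 y hy l
          rw [h6.fderiv_eq]
        unfold qe
        rw [h5]
        congr 2
        refine Finset.sum_congr rfl fun l _ => ?_
        show ‖k l (σ γ z)‖ ^ 2 = ‖f i l z‖ ^ 2
        rw [h4 z hz l]
      rw [h3] at h1
      rw [h1]
      gcongr
    · have h0 : 0 ≤ (M γ).det ^ 2 := sq_nonneg _
      rw [hQ]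
      show (M γ).det ^ 2 * (⨆ i, qe (detf v (f i)) (f i) (σ γ z)) ≤ _
      rw [Real.mul_iSup_of_nonneg h0]
      refine ciSup_le fun i => ?_
      rw [← hqM γ (f i) (hfB i) z hz]
      exact hQle z hz _ (hHol γ (f i) (hfB i))
  have hQpos : ∀ x ∈ Tot D B, G 0 x ≠ 0 → 0 < Q (prA x) := by
    intro x hx hne
    have h1 := hQle (prA x) hx (f 0) (hfB 0)
    refine lt_of_lt_of_le ?_ h1
    unfold qe
    rw [← hGeq 0 x hx]
    have : 0 < ‖G 0 x‖ := norm_pos_iff.2 hne
    positivity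
  have hQ1 : 0 < Q z₁ := hQpos x₁ hx₁U hG0
  have hdet : ∀ γ, (M γ).det ≠ 0 := by
    intro γ h0
    have h1 := hQM γ z₁ hz₁
    rw [h0] at h1
    rw [h1] at hQ1
    simp at hQ1
  have hcinv : ∀ γ, -Real.log |(M γ⁻¹).det| = -(-Real.log |(M γ).det|) := by
    intro γ
    have h1 := hQM γ z₁ hz₁
    have h2 := hQM γ⁻¹ (σ γ z₁) (h.base.maps γ z₁ hz₁)
    rw [h.base.inv_act γ hz₁] at h2
    rw [h2] at h1
    have h3 : ((M γ).det * (M γ⁻¹).det) ^ 2 = 1 := by
      have h4 : Q z₁ * (((M γ).det * (M γ⁻¹).det) ^ 2 - 1) = 0 := by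
        linear_combination -h1
      rcases mul_eq_zero.1 h4 with h5 | h5
      · exact absurd h5 hQ1.ne'
      · linarith
    have h4 : |(M γ).det| * |(M γ⁻¹).det| = 1 := by
      rw [← abs_mul]
      have h6 : |(M γ).det * (M γ⁻¹).det| ^ 2 = 1 := by rw [sq_abs]; exact h3
      have h7 : 0 ≤ |(M γ).det * (M γ⁻¹).det| := abs_nonneg _
      nlinarith
    have h5 : Real.log |(M γ).det| + Real.log |(M γ⁻¹).det| = 0 := by
      rw [← Real.log_mul (abs_ne_zero.2 (hdet γ)) (abs_ne_zero.2 (hdet γ⁻¹)), h4, Real.log_one]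
    linarith
  have huc : ∀ γ, ∀ᵐ x ∂(volume.restrict (Tot D B)),
      u (ρ γ x) = u x + (-Real.log |(M γ).det|) := by
    intro γ
    filter_upwards [hae, ae_restrict_mem hU.measurableSet] with x hx hxU
    have h1 := hQpos x hxU hx
    have hρx := h.act.maps γ x hxU
    show Real.log (⨆ i, qe (G i) (F i) (ρ γ x)) / 2 =
      Real.log (⨆ i, qe (G i) (F i) x) / 2 + (-Real.log |(M γ).det|)
    rw [hQeq x hxU, hQeq _ hρx, h.fst γ x hxU, hQM γ (prA x) hxU]
    have h2 : 0 < Q (σ γ (prA x)) := by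
      by_contra hneg
      have h3 := hQM γ (prA x) hxU
      have h4 : 0 ≤ (M γ).det ^ 2 := sq_nonneg _
      nlinarith [not_lt.1 hneg]
    rw [Real.log_mul (pow_ne_zero 2 (hdet γ)) h2.ne', Real.log_pow, Real.log_abs]
    push_cast
    ring
  refine stokes_contra hU h.act hpd hcc hg hinv (u := u)
    (uj := fun j => ua j (fun i => detf W (F i)) F) (c := fun γ => -Real.log |(M γ).det|)
    (fun j => ?_) (fun j x hx => ?_) hcinv huc hlu hlim hx₁U hs hδ hstr
  · rw [ua_eq]
    exact app_contDiffOn hU hGh hFh _ (Real.exp_pos _) _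
  · obtain ⟨h1, h2⟩ := hlevi j x hx
    refine ⟨h1, fun ξ => le_trans ?_ (h2 ξ)⟩
    refine mul_nonneg (by norm_num) (Finset.sum_nonneg fun i _ => ?_)
    refine mul_nonneg (div_nonneg (pow_nonneg ?_ _) (add_nonneg (Real.exp_pos _).le
      (Finset.sum_nonneg fun i _ => pow_nonneg ?_ _))) (Finset.sum_nonneg fun l _ => sq_nonneg _)
    · unfold qe; positivity
    · unfold qe; positivity

end

end Pool.Agent.H906.BD
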