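import Pool.Agent.H906.BD.Setup

/-! # T08 Cov: change of variables for injective holomorphic maps of `ℂ^N`

Proof. `MeasureTheory.integral_image_eq_integral_abs_det_fderiv_smul` and
`MeasureTheory.lintegral_image_eq_lintegral_abs_det_fderiv_mul` /
`MeasureTheory.lintegral_abs_det_fderiv_eq_addHaar_image` with the real derivative
`(fderiv ℂ ρ x).restrictScalars ℝ`, whose determinant is `‖det_ℂ‖²`
(`LinearMap.det_restrictScalars`, `Algebra.norm_complex_apply`, `Complex.normSq_eq_norm_sq`),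
and `det_ℂ (fderiv ℂ ρ x) = (Jac ρ x).det` (`LinearMap.det_toMatrix'`; `Jac` is the matrix of the
derivative in the standard basis). `volume` on `N → ℂ` is an additive Haar measure. -/

open Filter Topology Set Metric MeasureTheory

namespace Pool.Agent.H906.BD

variable {N : Type*} [Fintype N] [DecidableEq N]

theorem cov_det (L : (N → ℂ) →L[ℂ] (N → ℂ)) : (L.restrictScalars ℝ).det =
    ‖(Matrix.of fun k i => L (Pi.single i 1) k : Matrix N N ℂ).det‖ ^ 2 := by
  have h1 : (L.restrictScalars ℝ).det =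
      LinearMap.det ((L : (N → ℂ) →ₗ[ℂ] (N → ℂ)).restrictScalars ℝ) := rfl
  have h2 : (Matrix.of fun k i => L (Pi.single i 1) k : Matrix N N ℂ) =
      LinearMap.toMatrix' (L : (N → ℂ) →ₗ[ℂ] (N → ℂ)) := by
    ext k i
    rw [LinearMap.toMatrix'_apply]
    rfl
  rw [h1, LinearMap.det_restrictScalars, Algebra.norm_complex_apply, Complex.normSq_eq_norm_sq, h2,
    LinearMap.det_toMatrix']

theorem cov_abs (ρ : (N → ℂ) → (N → ℂ)) (x : N → ℂ) :
    |((fderiv ℂ ρ x).restrictScalars ℝ).det| = ‖(Jac ρ x).det‖ ^ 2 := by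
  rw [cov_det, abs_of_nonneg (by positivity)]
  rfl

omit [DecidableEq N] in
theorem cov_der {V : Set (N → ℂ)} (hV : IsOpen V) {ρ : (N → ℂ) → (N → ℂ)}
    (hρ : DifferentiableOn ℂ ρ V) : ∀ x ∈ V,
      HasFDerivWithinAt ρ ((fderiv ℂ ρ x).restrictScalars ℝ) V x := fun x hx =>
  ((hρ.differentiableAt (hV.mem_nhds hx)).hasFDerivAt.restrictScalars ℝ).hasFDerivWithinAt

theorem integral_image {V : Set (N → ℂ)} (hV : IsOpen V) {ρ : (N → ℂ) → (N → ℂ)}
    (hρ : DifferentiableOn ℂ ρ V) (hinj : InjOn ρ V) (f : (N → ℂ) → ℂ) :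
    ∫ x in ρ '' V, f x = ∫ x in V, ((‖(Jac ρ x).det‖ ^ 2 : ℝ) : ℂ) * f (ρ x) := by
  rw [MeasureTheory.integral_image_eq_integral_abs_det_fderiv_smul volume hV.measurableSet
    (cov_der hV hρ) hinj f]
  refine integral_congr_ae (Eventually.of_forall fun x => ?_)
  simp only [cov_abs]
  rw [Complex.real_smul]

theorem volume_image {V : Set (N → ℂ)} (hV : IsOpen V) {ρ : (N → ℂ) → (N → ℂ)}
    (hρ : DifferentiableOn ℂ ρ V) (hinj : InjOn ρ V) :
    volume (ρ '' V) = ∫⁻ x in V, ENNReal.ofReal (‖(Jac ρ x).det‖ ^ 2) := by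
  rw [← MeasureTheory.lintegral_abs_det_fderiv_eq_addHaar_image volume hV.measurableSet
    (cov_der hV hρ) hinj]
  simp only [cov_abs]

end Pool.Agent.H906.BD
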