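import Pool.Agent.H906.BD.Setup

/-! # T07 Equi: equivariance of the operator under holomorphic isometries

`ρ : U → U` holomorphic with `J(x)ᵀ g(ρ x) \bar J(x) = g(x)`, `J = Jac ρ`. For `φ` of class `C^2`
on `U`: `Lap (adj g) (φ ∘ ρ) (x) = |det J(x)|² Lap (adj g) φ (ρ x)`.

Proof. Chain rule: near `x`, `\bar∂_k (φ ∘ ρ) (y) = ∑_q conj (J_{qk}(y)) (\bar∂_q φ)(ρ y)` (`ρ` is
holomorphic, so `fderiv ℝ ρ` is the complex linear map `fderiv ℂ ρ`), and, since
`y ↦ conj (J_{qk}(y))` is antiholomorphic (`∂_j` of it is zero: `hol_fderiv_apply`,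
`hol_contDiffOn`), `∂_j \bar∂_k (φ ∘ ρ) (x) = ∑_{p,q} J_{pj} conj (J_{qk}) (∂_p \bar∂_q φ)(ρ x)`.
Hence `∑_{jk} A_{kj}(x) ∂_j\bar∂_k (φ∘ρ)(x) = ∑_{pq} (\bar J A(x) Jᵀ)_{qp} (∂_p\bar∂_qφ)(ρ x)` with
`A(x) = adj (Jᵀ g(ρ x) \bar J) = adj(\bar J) adj(g(ρ x)) adj(Jᵀ)` (`Matrix.adjugate_mul_distrib`), so
`\bar J A(x) Jᵀ = det(\bar J) det(J) adj(g(ρ x))` (`Matrix.mul_adjugate`, `Matrix.adjugate_mul`). -/

open Filter Topology Set Metric

namespace Pool.Agent.H906.BD

variable {N : Type*} [Fintype N] [DecidableEq N]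

theorem equi_c (z a b : ℂ) : (z.re : ℂ) * a + (z.im : ℂ) * b =
    z * ((a - Complex.I * b) / 2) + star z * ((a + Complex.I * b) / 2) := by
  have h2 : star z = (z.re : ℂ) - z.im * Complex.I := by
    apply Complex.ext <;> simp
  have h1 : z = (z.re : ℂ) + z.im * Complex.I := (Complex.re_add_im z).symm
  rw [h2]
  linear_combination (-(a - Complex.I * b) / 2) * h1 + (z.im * b) * Complex.I_sq

theorem equi_A (L : (N → ℂ) →L[ℝ] ℂ) (v : N → ℂ) :
    L v = ∑ q, (v q * ((L (Pi.single q 1) - Complex.I * L (Pi.single q Complex.I)) / 2) +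
      star (v q) * ((L (Pi.single q 1) + Complex.I * L (Pi.single q Complex.I)) / 2)) := by
  have hv : v = ∑ q, ((v q).re • (Pi.single q (1 : ℂ) : N → ℂ) +
      (v q).im • (Pi.single q Complex.I : N → ℂ)) := by
    have h1 : ∀ q, (v q).re • (Pi.single q (1 : ℂ) : N → ℂ) +
        (v q).im • (Pi.single q Complex.I : N → ℂ) = Pi.single q (v q) := by
      intro q
      ext i
      by_cases hi : i = q
      · subst hi
        simp only [Pi.add_apply, Pi.smul_apply, Pi.single_eq_same, Complex.real_smul, mul_one]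
        exact Complex.re_add_im _
      · simp [Pi.single_eq_of_ne hi]
    simp_rw [h1]
    exact (Finset.univ_sum_single v).symm
  conv_lhs => rw [hv]
  rw [map_sum]
  refine Finset.sum_congr rfl fun q _ => ?_
  rw [map_add, map_smul, map_smul, Complex.real_smul, Complex.real_smul]
  exact equi_c _ _ _

theorem equi_D {ρ : (N → ℂ) → (N → ℂ)} (x : N → ℂ) (k q : N) :
    fderiv ℂ ρ x (Pi.single k Complex.I) q = Complex.I * Jac ρ x q k := by
  have : (Pi.single k Complex.I : N → ℂ) = Complex.I • (Pi.single k (1 : ℂ) : N → ℂ) := by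
    ext i
    by_cases hi : i = k
    · subst hi; simp
    · simp [Pi.single_eq_of_ne hi]
  rw [this, map_smul, Pi.smul_apply, smul_eq_mul]
  rfl

theorem equi_fderiv {ρ : (N → ℂ) → (N → ℂ)} {φ : (N → ℂ) → ℂ} {x : N → ℂ}
    (hρ : DifferentiableAt ℂ ρ x) (hφ : DifferentiableAt ℝ φ (ρ x)) (v : N → ℂ) :
    fderiv ℝ (fun y => φ (ρ y)) x v = fderiv ℝ φ (ρ x) (fderiv ℂ ρ x v) := by
  have h1 := hρ.hasFDerivAt.restrictScalars ℝ
  have h2 := (hφ.hasFDerivAt.comp x h1).fderiv
  have h3 : fderiv ℝ (fun y => φ (ρ y)) x = fderiv ℝ (φ ∘ ρ) x := rfl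
  rw [h3, h2]
  rfl

theorem equi_dzb_comp {ρ : (N → ℂ) → (N → ℂ)} {φ : (N → ℂ) → ℂ} {x : N → ℂ}
    (hρ : DifferentiableAt ℂ ρ x) (hφ : DifferentiableAt ℝ φ (ρ x)) (k : N) :
    dzb k (fun y => φ (ρ y)) x = ∑ q, star (Jac ρ x q k) * dzb q φ (ρ x) := by
  unfold dzb
  rw [equi_fderiv hρ hφ, equi_fderiv hρ hφ,
    equi_A (fderiv ℝ φ (ρ x)) (fderiv ℂ ρ x (Pi.single k 1)),
    equi_A (fderiv ℝ φ (ρ x)) (fderiv ℂ ρ x (Pi.single k Complex.I)),
    Finset.mul_sum, ← Finset.sum_add_distrib, Finset.sum_div]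
  refine Finset.sum_congr rfl fun q _ => ?_
  rw [equi_D]
  have h0 : fderiv ℂ ρ x (Pi.single k 1) q = Jac ρ x q k := rfl
  have h1 : star (Complex.I * Jac ρ x q k) = -Complex.I * star (Jac ρ x q k) := by
    rw [star_mul']
    congr 1
    exact Complex.conj_I
  rw [h0, h1]
  generalize Jac ρ x q k = J
  generalize star J = J'
  generalize (fderiv ℝ φ (ρ x)) (Pi.single q 1) = a
  generalize (fderiv ℝ φ (ρ x)) (Pi.single q Complex.I) = b
  linear_combination ((J * ((a - Complex.I * b) / 2) - J' * ((a + Complex.I * b) / 2)) / 2) *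
    Complex.I_sq

theorem equi_dz_comp {ρ : (N → ℂ) → (N → ℂ)} {φ : (N → ℂ) → ℂ} {x : N → ℂ}
    (hρ : DifferentiableAt ℂ ρ x) (hφ : DifferentiableAt ℝ φ (ρ x)) (k : N) :
    dz k (fun y => φ (ρ y)) x = ∑ q, Jac ρ x q k * dz q φ (ρ x) := by
  unfold dz
  rw [equi_fderiv hρ hφ, equi_fderiv hρ hφ,
    equi_A (fderiv ℝ φ (ρ x)) (fderiv ℂ ρ x (Pi.single k 1)),
    equi_A (fderiv ℝ φ (ρ x)) (fderiv ℂ ρ x (Pi.single k Complex.I)),
    Finset.mul_sum, ← Finset.sum_sub_distrib, Finset.sum_div]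
  refine Finset.sum_congr rfl fun q _ => ?_
  rw [equi_D]
  have h0 : fderiv ℂ ρ x (Pi.single k 1) q = Jac ρ x q k := rfl
  have h1 : star (Complex.I * Jac ρ x q k) = -Complex.I * star (Jac ρ x q k) := by
    rw [star_mul']
    congr 1
    exact Complex.conj_I
  rw [h0, h1]
  generalize Jac ρ x q k = J
  generalize star J = J'
  generalize (fderiv ℝ φ (ρ x)) (Pi.single q 1) = a
  generalize (fderiv ℝ φ (ρ x)) (Pi.single q Complex.I) = b
  linear_combination (-(J * ((a - Complex.I * b) / 2) - J' * ((a + Complex.I * b) / 2)) / 2) *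
    Complex.I_sq

theorem equi_dz_mul {F G : (N → ℂ) → ℂ} {x : N → ℂ} (hF : DifferentiableAt ℝ F x)
    (hG : DifferentiableAt ℝ G x) (j : N) :
    dz j (fun y => F y * G y) x = dz j F x * G x + F x * dz j G x := by
  unfold dz
  rw [fderiv_fun_mul hF hG]
  simp only [_root_.add_apply, _root_.smul_apply, smul_eq_mul]
  ring

theorem equi_dz_sum {F : N → (N → ℂ) → ℂ} {x : N → ℂ} (hF : ∀ q, DifferentiableAt ℝ (F q) x)
    (j : N) : dz j (fun y => ∑ q, F q y) x = ∑ q, dz j (F q) x := by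
  unfold dz
  rw [fderiv_fun_sum fun q _ => hF q]
  simp only [_root_.sum_apply]
  rw [Finset.mul_sum, ← Finset.sum_sub_distrib, Finset.sum_div]

theorem equi_dz_conj {f : (N → ℂ) → ℂ} {x : N → ℂ} (hf : DifferentiableAt ℂ f x) (j : N) :
    DifferentiableAt ℝ (fun y => star (f y)) x ∧ dz j (fun y => star (f y)) x = 0 := by
  have h1 := hf.hasFDerivAt.restrictScalars ℝ
  have h2 : HasFDerivAt (fun y => star (f y))
      ((Complex.conjCLE : ℂ →L[ℝ] ℂ).comp ((fderiv ℂ f x).restrictScalars ℝ)) x :=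
    (Complex.conjCLE : ℂ →L[ℝ] ℂ).hasFDerivAt.comp x h1
  refine ⟨h2.differentiableAt, ?_⟩
  unfold dz
  rw [h2.fderiv]
  have h3 : (Pi.single j Complex.I : N → ℂ) = Complex.I • (Pi.single j (1 : ℂ) : N → ℂ) := by
    ext i
    by_cases hi : i = j
    · subst hi; simp
    · simp [Pi.single_eq_of_ne hi]
  simp only [ContinuousLinearMap.comp_apply, ContinuousLinearMap.coe_restrictScalars',
    ContinuousLinearEquiv.coe_coe, Complex.conjCLE_apply]
  rw [h3, map_smul, smul_eq_mul, map_mul, Complex.conj_I]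
  generalize (starRingEnd ℂ) ((fderiv ℂ f x) (Pi.single j 1)) = c
  linear_combination (c / 2) * Complex.I_sq

theorem equi_matrix (J g G : Matrix N N ℂ) (h : J.transpose * G * J.map star = g) :
    J.map star * g.adjugate * J.transpose = ((‖J.det‖ ^ 2 : ℝ) : ℂ) • G.adjugate := by
  have h1 : g.adjugate = (J.map star).adjugate * (G.adjugate * J.transpose.adjugate) := by
    rw [← h, Matrix.adjugate_mul_distrib, Matrix.adjugate_mul_distrib]
  have h2 : (J.map star).det = star J.det := by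
    have := RingHom.map_det (starRingEnd ℂ) J
    exact this.symm
  have h3 : ((‖J.det‖ ^ 2 : ℝ) : ℂ) = star J.det * J.det := by
    rw [Complex.ofReal_pow]
    exact (Complex.conj_mul' J.det).symm
  calc J.map star * g.adjugate * J.transpose
      = (J.map star * (J.map star).adjugate) * G.adjugate *
        (J.transpose.adjugate * J.transpose) := by
        rw [h1]; simp only [Matrix.mul_assoc]
    _ = (star J.det • (1 : Matrix N N ℂ)) * G.adjugate * (J.det • (1 : Matrix N N ℂ)) := by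
        rw [Matrix.mul_adjugate, Matrix.adjugate_mul, h2, Matrix.det_transpose]
    _ = _ := by
        rw [h3, Matrix.smul_mul, Matrix.one_mul, Matrix.mul_smul, Matrix.mul_one, smul_smul,
          mul_comm]

theorem lap_comp {U : Set (N → ℂ)} (hU : IsOpen U) {ρ : (N → ℂ) → (N → ℂ)}
    (hρ : DifferentiableOn ℂ ρ U) (hm : ∀ x ∈ U, ρ x ∈ U) {g : (N → ℂ) → Matrix N N ℂ}
    (hinv : ∀ x ∈ U, (Jac ρ x).transpose * g (ρ x) * (Jac ρ x).map star = g x)
    {φ : (N → ℂ) → ℂ} (hφ : ContDiffOn ℝ 2 φ U) {x : N → ℂ} (hx : x ∈ U) :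
    Lap (fun y => (g y).adjugate) (fun y => φ (ρ y)) x =
      ((‖(Jac ρ x).det‖ ^ 2 : ℝ) : ℂ) * Lap (fun y => (g y).adjugate) φ (ρ x) := by
  have hρa : ∀ y ∈ U, DifferentiableAt ℂ ρ y := fun y hy =>
    hρ.differentiableAt (hU.mem_nhds hy)
  have hφa : ∀ y ∈ U, DifferentiableAt ℝ φ y := fun y hy =>
    (hφ.differentiableOn (by norm_num)).differentiableAt (hU.mem_nhds hy)
  -- the derivative of `φ` is differentiable
  have hφ2 : ∀ y ∈ U, DifferentiableAt ℝ (fderiv ℝ φ) y := by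
    intro y hy
    have h1 : ContDiffOn ℝ 1 (fderiv ℝ φ) U := hφ.fderiv_of_isOpen hU (by norm_num)
    exact (h1.differentiableOn (by norm_num)).differentiableAt (hU.mem_nhds hy)
  have hdzb : ∀ q, ∀ y ∈ U, DifferentiableAt ℝ (dzb q φ) y := by
    intro q y hy
    have h1 : ∀ v : N → ℂ, DifferentiableAt ℝ (fun z => fderiv ℝ φ z v) y := fun v =>
      (hφ2 y hy).clm_apply (differentiableAt_const v)
    have h2 : DifferentiableAt ℝ (fun z => (fderiv ℝ φ z (Pi.single q 1) +
        Complex.I * fderiv ℝ φ z (Pi.single q Complex.I)) / 2) y := by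
      simp only [div_eq_mul_inv]
      exact ((h1 _).add ((h1 _).const_mul Complex.I)).mul_const _
    exact h2
  have hJ : ∀ q k, ∀ y ∈ U, DifferentiableAt ℂ (fun z => Jac ρ z q k) y := by
    intro q k y hy
    have h1 := hol_fderiv_apply hU hρ
      (differentiableOn_const (c := (Pi.single k (1 : ℂ) : N → ℂ)) (s := U))
    have h2 := (h1.differentiableAt (hU.mem_nhds hy))
    exact (differentiableAt_pi.1 h2) q
  -- the second derivatives
  have key : ∀ j k, dz j (dzb k (fun y => φ (ρ y))) x =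
      ∑ q, ∑ p, star (Jac ρ x q k) * (Jac ρ x p j * dz p (dzb q φ) (ρ x)) := by
    intro j k
    have hev : dzb k (fun y => φ (ρ y)) =ᶠ[𝓝 x]
        fun y => ∑ q, star (Jac ρ y q k) * dzb q φ (ρ y) := by
      filter_upwards [hU.mem_nhds hx] with y hy
      exact equi_dzb_comp (hρa y hy) (hφa _ (hm y hy)) k
    have h1 : dz j (dzb k (fun y => φ (ρ y))) x =
        dz j (fun y => ∑ q, star (Jac ρ y q k) * dzb q φ (ρ y)) x := by
      unfold dz
      rw [hev.fderiv_eq]
    have hd2 : ∀ q, DifferentiableAt ℝ (fun y => dzb q φ (ρ y)) x := fun q =>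
      (hdzb q _ (hm x hx)).comp x ((hρa x hx).restrictScalars ℝ)
    rw [h1, equi_dz_sum (F := fun q y => star (Jac ρ y q k) * dzb q φ (ρ y)) (fun q =>
      ((equi_dz_conj (hJ q k x hx) j).1).mul (hd2 q))]
    refine Finset.sum_congr rfl fun q _ => ?_
    rw [equi_dz_mul (F := fun y => star (Jac ρ y q k)) (G := fun y => dzb q φ (ρ y))
      (equi_dz_conj (hJ q k x hx) j).1 (hd2 q), (equi_dz_conj (hJ q k x hx) j).2,
      equi_dz_comp (hρa x hx) (hdzb q _ (hm x hx)), zero_mul, zero_add, Finset.mul_sum]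
  have hmat := equi_matrix (Jac ρ x) (g x) (g (ρ x)) (hinv x hx)
  have hent : ∀ p q, ∑ k, ∑ j, star (Jac ρ x q k) * (g x).adjugate k j * Jac ρ x p j =
      ((‖(Jac ρ x).det‖ ^ 2 : ℝ) : ℂ) * (g (ρ x)).adjugate q p := by
    intro p q
    have h1 := congrFun (congrFun hmat q) p
    rw [Matrix.smul_apply, smul_eq_mul] at h1
    rw [← h1, Matrix.mul_apply, Finset.sum_comm]
    refine Finset.sum_congr rfl fun j _ => ?_
    rw [Matrix.mul_apply, Finset.sum_mul]
    refine Finset.sum_congr rfl fun k _ => ?_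
    rfl
  unfold Lap
  simp_rw [key]
  rw [Finset.mul_sum]
  calc ∑ j, ∑ k, (g x).adjugate k j *
        ∑ q, ∑ p, star (Jac ρ x q k) * (Jac ρ x p j * dz p (dzb q φ) (ρ x))
      = ∑ j, ∑ k, ∑ q, ∑ p, (star (Jac ρ x q k) * (g x).adjugate k j * Jac ρ x p j) *
          dz p (dzb q φ) (ρ x) := by
        refine Finset.sum_congr rfl fun j _ => Finset.sum_congr rfl fun k _ => ?_
        rw [Finset.mul_sum]
        refine Finset.sum_congr rfl fun q _ => ?_
        rw [Finset.mul_sum]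
        refine Finset.sum_congr rfl fun p _ => ?_
        ring
    _ = ∑ p, ∑ q, ∑ k, ∑ j, (star (Jac ρ x q k) * (g x).adjugate k j * Jac ρ x p j) *
          dz p (dzb q φ) (ρ x) := by
        rw [Finset.sum_comm]
        have e1 : ∀ k, ∑ j, ∑ q, ∑ p, (star (Jac ρ x q k) * (g x).adjugate k j * Jac ρ x p j) *
            dz p (dzb q φ) (ρ x) = ∑ q, ∑ p, ∑ j, (star (Jac ρ x q k) * (g x).adjugate k j *
            Jac ρ x p j) * dz p (dzb q φ) (ρ x) := by
          intro k
          rw [Finset.sum_comm]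
          refine Finset.sum_congr rfl fun q _ => ?_
          rw [Finset.sum_comm]
        simp_rw [e1]
        rw [Finset.sum_comm]
        have e2 : ∀ q, ∑ k, ∑ p, ∑ j, (star (Jac ρ x q k) * (g x).adjugate k j *
            Jac ρ x p j) * dz p (dzb q φ) (ρ x) = ∑ p, ∑ k, ∑ j, (star (Jac ρ x q k) *
            (g x).adjugate k j * Jac ρ x p j) * dz p (dzb q φ) (ρ x) := fun q =>
          Finset.sum_comm
        simp_rw [e2]
        rw [Finset.sum_comm]
    _ = ∑ p, ∑ q, (((‖(Jac ρ x).det‖ ^ 2 : ℝ) : ℂ) * (g (ρ x)).adjugate q p) *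
          dz p (dzb q φ) (ρ x) := by
        refine Finset.sum_congr rfl fun p _ => Finset.sum_congr rfl fun q _ => ?_
        rw [← hent p q, Finset.sum_mul]
        refine Finset.sum_congr rfl fun k _ => ?_
        rw [Finset.sum_mul]
    _ = _ := by
        refine Finset.sum_congr rfl fun p _ => ?_
        rw [Finset.mul_sum]
        refine Finset.sum_congr rfl fun q _ => ?_
        ring

end Pool.Agent.H906.BD
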