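import Pool.Agent.H906.BD.Setup

/-! # T19 Ext: from sections for a subgroup of finite index, pointwise, to all of the group

Adapt `Pool/Agent/H906/PC/Main.lean` (`globalise`), `PC/Ext.lean` (`Jm_mul`, `det_ne_zero`, ...) and
`PC/Ext2.lean` (`secSub`, `exists_common`, `slash`, `slash_mul`, `slash_diff`, `pluri_of_sec`) from the domain
`Dom A B` to an arbitrary open set `U ⊆ ℂ^N`.

Proof. (1) For every `x ∈ U` there are `l` and a `Δ0`-section `F` of weight `l` with `F x ≠ 0`. `Δ0` is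
cocompact too (finite index: the union of the finitely many `ρ (q.out)⁻¹ '' K`), so finitely many
of the open sets `{F ≠ 0}` cover a compact set which meets every `Δ0`-orbit; with powers one weight `l`
works for all points. (2) For finitely many points `ρ (q.out)⁻¹ x`, `q ∈ Δ ⧸ Δ0`, one section `F` of
weight `l` is nonzero at all of them (a vector space over `ℂ` is not a finite union of proper
subspaces: `Subspace.biUnion_ne_univ_of_top_notMem`). (3) The product over `q ∈ Δ ⧸ Δ0` of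
`F (ρ (q.out)⁻¹ y) · (det Jac (ρ (q.out)⁻¹) y)^l` is a section of weight `l · [Δ : Δ0]` for `Δ`, nonzero at
`x`. Holomorphy of the Jacobian determinant: polynomial in the entries `fderiv ℂ f y e k`,
holomorphic by `hol_fderiv_apply` (`BD/SupF.lean`). -/

set_option linter.unusedSectionVars false

open Filter Topology Set Metric

namespace Pool.Agent.H906.BD

variable {N : Type*} [Fintype N] [DecidableEq N] {Δ : Type*} [Group Δ]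

theorem ext_Jac_congr {U : Set (N → ℂ)} (hU : IsOpen U) {f g : (N → ℂ) → (N → ℂ)}
    (hfg : ∀ x ∈ U, f x = g x) {x : N → ℂ} (hx : x ∈ U) : Jac f x = Jac g x := by
  have : fderiv ℂ f x = fderiv ℂ g x := by
    apply Filter.EventuallyEq.fderiv_eq
    filter_upwards [hU.mem_nhds hx] with y hy
    exact hfg y hy
  unfold Jac
  rw [this]

theorem ext_Jac_comp {f g : (N → ℂ) → (N → ℂ)} {x : N → ℂ} (hg : DifferentiableAt ℂ g x)
    (hf : DifferentiableAt ℂ f (g x)) : Jac (fun y => f (g y)) x = Jac f (g x) * Jac g x := by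
  have h1 : fderiv ℂ (fun y => f (g y)) x = (fderiv ℂ f (g x)).comp (fderiv ℂ g x) :=
    fderiv_fun_comp x hf hg
  ext k i
  rw [Jac, Matrix.of_apply, h1, ContinuousLinearMap.comp_apply, Matrix.mul_apply]
  have h2 : fderiv ℂ g x (Pi.single i 1) = ∑ j, (fderiv ℂ g x (Pi.single i 1) j) •
      (Pi.single j (1 : ℂ) : N → ℂ) := by
    funext l
    simp [Finset.sum_apply, Pi.single_apply]
  rw [h2, map_sum, Finset.sum_apply]
  refine Finset.sum_congr rfl fun j _ => ?_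
  rw [map_smul, Pi.smul_apply, smul_eq_mul, mul_comm]
  rfl

theorem ext_diff {U : Set (N → ℂ)} (hU : IsOpen U) {ρ : Δ → (N → ℂ) → (N → ℂ)}
    (hρ : HolAct U ρ) (δ : Δ) {x : N → ℂ} (hx : x ∈ U) : DifferentiableAt ℂ (ρ δ) x :=
  (hρ.hol δ).differentiableAt (hU.mem_nhds hx)

theorem ext_Jac_mul {U : Set (N → ℂ)} (hU : IsOpen U) {ρ : Δ → (N → ℂ) → (N → ℂ)}
    (hρ : HolAct U ρ) (δ ε : Δ) {x : N → ℂ} (hx : x ∈ U) :
    Jac (ρ (δ * ε)) x = Jac (ρ δ) (ρ ε x) * Jac (ρ ε) x := by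
  rw [ext_Jac_congr hU (fun y hy => hρ.mul δ ε y hy) hx]
  exact ext_Jac_comp (ext_diff hU hρ ε hx) (ext_diff hU hρ δ (hρ.maps ε x hx))

theorem ext_det_ne_zero {U : Set (N → ℂ)} (hU : IsOpen U) {ρ : Δ → (N → ℂ) → (N → ℂ)}
    (hρ : HolAct U ρ) (δ : Δ) {x : N → ℂ} (hx : x ∈ U) : (Jac (ρ δ) x).det ≠ 0 := by
  have h1 := ext_Jac_mul hU hρ δ⁻¹ δ hx
  rw [inv_mul_cancel] at h1
  have h2 : Jac (ρ 1) x = 1 := by
    rw [ext_Jac_congr hU (g := fun y => y) (fun y hy => hρ.one y hy) hx]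
    ext k i
    rw [Jac, Matrix.of_apply, fderiv_fun_id]
    by_cases hik : k = i
    · subst hik; simp
    · simp [hik]
  rw [h2] at h1
  have h3 := congrArg Matrix.det h1
  rw [Matrix.det_one, Matrix.det_mul] at h3
  exact right_ne_zero_of_mul (h3 ▸ one_ne_zero)

/-- sections of weight `l` for `Δ0` -/
def ext_IsSec (U : Set (N → ℂ)) (ρ : Δ → (N → ℂ) → (N → ℂ)) (Δ0 : Subgroup Δ) (l : ℕ)
    (F : (N → ℂ) → ℂ) : Prop :=
  DifferentiableOn ℂ F U ∧ ∀ δ ∈ Δ0, ∀ y ∈ U, F (ρ δ y) * (Jac (ρ δ) y).det ^ l = F y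

theorem ext_IsSec_pow {U : Set (N → ℂ)} {ρ : Δ → (N → ℂ) → (N → ℂ)} {Δ0 : Subgroup Δ} {l : ℕ}
    {F : (N → ℂ) → ℂ} (hF : ext_IsSec U ρ Δ0 l F) (n : ℕ) :
    ext_IsSec U ρ Δ0 (l * n) (fun x => F x ^ n) := by
  refine ⟨hF.1.pow n, fun δ hδ y hy => ?_⟩
  rw [pow_mul, ← mul_pow, hF.2 δ hδ y hy]

/-- from points to the whole compact quotient -/
theorem ext_globalise {U : Set (N → ℂ)} (hU : IsOpen U) {ρ : Δ → (N → ℂ) → (N → ℂ)}
    (hρ : HolAct U ρ) {Δ0 : Subgroup Δ}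
    (hcc : ∃ K ⊆ U, IsCompact K ∧ ∀ x ∈ U, ∃ δ ∈ Δ0, ρ δ x ∈ K)
    (h : ∀ x ∈ U, ∃ l, 0 < l ∧ ∃ F, ext_IsSec U ρ Δ0 l F ∧ F x ≠ 0) :
    ∃ l, 0 < l ∧ ∀ x ∈ U, ∃ F, ext_IsSec U ρ Δ0 l F ∧ F x ≠ 0 := by
  obtain ⟨K, hK, hKc, hcov⟩ := hcc
  choose! l hl0 F hF hFx using h
  have hUK : ∀ x ∈ K, {y | F x y ≠ 0} ∈ 𝓝[K] x := by
    intro x hx
    have h1 : ContinuousWithinAt (F x) K x :=
      (((hF x (hK hx)).1.continuousOn).mono hK) x hx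
    exact h1 (isOpen_ne.mem_nhds (hFx x (hK hx)))
  obtain ⟨t, ht, hcov2⟩ := hKc.elim_nhdsWithin_subcover (fun x => {y | F x y ≠ 0}) hUK
  refine ⟨∏ x ∈ t, l x, Finset.prod_pos fun x hx => hl0 x (hK (ht x hx)), fun x hx => ?_⟩
  obtain ⟨δ, hδ, hδK⟩ := hcov x hx
  obtain ⟨z, hz, hzx⟩ := Set.mem_iUnion₂.1 (hcov2 hδK)
  have hzD := hK (ht z hz)
  have h1 := ext_IsSec_pow (hF z hzD) (∏ y ∈ t.erase z, l y)
  rw [Finset.mul_prod_erase _ _ hz] at h1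
  refine ⟨_, h1, ?_⟩
  have h2 : F z (ρ δ x) ≠ 0 := hzx
  have h3 := (hF z hzD).2 δ hδ x hx
  have h5 : F z x ≠ 0 := by
    rw [← h3]; exact mul_ne_zero h2 (pow_ne_zero _ (ext_det_ne_zero hU hρ δ hx))
  exact pow_ne_zero _ h5

theorem ext_cc {U : Set (N → ℂ)} {ρ : Δ → (N → ℂ) → (N → ℂ)}
    (hρ : HolAct U ρ) {Δ0 : Subgroup Δ} [Δ0.FiniteIndex] (hcc : CC U ρ) :
    ∃ K ⊆ U, IsCompact K ∧ ∀ x ∈ U, ∃ δ ∈ Δ0, ρ δ x ∈ K := by
  obtain ⟨K, hK, hKc, hcov⟩ := hcc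
  refine ⟨⋃ q : Δ ⧸ Δ0, ρ (q.out)⁻¹ '' K, ?_, ?_, ?_⟩
  · refine Set.iUnion_subset fun q => ?_
    rintro _ ⟨x, hx, rfl⟩
    exact hρ.maps _ x (hK hx)
  · exact isCompact_iUnion fun q => hKc.image_of_continuousOn
      (((hρ.hol _).continuousOn).mono hK)
  · intro x hx
    obtain ⟨δ, hδ⟩ := hcov x hx
    have h1 : ((δ : Δ ⧸ Δ0).out)⁻¹ * δ ∈ Δ0 := by
      rw [← QuotientGroup.eq]; simp
    refine ⟨_, h1, ?_⟩
    rw [hρ.mul _ _ x hx]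
    exact Set.mem_iUnion.2 ⟨(δ : Δ ⧸ Δ0), ⟨_, hδ, rfl⟩⟩

/-- the space of the sections of weight `l` -/
noncomputable def ext_secSub (U : Set (N → ℂ)) (ρ : Δ → (N → ℂ) → (N → ℂ)) (Δ0 : Subgroup Δ)
    (l : ℕ) : Submodule ℂ ((N → ℂ) → ℂ) where
  carrier := {F | ext_IsSec U ρ Δ0 l F}
  add_mem' := by
    rintro F G ⟨h1, h2⟩ ⟨h3, h4⟩
    refine ⟨h1.add h3, fun γ hγ y hy => ?_⟩
    simp only [Pi.add_apply]
    rw [add_mul, h2 γ hγ y hy, h4 γ hγ y hy]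
  zero_mem' := ⟨differentiableOn_const (c := (0 : ℂ)), fun γ hγ y hy => by simp⟩
  smul_mem' := by
    rintro c F ⟨h1, h2⟩
    refine ⟨h1.const_smul c, fun γ hγ y hy => ?_⟩
    simp only [Pi.smul_apply, smul_eq_mul]
    rw [mul_assoc, h2 γ hγ y hy]

theorem ext_exists_common {U : Set (N → ℂ)} {ρ : Δ → (N → ℂ) → (N → ℂ)} {Δ0 : Subgroup Δ}
    {l : ℕ} (h : ∀ x ∈ U, ∃ F, ext_IsSec U ρ Δ0 l F ∧ F x ≠ 0) {ι : Type*} [Finite ι]
    (p : ι → (N → ℂ)) (hp : ∀ i, p i ∈ U) : ∃ F, ext_IsSec U ρ Δ0 l F ∧ ∀ i, F (p i) ≠ 0 := by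
  classical
  cases nonempty_fintype ι
  let W : ι → Submodule ℂ (ext_secSub U ρ Δ0 l) := fun i =>
    { carrier := {F | F.1 (p i) = 0}
      add_mem' := by
        intro F G hF hG
        have h1 : F.1 (p i) = 0 := hF
        have h2 : G.1 (p i) = 0 := hG
        change F.1 (p i) + G.1 (p i) = 0
        rw [h1, h2, add_zero]
      zero_mem' := rfl
      smul_mem' := by
        intro c F hF
        have h1 : F.1 (p i) = 0 := hF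
        change c * F.1 (p i) = 0
        rw [h1, mul_zero] }
  have h1 := Subspace.biUnion_ne_univ_of_top_notMem (s := Finset.univ.image W) (by
    intro hmem
    obtain ⟨i, -, hi⟩ := Finset.mem_image.1 hmem
    obtain ⟨F, hF, hFne⟩ := h (p i) (hp i)
    have : (⟨F, hF⟩ : ext_secSub U ρ Δ0 l) ∈ W i := by rw [hi]; trivial
    exact hFne this)
  obtain ⟨F, hF⟩ := (Set.ne_univ_iff_exists_notMem _).1 h1
  refine ⟨F.1, F.2, fun i hi => hF ?_⟩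
  exact Set.mem_iUnion₂.2 ⟨W i, Finset.mem_image.2 ⟨i, Finset.mem_univ _, rfl⟩, hi⟩

/-- the action of `Δ` on functions of weight `l` -/
noncomputable def ext_slash (ρ : Δ → (N → ℂ) → (N → ℂ)) (l : ℕ) (F : (N → ℂ) → ℂ) (δ : Δ) :
    (N → ℂ) → ℂ := fun x => F (ρ δ x) * (Jac (ρ δ) x).det ^ l

theorem ext_slash_mul {U : Set (N → ℂ)} (hU : IsOpen U) {ρ : Δ → (N → ℂ) → (N → ℂ)}
    (hρ : HolAct U ρ) (l : ℕ) (F : (N → ℂ) → ℂ) (δ ε : Δ) {x : N → ℂ} (hx : x ∈ U) :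
    ext_slash ρ l F (δ * ε) x = ext_slash ρ l F δ (ρ ε x) * (Jac (ρ ε) x).det ^ l := by
  unfold ext_slash
  rw [hρ.mul δ ε x hx, ext_Jac_mul hU hρ δ ε hx, Matrix.det_mul, mul_pow, mul_assoc]

theorem ext_diffOn_prod {E : Type*} [NormedAddCommGroup E] [NormedSpace ℂ E] {ι : Type*}
    (s : Finset ι) {f : ι → E → ℂ} {U : Set E} (h : ∀ i, DifferentiableOn ℂ (f i) U) :
    DifferentiableOn ℂ (fun x => ∏ i ∈ s, f i x) U := by
  classical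
  induction s using Finset.induction_on with
  | empty => simp only [Finset.prod_empty]; exact differentiableOn_const _
  | insert a s ha ih =>
    simp only [Finset.prod_insert ha]
    exact (h a).mul ih

theorem ext_Jac_entry {U : Set (N → ℂ)} (hU : IsOpen U) {ρ : Δ → (N → ℂ) → (N → ℂ)}
    (hρ : HolAct U ρ) (δ : Δ) (k i : N) :
    DifferentiableOn ℂ (fun x => Jac (ρ δ) x k i) U := by
  have h1 : DifferentiableOn ℂ (fun x => fderiv ℂ (ρ δ) x (Pi.single i 1)) U :=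
    hol_fderiv_apply hU (hρ.hol δ) (differentiableOn_const _)
  exact differentiableOn_pi.1 h1 k

theorem ext_slash_diff {U : Set (N → ℂ)} (hU : IsOpen U) {ρ : Δ → (N → ℂ) → (N → ℂ)}
    (hρ : HolAct U ρ) {l : ℕ} {F : (N → ℂ) → ℂ} (hF : DifferentiableOn ℂ F U) (δ : Δ) :
    DifferentiableOn ℂ (ext_slash ρ l F δ) U := by
  refine DifferentiableOn.mul (hF.comp (hρ.hol δ) fun x hx => hρ.maps δ x hx) ?_
  refine DifferentiableOn.pow ?_ l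
  have : (fun x => (Jac (ρ δ) x).det) = fun x => ∑ σ : Equiv.Perm N,
      ((Equiv.Perm.sign σ : ℤ) : ℂ) * ∏ i, Jac (ρ δ) x (σ i) i := by
    funext x
    rw [Matrix.det_apply']
  rw [this]
  refine DifferentiableOn.fun_sum fun σ _ => DifferentiableOn.const_mul ?_ _
  exact ext_diffOn_prod _ fun i => ext_Jac_entry hU hρ δ (σ i) i

theorem ext_pluri {U : Set (N → ℂ)} (hU : IsOpen U) {ρ : Δ → (N → ℂ) → (N → ℂ)}
    (hρ : HolAct U ρ) {Δ0 : Subgroup Δ} [Fintype (Δ ⧸ Δ0)] {l : ℕ} {F : (N → ℂ) → ℂ}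
    (hF : ext_IsSec U ρ Δ0 l F) :
    DifferentiableOn ℂ (fun x => ∏ q : Δ ⧸ Δ0, ext_slash ρ l F (q.out)⁻¹ x) U ∧
    ∀ δ, ∀ y ∈ U, (∏ q : Δ ⧸ Δ0, ext_slash ρ l F (q.out)⁻¹ (ρ δ y)) *
      (Jac (ρ δ) y).det ^ (l * Fintype.card (Δ ⧸ Δ0)) =
      ∏ q : Δ ⧸ Δ0, ext_slash ρ l F (q.out)⁻¹ y := by
  have h0 : ∀ δ ∈ Δ0, ∀ x ∈ U, ext_slash ρ l F δ x = F x := fun δ hδ x hx => hF.2 δ hδ x hx
  have h0' : ∀ δ ∈ Δ0, ∀ ε, ∀ x ∈ U, ext_slash ρ l F (δ * ε) x = ext_slash ρ l F ε x := by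
    intro δ hδ ε x hx
    rw [ext_slash_mul hU hρ l F δ ε hx, h0 δ hδ _ (hρ.maps ε x hx)]
    rfl
  refine ⟨ext_diffOn_prod _ fun q => ext_slash_diff hU hρ hF.1 _, ?_⟩
  intro ε y hy
  rw [pow_mul, ← Finset.card_univ, ← Finset.prod_const, ← Finset.prod_mul_distrib]
  have h2 : ∀ q : Δ ⧸ Δ0, ext_slash ρ l F (q.out)⁻¹ (ρ ε y) * (Jac (ρ ε) y).det ^ l =
      ext_slash ρ l F ((ε⁻¹ • q : Δ ⧸ Δ0).out)⁻¹ y := by
    intro q
    rw [← ext_slash_mul hU hρ l F _ ε hy]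
    have h3 : (q.out)⁻¹ * ε * (ε⁻¹ • q : Δ ⧸ Δ0).out ∈ Δ0 := by
      have h4 : ((ε⁻¹ * q.out : Δ) : Δ ⧸ Δ0) = ε⁻¹ • q := by
        rw [← smul_eq_mul, ← MulAction.Quotient.smul_coe]
        simp
      have h5 : (ε⁻¹ * q.out)⁻¹ * (ε⁻¹ • q : Δ ⧸ Δ0).out ∈ Δ0 := by
        rw [← QuotientGroup.eq, h4]; simp
      have h6 : (ε⁻¹ * q.out)⁻¹ = (q.out)⁻¹ * ε := by group
      rw [h6] at h5
      exact h5
    have h7 := h0' _ h3 ((ε⁻¹ • q : Δ ⧸ Δ0).out)⁻¹ y hy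
    rw [mul_inv_cancel_right] at h7
    exact h7
  rw [Finset.prod_congr rfl fun q _ => h2 q]
  exact Fintype.prod_equiv (MulAction.toPerm ε⁻¹) _ _ fun q => rfl

theorem extend {U : Set (N → ℂ)} (hU : IsOpen U) {ρ : Δ → (N → ℂ) → (N → ℂ)} (hρ : HolAct U ρ)
    (hcc : CC U ρ) {Δ0 : Subgroup Δ} (hfi : Δ0.FiniteIndex)
    (h : ∀ x ∈ U, ∃ l : ℕ, 0 < l ∧ ∃ F : (N → ℂ) → ℂ, DifferentiableOn ℂ F U ∧
      (∀ δ ∈ Δ0, ∀ y ∈ U, F (ρ δ y) * (Jac (ρ δ) y).det ^ l = F y) ∧ F x ≠ 0) :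
    ∃ l : ℕ, 0 < l ∧ ∀ x ∈ U, ∃ F : (N → ℂ) → ℂ, DifferentiableOn ℂ F U ∧
      (∀ δ, ∀ y ∈ U, F (ρ δ y) * (Jac (ρ δ) y).det ^ l = F y) ∧ F x ≠ 0 := by
  have := hfi
  let _ : Fintype (Δ ⧸ Δ0) := Fintype.ofFinite _
  obtain ⟨l, hl0, hl⟩ := ext_globalise hU hρ (Δ0 := Δ0) (ext_cc hρ hcc) (fun x hx => by
    obtain ⟨l, hl0, F, h1, h2, h3⟩ := h x hx
    exact ⟨l, hl0, F, ⟨h1, h2⟩, h3⟩)
  refine ⟨l * Fintype.card (Δ ⧸ Δ0), Nat.mul_pos hl0 Fintype.card_pos, fun x hx => ?_⟩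
  obtain ⟨F, hF, hne⟩ := ext_exists_common hl (fun q : Δ ⧸ Δ0 => ρ (q.out)⁻¹ x)
    fun q => hρ.maps _ x hx
  obtain ⟨h1, h2⟩ := ext_pluri hU hρ hF
  refine ⟨_, h1, h2, ?_⟩
  refine Finset.prod_ne_zero_iff.2 fun q _ => ?_
  exact mul_ne_zero (hne q) (pow_ne_zero _ (ext_det_ne_zero hU hρ _ hx))

end Pool.Agent.H906.BD
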