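import Pool.Agent.H906.BD.Cartan

/-! # Limit vector fields -/

open Filter Topology Set Metric

namespace Pool.Agent.H906.BD

variable {E F : Type*} [NormedAddCommGroup E] [NormedSpace ℂ E]
  [NormedAddCommGroup F] [NormedSpace ℂ F]
variable {Γ : Type*} [Group Γ] {D : Set E} {σ : Γ → E → E}

/-- local bound and Lipschitz constant -/
theorem exists_lip {f : E → F} {U : Set E} (hU : IsOpen U) (hf : DifferentiableOn ℂ f U)
    {x : E} (hx : x ∈ U) : ∃ r > 0, ∃ M, 0 ≤ M ∧ ball x r ⊆ U ∧ (∀ z ∈ ball x r, ‖f z‖ ≤ M) ∧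
      ∀ y ∈ ball x r, ∀ z ∈ ball x r, ‖f z - f y‖ ≤ M * ‖z - y‖ := by
  obtain ⟨R, hR, M, hRU, hM⟩ := exists_bound hU hf hx
  have hM0 := bound_nonneg hR hM
  have hs : ball x (R / 4) ⊆ ball x R := ball_subset_ball (by linarith)
  refine ⟨R / 4, by positivity, max M (4 * M / R), by positivity, hs.trans hRU,
    fun z hz => (hM z (hs hz)).trans (le_max_left _ _), fun y hy z hz => ?_⟩
  refine (lip_ball (hf.mono hRU) hM hy hz).trans ?_
  gcongr
  exact le_max_right _ _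

omit [NormedSpace ℂ E] [NormedSpace ℂ F] in
theorem LU.congr {ι : Type*} {f : ι → E → F} {g g' : E → F} {l : Filter ι} {U : Set E}
    (h : LU f g l U) (hg : ∀ x ∈ U, g x = g' x) : LU f g' l U := by
  intro x hx
  obtain ⟨r, hr, hrU, h1⟩ := h x hx
  refine ⟨r, hr, hrU, fun ε hε => ?_⟩
  filter_upwards [h1 ε hε] with i hi z hz
  rw [← hg z (hrU hz)]
  exact hi z hz

/-- pointwise limits of locally bounded families along an ultrafilter are locally uniform -/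
theorem LU_of_pointwise [ProperSpace E] [ProperSpace F] {ι : Type*} (l : Ultrafilter ι) {U : Set E}
    {f : ι → E → F} {v : E → F} (hf : ∀ i, DifferentiableOn ℂ (f i) U)
    (hb : ∀ x ∈ U, ∃ r > 0, ball x r ⊆ U ∧ ∃ M, ∀ᶠ i in (l : Filter ι), ∀ z ∈ ball x r,
      ‖f i z‖ ≤ M) (hv : ∀ x ∈ U, Tendsto (fun i => f i x) (l : Filter ι) (𝓝 (v x))) :
    LU f v (l : Filter ι) U := by
  obtain ⟨g, hg⟩ := exists_limit l hf hb
  exact hg.congr fun x hx => tendsto_nhds_unique (hg.tendsto hx) (hv x hx)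

/-- `v` is a limit of rescaled displacements of elements of `S` near the identity -/
structure IsLim (D : Set E) (σ : Γ → E → E) (S : Set Γ) (v : E → E) : Prop where
  zero : ∀ z ∉ D, v z = 0
  lim : ∃ l : Ultrafilter (ℝ × Γ), Tendsto Prod.fst (l : Filter (ℝ × Γ)) atTop ∧
    Tendsto Prod.snd (l : Filter (ℝ × Γ)) (Nbh D σ) ∧ (∀ᶠ p in (l : Filter (ℝ × Γ)), p.2 ∈ S) ∧
    LU (fun p z => (p.1 : ℂ) • (σ p.2 z - z)) v (l : Filter (ℝ × Γ)) D

theorem scaled_diff (hσ : HolAct D σ) (p : ℝ × Γ) :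
    DifferentiableOn ℂ (fun z => (p.1 : ℂ) • (σ p.2 z - z)) D :=
  ((hσ.hol _).sub differentiableOn_id).const_smul _

theorem IsLim.hol [CompleteSpace E] (hσ : HolAct D σ) {S : Set Γ} {v : E → E}
    (h : IsLim D σ S v) : DifferentiableOn ℂ v D := by
  obtain ⟨l, -, -, -, hl⟩ := h.lim
  exact (hl.limit fun p => scaled_diff hσ p).1

theorem tendsto_disp [ProperSpace E] {z₀ : E} {r : ℝ} (hr : 0 < r) (hB : closedBall z₀ r ⊆ D)
    (hσ : HolAct D σ) : Tendsto (disp σ (closedBall z₀ r)) (Nbh D σ) (𝓝 0) := by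
  rw [Metric.tendsto_nhds]
  intro ε hε
  filter_upwards [eventually_near (σ := σ) hB (isCompact_closedBall z₀ r)
    (show 0 < ε / 2 by positivity)] with γ hγ
  have h1 := disp_lt ⟨z₀, mem_closedBall_self hr.le⟩ hγ
  have h2 : 0 ≤ disp σ (closedBall z₀ r) γ :=
    (norm_nonneg _).trans (le_disp hσ hB (isCompact_closedBall _ _) γ (mem_closedBall_self hr.le))
  rw [dist_eq_norm, sub_zero, Real.norm_eq_abs, abs_of_nonneg h2]
  linarith

/-- existence of a nonzero limit field -/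
theorem exists_isLim [ProperSpace E] (hD : IsOpen D) (hc : IsPreconnected D) (hσ : HolAct D σ)
    {R : ℝ} (hR : ∀ z ∈ D, ‖z‖ ≤ R) (hne : D.Nonempty) {S : Set Γ}
    (hS : ∃ᶠ γ in Nbh D σ, γ ∈ S ∧ ¬ Triv D σ γ) :
    ∃ v, IsLim D σ S v ∧ ∃ z ∈ D, v z ≠ 0 := by
  classical
  obtain ⟨z₀, hz₀⟩ := hne
  obtain ⟨r, hr, hB⟩ : ∃ r > 0, closedBall z₀ r ⊆ D :=
    Metric.nhds_basis_closedBall.mem_iff.1 (hD.mem_nhds hz₀)
  set l0 := Nbh D σ ⊓ 𝓟 {γ | γ ∈ S ∧ ¬ Triv D σ γ} with hl0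
  have hl0n : l0.NeBot := by
    rw [hl0, ← frequently_mem_iff_neBot]
    exact hS
  set 𝒰 := Ultrafilter.of l0 with h𝒰
  have hle : (𝒰 : Filter Γ) ≤ l0 := Ultrafilter.of_le l0
  have h1 : (𝒰 : Filter Γ) ≤ Nbh D σ := hle.trans inf_le_left
  have h2 : ∀ᶠ γ in (𝒰 : Filter Γ), γ ∈ S ∧ ¬ Triv D σ γ := by
    have : {γ | γ ∈ S ∧ ¬ Triv D σ γ} ∈ l0 := mem_inf_of_right (mem_principal_self _)
    exact hle this
  set B := closedBall z₀ r with hBdef
  have hBc : IsCompact B := isCompact_closedBall _ _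
  set f : Γ → E → E := fun γ z => (((disp σ B γ)⁻¹ : ℝ) : ℂ) • (σ γ z - z) with hf
  have hfd : ∀ γ, DifferentiableOn ℂ (f γ) D := fun γ => scaled_diff hσ (_, γ)
  have hfn : ∀ γ z, 0 < disp σ B γ → ‖f γ z‖ = ‖σ γ z - z‖ / disp σ B γ := by
    intro γ z hpos
    rw [hf]
    simp only [norm_smul, Complex.norm_real, Real.norm_eq_abs, abs_inv, abs_of_pos hpos]
    rw [div_eq_inv_mul]
  have hpos : ∀ᶠ γ in (𝒰 : Filter Γ), 0 < disp σ B γ := by
    filter_upwards [h2] with γ hγ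
    exact disp_pos hD hc hσ hr hB hBc hγ.2
  obtain ⟨g, hg⟩ := exists_limit 𝒰 hfd (fun x hx => by
    obtain ⟨ρ, hρ, hρD⟩ : ∃ ρ > 0, closedBall x ρ ⊆ D :=
      Metric.nhds_basis_closedBall.mem_iff.1 (hD.mem_nhds hx)
    obtain ⟨C, hC, hev⟩ := cartan hD hc hσ hR hr hB (isCompact_closedBall x ρ) hρD
    refine ⟨ρ, hρ, ball_subset_closedBall.trans hρD, C, ?_⟩
    filter_upwards [h1 hev, hpos] with γ hγ hp z hz
    rw [hfn γ z hp, div_le_iff₀ hp]
    exact hγ z (ball_subset_closedBall hz))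
  refine ⟨D.indicator g, ⟨fun z hz => indicator_of_notMem hz _, ?_⟩, ?_⟩
  · refine ⟨𝒰.map (fun γ => ((disp σ B γ)⁻¹, γ)), ?_, ?_, ?_, ?_⟩
    · rw [Ultrafilter.coe_map, tendsto_map'_iff]
      have h3 : Tendsto (disp σ B) (𝒰 : Filter Γ) (𝓝[>] 0) := by
        rw [tendsto_nhdsWithin_iff]
        exact ⟨(tendsto_disp hr hB hσ).mono_left h1, hpos⟩
      exact tendsto_inv_nhdsGT_zero.comp h3
    · rw [Ultrafilter.coe_map, tendsto_map'_iff]
      exact h1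
    · rw [Ultrafilter.coe_map, eventually_map]
      filter_upwards [h2] with γ hγ using hγ.1
    · intro x hx
      obtain ⟨ρ, hρ, hρD, h4⟩ := hg x hx
      refine ⟨ρ, hρ, hρD, fun ε hε => ?_⟩
      rw [Ultrafilter.coe_map, eventually_map]
      filter_upwards [h4 ε hε] with γ hγ z hz
      rw [indicator_of_mem (hρD hz)]
      exact hγ z hz
  · have h5 := hg.compact hBc hB (show (0 : ℝ) < 1 / 2 by norm_num)
    obtain ⟨γ, hγ, hp⟩ := (h5.and hpos).exists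
    obtain ⟨z, hz, hzd⟩ := exists_disp hσ hB hBc ⟨z₀, mem_closedBall_self hr.le⟩ γ
    refine ⟨z, hB hz, ?_⟩
    rw [indicator_of_mem (hB hz)]
    intro h0
    have h6 := hγ z hz
    rw [h0, sub_zero, hfn γ z hp, hzd, div_self hp.ne'] at h6
    norm_num at h6

omit [Group Γ] in
theorem tendsto_cnorm {l : Filter (ℝ × Γ)} (h : Tendsto Prod.fst l atTop) :
    Tendsto (fun p : ℝ × Γ => ‖((p.1 : ℝ) : ℂ)‖) l atTop := by
  have : (fun p : ℝ × Γ => ‖((p.1 : ℝ) : ℂ)‖) = fun p => |p.1| := by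
    funext p; rw [Complex.norm_real, Real.norm_eq_abs]
  rw [this]
  exact tendsto_abs_atTop_atTop.comp h

omit [Group Γ] in
theorem lim_zero {l : Filter (ℝ × Γ)} (hfst : Tendsto Prod.fst l atTop)
    {v : E → E} {z : E} (hz : Tendsto (fun p : ℝ × Γ => (p.1 : ℂ) • (σ p.2 z - z)) l (𝓝 (v z))) :
    Tendsto (fun p : ℝ × Γ => σ p.2 z - z) l (𝓝 0) := by
  have h1 : Tendsto (fun p : ℝ × Γ => (((p.1)⁻¹ : ℝ) : ℂ)) l (𝓝 ((0 : ℝ) : ℂ)) :=
    (Complex.continuous_ofReal.tendsto 0).comp (tendsto_inv_atTop_zero.comp hfst)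
  have h2 := h1.smul hz
  rw [Complex.ofReal_zero, zero_smul] at h2
  refine h2.congr' ?_
  filter_upwards [hfst.eventually (eventually_gt_atTop 0)] with p hp
  have hp0 : (p.1 : ℂ) ≠ 0 := by exact_mod_cast hp.ne'
  rw [smul_smul, Complex.ofReal_inv, inv_mul_cancel₀ hp0, one_smul]

omit [Group Γ] in
/-- derivative along a sequence converging to the identity -/
theorem lim_comp {l : Filter (ℝ × Γ)} (hfst : Tendsto Prod.fst l atTop)
    {v : E → E} {z : E} (hz : Tendsto (fun p : ℝ × Γ => (p.1 : ℂ) • (σ p.2 z - z)) l (𝓝 (v z)))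
    {f : E → F} {f' : E →L[ℂ] F} (hf : HasFDerivAt f f' z) :
    Tendsto (fun p : ℝ × Γ => (p.1 : ℂ) • (f (σ p.2 z) - f z)) l (𝓝 (f' (v z))) := by
  have h := (hf.hasFDerivWithinAt (s := univ)).lim (c := fun p : ℝ × Γ => (p.1 : ℂ))
    (d := fun p : ℝ × Γ => σ p.2 z - z) (lim_zero hfst hz)
    (Eventually.of_forall fun _ => mem_univ _) hz
  simpa using h

/-- `w` is invariant under `σ a` -/
def InvBy (D : Set E) (σ : Γ → E → E) (a : Γ) (w : E → E) : Prop :=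
  ∀ z ∈ D, fderiv ℂ (σ a) z (w z) = w (σ a z)

theorem inv_of_lim (hD : IsOpen D) (hσ : HolAct D σ) {S N : Set Γ} (hN : N ∈ Nbh D σ)
    (hcomm : ∀ a ∈ S ∩ N, ∀ b ∈ S ∩ N, ∀ z ∈ D, σ a (σ b z) = σ b (σ a z)) {v : E → E}
    (hv : IsLim D σ S v) {a : Γ} (ha : a ∈ S ∩ N) : InvBy D σ a v := by
  intro z hz
  obtain ⟨l, h1, h2, h3, h4⟩ := hv.lim
  have h5 := lim_comp h1 (h4.tendsto hz) ((hσ.hol a).differentiableAt (hD.mem_nhds hz)).hasFDerivAt
  have h6 := h4.tendsto (hσ.maps a z hz)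
  refine tendsto_nhds_unique h5 (h6.congr' ?_)
  filter_upwards [h3, h2 hN] with p hp hpN
  rw [hcomm a ha p.2 ⟨hp, hpN⟩ z hz]

theorem bracket (hD : IsOpen D) (hσ : HolAct D σ) [CompleteSpace E] {S N : Set Γ}
    (hN : N ∈ Nbh D σ) {v w : E → E} (hv : IsLim D σ S v) (hw : DifferentiableOn ℂ w D)
    (hinv : ∀ a ∈ S ∩ N, InvBy D σ a w) : ∀ z ∈ D, fderiv ℂ w z (v z) = fderiv ℂ v z (w z) := by
  intro z hz
  obtain ⟨l, h1, h2, h3, h4⟩ := hv.lim
  have h5 := lim_comp h1 (h4.tendsto hz) (hw.differentiableAt (hD.mem_nhds hz)).hasFDerivAt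
  obtain ⟨-, h6⟩ := h4.limit fun p => scaled_diff hσ p
  have h7 := ((ContinuousLinearMap.apply ℂ E (w z)).continuous.tendsto _).comp (h6.tendsto hz)
  refine tendsto_nhds_unique h5 (h7.congr' ?_)
  filter_upwards [h3, h2 hN] with p hp hpN
  have h8 := hinv p.2 ⟨hp, hpN⟩ z hz
  have hd := (hσ.hol p.2).differentiableAt (hD.mem_nhds hz)
  have h9 : fderiv ℂ (fun z => (p.1 : ℂ) • (σ p.2 z - z)) z =
      (p.1 : ℂ) • (fderiv ℂ (σ p.2) z - ContinuousLinearMap.id ℂ E) :=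
    ((hd.hasFDerivAt.sub (hasFDerivAt_id z)).const_smul _).fderiv
  show fderiv ℂ (fun z => (p.1 : ℂ) • (σ p.2 z - z)) z (w z) = _
  rw [h9, ← h8]
  simp

/-- push-forward of a vector field -/
noncomputable def push (D : Set E) (σ : Γ → E → E) (γ : Γ) (v : E → E) : E → E :=
  open Classical in fun z => if z ∈ D then fderiv ℂ (σ γ) (σ γ⁻¹ z) (v (σ γ⁻¹ z)) else 0

theorem IsLim.push [ProperSpace E] (hD : IsOpen D) (hσ : HolAct D σ) {S : Set Γ} {v : E → E}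
    (hv : IsLim D σ S v) (γ : Γ) (hγS : ∀ a ∈ S, γ * a * γ⁻¹ ∈ S) :
    IsLim D σ S (push D σ γ v) := by
  refine ⟨fun z hz => if_neg hz, ?_⟩
  obtain ⟨l, h1, h2, h3, h4⟩ := hv.lim
  refine ⟨l.map (fun p => (p.1, γ * p.2 * γ⁻¹)), ?_, ?_, ?_, ?_⟩
  · rw [Ultrafilter.coe_map, tendsto_map'_iff]
    exact h1
  · rw [Ultrafilter.coe_map, tendsto_map'_iff]
    exact tendsto_conj hD hσ γ h2
  · rw [Ultrafilter.coe_map, eventually_map]
    filter_upwards [h3] with p hp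
    exact hγS _ hp
  · refine LU_of_pointwise _ (fun p => scaled_diff hσ p) ?_ ?_
    · intro x hx
      have hw0 : σ γ⁻¹ x ∈ D := hσ.maps _ _ hx
      obtain ⟨ρ, hρ, L, hL0, hρD, -, hLip⟩ := exists_lip hD (hσ.hol γ) hw0
      obtain ⟨ρ', hρ', hρ'D, hl⟩ := h4 _ hw0
      obtain ⟨ρ2, hρ2, M, hρ2D, hM⟩ := exists_bound hD
        ((h4.limit fun p => scaled_diff hσ p).1) hw0
      set s := min (ρ / 2) (min ρ' ρ2) with hs
      have hs0 : 0 < s := by positivity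
      have hcont : ContinuousAt (σ γ⁻¹) x := ((hσ.hol γ⁻¹).continuousOn.continuousAt
        (hD.mem_nhds hx))
      obtain ⟨t, ht, ht2⟩ := Metric.mem_nhds_iff.1
        (Filter.inter_mem (hcont.preimage_mem_nhds (ball_mem_nhds _ hs0)) (hD.mem_nhds hx))
      refine ⟨t, ht, fun z hz => (ht2 hz).2, L * (M + 1), ?_⟩
      rw [Ultrafilter.coe_map, eventually_map]
      -- `σ b w` stays in the ball
      have hcl : closedBall (σ γ⁻¹ x) (ρ / 4) ⊆ D :=
        (closedBall_subset_ball (by linarith)).trans hρD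
      filter_upwards [hl 1 one_pos, h1.eventually (eventually_ge_atTop (2 * (M + 1) / ρ + 1))]
        with p hp hpm z hz
      have hzD := (ht2 hz).2
      have hw : σ γ⁻¹ z ∈ ball (σ γ⁻¹ x) s := (ht2 hz).1
      have hw1 : σ γ⁻¹ z ∈ ball (σ γ⁻¹ x) (ρ / 2) := ball_subset_ball (min_le_left _ _) hw
      have hw2 : σ γ⁻¹ z ∈ ball (σ γ⁻¹ x) ρ' :=
        ball_subset_ball ((min_le_right _ _).trans (min_le_left _ _)) hw
      have hw3 : σ γ⁻¹ z ∈ ball (σ γ⁻¹ x) ρ2 :=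
        ball_subset_ball ((min_le_right _ _).trans (min_le_right _ _)) hw
      set w := σ γ⁻¹ z with hwdef
      have hM0 : 0 ≤ M := (norm_nonneg _).trans (hM w hw3)
      have hm0 : 0 < p.1 := by
        have : 0 ≤ 2 * (M + 1) / ρ := by positivity
        linarith
      have hb1 : ‖(p.1 : ℂ) • (σ p.2 w - w)‖ ≤ M + 1 := by
        have e1 := hp w hw2
        have e2 := hM w hw3
        have e3 := norm_sub_norm_le ((p.1 : ℂ) • (σ p.2 w - w)) (v w)
        linarith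
      rw [norm_smul, Complex.norm_real, Real.norm_eq_abs, abs_of_pos hm0] at hb1
      have hb2 : ‖σ p.2 w - w‖ ≤ ρ / 2 := by
        have e1 : ‖σ p.2 w - w‖ ≤ (M + 1) / p.1 := by
          rw [le_div_iff₀ hm0]; linarith
        refine e1.trans ?_
        rw [div_le_iff₀ hm0]
        have e2 : ρ / 2 * (2 * (M + 1) / ρ + 1) ≤ ρ / 2 * p.1 := by gcongr
        have e3 : ρ / 2 * (2 * (M + 1) / ρ + 1) = (M + 1) + ρ / 2 := by field_simp
        linarith
      have hw4 : σ p.2 w ∈ ball (σ γ⁻¹ x) ρ := by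
        rw [mem_ball, dist_eq_norm] at hw1 ⊢
        have e : σ p.2 w - σ γ⁻¹ x = (σ p.2 w - w) + (w - σ γ⁻¹ x) := by abel
        rw [e]
        have := norm_add_le (σ p.2 w - w) (w - σ γ⁻¹ x)
        linarith
      have hw5 : w ∈ ball (σ γ⁻¹ x) ρ := ball_subset_ball (by linarith) hw1
      have e1 := hLip w hw5 (σ p.2 w) hw4
      have e2 : σ γ (σ p.2 w) = σ (γ * p.2 * γ⁻¹) z := by
        rw [hwdef, ← hσ.mul _ _ _ (hσ.maps _ _ hzD), ← hσ.mul _ _ _ hzD]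
      have e3 : σ γ w = z := hσ.act_inv γ hzD
      rw [e2, e3] at e1
      show ‖(p.1 : ℂ) • (σ (γ * p.2 * γ⁻¹) z - z)‖ ≤ L * (M + 1)
      rw [norm_smul, Complex.norm_real, Real.norm_eq_abs, abs_of_pos hm0]
      calc p.1 * ‖σ (γ * p.2 * γ⁻¹) z - z‖ ≤ p.1 * (L * ‖σ p.2 w - w‖) := by gcongr
        _ = L * (p.1 * ‖σ p.2 w - w‖) := by ring
        _ ≤ L * (M + 1) := by gcongr
    · intro x hx
      rw [Ultrafilter.coe_map, tendsto_map'_iff]
      have hw0 : σ γ⁻¹ x ∈ D := hσ.maps _ _ hx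
      have h5 := lim_comp h1 (h4.tendsto hw0)
        ((hσ.hol γ).differentiableAt (hD.mem_nhds hw0)).hasFDerivAt
      have h6 : BD.push D σ γ v x = fderiv ℂ (σ γ) (σ γ⁻¹ x) (v (σ γ⁻¹ x)) := if_pos hx
      rw [h6]
      refine h5.congr fun p => ?_
      have e2 : σ γ (σ p.2 (σ γ⁻¹ x)) = σ (γ * p.2 * γ⁻¹) x := by
        rw [← hσ.mul _ _ _ hw0, ← hσ.mul _ _ _ hx]
      rw [e2, hσ.act_inv γ hx]
      rfl

end Pool.Agent.H906.BD
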