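import Pool.Agent.H906.BD.NormProd
import Pool.Agent.H906.PC.Main

/-! # T21 Lin: linear parts of the group acting on `D × ℂ^B`

`Γ` acts on `D × ℂ^B` by `(z, w) ↦ (σ_γ z, (a_{γ,j} w_j + b_{γ,j})_j)` (`SplitAct`), properly
discontinuously and cocompactly, with an invariant Kähler form; `hdisc`: the image of `Γ` in
`Aut D` is properly discontinuous. Claims: the numbers `a_{γ,j}`, `γ` in the kernel `k` of `σ`
(`Triv D σ γ`), have bounded finite order; `|∏_j a_{γ,j}| = 1` for every `γ ∈ Γ`.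

Proof, with the library `Pool/Agent/H906/PC` (on origin/main) used for `A := Fin 0` (so that
`Dom (Fin 0) B` is everything and `Grp (Fin 0) B = (Fin 0 → SL(2,ℝ)) × (B → ℂ ≃ᵃ[ℂ] ℂ)`).
Let `Λ` be the subgroup of `Grp (Fin 0) B` of all `x` such that for some `γ` with `Triv D σ γ`,
`x.2 j w = a γ j * w + b γ j` for all `j, w`. Fix `z₀ ∈ D`.
(1) `ProperlyDiscontinuous Λ`: for `K` compact let `K₁ = {Sum.elim z₀ (y ∘ inr) | y ∈ K} ⊆ Tot D B`;
`ρ γ (Sum.elim z₀ w) = Sum.elim z₀ (x w)`; use `hpd` (`x` is determined by `γ`).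
(2) `Cocompact Λ`: let `K ⊆ Tot D B` be compact with `Γ K = Tot D B`, `K_D = prA '' K ∪ {z₀}`, `T` the finite set
given by `hdisc` for `K_D`. For `w ∈ ℂ^B` there is `γ` with `ρ γ (z₀, w) ∈ K`, so `σ γ z₀ ∈ K_D` and
`σ γ = σ t` on `D` for some `t ∈ T`; `λ = t⁻¹ γ` is in the kernel and `ρ λ (z₀, w) ∈ ρ t⁻¹ '' K`, a
compact set; so the image under `prB` of the finite union of the `ρ t⁻¹ '' K` works.
(3) `IsKahler Λ g'` with `g' y = (g (Sum.elim z₀ (y ∘ inr))).submatrix ι ι`, `ι : Fin 0 ⊕ B → A ⊕ B`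
(`PosDef.submatrix` for injective `ι`; derivatives: chain rule for the affine map
`y ↦ Sum.elim z₀ (y ∘ inr)`; invariance from `hinv`: the block of `Jac (ρ γ)` in the `B` directions is
`diagonal (a γ)` and the `(inl i, inr j)` entries vanish by `SplitAct.fst`; `der`, `lin` of
`PC/Defs.lean` give `lin (x.2 j) = a γ j`).
(4) `hU := uni_of_kahler (this)`, `hG := good hpd hcc (fun h => uni_of_kahler (kahler_cj this h))` as in
`PC/Main.lean` (`semiample_of_uni`); `lin_pow hG hU` gives the first claim; `VV_eq_TT hG hU` says that the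
translation vectors `LL hG` span everything over `ℝ` (`TT R B = ⊤` here, `A = Fin 0` is empty): so
`L = {b γ | Triv D σ γ, ∀ j, a γ j = 1}`, an additive subgroup of `B → ℂ` with finitely many elements in each
ball (`hpd` again), spans `ℂ^B` over `ℝ`. For `γ ∈ Γ` and `λ` in the kernel with `a_λ = 1`,
`γ λ γ⁻¹` is of the same kind with translation vector `a_γ b_λ` (compare the second components of the
action on `(z₀, w)`); the same for `γ⁻¹`. So `norm_prod_eq_one` (`BD/NormProd.lean`; statement: for a subgroup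
`L` with finite balls and real span `⊤`, `d L = L` implies `‖∏ d_j‖ = 1`) gives the second claim. -/

open Filter Topology Set Metric
open scoped ComplexOrder

namespace Pool.Agent.H906.BD

variable {A B : Type*} [Fintype A] [Fintype B] [DecidableEq A] [DecidableEq B]
variable {Γ : Type*} [Group Γ]

omit [Fintype A] [DecidableEq A] [DecidableEq B] in
theorem lin_a1 {a : Γ → B → ℂ} (ha : ∀ γ δ j, a (γ * δ) j = a γ j * a δ j)
    (ha0 : ∀ γ j, a γ j ≠ 0) (j : B) : a 1 j = 1 := by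
  have h := ha 1 1 j
  rw [mul_one] at h
  exact (mul_eq_left₀ (ha0 1 j)).1 h.symm

omit [DecidableEq A] [DecidableEq B] in
theorem lin_bmul {D : Set (A → ℂ)} (hne : D.Nonempty)
    {ρ : Γ → (A ⊕ B → ℂ) → (A ⊕ B → ℂ)} {σ : Γ → (A → ℂ) → (A → ℂ)} {a b : Γ → B → ℂ}
    (h : SplitAct D ρ σ a b) (γ δ : Γ) (j : B) : b (γ * δ) j = a γ j * b δ j + b γ j := by
  obtain ⟨z, hz⟩ := hne
  obtain ⟨x, hx⟩ : ∃ x : A ⊕ B → ℂ, x = Sum.elim z 0 := ⟨_, rfl⟩
  have hxT : x ∈ Tot D B := by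
    rw [hx]
    exact hz
  have hx0 : x (Sum.inr j) = 0 := by rw [hx]; rfl
  have h1 := congrFun (h.act.mul γ δ x hxT) (Sum.inr j)
  rw [h.snd _ _ hxT, h.snd _ _ (h.act.maps δ x hxT), h.snd _ _ hxT, hx0] at h1
  linear_combination h1

omit [DecidableEq A] [DecidableEq B] in
theorem lin_b1 {D : Set (A → ℂ)} (hne : D.Nonempty)
    {ρ : Γ → (A ⊕ B → ℂ) → (A ⊕ B → ℂ)} {σ : Γ → (A → ℂ) → (A → ℂ)} {a b : Γ → B → ℂ}
    (h : SplitAct D ρ σ a b) (j : B) : b 1 j = 0 := by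
  obtain ⟨z, hz⟩ := hne
  obtain ⟨x, hx⟩ : ∃ x : A ⊕ B → ℂ, x = Sum.elim z 0 := ⟨_, rfl⟩
  have hxT : x ∈ Tot D B := by
    rw [hx]
    exact hz
  have hx0 : x (Sum.inr j) = 0 := by rw [hx]; rfl
  have h1 := congrFun (h.act.one x hxT) (Sum.inr j)
  rw [h.snd _ _ hxT, hx0] at h1
  linear_combination h1

omit [DecidableEq A] [DecidableEq B] in
theorem lin_binv {D : Set (A → ℂ)} (hne : D.Nonempty)
    {ρ : Γ → (A ⊕ B → ℂ) → (A ⊕ B → ℂ)} {σ : Γ → (A → ℂ) → (A → ℂ)} {a b : Γ → B → ℂ}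
    (h : SplitAct D ρ σ a b) (γ : Γ) (j : B) : a γ j * b γ⁻¹ j + b γ j = 0 := by
  have h1 := lin_bmul hne h γ γ⁻¹ j
  rw [mul_inv_cancel, lin_b1 hne h] at h1
  exact h1.symm

theorem lin_ainv {B : Type*} {a : Γ → B → ℂ} (ha : ∀ γ δ j, a (γ * δ) j = a γ j * a δ j)
    (ha0 : ∀ γ j, a γ j ≠ 0) (γ : Γ) (j : B) : a γ j * a γ⁻¹ j = 1 := by
  have h := ha 1 1 j
  rw [mul_one] at h
  have h1 : a 1 j = 1 := (mul_eq_left₀ (ha0 1 j)).1 h.symm
  rw [← ha, mul_inv_cancel, h1]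

/-- the affine map `w ↦ c w + b` -/
theorem lin_aff (c b : ℂ) (hc : c ≠ 0) : ∃ e : ℂ ≃ᵃ[ℂ] ℂ, ∀ z, e z = c * z + b := by
  refine ⟨((LinearEquiv.smulOfUnit (Units.mk0 c hc)).toAffineEquiv).trans
    (AffineEquiv.constVAdd ℂ ℂ b), fun z => ?_⟩
  change b + c * z = c * z + b
  ring

theorem lin_lin {e : ℂ ≃ᵃ[ℂ] ℂ} {c b : ℂ} (h : ∀ w, e w = c * w + b) : PC.lin e = c := by
  have h0 := PC.aff_apply e 1
  rw [h 1, h 0] at h0
  linear_combination -h0

/-- the subgroup of the affine maps given by the kernel -/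
def lin_Lam {D : Set (A → ℂ)} (hne : D.Nonempty)
    {ρ : Γ → (A ⊕ B → ℂ) → (A ⊕ B → ℂ)} {σ : Γ → (A → ℂ) → (A → ℂ)} {a b : Γ → B → ℂ}
    (h : SplitAct D ρ σ a b) (ha : ∀ γ δ j, a (γ * δ) j = a γ j * a δ j)
    (ha0 : ∀ γ j, a γ j ≠ 0) : Subgroup (PC.Grp (Fin 0) B) where
  carrier := {x | ∃ γ, Triv D σ γ ∧ ∀ j w, x.2 j w = a γ j * w + b γ j}
  mul_mem' := by
    rintro x y ⟨γ, hγ, hx⟩ ⟨δ, hδ, hy⟩
    refine ⟨γ * δ, fun z hz => ?_, fun j w => ?_⟩
    · rw [h.base.mul γ δ z hz, hδ z hz, hγ z hz]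
    · have e : (x * y).2 j w = x.2 j (y.2 j w) := rfl
      rw [e, hx, hy, ha, lin_bmul hne h]
      ring
  one_mem' := by
    refine ⟨1, fun z hz => h.base.one z hz, fun j w => ?_⟩
    rw [lin_a1 ha ha0, lin_b1 hne h, one_mul, add_zero]
    rfl
  inv_mem' := by
    rintro x ⟨γ, hγ, hx⟩
    refine ⟨γ⁻¹, hγ.inv h.base, fun j w => ?_⟩
    have h1 : x.2 j (a γ⁻¹ j * w + b γ⁻¹ j) = w := by
      rw [hx]
      linear_combination w * lin_ainv ha ha0 γ j + lin_binv hne h γ j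
    have h2 : (x⁻¹).2 j (x.2 j (a γ⁻¹ j * w + b γ⁻¹ j)) = a γ⁻¹ j * w + b γ⁻¹ j := by
      have e : ((x⁻¹).2 j * x.2 j) = 1 := by
        have : (x⁻¹ * x) = 1 := inv_mul_cancel x
        have h3 := congrArg (fun u : PC.Grp (Fin 0) B => u.2 j) this
        exact h3
      have e2 : (x⁻¹).2 j (x.2 j (a γ⁻¹ j * w + b γ⁻¹ j))
          = ((x⁻¹).2 j * x.2 j) (a γ⁻¹ j * w + b γ⁻¹ j) := rfl
      rw [e2, e]
      rfl
    rw [h1] at h2
    exact h2

theorem lin_grp_ext {B : Type*} {x y : PC.Grp (Fin 0) B} (h : ∀ j w, x.2 j w = y.2 j w) :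
    x = y := by
  refine Prod.ext (funext fun i => i.elim0) (funext fun j => ?_)
  ext w
  exact h j w

omit [Fintype B] [DecidableEq B] in
/-- the element of the group given by `γ` -/
theorem lin_X {a b : Γ → B → ℂ} (ha0 : ∀ γ j, a γ j ≠ 0) :
    ∃ X : Γ → PC.Grp (Fin 0) B, ∀ γ j w, (X γ).2 j w = a γ j * w + b γ j := by
  choose e he using fun (γ : Γ) (j : B) => lin_aff (a γ j) (b γ j) (ha0 γ j)
  exact ⟨fun γ => (fun i => i.elim0, fun j => e γ j), he⟩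

/-- the embedding of `ℂ^B` -/
def lin_emb {A B : Type*} (z₀ : A → ℂ) (y : PC.Pt (Fin 0) B) : A ⊕ B → ℂ :=
  Sum.elim z₀ fun j => y (Sum.inr j)

/-- the injection of the indices -/
def lin_iota {A B : Type*} : Fin 0 ⊕ B → A ⊕ B := Sum.elim Fin.elim0 Sum.inr

theorem lin_iota_inj {A B : Type*} : Function.Injective (lin_iota (A := A) (B := B)) := by
  rintro (i | j) (i' | j') h
  · exact i.elim0
  · exact i.elim0
  · exact i'.elim0
  · have h1 : (Sum.inr j : A ⊕ B) = Sum.inr j' := h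
    rw [Sum.inr.inj h1]

theorem lin_emb_mem {A B : Type*} {D : Set (A → ℂ)} {z₀ : A → ℂ} (hz₀ : z₀ ∈ D)
    (y : PC.Pt (Fin 0) B) : lin_emb z₀ y ∈ Tot D B := hz₀

/-- its derivative -/
noncomputable def lin_L (A B : Type*) [Fintype A] [Fintype B] : PC.Pt (Fin 0) B →L[ℝ] (A ⊕ B → ℂ) :=
  ContinuousLinearMap.pi fun k => Sum.rec (motive := fun _ => PC.Pt (Fin 0) B →L[ℝ] ℂ)
    (fun _ => 0) (fun j => ContinuousLinearMap.proj (Sum.inr j)) k

omit [DecidableEq A] [DecidableEq B] in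
theorem lin_emb_deriv (z₀ : A → ℂ) (y : PC.Pt (Fin 0) B) :
    HasFDerivAt (𝕜 := ℝ) (lin_emb (B := B) z₀) (lin_L A B) y := by
  unfold lin_L
  rw [hasFDerivAt_pi']
  rintro (i | j)
  · exact hasFDerivAt_const (z₀ i) y
  · exact (ContinuousLinearMap.proj (R := ℝ) (φ := fun _ : Fin 0 ⊕ B => ℂ)
      (Sum.inr j)).hasFDerivAt

theorem lin_L_single [DecidableEq (Fin 0 ⊕ B)] (k : Fin 0 ⊕ B) (c : ℂ) :
    lin_L A B (Pi.single k c) = Pi.single (lin_iota k) c := by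
  rcases k with i | j
  · exact i.elim0
  funext l
  rcases l with i | j'
  · show (0 : ℂ) = (Pi.single (Sum.inr j) c : A ⊕ B → ℂ) (Sum.inl i)
    rw [Pi.single_eq_of_ne (by simp)]
  · show (Pi.single (Sum.inr j) c : PC.Pt (Fin 0) B) (Sum.inr j')
      = (Pi.single (Sum.inr j) c : A ⊕ B → ℂ) (Sum.inr j')
    by_cases hj : j' = j
    · subst hj
      rw [Pi.single_eq_same, Pi.single_eq_same]
    · rw [Pi.single_eq_of_ne (by simpa using hj), Pi.single_eq_of_ne (by simpa using hj)]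

theorem lin_wd [DecidableEq (Fin 0 ⊕ B)] (z₀ : A → ℂ) (k : Fin 0 ⊕ B)
    {G : (A ⊕ B → ℂ) → ℂ} {y : PC.Pt (Fin 0) B} (hG : DifferentiableAt ℝ G (lin_emb z₀ y)) :
    PC.wd k (fun y => G (lin_emb z₀ y)) y = dz (lin_iota k) G (lin_emb z₀ y) := by
  have h1 : HasFDerivAt (𝕜 := ℝ) (fun y => G (lin_emb z₀ y))
      ((fderiv ℝ G (lin_emb z₀ y)).comp (lin_L A B)) y :=
    HasFDerivAt.comp y hG.hasFDerivAt (lin_emb_deriv z₀ y)
  unfold PC.wd dz
  rw [h1.fderiv, ContinuousLinearMap.comp_apply, ContinuousLinearMap.comp_apply, lin_L_single,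
    lin_L_single]

omit [DecidableEq A] [DecidableEq B] in
theorem lin_tot_open {D : Set (A → ℂ)} (hD : IsOpen D) : IsOpen (Tot D B) :=
  hD.preimage (continuous_pi fun i => continuous_apply (Sum.inl i))

/-- the columns of the Jacobian in the directions of `ℂ^B` -/
theorem lin_jac {D : Set (A → ℂ)} (hD : IsOpen D)
    {ρ : Γ → (A ⊕ B → ℂ) → (A ⊕ B → ℂ)} {σ : Γ → (A → ℂ) → (A → ℂ)} {a b : Γ → B → ℂ}
    (h : SplitAct D ρ σ a b) (γ : Γ) {x : A ⊕ B → ℂ} (hx : x ∈ Tot D B) (k : A ⊕ B) (j : B) :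
    Jac (ρ γ) x k (Sum.inr j) = if k = Sum.inr j then a γ j else 0 := by
  have hd : HasFDerivAt (𝕜 := ℂ) (ρ γ) (fderiv ℂ (ρ γ) x) x :=
    ((h.act.hol γ).differentiableAt ((lin_tot_open hD).mem_nhds hx)).hasFDerivAt
  set e : A ⊕ B → ℂ := Pi.single (Sum.inr j) 1 with he
  have hline : HasDerivAt (fun t : ℂ => x + t • e) e 0 := by
    have h1 : HasDerivAt (fun t : ℂ => t • e) ((1 : ℂ) • e) 0 :=
      (hasDerivAt_id (0 : ℂ)).smul_const e
    rw [one_smul] at h1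
    exact h1.const_add x
  have hd' : HasFDerivAt (𝕜 := ℂ) (ρ γ) (fderiv ℂ (ρ γ) x) (x + (0 : ℂ) • e) := by
    rw [zero_smul, add_zero]
    exact hd
  have h2 : HasDerivAt (fun t : ℂ => ρ γ (x + t • e)) (fderiv ℂ (ρ γ) x e) 0 :=
    hd'.comp_hasDerivAt 0 hline
  have h3 := hasDerivAt_pi.1 h2 k
  have hmem : ∀ t : ℂ, x + t • e ∈ Tot D B ∧ prA (x + t • e) = prA x := by
    intro t
    have e1 : prA (x + t • e) = prA x := by
      funext i
      show x (Sum.inl i) + t • e (Sum.inl i) = x (Sum.inl i)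
      rw [he, Pi.single_eq_of_ne (by simp), smul_zero, add_zero]
    refine ⟨?_, e1⟩
    show prA (x + t • e) ∈ D
    rw [e1]
    exact hx
  have h4 : HasDerivAt (fun t : ℂ => ρ γ (x + t • e) k) (if k = Sum.inr j then a γ j else 0) 0 := by
    rcases k with i | l
    · rw [if_neg (by simp)]
      have e2 : (fun t : ℂ => ρ γ (x + t • e) (Sum.inl i)) = fun _ => σ γ (prA x) i := by
        funext t
        have := congrFun (h.fst γ _ (hmem t).1) i
        rw [(hmem t).2] at this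
        exact this
      rw [e2]
      exact hasDerivAt_const _ _
    · have e2 : (fun t : ℂ => ρ γ (x + t • e) (Sum.inr l))
          = fun t => a γ l * (x (Sum.inr l) + t * e (Sum.inr l)) + b γ l := by
        funext t
        rw [h.snd γ _ (hmem t).1]
        rfl
      rw [e2]
      have h5 : HasDerivAt (fun t : ℂ => a γ l * (x (Sum.inr l) + t * e (Sum.inr l)) + b γ l)
          (a γ l * (1 * e (Sum.inr l))) 0 :=
        ((((hasDerivAt_id (0 : ℂ)).mul_const (e (Sum.inr l))).const_add _).const_mul _).add_const _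
      refine h5.congr_deriv ?_
      by_cases hl : l = j
      · subst hl
        rw [if_pos rfl, he, Pi.single_eq_same, mul_one, mul_one]
      · rw [if_neg (by simpa using hl), he, Pi.single_eq_of_ne (by simpa using hl), mul_zero,
          mul_zero]
  exact h3.unique h4

/-- the action of the kernel on the fibre over `z₀` -/
theorem lin_fib {D : Set (A → ℂ)}
    {ρ : Γ → (A ⊕ B → ℂ) → (A ⊕ B → ℂ)} {σ : Γ → (A → ℂ) → (A → ℂ)} {a b : Γ → B → ℂ}
    (h : SplitAct D ρ σ a b) {z₀ : A → ℂ} (hz₀ : z₀ ∈ D) {γ : Γ} (hγ : Triv D σ γ)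
    {x : PC.Grp (Fin 0) B} (hx : ∀ j w, x.2 j w = a γ j * w + b γ j) (y : PC.Pt (Fin 0) B) :
    ρ γ (lin_emb z₀ y) = lin_emb z₀ (PC.act x y) := by
  funext k
  rcases k with i | j
  · have h1 := congrFun (h.fst γ _ (lin_emb_mem hz₀ y)) i
    have e : prA (lin_emb (B := B) z₀ y) = z₀ := rfl
    rw [e, hγ z₀ hz₀] at h1
    exact h1
  · rw [h.snd γ _ (lin_emb_mem hz₀ y)]
    exact (hx j _).symm

theorem lin_emb_cont (z₀ : A → ℂ) : Continuous (lin_emb (B := B) z₀) :=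
  continuous_iff_continuousAt.2 fun y => (lin_emb_deriv z₀ y).continuousAt

section Main

variable {D : Set (A → ℂ)} (hD : IsOpen D) (hne : D.Nonempty)
    {ρ : Γ → (A ⊕ B → ℂ) → (A ⊕ B → ℂ)} {σ : Γ → (A → ℂ) → (A → ℂ)} {a b : Γ → B → ℂ}
    (h : SplitAct D ρ σ a b) (ha : ∀ γ δ j, a (γ * δ) j = a γ j * a δ j)
    (ha0 : ∀ γ j, a γ j ≠ 0)

include hD hne h ha ha0

theorem lin_pd (hpd : PD (Tot D B) ρ) :
    PC.ProperlyDiscontinuous (lin_Lam hne h ha ha0) := by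
  obtain ⟨z₀, hz₀⟩ := id hne
  obtain ⟨X, hX⟩ := lin_X (b := b) ha0
  intro K hK hKc
  have hKe : IsCompact (lin_emb z₀ '' K) := hKc.image (lin_emb_cont z₀)
  have hKs : lin_emb z₀ '' K ⊆ Tot D B := by
    rintro _ ⟨y, -, rfl⟩
    exact lin_emb_mem hz₀ y
  refine ((hpd _ hKs hKe).image X).subset ?_
  rintro x ⟨⟨γ, hγ, hx⟩, y, ⟨y', hy', rfl⟩, hy⟩
  refine ⟨γ, ⟨lin_emb z₀ (PC.act x y'), ⟨lin_emb z₀ y', ⟨y', hy', rfl⟩, ?_⟩, ⟨_, hy, rfl⟩⟩, ?_⟩
  · exact lin_fib h hz₀ hγ hx y'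
  · refine lin_grp_ext fun j w => ?_
    rw [hX, hx]

theorem lin_cc (hcc : CC (Tot D B) ρ)
    (hdisc : ∀ K ⊆ D, IsCompact K → ∃ T : Finset Γ, ∀ γ, (∃ z ∈ K, σ γ z ∈ K) →
      ∃ t ∈ T, ∀ z ∈ D, σ γ z = σ t z) :
    PC.Cocompact (lin_Lam hne h ha ha0) := by
  obtain ⟨z₀, hz₀⟩ := id hne
  obtain ⟨X, hX⟩ := lin_X (b := b) ha0
  obtain ⟨K, hK, hKc, hcov⟩ := hcc
  have hpc : Continuous (prA : (A ⊕ B → ℂ) → (A → ℂ)) :=
    continuous_pi fun i => continuous_apply (Sum.inl i)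
  have hKD : prA '' K ∪ {z₀} ⊆ D := by
    rintro z (⟨x, hx, rfl⟩ | hz)
    · exact hK hx
    · rw [mem_singleton_iff] at hz
      rw [hz]
      exact hz₀
  obtain ⟨T, hT⟩ := hdisc _ hKD ((hKc.image hpc).union isCompact_singleton)
  have hπ : Continuous fun x : A ⊕ B → ℂ => (fun k => x (lin_iota k) : PC.Pt (Fin 0) B) :=
    continuous_pi fun k => continuous_apply (lin_iota k)
  refine ⟨⋃ t ∈ T, (fun x : A ⊕ B → ℂ => (fun k => x (lin_iota k) : PC.Pt (Fin 0) B)) ''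
    (ρ t⁻¹ '' K), fun y _ i => i.elim0, ?_, ?_⟩
  · refine T.isCompact_biUnion fun t _ => ?_
    exact (hKc.image_of_continuousOn ((h.act.hol t⁻¹).continuousOn.mono hK)).image hπ
  · intro y _
    obtain ⟨γ, hγ⟩ := hcov _ (lin_emb_mem (B := B) hz₀ y)
    have h1 : σ γ z₀ = prA (ρ γ (lin_emb z₀ y)) := (h.fst γ _ (lin_emb_mem hz₀ y)).symm
    obtain ⟨t, ht, htγ⟩ := hT γ ⟨z₀, Or.inr rfl, Or.inl ⟨_, hγ, h1.symm⟩⟩
    have htriv : Triv D σ (t⁻¹ * γ) := by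
      intro z hz
      rw [h.base.mul _ _ z hz, htγ z hz, h.base.inv_act t hz]
    refine ⟨X (t⁻¹ * γ), ⟨t⁻¹ * γ, htriv, hX _⟩, ?_⟩
    rw [mem_iUnion₂]
    refine ⟨t, ht, _, ⟨_, hγ, rfl⟩, ?_⟩
    have h2 := lin_fib h hz₀ htriv (hX (t⁻¹ * γ)) y
    rw [h.act.mul _ _ _ (lin_emb_mem hz₀ y)] at h2
    rw [h2]
    funext k
    rcases k with i | j
    · exact i.elim0
    · rfl

theorem lin_kahler [DecidableEq (Fin 0 ⊕ B)] {z₀ : A → ℂ} (hz₀ : z₀ ∈ D)
    {g : (A ⊕ B → ℂ) → Matrix (A ⊕ B) (A ⊕ B) ℂ} (hg : Kahler (Tot D B) g)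
    (hinv : InvForm (Tot D B) ρ g) :
    PC.IsKahler (lin_Lam hne h ha ha0) fun y => (g (lin_emb z₀ y)).submatrix lin_iota lin_iota := by
  have hdif : ∀ (i j : A ⊕ B) (y : PC.Pt (Fin 0) B),
      DifferentiableAt ℝ (fun x => g x i j) (lin_emb z₀ y) := fun i j y =>
    ((hg.smooth i j).differentiableOn (by norm_num)).differentiableAt
      ((lin_tot_open hD).mem_nhds (lin_emb_mem hz₀ y))
  refine ⟨fun i j => ?_, fun y _ => ?_, fun y _ i j k => ?_, ?_⟩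
  · have h1 : ContDiffOn ℝ 1 (lin_emb (B := B) z₀) (PC.Dom (Fin 0) B) := by
      refine ContDiff.contDiffOn ?_
      rw [contDiff_pi]
      rintro (i | j)
      · exact contDiff_const
      · exact contDiff_apply ℝ ℂ (Sum.inr j)
    exact (hg.smooth (lin_iota i) (lin_iota j)).comp h1 fun y _ => lin_emb_mem hz₀ y
  · exact (hg.pos _ (lin_emb_mem hz₀ y)).submatrix lin_iota_inj
  · have h1 := lin_wd z₀ i (hdif (lin_iota j) (lin_iota k) y)
    have h2 := lin_wd z₀ j (hdif (lin_iota i) (lin_iota k) y)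
    show PC.wd i (fun y => g (lin_emb z₀ y) (lin_iota j) (lin_iota k)) y
      = PC.wd j (fun y => g (lin_emb z₀ y) (lin_iota i) (lin_iota k)) y
    rw [h1, h2]
    exact hg.closed _ (lin_emb_mem hz₀ y) _ _ _
  · rintro x ⟨γ, hγ, hx⟩ y _ i j
    rcases i with i | i
    · exact i.elim0
    rcases j with j | j
    · exact j.elim0
    have h1 := congrFun (congrFun (hinv γ _ (lin_emb_mem hz₀ y)) (Sum.inr i)) (Sum.inr j)
    rw [lin_fib h hz₀ hγ hx y] at h1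
    have h2 : ∀ l, ((Jac (ρ γ) (lin_emb z₀ y)).transpose * g (lin_emb z₀ (PC.act x y)))
        (Sum.inr i) l = a γ i * g (lin_emb z₀ (PC.act x y)) (Sum.inr i) l := by
      intro l
      rw [Matrix.mul_apply, Finset.sum_eq_single (Sum.inr i)]
      · rw [Matrix.transpose_apply, lin_jac hD h γ (lin_emb_mem hz₀ y), if_pos rfl]
      · intro k _ hk
        rw [Matrix.transpose_apply, lin_jac hD h γ (lin_emb_mem hz₀ y), if_neg hk, zero_mul]
      · intro hk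
        exact absurd (Finset.mem_univ _) hk
    rw [Matrix.mul_apply, Finset.sum_eq_single (Sum.inr j)] at h1
    · rw [h2, Matrix.map_apply, lin_jac hD h γ (lin_emb_mem hz₀ y), if_pos rfl] at h1
      show g (lin_emb z₀ (PC.act x y)) (Sum.inr i) (Sum.inr j) * PC.lin (x.2 i)
        * star (PC.lin (x.2 j)) = g (lin_emb z₀ y) (Sum.inr i) (Sum.inr j)
      rw [lin_lin (hx i), lin_lin (hx j), ← h1]
      ring
    · intro k _ hk
      rw [Matrix.map_apply, lin_jac hD h γ (lin_emb_mem hz₀ y), if_neg hk, star_zero, mul_zero]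
    · intro hk
      exact absurd (Finset.mem_univ _) hk

end Main

open scoped Classical in
/-- the library `PC` for the kernel -/
theorem lin_pc {Λ : Subgroup (PC.Grp (Fin 0) B)} (hpd : PC.ProperlyDiscontinuous Λ)
    (hcc : PC.Cocompact Λ) (hk : ∀ inst : DecidableEq (Fin 0 ⊕ B),
      ∃ g, @PC.IsKahler (Fin 0) B _ _ inst Λ g) :
    PC.Good Λ (fun _ => False) ∧ PC.Uni Λ := by
  obtain ⟨g, hg⟩ := hk (fun a b => @instDecidableEqSum (Fin 0) B
    (fun a b => Classical.propDecidable (a = b)) (fun a b => Classical.propDecidable (a = b)) a b)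
  exact ⟨PC.good hpd hcc fun k => PC.uni_of_kahler (PC.kahler_cj hg k), PC.uni_of_kahler hg⟩

theorem lin_part {D : Set (A → ℂ)} (hD : IsOpen D) (hne : D.Nonempty)
    {ρ : Γ → (A ⊕ B → ℂ) → (A ⊕ B → ℂ)} {σ : Γ → (A → ℂ) → (A → ℂ)} {a b : Γ → B → ℂ}
    (h : SplitAct D ρ σ a b) (ha : ∀ γ δ j, a (γ * δ) j = a γ j * a δ j)
    (ha0 : ∀ γ j, a γ j ≠ 0) (hpd : PD (Tot D B) ρ) (hcc : CC (Tot D B) ρ)
    {g : (A ⊕ B → ℂ) → Matrix (A ⊕ B) (A ⊕ B) ℂ} (hg : Kahler (Tot D B) g)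
    (hinv : InvForm (Tot D B) ρ g)
    (hdisc : ∀ K ⊆ D, IsCompact K → ∃ T : Finset Γ, ∀ γ, (∃ z ∈ K, σ γ z ∈ K) →
      ∃ t ∈ T, ∀ z ∈ D, σ γ z = σ t z) :
    (∃ m : ℕ, 0 < m ∧ ∀ γ, Triv D σ γ → ∀ j, a γ j ^ m = 1) ∧ ∀ γ, ‖∏ j, a γ j‖ = 1 := by
  obtain ⟨z₀, hz₀⟩ := id hne
  obtain ⟨X, hX⟩ := lin_X (b := b) ha0
  obtain ⟨hG, hU⟩ := lin_pc (lin_pd hD hne h ha ha0 hpd) (lin_cc hD hne h ha ha0 hcc hdisc)
    fun inst => ⟨_, @lin_kahler _ _ _ _ _ _ _ _ _ hD hne _ _ _ _ h ha ha0 inst _ hz₀ _ hg hinv⟩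
  refine ⟨?_, fun γ => ?_⟩
  · obtain ⟨-, m, hm, hm'⟩ := PC.lin_pow hG hU
    refine ⟨m, hm, fun γ hγ j => ?_⟩
    have h1 := hm' (X γ) ⟨γ, hγ, hX γ⟩ j
    rw [lin_lin (hX γ j)] at h1
    exact h1
  · -- the lattice
    let e : PC.Pt (Fin 0) B →ₗ[ℝ] (B → ℂ) :=
      { toFun := fun t j => t (Sum.inr j)
        map_add' := fun _ _ => rfl
        map_smul' := fun _ _ => rfl }
    have hsurj : Function.Surjective e := fun v => ⟨Sum.elim (fun i => i.elim0) v, rfl⟩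
    have hnorm : ∀ t, ‖t‖ ≤ ‖e t‖ := by
      intro t
      refine (pi_norm_le_iff_of_nonneg (norm_nonneg _)).2 ?_
      rintro (i | j)
      · exact i.elim0
      · exact norm_le_pi_norm (e t) j
    let L : AddSubgroup (B → ℂ) := (PC.LL hG).map e.toAddMonoidHom
    have hLfin : ∀ r : ℝ, {x : B → ℂ | x ∈ L ∧ ‖x‖ ≤ r}.Finite := by
      intro r
      refine ((PC.LL_finite hG r).image e).subset ?_
      rintro _ ⟨⟨t, ht, rfl⟩, hr⟩
      exact ⟨t, ⟨ht, (hnorm t).trans hr⟩, rfl⟩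
    have hspan : Submodule.span ℝ (L : Set (B → ℂ)) = ⊤ := by
      have e1 : (L : Set (B → ℂ)) = e '' (PC.LL hG : Set (PC.Pt (Fin 0) B)) := rfl
      rw [e1, ← Submodule.map_span]
      refine eq_top_iff.2 fun v _ => ?_
      obtain ⟨t, rfl⟩ := hsurj v
      exact ⟨t, PC.VV_eq_TT hG hU (fun i => i.elim0), rfl⟩
    have hstab : ∀ γ : Γ, ∀ x ∈ L, a γ * x ∈ L := by
      rintro γ _ ⟨t, ⟨lam, hlam, hlam1, rfl⟩, rfl⟩
      obtain ⟨δ, hδ, hlamδ⟩ := PC.ker_le hlam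
      have hδ1 : ∀ j, a δ j = 1 := fun j => by
        have h1 := congrFun hlam1 (Sum.inr j)
        have h2 : PC.dd (fun _ => False) lam (Sum.inr j) = PC.lin (lam.2 j) := rfl
        rw [h2, lin_lin (hlamδ j)] at h1
        exact h1
      have hδb : ∀ j, e (PC.tt (fun _ => False) lam) j = b δ j := fun j => by
        have h2 : e (PC.tt (fun _ => False) lam) j = lam.2 j 0 := rfl
        rw [h2, hlamδ j, mul_zero, zero_add]
      have hT : Triv D σ (γ * δ * γ⁻¹) := by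
        intro z hz
        rw [h.base.mul _ _ z hz, h.base.mul _ _ _ (h.base.maps _ _ hz),
          hδ _ (h.base.maps _ _ hz), h.base.act_inv γ hz]
      have ha1 : ∀ j, a (γ * δ * γ⁻¹) j = 1 := fun j => by
        rw [ha, ha, hδ1, mul_one, lin_ainv ha ha0]
      have hb1 : ∀ j, b (γ * δ * γ⁻¹) j = a γ j * b δ j := fun j => by
        rw [lin_bmul hne h, lin_bmul hne h, ha, hδ1, mul_one]
        linear_combination lin_binv hne h γ j
      have hmem : X (γ * δ * γ⁻¹) ∈ lin_Lam hne h ha ha0 := ⟨_, hT, hX _⟩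
      refine ⟨PC.tt (fun _ => False) (X (γ * δ * γ⁻¹)), ⟨X (γ * δ * γ⁻¹), ?_, ?_, rfl⟩, ?_⟩
      · refine Subgroup.mem_inf.2 ⟨hmem, ?_⟩
        rw [MonoidHom.mem_ker]
        funext i
        exact i.1.elim0
      · funext k
        rcases k with i | j
        · exact i.elim0
        · show PC.lin ((X (γ * δ * γ⁻¹)).2 j) = 1
          rw [lin_lin (hX _ j), ha1]
      · funext j
        show (X (γ * δ * γ⁻¹)).2 j 0 = a γ j * e (PC.tt (fun _ => False) lam) j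
        rw [hX, mul_zero, zero_add, hb1, hδb]
    refine norm_prod_eq_one L hLfin hspan (hstab γ) fun x hx => ⟨a γ⁻¹ * x, hstab γ⁻¹ x hx, ?_⟩
    funext j
    show a γ j * (a γ⁻¹ j * x j) = x j
    rw [← mul_assoc, lin_ainv ha ha0, one_mul]

end Pool.Agent.H906.BD
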