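import Pool.Agent.H906.BD.Setup

/-! # T17 Nonv: Poincaré series with a unitary character which do not vanish at a given point

`D ⊆ ℂ^A` bounded domain, `Γ` acting with `hdisc`, `χ` a unitary character of `Γ` whose `m`-th
power is trivial on the kernel of the action. `hsum` is the summability statement proved in task
T16, `hjac` the holomorphy of the Jacobian determinant (also T16).

The series is `P(z) = ∑_q P₀(σ_q z) (J_q(z) χ(q))^l`, over the classes `q` of elements of `Γ` with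
the same action on `D`, where `P₀` is a polynomial and `l = 2 m N (n + 1)`, `N` annihilating the
stabiliser of `z₀`. Divided by the term of a class `q₀` with `|J_q(z₀)|` maximal, the series at `z₀`
converges, for `n → ∞`, to the number of the `q` with `|J_q(z₀)|` maximal and `σ_q z₀ = σ_{q₀} z₀`
(dominated convergence), when `P₀ (σ_{q₀} z₀) = 1` and `P₀ = 0` at the other points `σ_q z₀` with
`|J_q(z₀)|` maximal. -/

open Filter Topology Set Metric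

namespace Pool.Agent.H906.BD

universe u

variable {A : Type*} [Fintype A] [DecidableEq A] {Γ : Type u} [Group Γ]

/-- the determinant of the Jacobian matrix as the determinant of the derivative -/
theorem nonv_det (f : (A → ℂ) → (A → ℂ)) (x : A → ℂ) :
    (Jac f x).det = LinearMap.det (fderiv ℂ f x : (A → ℂ) →ₗ[ℂ] (A → ℂ)) := by
  rw [← LinearMap.det_toMatrix']
  congr 1

theorem nonv_congr {D : Set (A → ℂ)} (hD : IsOpen D) {f g : (A → ℂ) → (A → ℂ)}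
    (h : ∀ z ∈ D, f z = g z) {z : A → ℂ} (hz : z ∈ D) : (Jac f z).det = (Jac g z).det := by
  have h1 : f =ᶠ[𝓝 z] g := by
    filter_upwards [hD.mem_nhds hz] with w hw using h w hw
  rw [nonv_det, nonv_det, h1.fderiv_eq]

theorem nonv_id (x : A → ℂ) : (Jac (fun z : A → ℂ => z) x).det = 1 := by
  rw [nonv_det, fderiv_fun_id]
  exact LinearMap.det_id

theorem nonv_chain {D : Set (A → ℂ)} (hD : IsOpen D) {σ : Γ → (A → ℂ) → (A → ℂ)}
    (hσ : HolAct D σ) (γ δ : Γ) {z : A → ℂ} (hz : z ∈ D) :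
    (Jac (σ (γ * δ)) z).det = (Jac (σ γ) (σ δ z)).det * (Jac (σ δ) z).det := by
  rw [nonv_congr hD (g := fun w => σ γ (σ δ w)) (fun w hw => hσ.mul γ δ w hw) hz]
  rw [nonv_det, nonv_det, nonv_det]
  have h1 : DifferentiableAt ℂ (σ δ) z := (hσ.hol δ).differentiableAt (hD.mem_nhds hz)
  have h2 : DifferentiableAt ℂ (σ γ) (σ δ z) :=
    (hσ.hol γ).differentiableAt (hD.mem_nhds (hσ.maps δ z hz))
  rw [show (fun w => σ γ (σ δ w)) = σ γ ∘ σ δ from rfl, fderiv_comp z h2 h1, ← LinearMap.det_comp]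
  rfl

theorem nonv_one {D : Set (A → ℂ)} (hD : IsOpen D) {σ : Γ → (A → ℂ) → (A → ℂ)}
    (hσ : HolAct D σ) {z : A → ℂ} (hz : z ∈ D) : (Jac (σ 1) z).det = 1 := by
  rw [nonv_congr hD (g := fun w => w) (fun w hw => hσ.one w hw) hz, nonv_id]

theorem nonv_ne {D : Set (A → ℂ)} (hD : IsOpen D) {σ : Γ → (A → ℂ) → (A → ℂ)}
    (hσ : HolAct D σ) (γ : Γ) {z : A → ℂ} (hz : z ∈ D) : (Jac (σ γ) z).det ≠ 0 := by
  intro h
  have h1 := nonv_chain hD hσ γ⁻¹ γ hz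
  rw [inv_mul_cancel, nonv_one hD hσ hz, h, mul_zero] at h1
  exact one_ne_zero h1

omit [DecidableEq A] in
theorem nonv_triv_pow {D : Set (A → ℂ)} {σ : Γ → (A → ℂ) → (A → ℂ)} (hσ : HolAct D σ) {γ : Γ}
    (h : Triv D σ γ) (k : ℕ) : Triv D σ (γ ^ k) := by
  induction k with
  | zero =>
    intro z hz
    rw [pow_zero]
    exact hσ.one z hz
  | succ k ih =>
    intro z hz
    rw [hσ.pow_succ_apply γ k hz, h z hz]
    exact ih z hz

omit [DecidableEq A] in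
/-- a number which annihilates the stabiliser of `z₀` modulo the kernel of the action -/
theorem nonv_stab {D : Set (A → ℂ)} {σ : Γ → (A → ℂ) → (A → ℂ)} (hσ : HolAct D σ)
    (hdisc : ∀ K ⊆ D, IsCompact K → ∃ T : Finset Γ, ∀ γ, (∃ z ∈ K, σ γ z ∈ K) →
      ∃ t ∈ T, ∀ z ∈ D, σ γ z = σ t z) {z₀ : A → ℂ} (hz₀ : z₀ ∈ D) :
    ∃ N, 0 < N ∧ ∀ γ, σ γ z₀ = z₀ → Triv D σ (γ ^ N) := by
  obtain ⟨T, hT⟩ := hdisc {z₀} (singleton_subset_iff.2 hz₀) isCompact_singleton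
  refine ⟨T.card.factorial, Nat.factorial_pos _, fun γ hγ => ?_⟩
  have hpow : ∀ i : ℕ, σ (γ ^ i) z₀ = z₀ := by
    intro i
    induction i with
    | zero =>
      rw [pow_zero]
      exact hσ.one z₀ hz₀
    | succ i ih => rw [hσ.pow_succ_apply γ i hz₀, hγ, ih]
  have h1 : ∀ i : ℕ, ∃ t ∈ T, ∀ z ∈ D, σ (γ ^ i) z = σ t z := fun i =>
    hT _ ⟨z₀, rfl, by rw [hpow i]; rfl⟩
  choose t htT ht using h1
  have key : ∀ i j, i < j → j < T.card + 1 → t i = t j → Triv D σ (γ ^ T.card.factorial) := by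
    intro i j hlt hj hijt
    have h2 : Triv D σ (γ ^ (j - i)) := by
      intro z hz
      have h3 : σ (γ ^ j) z = σ (γ ^ i) z := by rw [ht j z hz, ht i z hz, hijt]
      have h4 : γ ^ j = γ ^ i * γ ^ (j - i) := by
        rw [← pow_add]
        congr 1
        omega
      rw [h4, hσ.mul _ _ z hz] at h3
      have h5 := congrArg (σ (γ ^ i)⁻¹) h3
      rw [hσ.inv_act _ (hσ.maps _ z hz), hσ.inv_act _ hz] at h5
      exact h5
    obtain ⟨k, hk⟩ := Nat.dvd_factorial (show 0 < j - i by omega) (show j - i ≤ T.card by omega)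
    rw [hk, pow_mul]
    exact nonv_triv_pow hσ h2 k
  obtain ⟨i, hi, j, hj, hij, hijt⟩ := Finset.exists_ne_map_eq_of_card_lt_of_maps_to
    (s := Finset.range (T.card + 1)) (t := T) (by rw [Finset.card_range]; exact Nat.lt_succ_self _)
    (f := t) (fun i _ => htT i)
  rcases lt_or_gt_of_ne hij with h | h
  · exact key i j h (Finset.mem_range.1 hj) hijt
  · exact key j i h (Finset.mem_range.1 hi) hijt.symm

/-- the automorphy factor -/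
noncomputable def nonv_c (σ : Γ → (A → ℂ) → (A → ℂ)) (χ : Γ → ℂ) (γ : Γ) (z : A → ℂ) : ℂ :=
  (Jac (σ γ) z).det * χ γ

section factor

variable {D : Set (A → ℂ)} {σ : Γ → (A → ℂ) → (A → ℂ)} {χ : Γ → ℂ} {m : ℕ}

theorem nonv_c_mul (hD : IsOpen D) (hσ : HolAct D σ) (hχ2 : ∀ γ δ, χ (γ * δ) = χ γ * χ δ)
    (γ δ : Γ) {z : A → ℂ} (hz : z ∈ D) :
    nonv_c σ χ (γ * δ) z = nonv_c σ χ γ (σ δ z) * nonv_c σ χ δ z := by
  unfold nonv_c
  rw [nonv_chain hD hσ γ δ hz, hχ2]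
  ring

omit [Group Γ] in
theorem nonv_c_norm (hχ1 : ∀ γ, ‖χ γ‖ = 1) (γ : Γ) (z : A → ℂ) :
    ‖nonv_c σ χ γ z‖ = ‖(Jac (σ γ) z).det‖ := by
  unfold nonv_c
  rw [norm_mul, hχ1, mul_one]

theorem nonv_c_ne (hD : IsOpen D) (hσ : HolAct D σ) (hχ1 : ∀ γ, ‖χ γ‖ = 1) (γ : Γ) {z : A → ℂ}
    (hz : z ∈ D) : nonv_c σ χ γ z ≠ 0 := by
  rw [← norm_ne_zero_iff, nonv_c_norm hχ1]
  exact norm_ne_zero_iff.2 (nonv_ne hD hσ γ hz)

theorem nonv_c_congr (hD : IsOpen D) (hσ : HolAct D σ) (hχ2 : ∀ γ δ, χ (γ * δ) = χ γ * χ δ)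
    (hχ3 : ∀ γ, Triv D σ γ → χ γ ^ m = 1) {l : ℕ} (hl : m ∣ l) {γ δ : Γ}
    (h : ∀ z ∈ D, σ γ z = σ δ z) {z : A → ℂ} (hz : z ∈ D) :
    nonv_c σ χ γ z ^ l = nonv_c σ χ δ z ^ l := by
  have hτ : Triv D σ (δ⁻¹ * γ) := by
    intro w hw
    rw [hσ.mul _ _ w hw, h w hw, hσ.inv_act δ hw]
  have h1 : γ = δ * (δ⁻¹ * γ) := by group
  have h2 : nonv_c σ χ γ z = nonv_c σ χ δ z * nonv_c σ χ (δ⁻¹ * γ) z := by
    conv_lhs => rw [h1]
    rw [nonv_c_mul hD hσ hχ2 _ _ hz, hτ z hz]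
  have h3 : nonv_c σ χ (δ⁻¹ * γ) z = χ (δ⁻¹ * γ) := by
    unfold nonv_c
    rw [nonv_congr hD (g := fun w => w) hτ hz, nonv_id, one_mul]
  obtain ⟨k, rfl⟩ := hl
  rw [h2, mul_pow, h3, pow_mul (χ (δ⁻¹ * γ)), hχ3 _ hτ, one_pow, mul_one]

theorem nonv_c_one (hD : IsOpen D) (hσ : HolAct D σ) (hχ1 : ∀ γ, ‖χ γ‖ = 1)
    (hχ2 : ∀ γ δ, χ (γ * δ) = χ γ * χ δ) {z : A → ℂ} (hz : z ∈ D) : nonv_c σ χ 1 z = 1 := by
  have h1 : χ 1 = χ 1 * χ 1 := by rw [← hχ2, mul_one]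
  have h2 : χ 1 ≠ 0 := by
    rw [← norm_ne_zero_iff, hχ1]
    exact one_ne_zero
  have h3 : χ 1 = 1 := by
    have h4 : χ 1 * 1 = χ 1 * χ 1 := by rw [mul_one]; exact h1
    exact (mul_left_cancel₀ h2 h4).symm
  unfold nonv_c
  rw [nonv_one hD hσ hz, h3, mul_one]

theorem nonv_c_pow (hD : IsOpen D) (hσ : HolAct D σ) (hχ1 : ∀ γ, ‖χ γ‖ = 1)
    (hχ2 : ∀ γ δ, χ (γ * δ) = χ γ * χ δ) {z : A → ℂ} (hz : z ∈ D) {γ : Γ} (hγ : σ γ z = z)
    (n : ℕ) : nonv_c σ χ (γ ^ n) z = nonv_c σ χ γ z ^ n := by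
  induction n with
  | zero => rw [pow_zero, pow_zero, nonv_c_one hD hσ hχ1 hχ2 hz]
  | succ n ih => rw [pow_succ, pow_succ, nonv_c_mul hD hσ hχ2 _ _ hz, hγ, ih]

/-- on the stabiliser the factor is a root of unity -/
theorem nonv_root (hD : IsOpen D) (hσ : HolAct D σ) (hχ1 : ∀ γ, ‖χ γ‖ = 1)
    (hχ2 : ∀ γ δ, χ (γ * δ) = χ γ * χ δ) (hχ3 : ∀ γ, Triv D σ γ → χ γ ^ m = 1) {z : A → ℂ}
    (hz : z ∈ D) {N : ℕ} {γ : Γ} (hγ : σ γ z = z) (hN : Triv D σ (γ ^ N)) :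
    nonv_c σ χ γ z ^ (2 * m * N) = 1 := by
  have h1 : nonv_c σ χ (γ ^ N) z ^ (2 * m) = nonv_c σ χ 1 z ^ (2 * m) :=
    nonv_c_congr hD hσ hχ2 hχ3 (Dvd.intro_left 2 rfl)
      (fun w hw => by rw [hN w hw, hσ.one w hw]) hz
  rw [nonv_c_one hD hσ hχ1 hχ2 hz, one_pow, nonv_c_pow hD hσ hχ1 hχ2 hz hγ, ← pow_mul] at h1
  rw [mul_comm]
  exact h1

end factor

omit [DecidableEq A] in
/-- a polynomial with value `1` at `y₀` and `0` at finitely many other points -/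
theorem nonv_poly (y₀ : A → ℂ) (Y : Finset (A → ℂ)) (hY : y₀ ∉ Y) :
    ∃ P₀ : (A → ℂ) → ℂ, Differentiable ℂ P₀ ∧ P₀ y₀ = 1 ∧ ∀ y ∈ Y, P₀ y = 0 := by
  classical
  induction Y using Finset.induction_on with
  | empty =>
    exact ⟨fun _ => 1, differentiable_const _, rfl, fun y hy => absurd hy (Finset.notMem_empty y)⟩
  | insert y Y hy ih =>
    rw [Finset.mem_insert, not_or] at hY
    obtain ⟨P, h1, h2, h3⟩ := ih hY.2
    obtain ⟨i, hi⟩ := Function.ne_iff.1 hY.1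
    have hi' : y₀ i - y i ≠ 0 := sub_ne_zero.2 hi
    refine ⟨fun z => (z i - y i) / (y₀ i - y i) * P z, ?_, ?_, ?_⟩
    · have h4 : Differentiable ℂ (fun z : A → ℂ => (z i - y i) / (y₀ i - y i)) := by
        fun_prop
      exact h4.mul h1
    · show (y₀ i - y i) / (y₀ i - y i) * P y₀ = 1
      rw [h2, mul_one, div_self hi']
    · intro w hw
      show (w i - y i) / (y₀ i - y i) * P w = 0
      rcases Finset.mem_insert.1 hw with rfl | hw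
      · rw [sub_self, zero_div, zero_mul]
      · rw [h3 w hw, mul_zero]

omit [DecidableEq A] in
/-- a locally normally convergent series of holomorphic functions -/
theorem nonv_series {D : Set (A → ℂ)} (hD : IsOpen D) {Q : Type u} (t : Q → (A → ℂ) → ℂ)
    (ht : ∀ q, DifferentiableOn ℂ (t q) D)
    (hb : ∀ K ⊆ D, IsCompact K → ∃ v : Q → ℝ, Summable v ∧ ∀ q, ∀ z ∈ K, ‖t q z‖ ≤ v q) :
    DifferentiableOn ℂ (fun z => ∑' q, t q z) D := by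
  have h : LU (fun (F : Finset Q) z => ∑ q ∈ F, t q z) (fun z => ∑' q, t q z) atTop D := by
    intro x hx
    obtain ⟨r, hr, hrD⟩ := Metric.nhds_basis_closedBall.mem_iff.1 (hD.mem_nhds hx)
    obtain ⟨v, hv, hvb⟩ := hb _ hrD (isCompact_closedBall x r)
    refine ⟨r, hr, ball_subset_closedBall.trans hrD, fun ε hε => ?_⟩
    have h1 := tendstoUniformlyOn_tsum hv (f := t) (s := closedBall x r)
      (fun q z hz => hvb q z hz)
    rw [Metric.tendstoUniformlyOn_iff] at h1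
    filter_upwards [h1 ε hε] with F hF z hz
    have h2 := hF z (ball_subset_closedBall hz)
    rwa [dist_comm, dist_eq_norm] at h2
  exact (LU.limit (fun F => DifferentiableOn.fun_sum fun q _ => ht q) h).1

/-- the Poincaré series of a bounded holomorphic function -/
theorem nonv_form {D : Set (A → ℂ)} (hD : IsOpen D)
    {σ : Γ → (A → ℂ) → (A → ℂ)} (hσ : HolAct D σ)
    (hjac : ∀ γ, DifferentiableOn ℂ (fun z => (Jac (σ γ) z).det) D)
    {Q : Type u} (s : Q → Γ) (p : Γ → Q)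
    (hs : ∀ q q', (∀ z ∈ D, σ (s q) z = σ (s q') z) → q = q')
    (hp : ∀ γ, ∀ z ∈ D, σ (s (p γ)) z = σ γ z)
    (hsum : ∀ K ⊆ D, IsCompact K →
        ∃ M : Q → ℝ, Summable M ∧ ∀ q, ∀ z ∈ K, ‖(Jac (σ (s q)) z).det‖ ^ 2 ≤ M q)
    {χ : Γ → ℂ} (hχ1 : ∀ γ, ‖χ γ‖ = 1) (hχ2 : ∀ γ δ, χ (γ * δ) = χ γ * χ δ) {m : ℕ}
    (hχ3 : ∀ γ, Triv D σ γ → χ γ ^ m = 1) {j l : ℕ} (hl : l = 2 * (j + 1)) (hml : m ∣ l)
    {P₀ : (A → ℂ) → ℂ} (hP₀ : Differentiable ℂ P₀) {C : ℝ} (hC : ∀ z ∈ D, ‖P₀ z‖ ≤ C) :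
    DifferentiableOn ℂ (fun z => ∑' q, P₀ (σ (s q) z) * nonv_c σ χ (s q) z ^ l) D ∧
    ∀ γ, ∀ z ∈ D, (∑' q, P₀ (σ (s q) (σ γ z)) * nonv_c σ χ (s q) (σ γ z) ^ l) *
      nonv_c σ χ γ z ^ l = ∑' q, P₀ (σ (s q) z) * nonv_c σ χ (s q) z ^ l := by
  constructor
  · refine nonv_series hD _ (fun q => ?_) (fun K hK hKc => ?_)
    · refine DifferentiableOn.mul ?_ ?_
      · exact (hP₀.differentiableOn (s := univ)).comp (hσ.hol (s q)) (fun z _ => mem_univ _)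
      · refine DifferentiableOn.pow ?_ l
        unfold nonv_c
        exact (hjac (s q)).mul_const _
    · obtain ⟨M, hM, hMb⟩ := hsum K hK hKc
      have hMa : Summable fun q => |M q| := hM.abs
      refine ⟨fun q => C * (|M q| * (∑' q, |M q|) ^ j), (hMa.mul_right _).mul_left _, ?_⟩
      intro q z hz
      have hzD := hK hz
      have h1 := hC _ (hσ.maps (s q) z hzD)
      have h0 : 0 ≤ C := (norm_nonneg _).trans h1
      have h2 : ‖(Jac (σ (s q)) z).det‖ ^ 2 ≤ |M q| := (hMb q z hz).trans (le_abs_self _)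
      have h3 : |M q| ≤ ∑' q, |M q| := hMa.le_tsum q (fun _ _ => abs_nonneg _)
      rw [norm_mul, norm_pow, nonv_c_norm hχ1, hl, pow_mul, pow_succ']
      have h4 : (‖(Jac (σ (s q)) z).det‖ ^ 2) ^ j ≤ (∑' q, |M q|) ^ j :=
        pow_le_pow_left₀ (by positivity) (h2.trans h3) j
      have h5 : ‖(Jac (σ (s q)) z).det‖ ^ 2 * (‖(Jac (σ (s q)) z).det‖ ^ 2) ^ j ≤
          |M q| * (∑' q, |M q|) ^ j :=
        mul_le_mul h2 h4 (by positivity) (abs_nonneg _)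
      exact mul_le_mul h1 h5 (by positivity) h0
  · intro γ z hz
    have hinv : ∀ δ : Γ, ∀ q, p (s (p (s q * δ)) * δ⁻¹) = q := by
      intro δ q
      refine hs _ _ fun w hw => ?_
      have hw' := hσ.maps δ⁻¹ w hw
      rw [hp _ w hw, hσ.mul _ _ w hw, hp _ _ hw', hσ.mul _ _ _ hw', hσ.act_inv δ hw]
    let e : Q ≃ Q :=
      { toFun := fun q => p (s q * γ)
        invFun := fun q => p (s q * γ⁻¹)
        left_inv := fun q => hinv γ q
        right_inv := fun q => by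
          have h := hinv γ⁻¹ q
          rwa [inv_inv] at h }
    rw [← tsum_mul_right, ← e.tsum_eq (fun q => P₀ (σ (s q) z) * nonv_c σ χ (s q) z ^ l)]
    refine tsum_congr fun q => ?_
    show P₀ (σ (s q) (σ γ z)) * nonv_c σ χ (s q) (σ γ z) ^ l * nonv_c σ χ γ z ^ l =
      P₀ (σ (s (p (s q * γ))) z) * nonv_c σ χ (s (p (s q * γ))) z ^ l
    rw [hp _ z hz, nonv_c_congr hD hσ hχ2 hχ3 hml (hp (s q * γ)) hz,
      nonv_c_mul hD hσ hχ2 _ _ hz, hσ.mul _ _ z hz, mul_pow, mul_assoc]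

/-- the main step, with a transversal of the kernel of the action -/
theorem nonv_main {D : Set (A → ℂ)} (hD : IsOpen D) {R : ℝ} (hR : ∀ z ∈ D, ‖z‖ ≤ R)
    {σ : Γ → (A → ℂ) → (A → ℂ)} (hσ : HolAct D σ)
    (hdisc : ∀ K ⊆ D, IsCompact K → ∃ T : Finset Γ, ∀ γ, (∃ z ∈ K, σ γ z ∈ K) →
      ∃ t ∈ T, ∀ z ∈ D, σ γ z = σ t z)
    (hjac : ∀ γ, DifferentiableOn ℂ (fun z => (Jac (σ γ) z).det) D)
    {Q : Type u} (s : Q → Γ) (p : Γ → Q)
    (hs : ∀ q q', (∀ z ∈ D, σ (s q) z = σ (s q') z) → q = q')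
    (hp : ∀ γ, ∀ z ∈ D, σ (s (p γ)) z = σ γ z)
    (hsum : ∀ K ⊆ D, IsCompact K →
        ∃ M : Q → ℝ, Summable M ∧ ∀ q, ∀ z ∈ K, ‖(Jac (σ (s q)) z).det‖ ^ 2 ≤ M q)
    {χ : Γ → ℂ} (hχ1 : ∀ γ, ‖χ γ‖ = 1) (hχ2 : ∀ γ δ, χ (γ * δ) = χ γ * χ δ) {m : ℕ} (hm : 0 < m)
    (hχ3 : ∀ γ, Triv D σ γ → χ γ ^ m = 1) {z₀ : A → ℂ} (hz₀ : z₀ ∈ D) :
    ∃ l, 0 < l ∧ m ∣ l ∧ ∃ P : (A → ℂ) → ℂ, DifferentiableOn ℂ P D ∧
      (∀ γ, ∀ z ∈ D, P (σ γ z) * ((Jac (σ γ) z).det * χ γ) ^ l = P z) ∧ P z₀ ≠ 0 := by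
  classical
  obtain ⟨N, hN0, hN⟩ := nonv_stab hσ hdisc hz₀
  -- the numbers `f q = |J_q(z₀)|`
  obtain ⟨f, hf⟩ : ∃ f : Q → ℝ, f = fun q => ‖(Jac (σ (s q)) z₀).det‖ := ⟨_, rfl⟩
  have hfq : ∀ q, ‖nonv_c σ χ (s q) z₀‖ = f q := fun q => by rw [nonv_c_norm hχ1, hf]
  have hfpos : ∀ q, 0 < f q := fun q => by
    rw [hf]
    exact norm_pos_iff.2 (nonv_ne hD hσ (s q) hz₀)
  have hf2 : Summable fun q => f q ^ 2 := by
    obtain ⟨M, hM, hMb⟩ := hsum {z₀} (singleton_subset_iff.2 hz₀) isCompact_singleton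
    refine Summable.of_nonneg_of_le (fun q => by positivity) (fun q => ?_) hM
    rw [hf]
    exact hMb q z₀ rfl
  have hfin : ∀ c : ℝ, 0 < c → {q | c ≤ f q}.Finite := by
    intro c hc
    have h1 := hf2.tendsto_cofinite_zero
    have h2 : ∀ᶠ q in cofinite, f q ^ 2 < c ^ 2 := h1.eventually (gt_mem_nhds (by positivity))
    rw [eventually_cofinite] at h2
    refine h2.subset fun q hq => ?_
    rw [Set.mem_ofPred_eq, not_lt]
    exact pow_le_pow_left₀ hc.le hq 2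
  -- the maximum
  have hf1 : f (p 1) = 1 := by
    rw [hf]
    show ‖(Jac (σ (s (p 1))) z₀).det‖ = 1
    rw [nonv_congr hD (hp 1) hz₀, nonv_one hD hσ hz₀, norm_one]
  obtain ⟨q₀, hq₀F, hq₀⟩ := Set.exists_max_image {q | 1 ≤ f q} f (hfin 1 one_pos)
    ⟨p 1, hf1.symm.le⟩
  have hmax : ∀ q, f q ≤ f q₀ := by
    intro q
    by_cases h : 1 ≤ f q
    · exact hq₀ q h
    · exact (not_le.1 h).le.trans hq₀F
  have hμ : 0 < f q₀ := hfpos q₀
  -- the polynomial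
  obtain ⟨y₀, hy₀⟩ : ∃ y₀, y₀ = σ (s q₀) z₀ := ⟨_, rfl⟩
  obtain ⟨P₀, hP1, hP2, hP3⟩ := nonv_poly y₀
    (((hfin (f q₀) hμ).toFinset.image fun q => σ (s q) z₀).erase y₀) (Finset.notMem_erase _ _)
  obtain ⟨C, hC⟩ := (isCompact_closedBall (0 : A → ℂ) R).exists_bound_of_continuousOn
    hP1.continuous.continuousOn
  have hCD : ∀ z ∈ D, ‖P₀ z‖ ≤ C := fun z hz => hC z (mem_closedBall_zero_iff.2 (hR z hz))
  have hC0 : 0 ≤ C := (norm_nonneg _).trans (hCD z₀ hz₀)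
  -- the quotients
  obtain ⟨w, hw⟩ : ∃ w, w = 2 * m * N := ⟨_, rfl⟩
  have hw2 : 2 ≤ w := by
    rw [hw, mul_assoc]
    exact Nat.le_mul_of_pos_right 2 (Nat.mul_pos hm hN0)
  have hc0 : nonv_c σ χ (s q₀) z₀ ≠ 0 := nonv_c_ne hD hσ hχ1 _ hz₀
  obtain ⟨a, ha⟩ : ∃ a : Q → ℂ, a = fun q =>
    nonv_c σ χ (s q) z₀ ^ w / nonv_c σ χ (s q₀) z₀ ^ w := ⟨_, rfl⟩
  have han : ∀ q, ‖a q‖ = (f q / f q₀) ^ w := by
    intro q
    rw [ha]
    show ‖nonv_c σ χ (s q) z₀ ^ w / nonv_c σ χ (s q₀) z₀ ^ w‖ = _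
    rw [norm_div, norm_pow, norm_pow, hfq, hfq, div_pow]
  have hr0 : ∀ q, 0 ≤ f q / f q₀ := fun q => div_nonneg (hfpos q).le hμ.le
  have hr1 : ∀ q, f q / f q₀ ≤ 1 := fun q => (div_le_one hμ).2 (hmax q)
  have han1 : ∀ q, ‖a q‖ ≤ 1 := fun q => by
    rw [han]
    exact pow_le_one₀ (hr0 q) (hr1 q)
  have han2 : ∀ q, ‖a q‖ ≤ (f q / f q₀) ^ 2 := fun q => by
    rw [han]
    exact pow_le_pow_of_le_one (hr0 q) (hr1 q) hw2
  have hsq : Summable fun q => (f q / f q₀) ^ 2 := by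
    have h1 : (fun q => (f q / f q₀) ^ 2) = fun q => f q ^ 2 * ((f q₀ ^ 2)⁻¹) := by
      ext q
      rw [div_pow, div_eq_mul_inv]
    rw [h1]
    exact hf2.mul_right _
  -- the limit
  obtain ⟨g, hg⟩ : ∃ g : Q → ℝ, g = fun q =>
    if f q = f q₀ ∧ σ (s q) z₀ = y₀ then (1 : ℝ) else 0 := ⟨_, rfl⟩
  have hg0 : ∀ q, 0 ≤ g q := by
    intro q
    rw [hg]
    show 0 ≤ if f q = f q₀ ∧ σ (s q) z₀ = y₀ then (1 : ℝ) else 0
    split_ifs
    · exact zero_le_one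
    · exact le_rfl
  have hg1 : ∀ q, g q ≤ (f q / f q₀) ^ 2 := by
    intro q
    rw [hg]
    show (if f q = f q₀ ∧ σ (s q) z₀ = y₀ then (1 : ℝ) else 0) ≤ _
    split_ifs with h
    · rw [h.1, div_self hμ.ne', one_pow]
    · positivity
  have hgs : Summable g := Summable.of_nonneg_of_le hg0 hg1 hsq
  have hgq₀ : g q₀ = 1 := by
    rw [hg]
    show (if f q₀ = f q₀ ∧ σ (s q₀) z₀ = y₀ then (1 : ℝ) else 0) = 1
    rw [if_pos ⟨rfl, hy₀.symm⟩]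
  have hgt : 1 ≤ ∑' q, g q := by
    rw [← hgq₀]
    exact hgs.le_tsum q₀ (fun q _ => hg0 q)
  have hlim : Tendsto (fun n : ℕ => ∑' q, P₀ (σ (s q) z₀) * a q ^ (n + 1)) atTop
      (𝓝 (∑' q, ((g q : ℝ) : ℂ))) := by
    refine tendsto_tsum_of_dominated_convergence (bound := fun q => C * (f q / f q₀) ^ 2)
      (hsq.mul_left C) (fun q => ?_) (Eventually.of_forall fun n q => ?_)
    · by_cases h1 : f q = f q₀
      · by_cases h2 : σ (s q) z₀ = y₀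
        · -- the stabiliser
          have h3 : g q = 1 := by
            rw [hg]
            show (if f q = f q₀ ∧ σ (s q) z₀ = y₀ then (1 : ℝ) else 0) = 1
            rw [if_pos ⟨h1, h2⟩]
          have h4 : σ ((s q₀)⁻¹ * s q) z₀ = z₀ := by
            rw [hσ.mul _ _ _ hz₀, h2, hy₀, hσ.inv_act _ hz₀]
          have h5 : s q = s q₀ * ((s q₀)⁻¹ * s q) := by group
          have h6 : nonv_c σ χ (s q) z₀ =
              nonv_c σ χ (s q₀) z₀ * nonv_c σ χ ((s q₀)⁻¹ * s q) z₀ := by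
            conv_lhs => rw [h5]
            rw [nonv_c_mul hD hσ hχ2 _ _ hz₀, h4]
          have h7 := nonv_root hD hσ hχ1 hχ2 hχ3 hz₀ h4 (hN _ h4)
          have h8 : a q = 1 := by
            rw [ha]
            show nonv_c σ χ (s q) z₀ ^ w / nonv_c σ χ (s q₀) z₀ ^ w = 1
            rw [h6, mul_pow, hw, h7, mul_one, div_self (pow_ne_zero _ hc0)]
          rw [h3, h2, hP2, h8]
          simp only [one_pow, mul_one, Complex.ofReal_one]
          exact tendsto_const_nhds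
        · have h3 : g q = 0 := by
            rw [hg]
            show (if f q = f q₀ ∧ σ (s q) z₀ = y₀ then (1 : ℝ) else 0) = 0
            rw [if_neg fun h => h2 h.2]
          have h4 : P₀ (σ (s q) z₀) = 0 := by
            refine hP3 _ (Finset.mem_erase.2 ⟨h2, Finset.mem_image.2 ⟨q, ?_, rfl⟩⟩)
            rw [Set.Finite.mem_toFinset]
            exact h1.symm.le
          rw [h3, h4]
          simp only [zero_mul, Complex.ofReal_zero]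
          exact tendsto_const_nhds
      · have h2 : f q < f q₀ := lt_of_le_of_ne (hmax q) h1
        have h3 : g q = 0 := by
          rw [hg]
          show (if f q = f q₀ ∧ σ (s q) z₀ = y₀ then (1 : ℝ) else 0) = 0
          rw [if_neg fun h => h1 h.1]
        have h4 : ‖a q‖ < 1 := by
          rw [han]
          exact pow_lt_one₀ (hr0 q) ((div_lt_one hμ).2 h2) (by omega)
        have h5 : Tendsto (fun n : ℕ => a q ^ (n + 1)) atTop (𝓝 0) :=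
          (tendsto_pow_atTop_nhds_zero_of_norm_lt_one h4).comp (tendsto_add_atTop_nat 1)
        have h6 := h5.const_mul (P₀ (σ (s q) z₀))
        rw [mul_zero] at h6
        rw [h3, Complex.ofReal_zero]
        exact h6
    · rw [norm_mul, norm_pow]
      have h1 : ‖a q‖ ^ (n + 1) ≤ ‖a q‖ := by
        have h2 := pow_le_pow_of_le_one (norm_nonneg (a q)) (han1 q) (show 1 ≤ n + 1 by omega)
        rwa [pow_one] at h2
      exact mul_le_mul (hCD _ (hσ.maps _ _ hz₀)) (h1.trans (han2 q)) (by positivity) hC0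
  have hne : (∑' q, ((g q : ℝ) : ℂ)) ≠ 0 := by
    rw [← Complex.ofReal_tsum]
    exact Complex.ofReal_ne_zero.2 (by linarith)
  obtain ⟨n, hn⟩ := (hlim.eventually_ne hne).exists
  -- conclusion
  have hl : w * (n + 1) = 2 * ((m * N * (n + 1) - 1) + 1) := by
    have h1 : 0 < m * N * (n + 1) := by positivity
    rw [Nat.sub_add_cancel h1, hw]
    ring
  have hml : m ∣ w * (n + 1) := ⟨2 * N * (n + 1), by rw [hw]; ring⟩
  obtain ⟨h1, h2⟩ := nonv_form hD hσ hjac s p hs hp hsum hχ1 hχ2 hχ3 hl hml hP1 hCD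
  refine ⟨w * (n + 1), Nat.mul_pos (by omega) (Nat.succ_pos n), hml, _, h1, h2, ?_⟩
  show (∑' q, P₀ (σ (s q) z₀) * nonv_c σ χ (s q) z₀ ^ (w * (n + 1))) ≠ 0
  have h3 : (∑' q, P₀ (σ (s q) z₀) * nonv_c σ χ (s q) z₀ ^ (w * (n + 1))) =
      nonv_c σ χ (s q₀) z₀ ^ (w * (n + 1)) * ∑' q, P₀ (σ (s q) z₀) * a q ^ (n + 1) := by
    rw [← tsum_mul_left]
    refine tsum_congr fun q => ?_
    have h4 : nonv_c σ χ (s q₀) z₀ ^ (w * (n + 1)) * a q ^ (n + 1) =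
        nonv_c σ χ (s q) z₀ ^ (w * (n + 1)) := by
      rw [ha]
      show nonv_c σ χ (s q₀) z₀ ^ (w * (n + 1)) *
        (nonv_c σ χ (s q) z₀ ^ w / nonv_c σ χ (s q₀) z₀ ^ w) ^ (n + 1) = _
      rw [pow_mul, pow_mul, ← mul_pow, mul_div_cancel₀ _ (pow_ne_zero _ hc0)]
    rw [← h4]
    ring
  rw [h3]
  exact mul_ne_zero (pow_ne_zero _ hc0) hn

theorem poincare {D : Set (A → ℂ)} (hD : IsOpen D) {R : ℝ} (hR : ∀ z ∈ D, ‖z‖ ≤ R)
    {σ : Γ → (A → ℂ) → (A → ℂ)} (hσ : HolAct D σ)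
    (hdisc : ∀ K ⊆ D, IsCompact K → ∃ T : Finset Γ, ∀ γ, (∃ z ∈ K, σ γ z ∈ K) →
      ∃ t ∈ T, ∀ z ∈ D, σ γ z = σ t z)
    (hjac : ∀ γ, DifferentiableOn ℂ (fun z => (Jac (σ γ) z).det) D)
    (hsum : ∀ {Q : Type u} (s : Q → Γ), (∀ q q', (∀ z ∈ D, σ (s q) z = σ (s q') z) → q = q') →
      ∀ K ⊆ D, IsCompact K →
        ∃ M : Q → ℝ, Summable M ∧ ∀ q, ∀ z ∈ K, ‖(Jac (σ (s q)) z).det‖ ^ 2 ≤ M q)
    {χ : Γ → ℂ} (hχ1 : ∀ γ, ‖χ γ‖ = 1) (hχ2 : ∀ γ δ, χ (γ * δ) = χ γ * χ δ) {m : ℕ} (hm : 0 < m)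
    (hχ3 : ∀ γ, Triv D σ γ → χ γ ^ m = 1) {z₀ : A → ℂ} (hz₀ : z₀ ∈ D) :
    ∃ l, 0 < l ∧ m ∣ l ∧ ∃ P : (A → ℂ) → ℂ, DifferentiableOn ℂ P D ∧
      (∀ γ, ∀ z ∈ D, P (σ γ z) * ((Jac (σ γ) z).det * χ γ) ^ l = P z) ∧ P z₀ ≠ 0 := by
  let S : Setoid Γ := ⟨fun γ δ => ∀ z ∈ D, σ γ z = σ δ z, ⟨fun γ z _ => rfl,
    fun h z hz => (h z hz).symm, fun h h' z hz => (h z hz).trans (h' z hz)⟩⟩
  have hs : ∀ q q' : Quotient S, (∀ z ∈ D, σ q.out z = σ q'.out z) → q = q' := by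
    intro q q' h
    rw [← Quotient.out_eq q, ← Quotient.out_eq q']
    exact Quotient.sound h
  have hp : ∀ γ, ∀ z ∈ D, σ (Quotient.mk S γ).out z = σ γ z := fun γ =>
    Quotient.exact (Quotient.out_eq (Quotient.mk S γ))
  exact nonv_main hD hR hσ hdisc hjac (fun q : Quotient S => q.out) (Quotient.mk S) hs hp
    (hsum _ hs) hχ1 hχ2 hm hχ3 hz₀

end Pool.Agent.H906.BD
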