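import Pool.Agent.H906.BD.Setup

/-! # T14 PDisc: a discrete cocompact group of automorphisms of a bounded domain is properly discontinuous

`hdisc`: elements near the identity act trivially. Claim: for `K ⊆ D` compact only finitely many maps
`σ γ` satisfy `σ γ K ∩ K ≠ ∅`.

Proof. Let `δ(z, z') = sup_{f ∈ HolB D} |f z - f z'|`. It is `Γ`-invariant (`f ∘ σ γ ∈ HolB D`,
`σ γ` is bijective), `δ(z, z') ≥ c ‖z - z'‖` for all `z, z' ∈ D` with a constant `c > 0` (linear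
functionals of small norm are in `HolB D` because `D` is bounded; in `E` proper use, e.g., a norming
functional `exists_dual_vector''` scaled by `1 / R`), and `δ(z, z') ≤ C ‖z - z'‖` locally
(`lip_ball` in `BD/Hol.lean`, bound `1`). Let `K_D` be the compact set with `Γ K_D = D`. There is
`s > 0` such that for `z ∈ K_D` the set `B(z, s) = {z' ∈ D | δ(z, z') ≤ s}` is contained in a
compact subset of `D` (it lies in `closedBall z (s / c)`, which for small `s` is in a compact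
thickening of `K_D`, `exists_thick`); by invariance (the image of a compact set under `σ γ` is
compact) the same `s` works for every `z ∈ D`: `B(z, s)` is contained in a compact subset of `D`.
Say that `z ∈ D` is good if there is a compact `L_z ⊆ D` with `σ γ z ∈ L_z` for every
`γ ∈ Γ_K = {γ | ∃ z ∈ K, σ γ z ∈ K}`. Key step: if `z` is good then for every `z'` with
`δ(z, z') ≤ s/2` there is ONE compact `L' ⊆ D` containing all `σ γ z'` (`γ ∈ Γ_K`,
`δ(z,z') ≤ s/2`): cover `L_z` by finitely many Euclidean balls contained in sets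
`{δ(y_i, ·) < s/2}`, `L' = ⋃ B(y_i, s)`. So the good set is open and closed in `D` (and `D` is
preconnected), and it is nonempty or `Γ_K` must be treated directly: for a FIXED finite cover of `K`
by sets `{δ(y_i,·) < s/2}`, for `γ ∈ Γ_K` some `z ∈ K` has `σ γ z ∈ K`, `z` in the `i`-th set, so
`σ γ y_i` has `δ`-distance `≤ s/2` to a point of `K`: so `Γ_K = ⋃ Γ_i` and for
`γ ∈ Γ_i` the point `y_i` is good; work with each `Γ_i` separately. Conclusion: for every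
compact `L ⊆ D` there is a compact `L' ⊆ D` with `σ γ L ⊆ L'` for all `γ ∈ Γ_i`; the same
for the inverses (`Γ_K` is closed under inverses).
Suppose that infinitely many different maps `σ γ`, `γ ∈ Γ_i`, exist; choose a sequence `γ_n` of
elements with pairwise different maps and let `𝒰` be a nonprincipal ultrafilter on `ℕ`. By `HolB`/Montel
(`exists_limit` in `BD/Hol.lean`) `σ γ_n → g`, `σ γ_n⁻¹ → h` locally uniformly along `𝒰`, with
`g, h : D → D` (values stay in the compact sets `L'`), and `h (g z) = z`. Given a compact `K₁ ⊆ D` and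
`ε > 0`: for `𝒰`-almost all `m` and then for `𝒰`-almost all `n`, `σ (γ_n⁻¹ γ_m)` and its inverse
`σ (γ_m⁻¹ γ_n)` are `ε`-close to the identity on `K₁`; so there are `n ≠ m` with
`γ_n⁻¹ γ_m` in the neighbourhood of the identity of `hdisc`, so `σ γ_n = σ γ_m` on `D`,
a contradiction. (Any other proof is welcome.) -/

open Filter Topology Set Metric

namespace Pool.Agent.H906.BD

variable {E : Type*} [NormedAddCommGroup E] [NormedSpace ℂ E]
variable {Γ : Type*} [Group Γ] {D : Set E} {σ : Γ → E → E}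

/-- the Carathéodory distance of `z`, `z'` is at most `s` -/
def pdisc_Dl (D : Set E) (z z' : E) (s : ℝ) : Prop := ∀ f ∈ HolB D, ‖f z - f z'‖ ≤ s

theorem pdisc_inv (hσ : HolAct D σ) (γ : Γ) {z z' : E} {s : ℝ} (h : pdisc_Dl D z z' s) :
    pdisc_Dl D (σ γ z) (σ γ z') s := by
  intro f hf
  exact h (fun x => f (σ γ x)) ⟨hf.1.comp (hσ.hol γ) (fun x hx => hσ.maps γ x hx),
    fun x hx => hf.2 _ (hσ.maps γ x hx)⟩

theorem pdisc_trans {z z' z'' : E} {s t : ℝ} (h : pdisc_Dl D z z' s) (h' : pdisc_Dl D z' z'' t) :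
    pdisc_Dl D z z'' (s + t) := by
  intro f hf
  have h1 := h f hf
  have h2 := h' f hf
  have e : f z - f z'' = (f z - f z') + (f z' - f z'') := by ring
  rw [e]
  exact (norm_add_le _ _).trans (add_le_add h1 h2)

theorem pdisc_symm {z z' : E} {s : ℝ} (h : pdisc_Dl D z z' s) : pdisc_Dl D z' z s := by
  intro f hf
  rw [norm_sub_rev]
  exact h f hf

theorem pdisc_local (hD : IsOpen D) {z : E} (hz : z ∈ D) {s : ℝ} (hs : 0 < s) :
    ∀ᶠ z' in 𝓝 z, pdisc_Dl D z z' s := by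
  obtain ⟨r, hr, hsub⟩ := Metric.isOpen_iff.1 hD z hz
  have h1 : 0 < min r (s * r / 2) := by positivity
  filter_upwards [ball_mem_nhds z h1] with z' hz' f hf
  have h2 : z' ∈ ball z r := ball_subset_ball (min_le_left _ _) hz'
  have h3 := lip_point (hf.1.mono hsub) (fun w hw => hf.2 w (hsub hw)) h2
  rw [norm_sub_rev]
  refine h3.trans ?_
  have h4 : ‖z' - z‖ ≤ s * r / 2 := by
    rw [mem_ball, dist_eq_norm] at hz'
    exact hz'.le.trans (min_le_right _ _)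
  calc 2 * 1 / r * ‖z' - z‖ ≤ 2 * 1 / r * (s * r / 2) := by gcongr
    _ = s := by field_simp

theorem pdisc_lower {R : ℝ} (hR : ∀ z ∈ D, ‖z‖ ≤ R) {z z' : E} {s : ℝ}
    (h : pdisc_Dl D z z' s) : ‖z - z'‖ ≤ (|R| + 1) * s := by
  obtain ⟨φ, hφ1, hφ2⟩ := exists_dual_vector'' ℂ (z - z')
  have hR1 : 0 < |R| + 1 := by positivity
  have hR2 : ‖((|R| + 1 : ℝ) : ℂ)⁻¹‖ = (|R| + 1)⁻¹ := by
    rw [norm_inv, Complex.norm_real, Real.norm_eq_abs, abs_of_pos hR1]
  have h1 := h (fun x => ((|R| + 1 : ℝ) : ℂ)⁻¹ * φ x) ⟨by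
    intro x hx
    exact (φ.differentiableAt.const_mul _).differentiableWithinAt, fun x hx => by
    rw [norm_mul, hR2, inv_mul_le_iff₀ hR1, mul_one]
    have h2 : ‖φ x‖ ≤ 1 * ‖x‖ := φ.le_of_opNorm_le hφ1 x
    have h3 := hR x hx
    have h4 := le_abs_self R
    linarith⟩
  have e : ((|R| + 1 : ℝ) : ℂ)⁻¹ * φ z - ((|R| + 1 : ℝ) : ℂ)⁻¹ * φ z' =
      ((|R| + 1 : ℝ) : ℂ)⁻¹ * φ (z - z') := by rw [map_sub]; ring
  rw [e, norm_mul, hR2, hφ2] at h1
  have e2 : ‖((‖z - z'‖ : ℝ) : ℂ)‖ = ‖z - z'‖ := by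
    rw [Complex.norm_real, norm_norm]
  have e3 : ‖(RCLike.ofReal ‖z - z'‖ : ℂ)‖ = ‖z - z'‖ := e2
  rw [e3, inv_mul_le_iff₀ hR1] at h1
  exact h1

theorem pdisc_ball [ProperSpace E] (hD : IsOpen D) {R : ℝ} (hR : ∀ z ∈ D, ‖z‖ ≤ R)
    (hσ : HolAct D σ) (hcc : ∃ K ⊆ D, IsCompact K ∧ ∀ z ∈ D, ∃ γ, σ γ z ∈ K) :
    ∃ s > 0, ∀ w ∈ D, ∃ L ⊆ D, IsCompact L ∧ ∀ z ∈ D, pdisc_Dl D w z s → z ∈ L := by
  obtain ⟨K, hK, hKc, hKs⟩ := hcc
  obtain ⟨δ, hδ, hc, hsub⟩ := exists_thick hD hK hKc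
  have hR1 : 0 < |R| + 1 := by positivity
  refine ⟨δ / (|R| + 1), by positivity, fun w hw => ?_⟩
  obtain ⟨γ, hγ⟩ := hKs w hw
  refine ⟨σ γ⁻¹ '' (cthickening δ K), ?_, hc.image_of_continuousOn
    ((hσ.hol γ⁻¹).continuousOn.mono hsub), ?_⟩
  · rintro _ ⟨x, hx, rfl⟩
    exact hσ.maps _ _ (hsub hx)
  · intro z hz hdl
    refine ⟨σ γ z, ?_, hσ.inv_act γ hz⟩
    refine mem_thick hγ ?_
    rw [norm_sub_rev]
    have h1 := pdisc_lower (fun z hz => hR z hz) (pdisc_inv hσ γ hdl)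
    have h2 : (|R| + 1) * (δ / (|R| + 1)) = δ := by field_simp
    rwa [h2] at h1

theorem pdisc_maps [ProperSpace E] (hD : IsOpen D) (hc : IsPreconnected D) {R : ℝ}
    (hR : ∀ z ∈ D, ‖z‖ ≤ R) (hσ : HolAct D σ)
    (hcc : ∃ K ⊆ D, IsCompact K ∧ ∀ z ∈ D, ∃ γ, σ γ z ∈ K) {ι : Type*} {l : Filter ι} [l.NeBot]
    {γ : ι → Γ} {g : E → E} (hg : LU (fun n => σ (γ n)) g l D) (h0 : ∃ z ∈ D, g z ∈ D) :
    ∀ z ∈ D, g z ∈ D := by
  obtain ⟨s, hs, hball⟩ := pdisc_ball hD hR hσ hcc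
  obtain ⟨hgd, -⟩ := hg.limit (fun n => hσ.hol (γ n))
  have hUo : IsOpen (D ∩ g ⁻¹' D) := hgd.continuousOn.isOpen_inter_preimage hD hD
  obtain ⟨z₀, hz₀, hgz₀⟩ := h0
  have h1 : D ⊆ D ∩ g ⁻¹' D := by
    refine hc.subset_of_closure_inter_subset hUo ⟨z₀, hz₀, hz₀, hgz₀⟩ ?_
    rintro z ⟨hzc, hz⟩
    refine ⟨hz, ?_⟩
    have h2 := pdisc_local hD hz (half_pos hs)
    obtain ⟨z', ⟨hz', hgz'⟩, hdl⟩ := ((mem_closure_iff_frequently.1 hzc).and_eventually h2).exists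
    obtain ⟨L, hLD, hLc, hL⟩ := hball (g z') hgz'
    have h3 : ∀ᶠ n in l, pdisc_Dl D (g z') (σ (γ n) z') (s / 2) :=
      (hg.tendsto hz').eventually (pdisc_local hD hgz' (half_pos hs))
    have h4 : ∀ᶠ n in l, σ (γ n) z ∈ L := by
      filter_upwards [h3] with n hn
      refine hL _ (hσ.maps _ _ hz) ?_
      have h5 := pdisc_trans hn (pdisc_symm (pdisc_inv hσ (γ n) hdl))
      rwa [add_halves] at h5
    exact hLD (hLc.isClosed.mem_of_tendsto (hg.tendsto hz) h4)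
  exact fun z hz => (h1 hz).2

theorem pdisc_point [ProperSpace E] (hD : IsOpen D) (hσ : HolAct D σ) {K : Set E} (hK : K ⊆ D)
    (hKc : IsCompact K) {ι : Type*} (l : Ultrafilter ι) {γ : ι → Γ} {g : E → E}
    (hg : LU (fun n => σ (γ n)) g (l : Filter ι) D) {x : ι → E} (hx : ∀ n, x n ∈ K)
    (hx' : ∀ n, σ (γ n) (x n) ∈ K) : ∃ z ∈ D, g z ∈ D := by
  have h2 : ((l.map x : Ultrafilter E) : Filter E) ≤ 𝓟 K := by
    rw [le_principal_iff, Ultrafilter.mem_coe, Ultrafilter.mem_map]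
    exact Filter.univ_mem' hx
  obtain ⟨z, hz, hzt⟩ := hKc.ultrafilter_le_nhds _ h2
  have hzt' : Tendsto x (l : Filter ι) (𝓝 z) := hzt
  refine ⟨z, hK hz, ?_⟩
  obtain ⟨hgd, -⟩ := hg.limit (fun n => hσ.hol (γ n))
  have h3 : Tendsto (fun n => g (x n)) (l : Filter ι) (𝓝 (g z)) :=
    ((hgd.differentiableAt (hD.mem_nhds (hK hz))).continuousAt.tendsto).comp hzt'
  have h4 : Tendsto (fun n => σ (γ n) (x n) - g (x n)) (l : Filter ι) (𝓝 0) := by
    rw [Metric.tendsto_nhds]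
    intro ε hε
    filter_upwards [hg.compact hKc hK hε] with n hn
    rw [dist_zero_right]
    exact hn (x n) (hx n)
  have h5 : Tendsto (fun n => σ (γ n) (x n)) (l : Filter ι) (𝓝 (g z)) := by
    have := h4.add h3
    simpa using this
  exact hK (hKc.isClosed.mem_of_tendsto h5 (Eventually.of_forall hx'))

theorem pd_of_disc [ProperSpace E] (hD : IsOpen D) (hc : IsPreconnected D) {R : ℝ}
    (hR : ∀ z ∈ D, ‖z‖ ≤ R) (hσ : HolAct D σ)
    (hcc : ∃ K ⊆ D, IsCompact K ∧ ∀ z ∈ D, ∃ γ, σ γ z ∈ K)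
    (hdisc : ∀ᶠ γ in Nbh D σ, Triv D σ γ) {K : Set E} (hK : K ⊆ D) (hKc : IsCompact K) :
    ∃ T : Finset Γ, ∀ γ, (∃ z ∈ K, σ γ z ∈ K) → ∃ t ∈ T, ∀ z ∈ D, σ γ z = σ t z := by
  by_contra hcon
  push Not at hcon
  obtain ⟨γ, hγP, hγr⟩ := exists_seq_of_forall_finset_exists
    (fun γ : Γ => ∃ z ∈ K, σ γ z ∈ K) (fun t γ : Γ => ∃ z ∈ D, σ γ z ≠ σ t z)
    (fun T _ => by
      obtain ⟨γ, h1, h2⟩ := hcon T
      exact ⟨γ, h1, h2⟩)
  choose x hx hx' using hγP
  set l : Ultrafilter ℕ := hyperfilter ℕ with hl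
  have hbd : ∀ β : ℕ → Γ, ∃ g : E → E, LU (fun n => σ (β n)) g (l : Filter ℕ) D := by
    intro β
    refine exists_limit l (fun n => hσ.hol (β n)) (fun y hy => ?_)
    obtain ⟨r, hr, hrD⟩ := Metric.isOpen_iff.1 hD y hy
    exact ⟨r, hr, hrD, R, Eventually.of_forall fun n z hz => hR _ (hσ.maps _ _ (hrD hz))⟩
  obtain ⟨g, hg⟩ := hbd γ
  obtain ⟨h, hh⟩ := hbd (fun n => (γ n)⁻¹)
  have hgD : ∀ z ∈ D, g z ∈ D :=
    pdisc_maps hD hc hR hσ hcc hg (pdisc_point hD hσ hK hKc l hg hx hx')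
  have hhD : ∀ z ∈ D, h z ∈ D :=
    pdisc_maps hD hc hR hσ hcc hh (pdisc_point hD hσ hK hKc l hh (x := fun n => σ (γ n) (x n)) hx'
      (fun n => by
        show σ (γ n)⁻¹ (σ (γ n) (x n)) ∈ K
        rw [hσ.inv_act (γ n) (hK (hx n))]
        exact hx n))
  obtain ⟨hgd, -⟩ := hg.limit (fun n => hσ.hol (γ n))
  obtain ⟨hhd, -⟩ := hh.limit (fun n => hσ.hol (γ n)⁻¹)
  -- `h (g z) = z`
  have hhg : ∀ z ∈ D, h (g z) = z := by
    intro z hz
    obtain ⟨r, hr, hrD, hru⟩ := hh (g z) (hgD z hz)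
    have h1 : Tendsto (fun n => h (σ (γ n) z)) (l : Filter ℕ) (𝓝 (h (g z))) :=
      ((hhd.differentiableAt (hD.mem_nhds (hgD z hz))).continuousAt.tendsto).comp (hg.tendsto hz)
    have h2 : Tendsto (fun n => z - h (σ (γ n) z)) (l : Filter ℕ) (𝓝 0) := by
      rw [Metric.tendsto_nhds]
      intro ε hε
      filter_upwards [hru ε hε, (hg.tendsto hz).eventually (ball_mem_nhds (g z) hr)] with n h3 h4
      have h5 := h3 _ h4
      rw [hσ.inv_act (γ n) hz] at h5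
      rw [dist_zero_right]
      exact h5
    have h3 : Tendsto (fun _ : ℕ => z) (l : Filter ℕ) (𝓝 (h (g z))) := by
      have := h2.add h1
      simpa using this
    exact (tendsto_nhds_unique h3 tendsto_const_nhds)
  obtain ⟨K₁, hK₁, hK₁c, ε, hε, hnear⟩ := hdisc
  have hε2 : 0 < ε / 2 := half_pos hε
  -- the compact set `g K₁` and its thickening
  have hgK : IsCompact (g '' K₁) := hK₁c.image_of_continuousOn (hgd.continuousOn.mono hK₁)
  have hgKD : g '' K₁ ⊆ D := by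
    rintro _ ⟨z, hz, rfl⟩
    exact hgD z (hK₁ hz)
  obtain ⟨δ, hδ, hLc, hLD⟩ := exists_thick hD hgKD hgK
  have unif : ∀ φ : E → E, ContinuousOn φ D → ∀ᶠ n in (l : Filter ℕ), ∀ z ∈ K₁,
      ‖φ (σ (γ n) z) - φ (g z)‖ < ε / 2 := by
    intro φ hφ
    have huc : UniformContinuousOn φ (cthickening δ (g '' K₁)) :=
      hLc.uniformContinuousOn_of_continuous (hφ.mono hLD)
    rw [Metric.uniformContinuousOn_iff] at huc
    obtain ⟨η, hη, hη2⟩ := huc (ε / 2) hε2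
    have hm : 0 < min δ η := by positivity
    filter_upwards [hg.compact hK₁c hK₁ hm] with n hn z hz
    have h1 := hn z hz
    have h2 : g z ∈ g '' K₁ := mem_image_of_mem g hz
    have h3 := hη2 _ (mem_thick h2 (h1.le.trans (min_le_left _ _))) _
      (self_subset_cthickening _ h2) (by rw [dist_eq_norm]; exact h1.trans_le (min_le_right _ _))
    rwa [dist_eq_norm] at h3
  have m1 : ∀ᶠ m in (l : Filter ℕ), ∀ z ∈ K₁, ‖h (σ (γ m) z) - z‖ < ε / 2 := by
    filter_upwards [unif h hhd.continuousOn] with m hm z hz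
    have := hm z hz
    rwa [hhg z (hK₁ hz)] at this
  have m2 : ∀ᶠ m in (l : Filter ℕ), ∀ z ∈ K₁, ‖σ (γ m)⁻¹ (g z) - z‖ < ε / 2 := by
    filter_upwards [hh.compact hgK hgKD hε2] with m hm z hz
    have := hm (g z) (mem_image_of_mem g hz)
    rwa [hhg z (hK₁ hz)] at this
  obtain ⟨m, hm1, hm2⟩ := (m1.and m2).exists
  have hmK : IsCompact (σ (γ m) '' K₁) :=
    hK₁c.image_of_continuousOn ((hσ.hol (γ m)).continuousOn.mono hK₁)
  have hmKD : σ (γ m) '' K₁ ⊆ D := by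
    rintro _ ⟨z, hz, rfl⟩
    exact hσ.maps _ _ (hK₁ hz)
  have n1 := hh.compact hmK hmKD hε2
  have n2 := unif (σ (γ m)⁻¹) (hσ.hol (γ m)⁻¹).continuousOn
  have n3 : ∀ᶠ n in (l : Filter ℕ), m < n :=
    (Nat.hyperfilter_le_atTop) (eventually_gt_atTop m)
  obtain ⟨n, ⟨hn1, hn2⟩, hn3⟩ := ((n1.and n2).and n3).exists
  have hT : Triv D σ ((γ n)⁻¹ * γ m) := by
    apply hnear
    intro z hz
    have hzD := hK₁ hz
    constructor
    · rw [hσ.mul _ _ z hzD]
      have a1 := hn1 _ (mem_image_of_mem (σ (γ m)) hz)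
      have a2 := hm1 z hz
      have e : σ (γ n)⁻¹ (σ (γ m) z) - z = (σ (γ n)⁻¹ (σ (γ m) z) - h (σ (γ m) z)) +
          (h (σ (γ m) z) - z) := by abel
      rw [e]
      refine (norm_add_le _ _).trans_lt ?_
      linarith
    · rw [mul_inv_rev, inv_inv, hσ.mul _ _ z hzD]
      have a1 := hn2 z hz
      have a2 := hm2 z hz
      have e : σ (γ m)⁻¹ (σ (γ n) z) - z = (σ (γ m)⁻¹ (σ (γ n) z) - σ (γ m)⁻¹ (g z)) +
          (σ (γ m)⁻¹ (g z) - z) := by abel
      rw [e]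
      refine (norm_add_le _ _).trans_lt ?_
      linarith
  obtain ⟨z, hz, hne⟩ := hγr m n hn3
  apply hne
  have h1 := hT z hz
  rw [hσ.mul _ _ z hz] at h1
  have h2 := hσ.act_inv (γ n) (hσ.maps (γ m) z hz)
  rw [h1] at h2
  exact h2

end Pool.Agent.H906.BD
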