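import Pool.Agent.H906.BD.Setup

/-! # T03 Real: commuting limit fields are totally real (a Liouville argument)

`v`, `w` are fields which are approximated at every large scale `m` by elements of `S` near the
identity (these commute on `D`), and `v z₀ = i w z₀`. Claim: `d f (w z₀) = 0` for every
holomorphic `f : D → closed unit disc`.

Proof. Let `K = closedBall z₀ r ⊆ D`. For `m ∈ ℕ` large choose `g = g_m`, `h = h_m` in `S ∩ N`
(`N` from `CommNear`) with `‖m (σ g z - z) - w z‖ < η_m` and `‖m (σ h z - z) - v z‖ < η_m` on `K`,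
`η_m → 0`. For `k, l ∈ ℤ` put `F_{k,l} = f ∘ σ (g ^ k * h ^ l)` (it is in `HolB D`),
`Ψ(k,l) = F_{k,l} z₀`, `d(k,l) = fderiv ℂ F_{k,l} z₀ (w z₀)`. Since `g`, `h` commute on `D`,
`F_{k+1,l} = F_{k,l} ∘ σ g` and `F_{k,l+1} = F_{k,l} ∘ σ h` on `D` (all powers: `σ (g^k h^l)` is a
composition of `σ g`, `σ g⁻¹`, `σ h`, `σ h⁻¹`; if `a, b` commute on `D` then so do `a⁻¹, b`).
By the uniform Taylor estimate `taylor2` (`BD/Hol.lean`, all functions of `HolB D` have the bound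
`1` on `ball z₀ r`) and `fderiv_bound`:
`‖m (Ψ(k+1,l) - Ψ(k,l)) - d(k,l)‖ ≤ C η_m + C / m`, `‖m (Ψ(k,l+1) - Ψ(k,l)) - i d(k,l)‖ ≤ same`
(uniformly in `k, l`), because `m (F (σ g z₀) - F z₀) ≈ m dF (σ g z₀ - z₀) ≈ dF (w z₀)`, resp.
`dF (v z₀) = i dF (w z₀)`. Also `‖d(k+1,l) - d(k,l)‖ ≤ C / m` and the same in `l`: the function
`F ∘ σ g - F` is `≤ C / m` near `z₀`; use `fderiv_bound`.
So for integers `n`: `‖Ψ(k+n,l) - Ψ(k,l) - (n/m) d(k,l)‖ ≤ C |n| (η_m + 1/m) / m + C n² / m²`,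
similarly in `l`. Take the limit along `hyperfilter ℕ`:
`Ψ∞(α,β) = lim Ψ_m(⌊α m⌋, ⌊β m⌋)`, `d∞(α,β) = lim d_m(⌊α m⌋, ⌊β m⌋)` (bounded sequences in `ℂ`).
Then `‖Ψ∞(α+s, β+t) - Ψ∞(α,β) - (s + i t) d∞(α,β)‖ ≤ C (|s| + |t|)²`: the function
`ζ ↦ Ψ∞(re ζ, im ζ)` is complex differentiable on `ℂ` with derivative `d∞` and bounded by `1`;
by Liouville (`Differentiable.apply_eq_apply_of_bounded`) it is constant, so `d∞(0,0) = 0`, and
`d∞(0,0) = fderiv ℂ f z₀ (w z₀)` (for `k = l = 0` the function `F_{0,0}` is `f` on `D`). -/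

open Filter Topology Set Metric

namespace Pool.Agent.H906.BD

variable {E : Type*} [NormedAddCommGroup E] [NormedSpace ℂ E]
variable {Γ : Type*} [Group Γ] {D : Set E} {σ : Γ → E → E}

/-- iteration of a discrete differential equation -/
theorem real_iter {a e : ℤ → ℂ} {c : ℂ} {M ε C : ℝ} (hc : ‖c‖ ≤ 1) (hM : 0 < M) (hC : 0 ≤ C)
    (ha : ∀ k, ‖(M : ℂ) * (a (k + 1) - a k) - c * e k‖ ≤ ε)
    (he : ∀ k, ‖e (k + 1) - e k‖ ≤ C / M) (k : ℤ) (n : ℕ) :
    ‖e (k + n) - e k‖ ≤ C * (n / M) ∧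
    ‖a (k + n) - a k - ((n / M : ℝ) : ℂ) * (c * e k)‖ ≤ n / M * ε + C * (n / M) ^ 2 := by
  have hM0 : (M : ℂ) ≠ 0 := by exact_mod_cast hM.ne'
  induction n with
  | zero => simp
  | succ n ih =>
    obtain ⟨ih1, ih2⟩ := ih
    have e1 : k + ((n + 1 : ℕ) : ℤ) = (k + n) + 1 := by push_cast; ring
    rw [e1]
    constructor
    · have e2 : e (k + n + 1) - e k = (e (k + n + 1) - e (k + n)) + (e (k + n) - e k) := by ring
      rw [e2]
      refine (norm_add_le _ _).trans ?_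
      have h1 := he (k + n)
      have h2 : C * (((n + 1 : ℕ) : ℝ) / M) = C / M + C * (n / M) := by push_cast; ring
      rw [h2]
      linarith
    · have h1 := ha (k + n)
      have e2 : a (k + n + 1) - a k - ((((n + 1 : ℕ) : ℝ) / M : ℝ) : ℂ) * (c * e k) =
          (1 / (M : ℂ)) * ((M : ℂ) * (a (k + n + 1) - a (k + n)) - c * e (k + n)) +
          (a (k + n) - a k - ((n / M : ℝ) : ℂ) * (c * e k)) +
          (1 / (M : ℂ)) * (c * (e (k + n) - e k)) := by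
        push_cast
        field_simp
        ring
      rw [e2]
      refine norm_add₃_le.trans ?_
      have hM1 : ‖(1 / (M : ℂ))‖ = 1 / M := by
        rw [norm_div, norm_one, Complex.norm_real, Real.norm_eq_abs, abs_of_pos hM]
      have h3 : ‖(1 / (M : ℂ)) * ((M : ℂ) * (a (k + n + 1) - a (k + n)) - c * e (k + n))‖ ≤
          1 / M * ε := by
        rw [norm_mul, hM1]
        exact mul_le_mul_of_nonneg_left h1 (by positivity)
      have h4 : ‖(1 / (M : ℂ)) * (c * (e (k + n) - e k))‖ ≤ 1 / M * (C * (n / M)) := by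
        rw [norm_mul, hM1, norm_mul]
        apply mul_le_mul_of_nonneg_left _ (by positivity)
        calc ‖c‖ * ‖e (k + n) - e k‖ ≤ 1 * ‖e (k + n) - e k‖ :=
              mul_le_mul_of_nonneg_right hc (norm_nonneg _)
          _ ≤ _ := by rw [one_mul]; exact ih1
      have h5 : ((n + 1 : ℕ) : ℝ) / M * ε + C * (((n + 1 : ℕ) : ℝ) / M) ^ 2 =
          1 / M * ε + (n / M * ε + C * (n / M) ^ 2) + 1 / M * (C * (n / M)) +
          C * ((n + 1) / M ^ 2) := by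
        push_cast
        field_simp
        ring
      rw [h5]
      have h6 : 0 ≤ C * (((n : ℝ) + 1) / M ^ 2) := by positivity
      linarith

/-- limits of bounded sequences along an ultrafilter -/
theorem real_ulim (l : Ultrafilter ℕ) {x : ℕ → ℂ} {B : ℝ} (hx : ∀ j, ‖x j‖ ≤ B) :
    ∃ y : ℂ, Tendsto x (l : Filter ℕ) (𝓝 y) := by
  have h2 : ((l.map x : Ultrafilter ℂ) : Filter ℂ) ≤ 𝓟 (closedBall 0 B) := by
    rw [le_principal_iff, Ultrafilter.mem_coe, Ultrafilter.mem_map]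
    refine Filter.univ_mem' fun i => ?_
    rw [mem_preimage, mem_closedBall_zero_iff]
    exact hx i
  obtain ⟨y, -, hy⟩ := (isCompact_closedBall (0 : ℂ) B).ultrafilter_le_nhds _ h2
  exact ⟨y, hy⟩

/-- the limit of the discrete differential equations -/
theorem real_lim {M ε : ℕ → ℝ} {C : ℝ} {c : ℂ} (hc : ‖c‖ ≤ 1) (hM : ∀ j, 0 < M j)
    (hMt : Tendsto M atTop atTop) (hεt : Tendsto ε atTop (𝓝 0)) (hC : 0 ≤ C)
    {a e : ℕ → ℤ → ℂ} (ha : ∀ j k, ‖(M j : ℂ) * (a j (k + 1) - a j k) - c * e j k‖ ≤ ε j)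
    (he : ∀ j k, ‖e j (k + 1) - e j k‖ ≤ C / M j) {p q : ℝ → ℂ}
    (hp : ∀ x, Tendsto (fun j => a j ⌊x * M j⌋) (hyperfilter ℕ : Filter ℕ) (𝓝 (p x)))
    (hq : ∀ x, Tendsto (fun j => e j ⌊x * M j⌋) (hyperfilter ℕ : Filter ℕ) (𝓝 (q x)))
    (x s : ℝ) :
    ‖q (x + s) - q x‖ ≤ C * |s| ∧ ‖p (x + s) - p x - (s : ℂ) * (c * q x)‖ ≤ 2 * C * s ^ 2 := by
  -- nonnegative increments
  have key : ∀ x s : ℝ, 0 ≤ s → ‖q (x + s) - q x‖ ≤ C * s ∧
      ‖p (x + s) - p x - (s : ℂ) * (c * q x)‖ ≤ C * s ^ 2 := by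
    intro x s hs
    obtain ⟨n, hn⟩ : ∃ n : ℕ → ℕ, ∀ j, ⌊(x + s) * M j⌋ = ⌊x * M j⌋ + n j := by
      have h1 : ∀ j, ∃ n : ℕ, ⌊(x + s) * M j⌋ = ⌊x * M j⌋ + n := by
        intro j
        have h2 : ⌊x * M j⌋ ≤ ⌊(x + s) * M j⌋ := by
          apply Int.floor_le_floor
          have := mul_nonneg hs (hM j).le
          nlinarith
        exact ⟨(⌊(x + s) * M j⌋ - ⌊x * M j⌋).toNat, by omega⟩
      choose n hn using h1
      exact ⟨n, hn⟩
    have hnt : Tendsto (fun j => (n j : ℝ) / M j) atTop (𝓝 s) := by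
      have h00 : Tendsto (fun j => (M j)⁻¹) atTop (𝓝 0) := hMt.inv_tendsto_atTop
      have h0 : Tendsto (fun j => 1 / M j) atTop (𝓝 0) := by
        simpa only [one_div] using h00
      have h1 : ∀ j, |(n j : ℝ) / M j - s| ≤ 1 / M j := by
        intro j
        have h2 := Int.floor_le (x * M j)
        have h3 := Int.lt_floor_add_one (x * M j)
        have h4 := Int.floor_le ((x + s) * M j)
        have h5 := Int.lt_floor_add_one ((x + s) * M j)
        have h6 : ((⌊(x + s) * M j⌋ : ℤ) : ℝ) = ⌊x * M j⌋ + n j := by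
          rw [hn j]
          push_cast
          ring
        have h7 : (n j : ℝ) / M j - s = ((n j : ℝ) - s * M j) / M j := by
          field_simp [(hM j).ne']
        rw [h7, abs_div, abs_of_pos (hM j)]
        apply div_le_div_of_nonneg_right _ (hM j).le
        rw [abs_le]
        constructor <;> nlinarith
      have h2 : Tendsto (fun j => (n j : ℝ) / M j - s) atTop (𝓝 0) :=
        squeeze_zero_norm (fun j => by rw [Real.norm_eq_abs]; exact h1 j) h0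
      have h3 := h2.add_const s
      simpa using h3
    have hnu : Tendsto (fun j => (n j : ℝ) / M j) (hyperfilter ℕ : Filter ℕ) (𝓝 s) :=
      hnt.mono_left Nat.hyperfilter_le_atTop
    have hεu : Tendsto ε (hyperfilter ℕ : Filter ℕ) (𝓝 0) :=
      hεt.mono_left Nat.hyperfilter_le_atTop
    have hiter := fun j => real_iter (ε := ε j) hc (hM j) hC (ha j) (he j) ⌊x * M j⌋ (n j)
    simp only [← hn] at hiter
    constructor
    · refine le_of_tendsto_of_tendsto ((hq (x + s)).sub (hq x)).norm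
        (tendsto_const_nhds.mul hnu) (Eventually.of_forall fun j => (hiter j).1)
    · have h1 : Tendsto (fun j => (((n j : ℝ) / M j : ℝ) : ℂ)) (hyperfilter ℕ : Filter ℕ)
          (𝓝 (s : ℂ)) := (Complex.continuous_ofReal.tendsto s).comp hnu
      have h2 := (((hp (x + s)).sub (hp x)).sub (h1.mul ((hq x).const_mul c))).norm
      have h3 : Tendsto (fun j => (n j : ℝ) / M j * ε j + C * ((n j : ℝ) / M j) ^ 2)
          (hyperfilter ℕ : Filter ℕ) (𝓝 (s * 0 + C * s ^ 2)) :=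
        (hnu.mul hεu).add ((hnu.pow 2).const_mul C)
      have h4 := le_of_tendsto_of_tendsto h2 h3 (Eventually.of_forall fun j => (hiter j).2)
      rwa [mul_zero, zero_add] at h4
  rcases le_total 0 s with hs | hs
  · obtain ⟨h1, h2⟩ := key x s hs
    rw [abs_of_nonneg hs]
    refine ⟨h1, h2.trans ?_⟩
    nlinarith [mul_nonneg hC (sq_nonneg s)]
  · obtain ⟨h1, h2⟩ := key (x + s) (-s) (by linarith)
    rw [add_neg_cancel_right] at h1 h2
    rw [abs_of_nonpos hs]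
    constructor
    · rw [norm_sub_rev]
      exact h1
    · have e1 : p (x + s) - p x - (s : ℂ) * (c * q x) =
          -(p x - p (x + s) - ((-s : ℝ) : ℂ) * (c * q (x + s))) +
          (-(s : ℂ)) * (c * (q x - q (x + s))) := by
        push_cast
        ring
      rw [e1]
      refine (norm_add_le _ _).trans ?_
      rw [norm_neg]
      have h3 : ‖(-(s : ℂ)) * (c * (q x - q (x + s)))‖ ≤ C * s ^ 2 := by
        rw [norm_mul, norm_neg, Complex.norm_real, Real.norm_eq_abs, abs_of_nonpos hs, norm_mul]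
        calc -s * (‖c‖ * ‖q x - q (x + s)‖) ≤ -s * (1 * (C * -s)) := by
              apply mul_le_mul_of_nonneg_left _ (by linarith)
              exact mul_le_mul hc h1 (norm_nonneg _) zero_le_one
          _ = C * s ^ 2 := by ring
      have h4 : C * (-s) ^ 2 = C * s ^ 2 := by ring
      rw [h4] at h2
      linarith

/-- Liouville for lattices -/
theorem real_lattice {M ε : ℕ → ℝ} {C B : ℝ} (hM : ∀ j, 0 < M j)
    (hMt : Tendsto M atTop atTop) (hεt : Tendsto ε atTop (𝓝 0)) (hC : 0 ≤ C)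
    {Ψ d : ℕ → ℤ → ℤ → ℂ} (h1 : ∀ j k l, ‖Ψ j k l‖ ≤ 1) (h2 : ∀ j k l, ‖d j k l‖ ≤ B)
    (h3 : ∀ j k l, ‖(M j : ℂ) * (Ψ j (k + 1) l - Ψ j k l) - 1 * d j k l‖ ≤ ε j)
    (h4 : ∀ j k l, ‖(M j : ℂ) * (Ψ j k (l + 1) - Ψ j k l) - Complex.I * d j k l‖ ≤ ε j)
    (h5 : ∀ j k l, ‖d j (k + 1) l - d j k l‖ ≤ C / M j)
    (h6 : ∀ j k l, ‖d j k (l + 1) - d j k l‖ ≤ C / M j)
    {c : ℂ} (hc : ∀ j, d j 0 0 = c) : c = 0 := by
  have hP : ∀ x y : ℝ, ∃ z : ℂ, Tendsto (fun j => Ψ j ⌊x * M j⌋ ⌊y * M j⌋)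
      (hyperfilter ℕ : Filter ℕ) (𝓝 z) := fun x y => real_ulim _ (fun j => h1 j _ _)
  have hQ : ∀ x y : ℝ, ∃ z : ℂ, Tendsto (fun j => d j ⌊x * M j⌋ ⌊y * M j⌋)
      (hyperfilter ℕ : Filter ℕ) (𝓝 z) := fun x y => real_ulim _ (fun j => h2 j _ _)
  choose P hP using hP
  choose Q hQ using hQ
  have hα : ∀ x y s : ℝ, ‖Q (x + s) y - Q x y‖ ≤ C * |s| ∧
      ‖P (x + s) y - P x y - (s : ℂ) * (1 * Q x y)‖ ≤ 2 * C * s ^ 2 := by
    intro x y s
    exact real_lim (a := fun j k => Ψ j k ⌊y * M j⌋) (e := fun j k => d j k ⌊y * M j⌋)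
      (p := fun x => P x y) (q := fun x => Q x y) (by simp) hM hMt hεt hC
      (fun j k => h3 j k _) (fun j k => h5 j k _) (fun x => hP x y) (fun x => hQ x y) x s
  have hβ : ∀ x y s : ℝ, ‖Q x (y + s) - Q x y‖ ≤ C * |s| ∧
      ‖P x (y + s) - P x y - (s : ℂ) * (Complex.I * Q x y)‖ ≤ 2 * C * s ^ 2 := by
    intro x y s
    exact real_lim (a := fun j k => Ψ j ⌊x * M j⌋ k) (e := fun j k => d j ⌊x * M j⌋ k)
      (p := fun y => P x y) (q := fun y => Q x y) (by simp) hM hMt hεt hC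
      (fun j k => h4 j _ k) (fun j k => h6 j _ k) (fun y => hP x y) (fun y => hQ x y) y s
  obtain ⟨H, hH⟩ : ∃ H : ℂ → ℂ, H = fun ζ => P ζ.re ζ.im := ⟨_, rfl⟩
  have hder : ∀ ζ : ℂ, HasDerivAt H (Q ζ.re ζ.im) ζ := by
    intro ζ
    rw [hasDerivAt_iff_isLittleO_nhds_zero]
    have hb : (fun ξ : ℂ => H (ζ + ξ) - H ζ - ξ • Q ζ.re ζ.im) =O[𝓝 0]
        fun ξ => ‖ξ‖ ^ 2 := by
      refine Asymptotics.IsBigO.of_bound (5 * C) (Eventually.of_forall fun ξ => ?_)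
      have a1 := (hβ (ζ.re + ξ.re) ζ.im ξ.im).2
      have a2 := (hα ζ.re ζ.im ξ.re).2
      have a3 := (hα ζ.re ζ.im ξ.re).1
      have e1 : H (ζ + ξ) - H ζ - ξ • Q ζ.re ζ.im =
          (P (ζ.re + ξ.re) (ζ.im + ξ.im) - P (ζ.re + ξ.re) ζ.im -
            (ξ.im : ℂ) * (Complex.I * Q (ζ.re + ξ.re) ζ.im)) +
          (P (ζ.re + ξ.re) ζ.im - P ζ.re ζ.im - (ξ.re : ℂ) * (1 * Q ζ.re ζ.im)) +
          (ξ.im : ℂ) * (Complex.I * (Q (ζ.re + ξ.re) ζ.im - Q ζ.re ζ.im)) := by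
        have e2 : ξ • Q ζ.re ζ.im = ((ξ.re : ℂ) + ξ.im * Complex.I) * Q ζ.re ζ.im := by
          rw [Complex.re_add_im]
          rfl
        rw [e2, hH]
        simp only [Complex.add_re, Complex.add_im]
        ring
      rw [e1]
      refine norm_add₃_le.trans ?_
      have a4 : ‖(ξ.im : ℂ) * (Complex.I * (Q (ζ.re + ξ.re) ζ.im - Q ζ.re ζ.im))‖ ≤
          |ξ.im| * (C * |ξ.re|) := by
        rw [norm_mul, norm_mul, Complex.norm_I, one_mul, Complex.norm_real, Real.norm_eq_abs]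
        exact mul_le_mul_of_nonneg_left a3 (abs_nonneg _)
      have a5 : ‖‖ξ‖ ^ 2‖ = ξ.re ^ 2 + ξ.im ^ 2 := by
        rw [Real.norm_eq_abs, abs_of_nonneg (sq_nonneg _), Complex.sq_norm, Complex.normSq_apply]
        ring
      rw [a5]
      have a6 : |ξ.im| * |ξ.re| ≤ ξ.re ^ 2 + ξ.im ^ 2 := by
        have h7 := sq_abs ξ.re
        have h8 := sq_abs ξ.im
        nlinarith [sq_nonneg (|ξ.re| - |ξ.im|), abs_nonneg ξ.re, abs_nonneg ξ.im]
      have a7 : |ξ.im| * (C * |ξ.re|) ≤ C * (ξ.re ^ 2 + ξ.im ^ 2) := by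
        calc |ξ.im| * (C * |ξ.re|) = C * (|ξ.im| * |ξ.re|) := by ring
          _ ≤ _ := mul_le_mul_of_nonneg_left a6 hC
      nlinarith [mul_nonneg hC (sq_nonneg ξ.re), mul_nonneg hC (sq_nonneg ξ.im)]
    exact hb.trans_isLittleO (Asymptotics.isLittleO_norm_pow_id one_lt_two)
  have hbdd : Bornology.IsBounded (range H) := by
    rw [isBounded_iff_forall_norm_le]
    refine ⟨1, ?_⟩
    rintro _ ⟨ζ, rfl⟩
    rw [hH]
    exact le_of_tendsto (hP ζ.re ζ.im).norm (Eventually.of_forall fun j => h1 j _ _)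
  have hdiff : Differentiable ℂ H := fun ζ => (hder ζ).differentiableAt
  have hconst : ∀ ζ, H ζ = H 0 := fun ζ => hdiff.apply_eq_apply_of_bounded hbdd ζ 0
  have h7 : HasDerivAt H 0 0 := by
    have h8 : H = fun _ => H 0 := funext hconst
    rw [h8]
    exact hasDerivAt_const _ _
  have h8 := (hder 0).unique h7
  have h9 := hQ 0 0
  simp only [zero_mul, Int.floor_zero, hc] at h9
  have h10 : c = Q 0 0 := tendsto_nhds_unique tendsto_const_nhds h9
  rw [h10]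
  simpa using h8

theorem real_holB_comp (hσ : HolAct D σ) {f : E → ℂ} (hf : f ∈ HolB D) (γ : Γ) :
    (fun z => f (σ γ z)) ∈ HolB D := by
  refine ⟨fun z hz => ?_, fun z hz => hf.2 _ (hσ.maps γ z hz)⟩
  exact (hf.1 _ (hσ.maps γ z hz)).comp z (hσ.hol γ z hz) (fun y hy => hσ.maps γ y hy)

theorem real_comm_zpow (hσ : HolAct D σ) {g h : Γ} (hgh : ∀ z ∈ D, σ h (σ g z) = σ g (σ h z))
    (l : ℤ) : ∀ z ∈ D, σ (h ^ l) (σ g z) = σ g (σ (h ^ l) z) := by
  obtain ⟨Cg, hCg⟩ : ∃ Cg : Subgroup Γ, ∀ a, a ∈ Cg ↔ ∀ z ∈ D, σ a (σ g z) = σ g (σ a z) := by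
    refine ⟨{ carrier := {a | ∀ z ∈ D, σ a (σ g z) = σ g (σ a z)}
              mul_mem' := ?_
              one_mem' := ?_
              inv_mem' := ?_ }, fun a => Iff.rfl⟩
    · intro a b ha hb z hz
      rw [hσ.mul a b _ (hσ.maps g z hz), hb z hz, ha _ (hσ.maps b z hz), hσ.mul a b z hz]
    · intro z hz
      rw [hσ.one _ (hσ.maps g z hz), hσ.one z hz]
    · intro a ha z hz
      have h1 := ha (σ a⁻¹ z) (hσ.maps _ z hz)
      rw [hσ.act_inv a hz] at h1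
      rw [← h1, hσ.inv_act a (hσ.maps g _ (hσ.maps _ z hz))]
  exact (hCg _).1 (Cg.zpow_mem ((hCg h).2 hgh) l)

/-- one step of the discrete differential equation -/
theorem real_step {z₀ : E} {R W : ℝ} (hR : 0 < R) (hball : ball z₀ R ⊆ D) (hW : 0 ≤ W)
    {F : E → ℂ} (hF : F ∈ HolB D) {τ : E → E} (hτ : DifferentiableOn ℂ τ D)
    (hτm : ∀ z ∈ D, τ z ∈ D) (hD : IsOpen D) {M η : ℝ} (hM : 0 < M) (hMR : (W + 1) / M < R / 32)
    {u : E} {c : ℂ} (hu : ‖u‖ ≤ W)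
    (h0 : ‖(M : ℂ) • (τ z₀ - z₀) - c • u‖ ≤ η)
    (hall : ∀ z ∈ ball z₀ (R / 8), ‖τ z - z‖ ≤ (W + 1) / M) :
    ‖(M : ℂ) * (F (τ z₀) - F z₀) - c * fderiv ℂ F z₀ u‖ ≤
      128 * (W + 1) ^ 2 / R ^ 2 / M + 4 / R * η ∧
    ‖fderiv ℂ (fun z => F (τ z)) z₀ u - fderiv ℂ F z₀ u‖ ≤ 128 * (W + 1) ^ 2 / R ^ 2 / M := by
  have hFd : DifferentiableOn ℂ F (ball z₀ R) := hF.1.mono hball
  have hFb : ∀ z ∈ ball z₀ R, ‖F z‖ ≤ 1 := fun z hz => hF.2 z (hball hz)
  have hz₀D : z₀ ∈ D := hball (mem_ball_self hR)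
  have hz8 := hall z₀ (mem_ball_self (by positivity))
  constructor
  · have hmem : τ z₀ ∈ ball z₀ (R / 32) := by
      rw [mem_ball, dist_eq_norm]
      exact hz8.trans_lt hMR
    have h1 := taylor2 hFd hFb (mem_ball_self (by positivity)) hmem
    have h2 := fderiv_bound hFd hFb (z := z₀) (mem_ball_self (by positivity))
    have e1 : (M : ℂ) * (F (τ z₀) - F z₀) - c * fderiv ℂ F z₀ u =
        (M : ℂ) * (F (τ z₀) - F z₀ - fderiv ℂ F z₀ (τ z₀ - z₀)) +
        fderiv ℂ F z₀ ((M : ℂ) • (τ z₀ - z₀) - c • u) := by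
      rw [map_sub (fderiv ℂ F z₀) ((M : ℂ) • (τ z₀ - z₀)), map_smul, map_smul, smul_eq_mul,
        smul_eq_mul]
      ring
    rw [e1]
    refine (norm_add_le _ _).trans (add_le_add ?_ ?_)
    · rw [norm_mul, Complex.norm_real, Real.norm_eq_abs, abs_of_pos hM]
      calc M * ‖F (τ z₀) - F z₀ - fderiv ℂ F z₀ (τ z₀ - z₀)‖
          ≤ M * (128 * 1 / R ^ 2 * ((W + 1) / M) ^ 2) := by
            apply mul_le_mul_of_nonneg_left _ hM.le
            refine h1.trans ?_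
            gcongr
        _ = 128 * (W + 1) ^ 2 / R ^ 2 / M := by
            field_simp
    · refine ((fderiv ℂ F z₀).le_opNorm _).trans ?_
      have h3 : (4 : ℝ) * 1 / R = 4 / R := by ring
      rw [h3] at h2
      exact mul_le_mul h2 h0 (norm_nonneg _) (by positivity)
  · have hsub8 : ball z₀ (R / 8) ⊆ ball z₀ R := ball_subset_ball (by linarith)
    have hGd : DifferentiableOn ℂ (fun z => F (τ z) - F z) (ball z₀ (R / 8)) := by
      intro z hz
      have hzD := hball (hsub8 hz)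
      have h1 : DifferentiableAt ℂ F (τ z) := hF.1.differentiableAt (hD.mem_nhds (hτm z hzD))
      have h2 : DifferentiableAt ℂ τ z := hτ.differentiableAt (hD.mem_nhds hzD)
      have h3 : DifferentiableAt ℂ F z := hF.1.differentiableAt (hD.mem_nhds hzD)
      exact ((h1.comp z h2).sub h3).differentiableWithinAt
    have hGb : ∀ z ∈ ball z₀ (R / 8), ‖(fun z => F (τ z) - F z) z‖ ≤
        4 / R * ((W + 1) / M) := by
      intro z hz
      have hz1 := hall z hz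
      have hz4 : z ∈ ball z₀ (R / 4) := ball_subset_ball (by linarith) hz
      have hτz4 : τ z ∈ ball z₀ (R / 4) := by
        rw [mem_ball, dist_eq_norm] at hz ⊢
        have e1 : τ z - z₀ = (τ z - z) + (z - z₀) := by abel
        rw [e1]
        have := norm_add_le (τ z - z) (z - z₀)
        linarith
      have h1 := lip_ball hFd hFb hz4 hτz4
      have h3 : (4 : ℝ) * 1 / R = 4 / R := by ring
      rw [h3] at h1
      exact h1.trans (mul_le_mul_of_nonneg_left hz1 (by positivity))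
    have h1 := fderiv_bound hGd hGb (z := z₀) (mem_ball_self (by positivity))
    have h2 : fderiv ℂ (fun z => F (τ z) - F z) z₀ =
        fderiv ℂ (fun z => F (τ z)) z₀ - fderiv ℂ F z₀ := by
      have a1 : DifferentiableAt ℂ F (τ z₀) := hF.1.differentiableAt (hD.mem_nhds (hτm z₀ hz₀D))
      have a2 : DifferentiableAt ℂ τ z₀ := hτ.differentiableAt (hD.mem_nhds hz₀D)
      have a3 : DifferentiableAt ℂ F z₀ := hF.1.differentiableAt (hD.mem_nhds hz₀D)
      exact ((a1.comp z₀ a2).hasFDerivAt.sub a3.hasFDerivAt).fderiv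
    rw [h2] at h1
    have h3 := (fderiv ℂ (fun z => F (τ z)) z₀ - fderiv ℂ F z₀).le_opNorm u
    rw [sub_apply] at h3
    refine h3.trans ?_
    calc ‖fderiv ℂ (fun z => F (τ z)) z₀ - fderiv ℂ F z₀‖ * ‖u‖
        ≤ (4 * (4 / R * ((W + 1) / M)) / (R / 8)) * (W + 1) :=
          mul_le_mul h1 (by linarith) (norm_nonneg _) (by positivity)
      _ = 128 * (W + 1) ^ 2 / R ^ 2 / M := by
          field_simp
          ring

theorem totally_real [ProperSpace E] (hD : IsOpen D) (hσ : HolAct D σ) {S : Subgroup Γ}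
    (hcomm : CommNear D σ S) {v w : E → E} (hvd : DifferentiableOn ℂ v D)
    (hwd : DifferentiableOn ℂ w D)
    (hv : ∀ K ⊆ D, IsCompact K → ∀ η > 0, ∀ N ∈ Nbh D σ,
      ∃ m₀ : ℝ, ∀ m ≥ m₀, ∃ g ∈ S, g ∈ N ∧ ∀ z ∈ K, ‖(m : ℂ) • (σ g z - z) - v z‖ < η)
    (hw : ∀ K ⊆ D, IsCompact K → ∀ η > 0, ∀ N ∈ Nbh D σ,
      ∃ m₀ : ℝ, ∀ m ≥ m₀, ∃ g ∈ S, g ∈ N ∧ ∀ z ∈ K, ‖(m : ℂ) • (σ g z - z) - w z‖ < η)
    {z₀ : E} (hz₀ : z₀ ∈ D) (h : v z₀ = Complex.I • w z₀) {f : E → ℂ} (hf : f ∈ HolB D) :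
    fderiv ℂ f z₀ (w z₀) = 0 := by
  have h₀ := h
  clear h
  obtain ⟨R₀, hR₀, hball₀⟩ := Metric.isOpen_iff.1 hD z₀ hz₀
  obtain ⟨R, hRdef⟩ : ∃ R, R = R₀ / 2 := ⟨_, rfl⟩
  have hR : 0 < R := by rw [hRdef]; positivity
  have hKD : closedBall z₀ R ⊆ D :=
    (closedBall_subset_ball (by rw [hRdef]; linarith)).trans hball₀
  have hball : ball z₀ R ⊆ D := ball_subset_closedBall.trans hKD
  have hKc : IsCompact (closedBall z₀ R) := isCompact_closedBall _ _
  obtain ⟨Wv, hWv⟩ := hKc.exists_bound_of_continuousOn (hvd.continuousOn.mono hKD)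
  obtain ⟨Ww, hWw⟩ := hKc.exists_bound_of_continuousOn (hwd.continuousOn.mono hKD)
  obtain ⟨W, hWdef⟩ : ∃ W, W = max 0 (max Wv Ww) := ⟨_, rfl⟩
  have hW : 0 ≤ W := by rw [hWdef]; exact le_max_left _ _
  have hWv' : ∀ z ∈ closedBall z₀ R, ‖v z‖ ≤ W := fun z hz => (hWv z hz).trans (by
    rw [hWdef]; exact (le_max_left _ _).trans (le_max_right _ _))
  have hWw' : ∀ z ∈ closedBall z₀ R, ‖w z‖ ≤ W := fun z hz => (hWw z hz).trans (by
    rw [hWdef]; exact (le_max_right _ _).trans (le_max_right _ _))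
  obtain ⟨N, hN, hNc⟩ := hcomm
  have hch : ∀ j : ℕ, ∃ (M : ℝ) (g h : Γ), ((j : ℝ) + 1 ≤ M) ∧ (W + 1) / M < R / 32 ∧
      (g ∈ S ∧ g ∈ N) ∧ (h ∈ S ∧ h ∈ N) ∧
      (∀ z ∈ closedBall z₀ R, ‖(M : ℂ) • (σ g z - z) - w z‖ < 1 / ((j : ℝ) + 1)) ∧
      (∀ z ∈ closedBall z₀ R, ‖(M : ℂ) • (σ h z - z) - v z‖ < 1 / ((j : ℝ) + 1)) := by
    intro j
    obtain ⟨m₁, hm₁⟩ := hw _ hKD hKc (1 / ((j : ℝ) + 1)) (by positivity) N hN
    obtain ⟨m₂, hm₂⟩ := hv _ hKD hKc (1 / ((j : ℝ) + 1)) (by positivity) N hN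
    obtain ⟨M, hM⟩ : ∃ M, M = max (max ((j : ℝ) + 1) (32 * (W + 1) / R + 1)) (max m₁ m₂) :=
      ⟨_, rfl⟩
    have hMa : (j : ℝ) + 1 ≤ M := by
      rw [hM]; exact (le_max_left _ _).trans (le_max_left _ _)
    have hMb : 32 * (W + 1) / R + 1 ≤ M := by
      rw [hM]; exact (le_max_right _ _).trans (le_max_left _ _)
    have hMc : m₁ ≤ M := by rw [hM]; exact (le_max_left _ _).trans (le_max_right _ _)
    have hMd : m₂ ≤ M := by rw [hM]; exact (le_max_right _ _).trans (le_max_right _ _)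
    have hM0 : 0 < M := lt_of_lt_of_le (by positivity) hMa
    obtain ⟨g, hg1, hg2, hg3⟩ := hm₁ M hMc
    obtain ⟨h, hh1, hh2, hh3⟩ := hm₂ M hMd
    refine ⟨M, g, h, hMa, ?_, ⟨hg1, hg2⟩, ⟨hh1, hh2⟩, hg3, hh3⟩
    rw [div_lt_iff₀ hM0]
    have h1 : R / 32 * (32 * (W + 1) / R + 1) ≤ R / 32 * M :=
      mul_le_mul_of_nonneg_left hMb (by positivity)
    have h2 : R / 32 * (32 * (W + 1) / R + 1) = W + 1 + R / 32 := by
      field_simp
    linarith
  choose M g h hMj hMR hg hh hgw hhv using hch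
  have hMpos : ∀ j, 0 < M j := fun j => lt_of_lt_of_le (by positivity) (hMj j)
  have hM0 : ∀ j, (M j : ℂ) ≠ 0 := fun j => by exact_mod_cast (hMpos j).ne'
  have hη1 : ∀ j : ℕ, 1 / ((j : ℝ) + 1) ≤ 1 := by
    intro j
    rw [div_le_one (by positivity)]
    have : (0 : ℝ) ≤ j := Nat.cast_nonneg _
    linarith
  -- displacement
  have hdisp : ∀ (j : ℕ) (τ : E → E) (x : E → E), (∀ z ∈ closedBall z₀ R, ‖x z‖ ≤ W) →
      (∀ z ∈ closedBall z₀ R, ‖(M j : ℂ) • (τ z - z) - x z‖ < 1 / ((j : ℝ) + 1)) →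
      ∀ z ∈ ball z₀ (R / 8), ‖τ z - z‖ ≤ (W + 1) / M j := by
    intro j τ x hx hτx z hz
    have hzK : z ∈ closedBall z₀ R :=
      ball_subset_closedBall (ball_subset_ball (by linarith) hz)
    have h1 := hτx z hzK
    have h2 := hx z hzK
    have h3 : ‖(M j : ℂ) • (τ z - z)‖ ≤ W + 1 := by
      have e1 : (M j : ℂ) • (τ z - z) = ((M j : ℂ) • (τ z - z) - x z) + x z := by abel
      rw [e1]
      refine (norm_add_le _ _).trans ?_
      linarith [hη1 j]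
    rw [norm_smul, Complex.norm_real, Real.norm_eq_abs, abs_of_pos (hMpos j)] at h3
    rw [le_div_iff₀ (hMpos j)]
    linarith
  have hcgh : ∀ (j : ℕ) (l : ℤ), ∀ z ∈ D, σ (h j ^ l) (σ (g j) z) = σ (g j) (σ (h j ^ l) z) := by
    intro j l
    apply real_comm_zpow hσ
    intro z hz
    exact hNc (h j) (hh j).1 (hh j).2 (g j) (hg j).1 (hg j).2 z hz
  have hz₀K : z₀ ∈ closedBall z₀ R := mem_closedBall_self hR.le
  obtain ⟨C, hCdef⟩ : ∃ C, C = 128 * (W + 1) ^ 2 / R ^ 2 := ⟨_, rfl⟩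
  have hC : 0 ≤ C := by rw [hCdef]; positivity
  obtain ⟨F, hFdef⟩ : ∃ F : ℕ → ℤ → ℤ → E → ℂ, F = fun j k l z =>
    f (σ (g j ^ k * h j ^ l) z) := ⟨_, rfl⟩
  have hF : ∀ j k l, F j k l ∈ HolB D := by
    intro j k l
    rw [hFdef]
    exact real_holB_comp hσ hf _
  have hFk : ∀ j k l, ∀ z ∈ D, F j (k + 1) l z = F j k l (σ (g j) z) := by
    intro j k l z hz
    rw [hFdef]
    show f (σ (g j ^ (k + 1) * h j ^ l) z) = f (σ (g j ^ k * h j ^ l) (σ (g j) z))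
    congr 1
    rw [zpow_add_one, hσ.mul _ _ z hz, hσ.mul _ _ _ (hσ.maps _ z hz),
      hσ.mul _ _ _ (hσ.maps _ z hz), hcgh j l z hz]
  have hFl : ∀ j k l, ∀ z ∈ D, F j k (l + 1) z = F j k l (σ (h j) z) := by
    intro j k l z hz
    rw [hFdef]
    show f (σ (g j ^ k * h j ^ (l + 1)) z) = f (σ (g j ^ k * h j ^ l) (σ (h j) z))
    congr 1
    rw [zpow_add_one, ← mul_assoc, hσ.mul _ _ z hz]
  have hfd : ∀ (F₁ F₂ : E → ℂ), (∀ z ∈ D, F₁ z = F₂ z) →
      fderiv ℂ F₁ z₀ = fderiv ℂ F₂ z₀ := by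
    intro F₁ F₂ h12
    apply Filter.EventuallyEq.fderiv_eq
    filter_upwards [hD.mem_nhds hz₀] with z hz
    exact h12 z hz
  have hstepg := fun (j : ℕ) (k l : ℤ) => real_step hR hball hW (hF j k l) (hσ.hol (g j))
    (fun z hz => hσ.maps (g j) z hz) hD (hMpos j) (hMR j) (u := w z₀) (c := 1)
    (η := 1 / ((j : ℝ) + 1)) (hWw' z₀ hz₀K)
    (by rw [one_smul]; exact (hgw j z₀ hz₀K).le) (hdisp j (σ (g j)) w hWw' (hgw j))
  have hsteph := fun (j : ℕ) (k l : ℤ) => real_step hR hball hW (hF j k l) (hσ.hol (h j))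
    (fun z hz => hσ.maps (h j) z hz) hD (hMpos j) (hMR j) (u := w z₀) (c := Complex.I)
    (η := 1 / ((j : ℝ) + 1)) (hWw' z₀ hz₀K) (by rw [← h₀]; exact (hhv j z₀ hz₀K).le)
    (hdisp j (σ (h j)) v hWv' (hhv j))
  have hεt : Tendsto (fun j : ℕ => C / M j + 4 / R * (1 / ((j : ℝ) + 1))) atTop (𝓝 0) := by
    have hMt : Tendsto M atTop atTop := by
      apply tendsto_atTop_mono hMj
      exact tendsto_atTop_add_const_right _ _ tendsto_natCast_atTop_atTop
    have h1 : Tendsto (fun j => C / M j) atTop (𝓝 0) := hMt.const_div_atTop C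
    have h2 : Tendsto (fun j : ℕ => 4 / R * (1 / ((j : ℝ) + 1))) atTop (𝓝 (4 / R * 0)) :=
      tendsto_one_div_add_atTop_nhds_zero_nat.const_mul _
    have h3 := h1.add h2
    rwa [mul_zero, add_zero] at h3
  have hMt : Tendsto M atTop atTop := by
    apply tendsto_atTop_mono hMj
    exact tendsto_atTop_add_const_right _ _ tendsto_natCast_atTop_atTop
  refine real_lattice (M := M) (ε := fun j => C / M j + 4 / R * (1 / ((j : ℝ) + 1)))
    (B := 4 * 1 / R * W) hMpos hMt hεt hC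
    (Ψ := fun j k l => F j k l z₀) (d := fun j k l => fderiv ℂ (F j k l) z₀ (w z₀))
    ?_ ?_ ?_ ?_ ?_ ?_ ?_
  · intro j k l
    exact (hF j k l).2 z₀ hz₀
  · intro j k l
    have h1 := fderiv_bound ((hF j k l).1.mono hball) (fun z hz => (hF j k l).2 z (hball hz))
      (z := z₀) (mem_ball_self (by positivity))
    exact ((fderiv ℂ (F j k l) z₀).le_opNorm _).trans
      (mul_le_mul h1 (hWw' z₀ hz₀K) (norm_nonneg _) (by positivity))
  · intro j k l
    have h1 := (hstepg j k l).1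
    rw [← hFk j k l z₀ hz₀, ← hCdef] at h1
    exact h1
  · intro j k l
    have h1 := (hsteph j k l).1
    rw [← hFl j k l z₀ hz₀, ← hCdef] at h1
    exact h1
  · intro j k l
    have h1 := (hstepg j k l).2
    rw [← hfd _ _ (hFk j k l), ← hCdef] at h1
    exact h1
  · intro j k l
    have h1 := (hsteph j k l).2
    rw [← hfd _ _ (hFl j k l), ← hCdef] at h1
    exact h1
  · intro j
    have h1 : fderiv ℂ (F j 0 0) z₀ = fderiv ℂ f z₀ := by
      apply hfd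
      intro z hz
      rw [hFdef]
      show f (σ (g j ^ (0 : ℤ) * h j ^ (0 : ℤ)) z) = f z
      rw [zpow_zero, zpow_zero, one_mul, hσ.one z hz]
    show fderiv ℂ (F j 0 0) z₀ (w z₀) = fderiv ℂ f z₀ (w z₀)
    rw [h1]

end Pool.Agent.H906.BD
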