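import Pool.Agent.H906.BD.Setup

/-! # T02 Scales: limit fields are approximated at every large scale; sums of limit fields -/

open Filter Topology Set Metric

namespace Pool.Agent.H906.BD

variable {E : Type*} [NormedAddCommGroup E] [NormedSpace ℂ E]
variable {Γ : Type*} [Group Γ] {D : Set E} {σ : Γ → E → E}

/-- uniform bounds and Lipschitz constants on balls with centres in a compact set -/
theorem scales_unif [ProperSpace E] (hD : IsOpen D) {v : E → E} (hv : DifferentiableOn ℂ v D)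
    {K : Set E} (hK : K ⊆ D) (hKc : IsCompact K) :
    ∃ K₂ ⊆ D, IsCompact K₂ ∧ ∃ r > 0, ∃ M, 0 ≤ M ∧ ∀ z ∈ K, ball z (2 * r) ⊆ K₂ ∧
      (∀ y ∈ ball z (2 * r), ‖v y‖ ≤ M) ∧
      (∀ x ∈ ball z (2 * r), ∀ y ∈ ball z (2 * r), ‖v y - v x‖ ≤ M * ‖y - x‖) := by
  obtain ⟨δ, hδ, hc, hsub⟩ := exists_thick hD hK hKc
  obtain ⟨C, hC⟩ := hc.exists_bound_of_continuousOn (hv.continuousOn.mono hsub)
  refine ⟨cthickening δ K, hsub, hc, δ / 8, by positivity, max (max C 0) (4 * max C 0 / δ),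
    le_max_of_le_left (le_max_right _ _), fun z hz => ?_⟩
  have e : 2 * (δ / 8) = δ / 4 := by ring
  rw [e]
  have hb : ball z δ ⊆ cthickening δ K := fun y hy => mem_thick hz (by
    rw [mem_ball, dist_eq_norm] at hy
    exact hy.le)
  have hs : ball z (δ / 4) ⊆ ball z δ := ball_subset_ball (by linarith)
  refine ⟨hs.trans hb, fun y hy => ?_, fun x hx y hy => ?_⟩
  · exact (hC y (hb (hs hy))).trans (le_max_of_le_left (le_max_left _ _))
  · have h1 := lip_ball (M := max C 0) (hv.mono (hb.trans hsub))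
      (fun y hy => (hC y (hb hy)).trans (le_max_left _ _)) hx hy
    refine h1.trans ?_
    gcongr
    exact le_max_right _ _

/-- the inverses approximate the opposite field -/
theorem scales_inv [ProperSpace E] (hD : IsOpen D) (hσ : HolAct D σ)
    {v : E → E} (hv : ContinuousOn v D) {l : Filter (ℝ × Γ)}
    (h2 : Tendsto Prod.snd l (Nbh D σ))
    (h4 : LU (fun (p : ℝ × Γ) z => (p.1 : ℂ) • (σ p.2 z - z)) v l D)
    {K : Set E} (hK : K ⊆ D) (hKc : IsCompact K) {ε : ℝ} (hε : 0 < ε) :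
    ∀ᶠ p in l, ∀ z ∈ K, ‖(p.1 : ℂ) • (σ p.2⁻¹ z - z) - (-v z)‖ < ε := by
  obtain ⟨δ, hδ, hc, hsub⟩ := exists_thick hD hK hKc
  have huc := hc.uniformContinuousOn_of_continuous (hv.mono hsub)
  rw [Metric.uniformContinuousOn_iff] at huc
  obtain ⟨ρ, hρ, hρ2⟩ := huc (ε / 2) (by positivity)
  have hm : 0 < min δ ρ := by positivity
  filter_upwards [h4.compact hc hsub (show 0 < ε / 2 by positivity),
    h2.eventually (eventually_near (σ := σ) hK hKc hm)] with p hp1 hp2 z hz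
  have h5 := (hp2 z hz).2
  have h6 : σ p.2⁻¹ z ∈ cthickening δ K := mem_thick hz (h5.le.trans (min_le_left _ _))
  have h7 := hp1 _ h6
  rw [hσ.act_inv p.2 (hK hz)] at h7
  have h8 := hρ2 _ h6 _ (self_subset_cthickening K hz) (by
    rw [dist_eq_norm]
    exact h5.trans_le (min_le_right _ _))
  rw [dist_eq_norm] at h8
  have e : (p.1 : ℂ) • (σ p.2⁻¹ z - z) - (-v z) =
      -((p.1 : ℂ) • (z - σ p.2⁻¹ z) - v (σ p.2⁻¹ z)) - (v (σ p.2⁻¹ z) - v z) := by
    rw [smul_sub, smul_sub]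
    abel
  rw [e]
  refine (norm_sub_le _ _).trans_lt ?_
  rw [norm_neg]
  linarith

theorem IsLim.scales [ProperSpace E] (hD : IsOpen D) (hσ : HolAct D σ) {S : Subgroup Γ}
    {v : E → E} (hv : IsLim D σ (S : Set Γ) v) (hneg : IsLim D σ (S : Set Γ) (fun z => - v z))
    {K : Set E} (hK : K ⊆ D) (hKc : IsCompact K) {η : ℝ} (hη : 0 < η) {N : Set Γ}
    (hN : N ∈ Nbh D σ) :
    ∃ m₀ : ℝ, ∀ m ≥ m₀, ∃ g ∈ S, g ∈ N ∧ ∀ z ∈ K, ‖(m : ℂ) • (σ g z - z) - v z‖ < η := by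
  obtain ⟨K', hK', hKc', ε, hε, hN'⟩ := mem_Nbh.1 hN
  have hvd := hv.hol hσ
  obtain ⟨l, h1, h2, h3, h4⟩ := hv.lim
  obtain ⟨K₂, hK₂, hKc₂, r, hr, M, hM, hunif⟩ :=
    scales_unif hD hvd (union_subset hK hK') (hKc.union hKc')
  refine ⟨max 1 (max ((M + 1) / r) (max ((M + 1) / ε + 1) (4 * (M * (M + 2)) / η))),
    fun m hm => ?_⟩
  have m1 : 1 ≤ m := (le_max_left _ _).trans hm
  have m2 : (M + 1) / r ≤ m := ((le_max_left _ _).trans (le_max_right _ _)).trans hm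
  have m3 : (M + 1) / ε + 1 ≤ m :=
    ((le_max_left _ _).trans ((le_max_right _ _).trans (le_max_right _ _))).trans hm
  have m4 : 4 * (M * (M + 2)) / η ≤ m :=
    ((le_max_right _ _).trans ((le_max_right _ _).trans (le_max_right _ _))).trans hm
  have hm0 : 0 < m := by linarith
  have hη₁ : 0 < min 1 (η / 4) := by positivity
  obtain ⟨p, hp1, hp2, hp3, hp4⟩ := ((h4.compact hKc₂ hK₂ hη₁).and
    ((scales_inv hD hσ hvd.continuousOn h2 h4 hK₂ hKc₂ one_pos).and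
    (h3.and (h1.eventually (eventually_ge_atTop (m ^ 2)))))).exists
  have hL : 0 < p.1 := by
    have : 0 < m ^ 2 := by positivity
    linarith
  set q := ⌊p.1 / m⌋₊ with hq
  have hq1 : (q : ℝ) ≤ p.1 / m := Nat.floor_le (by positivity)
  have hq2 : p.1 / m < q + 1 := Nat.lt_floor_add_one _
  have hqm : (q : ℝ) * m ≤ p.1 := by rwa [le_div_iff₀ hm0] at hq1
  have hqm2 : p.1 < (q + 1) * m := by rwa [div_lt_iff₀ hm0] at hq2
  have hqp : (q : ℝ) / p.1 ≤ 1 / m := by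
    rw [div_le_div_iff₀ hL hm0]
    linarith
  have hA : (M + 1) / m ≤ r := by
    rw [div_le_iff₀ hr] at m2
    rw [div_le_iff₀ hm0]
    linarith
  have hAε : (M + 1) / m < ε := by
    have : (M + 1) / ε < m := by linarith
    rw [div_lt_iff₀ hε] at this
    rw [div_lt_iff₀ hm0]
    linarith
  have hqA : q * (M + 1) / p.1 ≤ (M + 1) / m := by
    calc q * (M + 1) / p.1 = (q / p.1) * (M + 1) := by ring
      _ ≤ (1 / m) * (M + 1) := by gcongr
      _ = (M + 1) / m := by ring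
  -- the orbit of `g`
  have ho : ∀ z ∈ K ∪ K', ‖σ (p.2 ^ q) z - z‖ ≤ q * (M + 1) / p.1 ∧
      ‖σ (p.2 ^ q) z - z - ((q / p.1 : ℝ) : ℂ) • v z‖ ≤
        q / p.1 * (M * ((M + 1) / m) + min 1 (η / 4)) := by
    intro z hz
    obtain ⟨u1, u2, u3⟩ := hunif z hz
    exact orbit hσ (v := v) (z₀ := z) (z := z) (r := r) (u1.trans hK₂) (mem_ball_self hr) hA hM
      u2 u3 hL (min_le_left _ _) (fun y hy => hp1 y (u1 hy)) q hqA
  -- the orbit of `g⁻¹`
  have ho' : ∀ z ∈ K ∪ K', ‖σ (p.2⁻¹ ^ q) z - z‖ ≤ q * (M + 1) / p.1 := by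
    intro z hz
    obtain ⟨u1, u2, u3⟩ := hunif z hz
    exact (orbit hσ (v := fun z => -v z) (z₀ := z) (z := z) (r := r) (η := 1)
      (u1.trans hK₂) (mem_ball_self hr) hA hM
      (fun y hy => by rw [norm_neg]; exact u2 y hy)
      (fun x hx y hy => by
        have e : -v y - -v x = -(v y - v x) := by abel
        rw [e, norm_neg]
        exact u3 x hx y hy) hL le_rfl (fun y hy => hp2 y (u1 hy)) q hqA).1
  refine ⟨p.2 ^ q, S.pow_mem hp3 q, hN' _ (fun z hz => ⟨?_, ?_⟩), fun z hz => ?_⟩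
  · exact ((ho z (Or.inr hz)).1.trans hqA).trans_lt hAε
  · rw [← _root_.inv_pow]
    exact ((ho' z (Or.inr hz)).trans hqA).trans_lt hAε
  · obtain ⟨o1, o2⟩ := ho z (Or.inl hz)
    obtain ⟨-, u2, -⟩ := hunif z (Or.inl hz)
    have hvz := u2 z (mem_ball_self (by positivity))
    have e : (m : ℂ) • (σ (p.2 ^ q) z - z) - v z =
        (m : ℂ) • (σ (p.2 ^ q) z - z - ((q / p.1 : ℝ) : ℂ) • v z) +
          ((m * (q / p.1) - 1 : ℝ) : ℂ) • v z := by
      rw [smul_sub (m : ℂ) (σ (p.2 ^ q) z - z), Complex.ofReal_sub, sub_smul, Complex.ofReal_mul,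
        mul_smul, Complex.ofReal_one, one_smul]
      abel
    rw [e]
    refine (norm_add_le _ _).trans_lt ?_
    rw [norm_smul, norm_smul, Complex.norm_real, Complex.norm_real, Real.norm_eq_abs,
      Real.norm_eq_abs, abs_of_pos hm0]
    have a1 : m * ‖σ (p.2 ^ q) z - z - ((q / p.1 : ℝ) : ℂ) • v z‖ ≤
        M * (M + 1) / m + η / 4 := by
      calc m * ‖σ (p.2 ^ q) z - z - ((q / p.1 : ℝ) : ℂ) • v z‖
          ≤ m * (q / p.1 * (M * ((M + 1) / m) + min 1 (η / 4))) := by gcongr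
        _ ≤ m * (1 / m * (M * ((M + 1) / m) + min 1 (η / 4))) := by gcongr
        _ = M * ((M + 1) / m) + min 1 (η / 4) := by field_simp
        _ ≤ M * (M + 1) / m + η / 4 := by
            have := min_le_right 1 (η / 4)
            have e2 : M * ((M + 1) / m) = M * (M + 1) / m := by ring
            linarith
    have a2 : |m * (q / p.1) - 1| ≤ 1 / m := by
      rw [abs_le]
      constructor
      · have : 1 - 1 / m ≤ m * (q / p.1) := by
          have h5 : m * (q / p.1) = q * m / p.1 := by ring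
          rw [h5, le_div_iff₀ hL]
          have h6 : p.1 * (1 / m) ≥ m := by
            rw [mul_one_div, ge_iff_le, le_div_iff₀ hm0]
            nlinarith
          nlinarith
        linarith
      · have : m * (q / p.1) ≤ m * (1 / m) := by gcongr
        rw [mul_one_div, div_self hm0.ne'] at this
        have h6 : 0 < 1 / m := by positivity
        linarith
    have a3 : |m * (q / p.1) - 1| * ‖v z‖ ≤ 1 / m * M := by gcongr
    have a4 : M * (M + 1) / m + 1 / m * M ≤ η / 4 := by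
      have h5 : M * (M + 1) / m + 1 / m * M = (M * (M + 2)) / m := by ring
      rw [h5, div_le_iff₀ hm0]
      rw [div_le_iff₀ hη] at m4
      linarith
    linarith

/-- sums: the hypothesis `hv`, `hw` are the conclusions of `scales`, the conclusion is the
hypothesis of `IsLim.of_approx` -/
theorem scales_add [ProperSpace E] (hD : IsOpen D) (hσ : HolAct D σ) {S : Subgroup Γ}
    {v w : E → E} (hvd : DifferentiableOn ℂ v D)
    (hv : ∀ K ⊆ D, IsCompact K → ∀ η > 0, ∀ N ∈ Nbh D σ,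
      ∃ m₀ : ℝ, ∀ m ≥ m₀, ∃ g ∈ S, g ∈ N ∧ ∀ z ∈ K, ‖(m : ℂ) • (σ g z - z) - v z‖ < η)
    (hw : ∀ K ⊆ D, IsCompact K → ∀ η > 0, ∀ N ∈ Nbh D σ,
      ∃ m₀ : ℝ, ∀ m ≥ m₀, ∃ g ∈ S, g ∈ N ∧ ∀ z ∈ K, ‖(m : ℂ) • (σ g z - z) - w z‖ < η)
    {K : Set E} (hK : K ⊆ D) (hKc : IsCompact K) {η : ℝ} (hη : 0 < η) {N : Set Γ}
    (hN : N ∈ Nbh D σ) :
    ∃ m₀ : ℝ, ∀ m ≥ m₀, ∃ g ∈ S, g ∈ N ∧
      ∀ z ∈ K, ‖(m : ℂ) • (σ g z - z) - (v z + w z)‖ < η := by
  obtain ⟨K', hK', hKc', ε, hε, hN'⟩ := mem_Nbh.1 hN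
  obtain ⟨δ', hδ', hc', hsub'⟩ := exists_thick hD hK' hKc'
  obtain ⟨δ, hδ, hc, hsub⟩ := exists_thick hD hK hKc
  have huc := hc.uniformContinuousOn_of_continuous (hvd.continuousOn.mono hsub)
  rw [Metric.uniformContinuousOn_iff] at huc
  obtain ⟨ρ, hρ, hρ2⟩ := huc (η / 3) (by positivity)
  have hm' : 0 < min δ' (ε / 2) := by positivity
  have hm : 0 < min δ ρ := by positivity
  have hN1 : {γ | Near σ (cthickening δ' K') (min δ' (ε / 2)) γ} ∈ Nbh D σ :=
    eventually_near (σ := σ) hsub' hc' hm'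
  have hN2 : {γ | Near σ K (min δ ρ) γ} ∈ Nbh D σ := eventually_near (σ := σ) hK hKc hm
  obtain ⟨m₁, hm₁⟩ := hv _ hsub hc (η / 3) (by positivity) _ hN1
  obtain ⟨m₂, hm₂⟩ := hw K hK hKc (η / 3) (by positivity) _ (inter_mem hN1 hN2)
  refine ⟨max m₁ m₂, fun m hmm => ?_⟩
  obtain ⟨g, hgS, hg1, hg2⟩ := hm₁ m ((le_max_left _ _).trans hmm)
  obtain ⟨h, hhS, hh1, hh2⟩ := hm₂ m ((le_max_right _ _).trans hmm)
  refine ⟨g * h, S.mul_mem hgS hhS, hN' _ ?_, fun z hz => ?_⟩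
  · refine (near_mul hσ hK' (min_le_left _ _) hg1 hh1.1).mono Subset.rfl ?_
    have := min_le_right δ' (ε / 2)
    linarith
  · have h5 := (hh1.2 z hz).1
    have h6 : σ h z ∈ cthickening δ K := mem_thick hz (h5.le.trans (min_le_left _ _))
    have h7 := hρ2 _ h6 _ (self_subset_cthickening K hz) (by
      rw [dist_eq_norm]
      exact h5.trans_le (min_le_right _ _))
    rw [dist_eq_norm] at h7
    have h8 := hg2 _ h6
    have h9 := hh2 z hz
    have e : (m : ℂ) • (σ (g * h) z - z) - (v z + w z) =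
        ((m : ℂ) • (σ g (σ h z) - σ h z) - v (σ h z)) + (v (σ h z) - v z) +
          ((m : ℂ) • (σ h z - z) - w z) := by
      rw [hσ.mul _ _ z (hK hz), smul_sub, smul_sub, smul_sub]
      abel
    rw [e]
    refine (norm_add₃_le).trans_lt ?_
    linarith

end Pool.Agent.H906.BD
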