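import Pool.Agent.H906.BD.Setup
import Pool.Agent.H906.PC.Aut

/-! # T18 Struct: automorphisms of `D × ℂ^B` which preserve `T_D` and the coordinate lines of `ℂ^B`

Proof. Let `f = ρ γ` with inverse `h = ρ γ⁻¹` on `Tot D B = D × ℂ^B`. (1) For fixed `z ∈ D` the map
`w ↦ prA (f (z, w))` is holomorphic on `ℂ^B` and bounded (`D` is bounded), so constant (Liouville along
complex lines). (2) The component `f x (inr j)` depends only on `x (inr j)`: the function
`x ↦ f (update x (inr j) w) (inr j)` has zero derivative on the open connected set `Tot D B`.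
(3) So it is an entire function `φ_j` of `x (inr j)`, with entire inverse, and `aut_C` applies.
(4) `HolAct D σ` and `a_{γδ} = a_γ a_δ` follow from the action property. -/

open Filter Topology Set Metric

namespace Pool.Agent.H906.BD

section StructAux

variable {A B : Type*} [Fintype A] [Fintype B] [DecidableEq A] [DecidableEq B]

omit [Fintype A] [Fintype B] [DecidableEq A] [DecidableEq B] in
theorem struct_cont_prA : Continuous (prA : (A ⊕ B → ℂ) → (A → ℂ)) :=
  continuous_pi fun _ => continuous_apply _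

omit [Fintype A] [Fintype B] [DecidableEq A] [DecidableEq B] in
theorem struct_isOpen {D : Set (A → ℂ)} (hD : IsOpen D) : IsOpen (Tot D B) :=
  hD.preimage struct_cont_prA

omit [Fintype A] [Fintype B] [DecidableEq A] [DecidableEq B] in
theorem struct_conn {D : Set (A → ℂ)} (hc : IsPreconnected D) : IsPreconnected (Tot D B) := by
  have h1 : IsPreconnected (D ×ˢ (univ : Set (B → ℂ))) := hc.prod isPreconnected_univ
  have h2 : Continuous fun p : (A → ℂ) × (B → ℂ) => (Sum.elim p.1 p.2 : A ⊕ B → ℂ) := by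
    refine continuous_pi fun k => ?_
    rcases k with i | j
    · exact (continuous_apply i).comp continuous_fst
    · exact (continuous_apply j).comp continuous_snd
  have h3 := h1.image _ h2.continuousOn
  have h4 : (fun p : (A → ℂ) × (B → ℂ) => (Sum.elim p.1 p.2 : A ⊕ B → ℂ)) ''
      (D ×ˢ (univ : Set (B → ℂ))) = Tot D B := by
    ext x
    constructor
    · rintro ⟨p, hp, rfl⟩
      exact hp.1
    · intro hx
      refine ⟨(prA x, prB x), ⟨hx, trivial⟩, ?_⟩
      funext k
      rcases k with i | j <;> rfl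
  rwa [h4] at h3

omit [DecidableEq A] [DecidableEq B] in
/-- Liouville along the fibres -/
theorem struct_fibre {D : Set (A → ℂ)} (hD : IsOpen D) {R : ℝ} (hR : ∀ z ∈ D, ‖z‖ ≤ R)
    {f : (A ⊕ B → ℂ) → (A ⊕ B → ℂ)} (hf : DifferentiableOn ℂ f (Tot D B))
    (hm : ∀ x ∈ Tot D B, f x ∈ Tot D B) {x y : A ⊕ B → ℂ} (hx : x ∈ Tot D B)
    (hxy : prA x = prA y) : prA (f x) = prA (f y) := by
  funext i
  have hmem : ∀ t : ℂ, x + t • (y - x) ∈ Tot D B := by
    intro t
    have h1 : prA (x + t • (y - x)) = prA x := by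
      funext k
      have h2 := congrFun hxy k
      change x (Sum.inl k) = y (Sum.inl k) at h2
      change x (Sum.inl k) + t * (y (Sum.inl k) - x (Sum.inl k)) = x (Sum.inl k)
      rw [h2, sub_self, mul_zero, add_zero]
    change prA _ ∈ D
    rw [h1]
    exact hx
  have hdiff : Differentiable ℂ fun t : ℂ => f (x + t • (y - x)) (Sum.inl i) := by
    intro t
    have h1 : DifferentiableAt ℂ (fun t : ℂ => x + t • (y - x)) t :=
      (differentiableAt_id.smul_const (y - x)).const_add x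
    have h2 := hf.differentiableAt ((struct_isOpen hD).mem_nhds (hmem t))
    exact (differentiableAt_pi.1 (h2.comp t h1)) (Sum.inl i)
  have hb : Bornology.IsBounded (range fun t : ℂ => f (x + t • (y - x)) (Sum.inl i)) := by
    refine isBounded_iff_forall_norm_le.2 ⟨R, ?_⟩
    rintro _ ⟨t, rfl⟩
    exact (norm_le_pi_norm (prA (f (x + t • (y - x)))) i).trans (hR _ (hm _ (hmem t)))
  have h5 := hdiff.apply_eq_apply_of_bounded hb 0 1
  have h6 : x + (0 : ℂ) • (y - x) = x := by rw [zero_smul, add_zero]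
  have h7 : x + (1 : ℂ) • (y - x) = y := by rw [one_smul, add_sub_cancel]
  rw [h6, h7] at h5
  exact h5

/-- the component `inr j` depends only on the coordinate `inr j` -/
theorem struct_dep {D : Set (A → ℂ)} (hD : IsOpen D) (hc : IsPreconnected D)
    {f : (A ⊕ B → ℂ) → (A ⊕ B → ℂ)} (hf : DifferentiableOn ℂ f (Tot D B)) (j : B)
    (hs1 : ∀ x ∈ Tot D B, ∀ i, Jac f x (Sum.inr j) (Sum.inl i) = 0)
    (hs2 : ∀ x ∈ Tot D B, ∀ j', j ≠ j' → Jac f x (Sum.inr j) (Sum.inr j') = 0)
    {x y : A ⊕ B → ℂ} (hx : x ∈ Tot D B) (hy : y ∈ Tot D B)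
    (hxy : x (Sum.inr j) = y (Sum.inr j)) : f x (Sum.inr j) = f y (Sum.inr j) := by
  obtain ⟨w, hw⟩ : ∃ w, w = x (Sum.inr j) := ⟨_, rfl⟩
  -- the affine projection to the hyperplane `x (inr j) = w`
  have hL : ∃ L : (A ⊕ B → ℂ) →L[ℂ] (A ⊕ B → ℂ), ∀ v, L v = Function.update v (Sum.inr j) 0 := by
    refine ⟨ContinuousLinearMap.pi fun k => if k = Sum.inr j then 0 else
      ContinuousLinearMap.proj k, fun v => ?_⟩
    funext k
    rw [ContinuousLinearMap.pi_apply]
    by_cases hk : k = Sum.inr j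
    · rw [if_pos hk, hk, Function.update_self]
      rfl
    · rw [if_neg hk, Function.update_of_ne hk]
      rfl
  obtain ⟨L, hL⟩ := hL
  have hP : ∀ v : A ⊕ B → ℂ, Function.update v (Sum.inr j) w =
      L v + Pi.single (Sum.inr j) w := by
    intro v
    rw [hL]
    funext k
    by_cases hk : k = Sum.inr j
    · subst hk
      simp
    · simp [hk]
  have hmem : ∀ v ∈ Tot D B, L v + Pi.single (Sum.inr j) w ∈ Tot D B := by
    intro v hv
    rw [← hP]
    have h1 : prA (Function.update v (Sum.inr j) w) = prA v := by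
      funext i
      exact Function.update_of_ne (by simp) _ _
    change prA _ ∈ D
    rw [h1]
    exact hv
  have hd : ∀ v ∈ Tot D B, HasFDerivAt
      (fun v => f (L v + Pi.single (Sum.inr j) w) (Sum.inr j))
      ((ContinuousLinearMap.proj (Sum.inr j) : (A ⊕ B → ℂ) →L[ℂ] ℂ).comp
        ((fderiv ℂ f (L v + Pi.single (Sum.inr j) w)).comp L)) v := by
    intro v hv
    have h1 : HasFDerivAt (fun v => L v + Pi.single (Sum.inr j) w) L v :=
      L.hasFDerivAt.add_const _
    have h2 := (hf.differentiableAt ((struct_isOpen hD).mem_nhds (hmem v hv))).hasFDerivAt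
    have h3 := h2.comp v h1
    exact (ContinuousLinearMap.proj (Sum.inr j) : (A ⊕ B → ℂ) →L[ℂ] ℂ).hasFDerivAt.comp v h3
  have hz : ∀ v ∈ Tot D B, ((ContinuousLinearMap.proj (Sum.inr j) : (A ⊕ B → ℂ) →L[ℂ] ℂ).comp
        ((fderiv ℂ f (L v + Pi.single (Sum.inr j) w)).comp L)) = 0 := by
    intro v hv
    ext u
    change fderiv ℂ f (L v + Pi.single (Sum.inr j) w) (L u) (Sum.inr j) = 0
    have h2 : L u = ∑ k, L u k • (Pi.single k (1 : ℂ) : A ⊕ B → ℂ) := by
      funext l
      simp [Finset.sum_apply, Pi.single_apply]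
    rw [h2, map_sum, Finset.sum_apply]
    refine Finset.sum_eq_zero fun k _ => ?_
    rw [map_smul, Pi.smul_apply, smul_eq_mul]
    rcases k with i | j'
    · have h3 := hs1 _ (hmem v hv) i
      change fderiv ℂ f (L v + Pi.single (Sum.inr j) w) (Pi.single (Sum.inl i) 1) (Sum.inr j) = 0
        at h3
      rw [h3, mul_zero]
    · by_cases hj : j = j'
      · subst hj
        rw [hL, Function.update_self, zero_mul]
      · have h3 := hs2 _ (hmem v hv) j' hj
        change fderiv ℂ f (L v + Pi.single (Sum.inr j) w) (Pi.single (Sum.inr j') 1)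
          (Sum.inr j) = 0 at h3
        rw [h3, mul_zero]
  have hconst := (struct_isOpen (B := B) hD).is_const_of_fderiv_eq_zero (𝕜 := ℂ) (struct_conn hc)
    (f := fun v => f (L v + Pi.single (Sum.inr j) w) (Sum.inr j))
    (fun v hv => (hd v hv).differentiableAt.differentiableWithinAt)
    (fun v hv => by rw [(hd v hv).fderiv, hz v hv]; rfl) hx hy
  rw [← hP, ← hP] at hconst
  have e1 : Function.update x (Sum.inr j) w = x := by rw [hw, Function.update_eq_self]
  have e2 : Function.update y (Sum.inr j) w = y := by rw [hw, hxy, Function.update_eq_self]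
  rw [e1, e2] at hconst
  exact hconst

end StructAux

variable {A B : Type*} [Fintype A] [Fintype B] [DecidableEq A] [DecidableEq B]
variable {Γ : Type*} [Group Γ]

theorem split_structure {D : Set (A → ℂ)} (hD : IsOpen D) (hc : IsPreconnected D)
    (hne : D.Nonempty) {R : ℝ} (hR : ∀ z ∈ D, ‖z‖ ≤ R) {ρ : Γ → (A ⊕ B → ℂ) → (A ⊕ B → ℂ)}
    (hρ : HolAct (Tot D B) ρ)
    (hs1 : ∀ γ, ∀ x ∈ Tot D B, ∀ j i, Jac (ρ γ) x (Sum.inr j) (Sum.inl i) = 0)
    (hs2 : ∀ γ, ∀ x ∈ Tot D B, ∀ j j', j ≠ j' → Jac (ρ γ) x (Sum.inr j) (Sum.inr j') = 0) :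
    ∃ (σ : Γ → (A → ℂ) → (A → ℂ)) (a b : Γ → B → ℂ), SplitAct D ρ σ a b ∧
      (∀ γ δ j, a (γ * δ) j = a γ j * a δ j) ∧ (∀ γ j, a γ j ≠ 0) := by
  obtain ⟨z0, hz0⟩ := hne
  have hfib : ∀ γ, ∀ x ∈ Tot D B, ∀ y, prA x = prA y → prA (ρ γ x) = prA (ρ γ y) :=
    fun γ x hx y hxy => struct_fibre hD hR (hρ.hol γ) (hρ.maps γ) hx hxy
  have hdep : ∀ γ j, ∀ x ∈ Tot D B, ∀ y ∈ Tot D B, x (Sum.inr j) = y (Sum.inr j) →
      ρ γ x (Sum.inr j) = ρ γ y (Sum.inr j) := fun γ j x hx y hy hxy =>
    struct_dep hD hc (hρ.hol γ) j (fun x hx i => hs1 γ x hx j i)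
      (fun x hx j' hj => hs2 γ x hx j j' hj) hx hy hxy
  have hel : ∀ z ∈ D, (Sum.elim z 0 : A ⊕ B → ℂ) ∈ Tot D B := fun z hz => hz
  have hpel : ∀ z : A → ℂ, prA (Sum.elim z 0 : A ⊕ B → ℂ) = z := fun z => rfl
  -- the functions of the coordinates
  obtain ⟨x0, hx0⟩ : ∃ x0 : A ⊕ B → ℂ, x0 = Sum.elim z0 0 := ⟨_, rfl⟩
  have hup : ∀ (j : B) (t : ℂ), Function.update x0 (Sum.inr j) t ∈ Tot D B := by
    intro j t
    have h1 : prA (Function.update x0 (Sum.inr j) t) = z0 := by
      funext i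
      change Function.update x0 (Sum.inr j) t (Sum.inl i) = z0 i
      rw [Function.update_of_ne (by simp), hx0]
      rfl
    change prA _ ∈ D
    rw [h1]
    exact hz0
  obtain ⟨φ, hφ⟩ : ∃ φ : Γ → B → ℂ → ℂ, ∀ γ j t,
      φ γ j t = ρ γ (Function.update x0 (Sum.inr j) t) (Sum.inr j) := ⟨_, fun _ _ _ => rfl⟩
  have hφx : ∀ γ j, ∀ x ∈ Tot D B, ρ γ x (Sum.inr j) = φ γ j (x (Sum.inr j)) := by
    intro γ j x hx
    rw [hφ]
    exact hdep γ j x hx _ (hup j _) (by rw [Function.update_self])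
  have hφd : ∀ γ j, Differentiable ℂ (φ γ j) := by
    intro γ j t
    have h0 : φ γ j = fun t => ρ γ (Function.update x0 (Sum.inr j) t) (Sum.inr j) :=
      funext fun t => hφ γ j t
    rw [h0]
    have h1 : DifferentiableAt ℂ (fun t => Function.update x0 (Sum.inr j) t) t := by
      rw [differentiableAt_pi]
      intro l
      by_cases hl : l = Sum.inr j
      · subst hl
        simp only [Function.update_self]
        exact differentiableAt_id
      · simp only [Function.update_of_ne hl]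
        exact differentiableAt_const _
    have h2 := (hρ.hol γ).differentiableAt ((struct_isOpen hD).mem_nhds (hup j t))
    exact (differentiableAt_pi.1 (h2.comp t h1)) (Sum.inr j)
  have hφm : ∀ γ δ j t, φ (γ * δ) j t = φ γ j (φ δ j t) := by
    intro γ δ j t
    rw [hφ (γ * δ), hρ.mul γ δ _ (hup j t), hφx γ j _ (hρ.maps δ _ (hup j t)), ← hφ δ]
  have hφ1 : ∀ j t, φ 1 j t = t := by
    intro j t
    rw [hφ, hρ.one _ (hup j t), Function.update_self]
  have haff : ∀ γ j, ∃ c b : ℂ, c ≠ 0 ∧ ∀ z, φ γ j z = c * z + b := by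
    intro γ j
    exact Pool.Agent.H906.PC.aut_C (hφd γ j) (hφd γ⁻¹ j)
      (fun z => by rw [← hφm, inv_mul_cancel, hφ1])
  choose a b hab using haff
  refine ⟨fun γ z => prA (ρ γ (Sum.elim z 0)), a, b, ⟨hρ, ⟨?_, ?_, ?_, ?_⟩, ?_, ?_⟩, ?_, ?_⟩
  · intro γ z hz
    exact hρ.maps γ _ (hel z hz)
  · intro z hz
    rw [hρ.one _ (hel z hz)]
    rfl
  · intro γ δ z hz
    rw [hρ.mul γ δ _ (hel z hz)]
    exact hfib γ _ (hρ.maps δ _ (hel z hz)) _ rfl
  · intro γ z hz
    have h1 : DifferentiableAt ℂ (fun z : A → ℂ => (Sum.elim z 0 : A ⊕ B → ℂ)) z := by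
      rw [differentiableAt_pi]
      intro l
      rcases l with i | j
      · exact differentiableAt_apply i z
      · exact differentiableAt_const _
    have h2 := (hρ.hol γ).differentiableAt ((struct_isOpen hD).mem_nhds (hel z hz))
    have h3 := h2.comp z h1
    have h4 : DifferentiableAt ℂ (fun z => prA (ρ γ (Sum.elim z 0 : A ⊕ B → ℂ))) z := by
      rw [differentiableAt_pi]
      intro i
      exact (differentiableAt_pi.1 h3) (Sum.inl i)
    exact h4.differentiableWithinAt
  · intro γ x hx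
    exact hfib γ x hx _ rfl
  · intro γ x hx j
    rw [hφx γ j x hx, (hab γ j).2]
  · intro γ δ j
    have h1 := hφm γ δ j 1
    have h0 := hφm γ δ j 0
    rw [(hab (γ * δ) j).2, (hab δ j).2, (hab γ j).2] at h1 h0
    linear_combination h1 - h0
  · intro γ j
    exact (hab γ j).1

end Pool.Agent.H906.BD
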