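import Pool.Agent.H906.BD.Setup

/-! # T16 Sum: locally uniform summability of `∑ |J_q|²` for a properly discontinuous group on a bounded domain

`D ⊆ ℂ^A` bounded open; `Γ` acts on `D` by holomorphic maps; only finitely many maps `σ γ` satisfy
`σ γ K ∩ K ≠ ∅` (`hdisc`). `Q` is a set of indices with an injective-on-maps selection `s : Q → Γ`
(`hs`: different `q` give different maps on `D`).

Proof. Let `K ⊆ D` be compact, `K'` a compact thickening (`exists_thick`), `2 r` the thickness, `V` the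
open thickening of `K` by `r` (so `V ⊆ K'`). For `z ∈ K` and `q ∈ Q`, the holomorphic function `J = det Jac (σ (s q))`
satisfies `|J(z)|² ≤ C ∫_{ball z r} |J|²`, `C = 1 / vol (ball 0 r)` (sub-mean value property for
the square of a holomorphic function of several variables, for polydiscs — `A → ℂ` has the sup norm,
its balls are polydiscs — or for balls via rotations `x ↦ z + e^{iθ}(x - z)` as in the library module
`Pool/Graph/R_pool_sql_team_seeded_f72693b1/W738/HS/Montel.lean`, `sub_mean`). So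
`|J(z)|² ≤ C ∫_V |J|² = C vol (σ (s q) V)` (change of variables: task T08, statement `volume_image`
below, you may assume it as a hypothesis or prove it), and `∑_q vol (σ (s q) V) ≤ n · vol D < ∞`,
where `n` bounds the number of `q` with `y ∈ σ (s q) V`: if `y ∈ σ (s q) V` and
`y ∈ σ (s q') V` then `σ ((s q)⁻¹ (s q')) V ∩ V ≠ ∅` so (`hdisc` for `K'`) the map
`σ ((s q)⁻¹ (s q'))` is one of the finitely many `σ t`, `t ∈ T`, and `σ (s q') = σ (s q) σ t`; so
`n = T.card` works. Take `M q = C · (volume (σ (s q) '' V)).toReal`. The holomorphy of `J`: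
`det Jac` is a polynomial in the entries, which are holomorphic by `hol_fderiv_apply`
(`BD/SupF.lean`); prove it as `jacDet_hol`, it is used elsewhere. -/

open Filter Topology Set Metric MeasureTheory
open scoped ENNReal NNReal

namespace Pool.Agent.H906.BD

/-- multiplication by a complex number of absolute value one preserves Haar measure -/
theorem sum_rot {F : Type*} [NormedAddCommGroup F] [NormedSpace ℂ F] [FiniteDimensional ℂ F]
    [MeasurableSpace F] [BorelSpace F] (μ : Measure F) [μ.IsAddHaarMeasure] (c : ℂ)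
    (hc : ‖c‖ = 1) : MeasurePreserving (fun y : F => c • y) μ μ := by
  let _ : NormedSpace ℝ F := NormedSpace.restrictScalars ℝ ℂ F
  have _ : IsScalarTower ℝ ℂ F := RestrictScalars.isScalarTower ℝ ℂ F
  have _ : FiniteDimensional ℝ F := FiniteDimensional.trans ℝ ℂ F
  have hc0 : c ≠ 0 := by
    intro h
    rw [h, norm_zero] at hc
    exact zero_ne_one hc
  let L : F →ₗ[ℝ] F := (LinearMap.lsmul ℂ F c).restrictScalars ℝ
  have hL : ∀ y, L y = c • y := fun y => rfl
  have hinj : Function.Injective L := by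
    intro y z h
    rw [hL, hL] at h
    exact smul_right_injective F hc0 h
  have hdet : LinearMap.det L ≠ 0 := by
    have hu : IsUnit L := (LinearMap.isUnit_iff_ker_eq_bot L).2 (LinearMap.ker_eq_bot.2 hinj)
    exact (LinearMap.isUnit_det L hu).ne_zero
  have hmap := Measure.map_linearMap_addHaar_eq_smul_addHaar μ hdet
  have hmeas : Measurable (fun y : F => c • y) := (continuous_const_smul c).measurable
  have hball : (fun y : F => c • y) ⁻¹' ball 0 1 = ball 0 1 := by
    ext y
    simp [norm_smul, hc]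
  have hval : μ (ball (0:F) 1) = ENNReal.ofReal |(LinearMap.det L)⁻¹| * μ (ball (0:F) 1) := by
    have h1 := congrArg (fun ν : Measure F => ν (ball 0 1)) hmap
    simp only [Measure.smul_apply, smul_eq_mul] at h1
    rw [← h1]
    change _ = (Measure.map (fun y : F => c • y) μ) (ball 0 1)
    rw [Measure.map_apply hmeas measurableSet_ball, hball]
  have hpos : μ (ball (0:F) 1) ≠ 0 := (measure_ball_pos μ 0 one_pos).ne'
  have hfin : μ (ball (0:F) 1) ≠ ⊤ := measure_ball_lt_top.ne
  have hone : ENNReal.ofReal |(LinearMap.det L)⁻¹| = 1 := by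
    have h2 : 1 * μ (ball (0:F) 1) = ENNReal.ofReal |(LinearMap.det L)⁻¹| * μ (ball (0:F) 1) := by
      rw [one_mul]; exact hval
    exact ((ENNReal.mul_left_inj hpos hfin).1 h2).symm
  refine ⟨hmeas, ?_⟩
  change Measure.map L μ = μ
  rw [hmap, hone, one_smul]

theorem sum_inner_le {F : Type*} [NormedAddCommGroup F] [NormedSpace ℂ F] (x y : F) (R : ℝ)
    (f : F → ℂ) (hf : DifferentiableOn ℂ f (ball x R)) (hy : y ∈ ball x R) :
    ENNReal.ofReal (2 * Real.pi) * ‖f x‖ₑ ^ 2 ≤
      ∫⁻ θ in Ioc 0 (2 * Real.pi), ‖f (x + circleMap 0 1 θ • (y - x))‖ₑ ^ 2 := by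
  have hd : ‖y - x‖ < R := by rwa [mem_ball, dist_eq_norm] at hy
  let g : ℂ → ℂ := fun ζ => f (x + ζ • (y - x)) ^ 2
  have hg : ∀ z ∈ closedBall (0:ℂ) |1|, DifferentiableAt ℂ g z := by
    intro z hz
    have hz1 : ‖z‖ ≤ 1 := by simpa using hz
    have hin : x + z • (y - x) ∈ ball x R := by
      rw [mem_ball, dist_eq_norm, add_sub_cancel_left, norm_smul]
      calc ‖z‖ * ‖y - x‖ ≤ 1 * ‖y - x‖ := by gcongr
        _ < R := by rw [one_mul]; exact hd
    have h1 : DifferentiableAt ℂ f (x + z • (y - x)) := hf.differentiableAt (isOpen_ball.mem_nhds hin)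
    have h2 : DifferentiableAt ℂ (fun ζ : ℂ => x + ζ • (y - x)) z := by fun_prop
    exact (DifferentiableAt.comp z h1 h2).pow 2
  have hdc : DiffContOnCl ℂ g (ball 0 |1|) := by
    apply DifferentiableOn.diffContOnCl
    intro z hz
    apply DifferentiableAt.differentiableWithinAt
    apply hg z
    exact closure_ball_subset_closedBall hz
  have havg := DiffContOnCl.circleAverage hdc
  have h0 : g 0 = f x ^ 2 := by simp [g]
  rw [h0] at havg
  unfold Real.circleAverage at havg
  have hpi : (0:ℝ) < 2 * Real.pi := by positivity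
  have h3 : (∫ θ in (0:ℝ)..2 * Real.pi, g (circleMap 0 1 θ)) = (2 * Real.pi) • f x ^ 2 := by
    rw [← havg, smul_smul, mul_inv_cancel₀ hpi.ne', one_smul]
  have h4 : ENNReal.ofReal (2 * Real.pi) * ‖f x‖ₑ ^ 2 =
      ‖∫ θ in (0:ℝ)..2 * Real.pi, g (circleMap 0 1 θ)‖ₑ := by
    rw [h3, enorm_smul, enorm_pow, Real.enorm_of_nonneg hpi.le]
  rw [h4, intervalIntegral.integral_of_le hpi.le]
  refine (enorm_integral_le_lintegral_enorm _).trans (le_of_eq ?_)
  apply lintegral_congr
  intro θ
  simp only [g]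
  rw [enorm_pow]

/-- Sub-mean value inequality over balls, for a Haar measure. -/
theorem sum_sub_mean {F : Type*} [NormedAddCommGroup F] [NormedSpace ℂ F] [FiniteDimensional ℂ F]
    [MeasurableSpace F] [BorelSpace F] (μ : Measure F) [μ.IsAddHaarMeasure] (x : F) (R : ℝ)
    (f : F → ℂ) (hf : DifferentiableOn ℂ f (ball x R)) :
    ‖f x‖ₑ ^ 2 * μ (ball x R) ≤ ∫⁻ y in ball x R, ‖f y‖ₑ ^ 2 ∂μ := by
  have hpi : (0:ℝ) < 2 * Real.pi := by positivity
  have _ : FiniteDimensional ℝ F := FiniteDimensional.trans ℝ ℂ F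
  have _ : ProperSpace F := FiniteDimensional.proper ℂ F
  have _ : SecondCountableTopology F := inferInstance
  set h : F → ℝ≥0∞ := (ball x R).indicator (fun y => ‖f y‖ₑ ^ 2) with hh
  have hhm : Measurable h := by
    classical
    rw [hh, ← Set.piecewise_eq_indicator]
    have hc : ContinuousOn (fun y => ‖f y‖ₑ ^ 2) (ball x R) :=
      (ENNReal.continuous_pow 2).comp_continuousOn (continuous_enorm.comp_continuousOn hf.continuousOn)
    exact hc.measurable_piecewise continuousOn_const isOpen_ball.measurableSet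
  have hint : ∫⁻ y in ball x R, ‖f y‖ₑ ^ 2 ∂μ = ∫⁻ y, h y ∂μ := by
    rw [hh, lintegral_indicator measurableSet_ball]
  have hrot : ∀ θ : ℝ, ∫⁻ y, h (x + circleMap 0 1 θ • (y - x)) ∂μ = ∫⁻ y, h y ∂μ := by
    intro θ
    have hc : ‖circleMap 0 1 θ‖ = 1 := by simp
    have e1 := lintegral_sub_right_eq_self (μ := μ)
      (fun y => h (x + circleMap 0 1 θ • y)) x
    have e2 := (sum_rot μ (circleMap 0 1 θ) hc).lintegral_comp
      (f := fun y => h (x + y)) (hhm.comp (measurable_const_add x))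
    have e3 := lintegral_add_left_eq_self (μ := μ) h x
    rw [e1, e2, e3]
  have hJ : Measurable (fun q : ℝ × F => h (x + circleMap 0 1 q.1 • (q.2 - x))) := by
    apply hhm.comp
    apply Continuous.measurable
    have : Continuous (fun q : ℝ × F => circleMap 0 1 q.1) :=
      (continuous_circleMap 0 1).comp continuous_fst
    exact continuous_const.add (this.smul (continuous_snd.sub continuous_const))
  have hswap : ∫⁻ θ in Ioc 0 (2 * Real.pi), ∫⁻ y, h (x + circleMap 0 1 θ • (y - x)) ∂μ =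
      ∫⁻ y, (∫⁻ θ in Ioc 0 (2 * Real.pi), h (x + circleMap 0 1 θ • (y - x))) ∂μ :=
    lintegral_lintegral_swap hJ.aemeasurable
  have hleft : ∫⁻ θ in Ioc 0 (2 * Real.pi), ∫⁻ y, h (x + circleMap 0 1 θ • (y - x)) ∂μ =
      ENNReal.ofReal (2 * Real.pi) * ∫⁻ y, h y ∂μ := by
    simp_rw [hrot]
    rw [setLIntegral_const, Real.volume_Ioc, sub_zero, mul_comm]
  have hright : ENNReal.ofReal (2 * Real.pi) * (‖f x‖ₑ ^ 2 * μ (ball x R)) ≤
      ∫⁻ y, (∫⁻ θ in Ioc 0 (2 * Real.pi), h (x + circleMap 0 1 θ • (y - x))) ∂μ := by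
    calc ENNReal.ofReal (2 * Real.pi) * (‖f x‖ₑ ^ 2 * μ (ball x R))
        = ∫⁻ _ in ball x R, ENNReal.ofReal (2 * Real.pi) * ‖f x‖ₑ ^ 2 ∂μ := by
          rw [setLIntegral_const, mul_assoc]
      _ ≤ ∫⁻ y in ball x R, (∫⁻ θ in Ioc 0 (2 * Real.pi),
            h (x + circleMap 0 1 θ • (y - x))) ∂μ := by
          apply setLIntegral_mono' measurableSet_ball
          intro y hy
          refine (sum_inner_le x y R f hf hy).trans (le_of_eq ?_)
          apply lintegral_congr
          intro θ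
          have hin : x + circleMap 0 1 θ • (y - x) ∈ ball x R := by
            rw [mem_ball, dist_eq_norm, add_sub_cancel_left, norm_smul]
            have hc : ‖circleMap 0 1 θ‖ = 1 := by simp
            rw [hc, one_mul]
            rwa [mem_ball, dist_eq_norm] at hy
          rw [hh, Set.indicator_of_mem hin]
      _ ≤ _ := setLIntegral_le_lintegral _ _
  rw [hint]
  rw [← hswap, hleft] at hright
  have hpi0 : ENNReal.ofReal (2 * Real.pi) ≠ 0 := (ENNReal.ofReal_pos.2 hpi).ne'
  exact (ENNReal.mul_le_mul_iff_right hpi0 ENNReal.ofReal_ne_top).1 hright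

variable {A : Type*} [Fintype A] [DecidableEq A] {Γ : Type*} [Group Γ]

theorem jacDet_hol {D : Set (A → ℂ)} (hD : IsOpen D) {f : (A → ℂ) → (A → ℂ)}
    (hf : DifferentiableOn ℂ f D) : DifferentiableOn ℂ (fun z => (Jac f z).det) D := by
  have h1 : ∀ k i, DifferentiableOn ℂ (fun z => Jac f z k i) D := by
    intro k i
    have h2 := hol_fderiv_apply hD hf (w := fun _ => Pi.single i 1) (differentiableOn_const _)
    exact (differentiableOn_pi.1 h2) k
  have h3 : (fun z => (Jac f z).det) = fun z => ∑ p : Equiv.Perm A,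
      ((Equiv.Perm.sign p : ℤ) : ℂ) * ∏ i, Jac f z (p i) i := by
    funext z
    exact Matrix.det_apply' _
  rw [h3]
  refine DifferentiableOn.fun_sum fun p _ => ?_
  refine (differentiableOn_const _).mul ?_
  have h4 : ∀ F : Finset A, DifferentiableOn ℂ (fun z => ∏ i ∈ F, Jac f z (p i) i) D := by
    intro F
    induction F using Finset.induction_on with
    | empty => simp
    | insert i F hi ih =>
      have h5 : (fun z => ∏ j ∈ insert i F, Jac f z (p j) j) =
          fun z => Jac f z (p i) i * ∏ j ∈ F, Jac f z (p j) j := by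
        funext z
        exact Finset.prod_insert hi
      rw [h5]
      exact (h1 _ _).mul ih
  exact h4 _

theorem jac_summable {D : Set (A → ℂ)} (hD : IsOpen D) {R : ℝ} (hR : ∀ z ∈ D, ‖z‖ ≤ R)
    {σ : Γ → (A → ℂ) → (A → ℂ)} (hσ : HolAct D σ)
    (hdisc : ∀ K ⊆ D, IsCompact K → ∃ T : Finset Γ, ∀ γ, (∃ z ∈ K, σ γ z ∈ K) →
      ∃ t ∈ T, ∀ z ∈ D, σ γ z = σ t z)
    (volume_image : ∀ {V : Set (A → ℂ)}, IsOpen V → ∀ {ρ : (A → ℂ) → (A → ℂ)},
      DifferentiableOn ℂ ρ V → InjOn ρ V →
      volume (ρ '' V) = ∫⁻ x in V, ENNReal.ofReal (‖(Jac ρ x).det‖ ^ 2))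
    {Q : Type*} (s : Q → Γ) (hs : ∀ q q', (∀ z ∈ D, σ (s q) z = σ (s q') z) → q = q')
    {K : Set (A → ℂ)} (hK : K ⊆ D) (hKc : IsCompact K) :
    ∃ M : Q → ℝ, Summable M ∧ ∀ q, ∀ z ∈ K, ‖(Jac (σ (s q)) z).det‖ ^ 2 ≤ M q := by
  classical
  obtain ⟨δ, hδ, hK'c, hK'D⟩ := exists_thick hD hK hKc
  set V : Set (A → ℂ) := thickening δ K with hV
  have hVo : IsOpen V := isOpen_thickening
  have hVK' : V ⊆ cthickening δ K := thickening_subset_cthickening δ K
  have hVD : V ⊆ D := hVK'.trans hK'D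
  obtain ⟨T, hT⟩ := hdisc _ hK'D hK'c
  set W : Q → Set (A → ℂ) := fun q => σ (s q) '' V with hW
  have hWD : ∀ q, W q ⊆ D := by
    rintro q _ ⟨v, hv, rfl⟩
    exact hσ.maps _ _ (hVD hv)
  have hWo : ∀ q, IsOpen (W q) := by
    intro q
    have e : W q = D ∩ σ (s q)⁻¹ ⁻¹' V := by
      ext y
      constructor
      · rintro ⟨v, hv, rfl⟩
        refine ⟨hσ.maps _ _ (hVD hv), ?_⟩
        show σ (s q)⁻¹ (σ (s q) v) ∈ V
        rw [hσ.inv_act _ (hVD hv)]
        exact hv
      · rintro ⟨hy, hy'⟩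
        exact ⟨_, hy', hσ.act_inv _ hy⟩
    rw [e]
    exact (hσ.hol _).continuousOn.isOpen_inter_preimage hD hVo
  -- the multiplicity
  have hmult : ∀ (F : Finset Q) (y : A → ℂ), (F.filter fun q => y ∈ W q).card ≤ T.card := by
    intro F y
    rcases (F.filter fun q => y ∈ W q).eq_empty_or_nonempty with h0 | ⟨q0, hq0⟩
    · rw [h0, Finset.card_empty]
      exact Nat.zero_le _
    · obtain ⟨-, v0, hv0, hv0'⟩ := Finset.mem_filter.1 hq0
      have h1 : ∀ q : Q, ∃ t : Γ, y ∈ W q → t ∈ T ∧ ∀ z ∈ D, σ ((s q0)⁻¹ * s q) z = σ t z := by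
        intro q
        by_cases hq : y ∈ W q
        · obtain ⟨v, hv, hv'⟩ := hq
          obtain ⟨t, ht, ht'⟩ := hT ((s q0)⁻¹ * s q) ⟨v, hVK' hv, by
            rw [hσ.mul _ _ _ (hVD hv), hv', ← hv0', hσ.inv_act _ (hVD hv0)]
            exact hVK' hv0⟩
          exact ⟨t, fun _ => ⟨ht, ht'⟩⟩
        · exact ⟨1, fun h => absurd h hq⟩
      choose t ht using h1
      refine Finset.card_le_card_of_injOn t ?_ ?_
      · intro q hq
        exact (ht q (Finset.mem_filter.1 hq).2).1
      · intro q hq q' hq' he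
        refine hs q q' fun z hz => ?_
        have h2 := (ht q (Finset.mem_filter.1 hq).2).2 z hz
        have h3 := (ht q' (Finset.mem_filter.1 hq').2).2 z hz
        have h4 : σ ((s q0)⁻¹ * s q) z = σ ((s q0)⁻¹ * s q') z := by
          have he' : t q = t q' := he
          rw [h2, h3, he']
        rw [hσ.mul _ _ _ hz, hσ.mul _ _ _ hz] at h4
        have h5 := congrArg (σ (s q0)) h4
        rwa [hσ.act_inv _ (hσ.maps _ _ hz), hσ.act_inv _ (hσ.maps _ _ hz)] at h5
  have hDfin : volume D ≠ ⊤ := by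
    have h1 : D ⊆ closedBall 0 R := fun z hz => mem_closedBall_zero_iff.2 (hR z hz)
    exact ((measure_mono h1).trans_lt measure_closedBall_lt_top).ne
  have hsum : ∑' q, volume (W q) ≤ T.card * volume D := by
    rw [ENNReal.tsum_eq_iSup_sum]
    refine iSup_le fun F => ?_
    have h1 : ∀ q, volume (W q) = ∫⁻ y in D, (W q).indicator (fun _ => (1 : ℝ≥0∞)) y := by
      intro q
      rw [lintegral_indicator (hWo q).measurableSet, setLIntegral_const, one_mul,
        Measure.restrict_apply (hWo q).measurableSet, inter_eq_left.2 (hWD q)]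
    rw [Finset.sum_congr rfl fun q _ => h1 q, ← lintegral_finsetSum _ fun q _ =>
      (measurable_const.indicator (hWo q).measurableSet)]
    have h2 : ∀ y, ∑ q ∈ F, (W q).indicator (fun _ => (1 : ℝ≥0∞)) y ≤ T.card := by
      intro y
      have h3 : ∑ q ∈ F, (W q).indicator (fun _ => (1 : ℝ≥0∞)) y =
          ((F.filter fun q => y ∈ W q).card : ℝ≥0∞) := by
        rw [Finset.card_filter]
        push_cast
        refine Finset.sum_congr rfl fun q _ => ?_
        rw [Set.indicator_apply]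
      rw [h3]
      exact_mod_cast hmult F y
    calc ∫⁻ y in D, ∑ q ∈ F, (W q).indicator (fun _ => (1 : ℝ≥0∞)) y
        ≤ ∫⁻ _ in D, (T.card : ℝ≥0∞) := lintegral_mono fun y => h2 y
      _ = T.card * volume D := by rw [setLIntegral_const]
  have hsum' : ∑' q, volume (W q) ≠ ⊤ :=
    (hsum.trans_lt (ENNReal.mul_lt_top (ENNReal.natCast_lt_top _) hDfin.lt_top)).ne
  have hWfin : ∀ q, volume (W q) ≠ ⊤ := fun q =>
    ((measure_mono (hWD q)).trans_lt hDfin.lt_top).ne
  have hpos : 0 < (volume (ball (0 : A → ℂ) δ)).toReal :=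
    ENNReal.toReal_pos (measure_ball_pos _ _ hδ).ne' measure_ball_lt_top.ne
  refine ⟨fun q => (volume (W q)).toReal / (volume (ball (0 : A → ℂ) δ)).toReal,
    (ENNReal.summable_toReal hsum').div_const _, fun q z hz => ?_⟩
  have hball : ball z δ ⊆ V := ball_subset_thickening hz δ
  have h1 := sum_sub_mean volume z δ (fun z => (Jac (σ (s q)) z).det)
    ((jacDet_hol hD (hσ.hol _)).mono (hball.trans hVD))
  have hinj : InjOn (σ (s q)) V := by
    intro x hx y hy hxy
    rw [← hσ.inv_act (s q) (hVD hx), hxy, hσ.inv_act (s q) (hVD hy)]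
  have h2 := volume_image hVo ((hσ.hol (s q)).mono hVD) hinj
  have h3 : ‖(Jac (σ (s q)) z).det‖ₑ ^ 2 * volume (ball (0 : A → ℂ) δ) ≤ volume (W q) := by
    rw [← Measure.addHaar_ball_center volume z δ]
    refine h1.trans ?_
    rw [hW]
    simp only
    rw [h2]
    refine (lintegral_mono_set hball).trans (le_of_eq ?_)
    refine lintegral_congr fun y => ?_
    rw [ENNReal.ofReal_pow (norm_nonneg _), ofReal_norm]
  have h4 := ENNReal.toReal_mono (hWfin q) h3
  rw [ENNReal.toReal_mul, ENNReal.toReal_pow, toReal_enorm] at h4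
  exact (le_div_iff₀ hpos).2 h4

end Pool.Agent.H906.BD
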