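import Pool.Agent.H906.BD.Contra
import Pool.Agent.H906.BD.Close
import Pool.Agent.H906.BD.Scales
import Pool.Agent.H906.BD.Real
import Pool.Agent.H906.BD.Basis
import Pool.Agent.H906.BD.PDisc
import Pool.Agent.H906.BD.Lin
import Pool.Agent.H906.BD.Sum
import Pool.Agent.H906.BD.Nonv
import Pool.Agent.H906.BD.Ext
import Pool.Agent.H906.BD.Struct

/-! # Abundance for compact Kähler quotients of `D × ℂ^B` -/

set_option linter.unusedSectionVars false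

open Filter Topology Set Metric MeasureTheory
open scoped ComplexOrder

namespace Pool.Agent.H906.BD

section General

variable {E : Type*} [NormedAddCommGroup E] [NormedSpace ℂ E]
variable {Γ : Type*} [Group Γ] {D : Set E} {σ : Γ → E → E}

theorem IsLim.scales' [ProperSpace E] (hD : IsOpen D) (hσ : HolAct D σ) {S : Subgroup Γ}
    {v : E → E} (hv : IsLim D σ (S : Set Γ) v) : ∀ K ⊆ D, IsCompact K → ∀ η > 0,
    ∀ N ∈ Nbh D σ, ∃ m₀ : ℝ, ∀ m ≥ m₀, ∃ g ∈ S, g ∈ N ∧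
      ∀ z ∈ K, ‖(m : ℂ) • (σ g z - z) - v z‖ < η :=
  fun _ hK hKc _ hη _ hN => hv.scales hD hσ (hv.neg hD hσ) hK hKc hη hN

theorem IsLim.add' [ProperSpace E] (hD : IsOpen D) (hσ : HolAct D σ) {S : Subgroup Γ}
    {v w : E → E} (hv : IsLim D σ (S : Set Γ) v) (hw : IsLim D σ (S : Set Γ) w) :
    IsLim D σ (S : Set Γ) (fun z => v z + w z) := by
  refine IsLim.of_approx hD (fun z hz => by rw [hv.zero z hz, hw.zero z hz, add_zero]) ?_
  intro K hK hKc η hη N hN R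
  obtain ⟨m₀, hm₀⟩ := scales_add hD hσ (hv.hol hσ) (hv.scales' hD hσ) (hw.scales' hD hσ)
    hK hKc hη hN
  obtain ⟨g, hg, hgN, hgK⟩ := hm₀ (max R m₀) (le_max_right _ _)
  exact ⟨max R m₀, le_max_left _ _, g, hg, hgN, hgK⟩

theorem step [FiniteDimensional ℂ E] (hD : IsOpen D) (hc : IsPreconnected D) {R : ℝ}
    (hR : ∀ z ∈ D, ‖z‖ ≤ R) (hσ : HolAct D σ) (hno : NoField D σ) {S : Subgroup Γ}
    (hS : S.Normal) (hcomm : CommNear D σ S) : ∀ᶠ γ in Nbh D σ, γ ∈ S → Triv D σ γ := by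
  have : ProperSpace E := FiniteDimensional.proper ℂ E
  refine discrete_of_noField hD hc hR hσ hS hcomm (fun v w hv hw => hv.add' hD hσ hw)
    (fun c v hv => hv.smul hD hσ c) (fun v w hv hw z hz hvw f hf => ?_)
    (fun V h1 h2 h3 h4 h5 => exists_real_basis hD hc V h1 h2 h3 h4 h5) hno
  exact totally_real hD hσ hcomm (hv.hol hσ) (hw.hol hσ) (hv.scales' hD hσ) (hw.scales' hD hσ)
    hz hvw hf

end General

section Product

variable {A B : Type*} [Fintype A] [Fintype B] [DecidableEq A] [DecidableEq B]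

theorem jac_det {Γ : Type*} [Group Γ] {D : Set (A → ℂ)} (hD : IsOpen D)
    {ρ : Γ → (A ⊕ B → ℂ) → (A ⊕ B → ℂ)} {σ : Γ → (A → ℂ) → (A → ℂ)} {a b : Γ → B → ℂ}
    (h : SplitAct D ρ σ a b) (γ : Γ) {x : A ⊕ B → ℂ} (hx : x ∈ Tot D B) :
    (Jac (ρ γ) x).det = (Jac (σ γ) (prA x)).det * ∏ j, a γ j := by
  have hU : IsOpen (Tot D B) := isOpen_tot hD
  have hd : DifferentiableAt ℂ (ρ γ) x := (h.act.hol γ).differentiableAt (hU.mem_nhds hx)
  have hσ : HasFDerivAt (σ γ) (fderiv ℂ (σ γ) (prA x)) (prA x) :=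
    ((h.base.hol γ).differentiableAt (hD.mem_nhds hx)).hasFDerivAt
  have h1 : ∀ (v : A ⊕ B → ℂ) (i : A),
      fderiv ℂ (ρ γ) x v (Sum.inl i) = fderiv ℂ (σ γ) (prA x) (prA v) i := by
    intro v i
    have e1 : HasFDerivAt (fun y => ρ γ y (Sum.inl i))
        ((ContinuousLinearMap.proj (Sum.inl i)).comp (fderiv ℂ (ρ γ) x)) x :=
      (hasFDerivAt_pi'.1 hd.hasFDerivAt) (Sum.inl i)
    have e2 : HasFDerivAt (fun y => σ γ (prA y) i)
        ((ContinuousLinearMap.proj i).comp ((fderiv ℂ (σ γ) (prA x)).comp prAL)) x :=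
      (hasFDerivAt_pi'.1 (hσ.comp x (prAL (A := A) (B := B)).hasFDerivAt)) i
    have e3 : (fun y => σ γ (prA y) i) =ᶠ[𝓝 x] fun y => ρ γ y (Sum.inl i) := by
      filter_upwards [hU.mem_nhds hx] with y hy
      rw [← h.fst γ y hy]
      rfl
    have e4 := e1.unique (e2.congr_of_eventuallyEq e3.symm)
    have e5 := congrArg (fun T => T v) e4
    exact e5
  have h2 : ∀ (v : A ⊕ B → ℂ) (j : B),
      fderiv ℂ (ρ γ) x v (Sum.inr j) = a γ j * v (Sum.inr j) := by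
    intro v j
    have e1 : HasFDerivAt (fun y => ρ γ y (Sum.inr j))
        ((ContinuousLinearMap.proj (Sum.inr j)).comp (fderiv ℂ (ρ γ) x)) x :=
      (hasFDerivAt_pi'.1 hd.hasFDerivAt) (Sum.inr j)
    have e2 : HasFDerivAt (fun y : A ⊕ B → ℂ => a γ j * y (Sum.inr j) + b γ j)
        (a γ j • (ContinuousLinearMap.proj (R := ℂ) (φ := fun _ : A ⊕ B => ℂ) (Sum.inr j))) x :=
      (((ContinuousLinearMap.proj (R := ℂ) (φ := fun _ : A ⊕ B => ℂ)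
        (Sum.inr j)).hasFDerivAt (x := x)).const_mul (a γ j)).add_const (b γ j)
    have e3 : (fun y : A ⊕ B → ℂ => a γ j * y (Sum.inr j) + b γ j) =ᶠ[𝓝 x]
        fun y => ρ γ y (Sum.inr j) := by
      filter_upwards [hU.mem_nhds hx] with y hy
      rw [h.snd γ y hy j]
    have e4 := e1.unique (e2.congr_of_eventuallyEq e3.symm)
    have e5 := congrArg (fun T => T v) e4
    exact e5
  have h3 : Jac (ρ γ) x = Matrix.fromBlocks (Jac (σ γ) (prA x)) 0 0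
      (Matrix.diagonal (a γ)) := by
    ext k l
    rcases k with i | j <;> rcases l with i' | j'
    · show fderiv ℂ (ρ γ) x (Pi.single (Sum.inl i') 1) (Sum.inl i) = _
      rw [h1, Matrix.fromBlocks_apply₁₁]
      have e : prA (Pi.single (Sum.inl i') (1 : ℂ) : A ⊕ B → ℂ) = Pi.single i' 1 := by
        funext l
        simp [prA, Pi.single_apply]
      rw [e]
      rfl
    · show fderiv ℂ (ρ γ) x (Pi.single (Sum.inr j') 1) (Sum.inl i) = _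
      rw [h1, Matrix.fromBlocks_apply₁₂]
      have e : prA (Pi.single (Sum.inr j') (1 : ℂ) : A ⊕ B → ℂ) = 0 := by
        funext l
        simp [prA]
      rw [e, map_zero]
      rfl
    · show fderiv ℂ (ρ γ) x (Pi.single (Sum.inl i') 1) (Sum.inr j) = _
      rw [h2, Matrix.fromBlocks_apply₂₁]
      simp
    · show fderiv ℂ (ρ γ) x (Pi.single (Sum.inr j') 1) (Sum.inr j) = _
      rw [h2, Matrix.fromBlocks_apply₂₂, Matrix.diagonal_apply]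
      by_cases hjj : j = j'
      · subst hjj; simp
      · simp [hjj]
  rw [h3, Matrix.det_fromBlocks_zero₂₁, Matrix.det_diagonal]

/-- the discreteness theorem -/
theorem disc {Γ : Type*} [Group Γ] {D : Set (A → ℂ)} (hD : IsOpen D) (hc : IsPreconnected D)
    (hne : D.Nonempty) {R : ℝ} (hR : ∀ z ∈ D, ‖z‖ ≤ R) {ρ : Γ → (A ⊕ B → ℂ) → (A ⊕ B → ℂ)}
    {σ : Γ → (A → ℂ) → (A → ℂ)} {a b : Γ → B → ℂ} (h : SplitAct D ρ σ a b)
    (ha : ∀ γ δ j, a (γ * δ) j = a γ j * a δ j) (ha0 : ∀ γ j, a γ j ≠ 0)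
    (hpd : PD (Tot D B) ρ) (hcc : CC (Tot D B) ρ)
    {g : (A ⊕ B → ℂ) → Matrix (A ⊕ B) (A ⊕ B) ℂ} (hg : Kahler (Tot D B) g)
    (hinv : InvForm (Tot D B) ρ g) : ∀ᶠ γ in Nbh D σ, Triv D σ γ :=
  discrete_of_split hD hne h ha ha0 hpd fun _ hS hcomm =>
    step hD hc hR h.base (noField_of_kahler hD hc hR h hpd hcc hg hinv) hS hcomm

theorem sections_of_split {Γ : Type*} [Group Γ] {D : Set (A → ℂ)} (hD : IsOpen D)
    (hc : IsPreconnected D) (hne : D.Nonempty) {R : ℝ} (hR : ∀ z ∈ D, ‖z‖ ≤ R)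
    {ρ : Γ → (A ⊕ B → ℂ) → (A ⊕ B → ℂ)} {σ : Γ → (A → ℂ) → (A → ℂ)} {a b : Γ → B → ℂ}
    (h : SplitAct D ρ σ a b) (ha : ∀ γ δ j, a (γ * δ) j = a γ j * a δ j)
    (ha0 : ∀ γ j, a γ j ≠ 0) (hpd : PD (Tot D B) ρ) (hcc : CC (Tot D B) ρ)
    {g : (A ⊕ B → ℂ) → Matrix (A ⊕ B) (A ⊕ B) ℂ} (hg : Kahler (Tot D B) g)
    (hinv : InvForm (Tot D B) ρ g) {x : A ⊕ B → ℂ} (hx : x ∈ Tot D B) :
    ∃ l : ℕ, 0 < l ∧ ∃ F : (A ⊕ B → ℂ) → ℂ, DifferentiableOn ℂ F (Tot D B) ∧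
      (∀ γ, ∀ y ∈ Tot D B, F (ρ γ y) * (Jac (ρ γ) y).det ^ l = F y) ∧ F x ≠ 0 := by
  have hdisc := disc hD hc hne hR h ha ha0 hpd hcc hg hinv
  have hccD : ∃ K ⊆ D, IsCompact K ∧ ∀ z ∈ D, ∃ γ, σ γ z ∈ K := by
    obtain ⟨K, hK, hKc, hcov⟩ := hcc
    refine ⟨prA '' K, ?_, hKc.image continuous_prA, fun z hz => ?_⟩
    · rintro _ ⟨y, hy, rfl⟩
      exact hK hy
    · obtain ⟨γ, hγ⟩ := hcov (Sum.elim z 0) hz
      refine ⟨γ, ρ γ (Sum.elim z 0), hγ, ?_⟩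
      rw [h.fst γ _ hz]
      rfl
  have hpdD : ∀ K ⊆ D, IsCompact K → ∃ T : Finset Γ, ∀ γ, (∃ z ∈ K, σ γ z ∈ K) →
      ∃ t ∈ T, ∀ z ∈ D, σ γ z = σ t z := fun K hK hKc =>
    pd_of_disc hD hc hR h.base hccD hdisc hK hKc
  obtain ⟨⟨m, hm, hm1⟩, hun⟩ := lin_part hD hne h ha ha0 hpd hcc hg hinv hpdD
  obtain ⟨l, hl, -, P, hPd, hPa, hPx⟩ := poincare hD hR h.base hpdD
    (fun γ => jacDet_hol hD (h.base.hol γ))
    (fun s hs K hK hKc => jac_summable hD hR h.base hpdD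
      (fun hV _ hρ hinj => volume_image hV hρ hinj) s hs hK hKc)
    (χ := fun γ => ∏ j, a γ j) hun
    (fun γ δ => by
      rw [← Finset.prod_mul_distrib]
      exact Finset.prod_congr rfl fun j _ => ha γ δ j) hm
    (fun γ hγ => by
      rw [← Finset.prod_pow]
      exact Finset.prod_eq_one fun j _ => hm1 γ hγ j) hx
  refine ⟨l, hl, fun y => P (prA y), ?_, fun γ y hy => ?_, hPx⟩
  · exact hPd.comp (prAL (A := A) (B := B)).differentiable.differentiableOn fun y hy => hy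
  · show P (prA (ρ γ y)) * _ = _
    rw [jac_det hD h γ hy, h.fst γ y hy]
    exact hPa γ (prA y) hy

/-- **Abundance** for compact Kähler quotients of `D × ℂ^B`. -/
theorem abundance {Δ : Type*} [Group Δ] {D : Set (A → ℂ)} (hD : IsOpen D)
    (hc : IsPreconnected D) (hne : D.Nonempty) {R : ℝ} (hR : ∀ z ∈ D, ‖z‖ ≤ R)
    {ρ : Δ → (A ⊕ B → ℂ) → (A ⊕ B → ℂ)} (hρ : HolAct (Tot D B) ρ) (hpd : PD (Tot D B) ρ)
    (hcc : CC (Tot D B) ρ) {Δ0 : Subgroup Δ} (hfi : Δ0.FiniteIndex)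
    (hs1 : ∀ γ ∈ Δ0, ∀ x ∈ Tot D B, ∀ j i, Jac (ρ γ) x (Sum.inr j) (Sum.inl i) = 0)
    (hs2 : ∀ γ ∈ Δ0, ∀ x ∈ Tot D B, ∀ j j', j ≠ j' →
      Jac (ρ γ) x (Sum.inr j) (Sum.inr j') = 0)
    {g : (A ⊕ B → ℂ) → Matrix (A ⊕ B) (A ⊕ B) ℂ} (hg : Kahler (Tot D B) g)
    (hinv : InvForm (Tot D B) ρ g) :
    ∃ l : ℕ, 0 < l ∧ ∀ x ∈ Tot D B, ∃ F : (A ⊕ B → ℂ) → ℂ, DifferentiableOn ℂ F (Tot D B) ∧
      (∀ δ, ∀ y ∈ Tot D B, F (ρ δ y) * (Jac (ρ δ) y).det ^ l = F y) ∧ F x ≠ 0 := by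
  have hρ0 : HolAct (Tot D B) (fun δ : Δ0 => ρ δ) :=
    ⟨fun γ => hρ.maps γ, hρ.one, fun γ δ => hρ.mul γ δ, fun γ => hρ.hol γ⟩
  have hpd0 : PD (Tot D B) (fun δ : Δ0 => ρ δ) := by
    intro K hK hKc
    exact (hpd K hK hKc).preimage (f := fun δ : Δ0 => (δ : Δ)) Subtype.val_injective.injOn
  have hcc0 : CC (Tot D B) (fun δ : Δ0 => ρ δ) := by
    obtain ⟨K, hK, hKc, hcov⟩ := hcc
    have := hfi
    refine ⟨⋃ q : Δ ⧸ Δ0, ρ (q.out)⁻¹ '' K, ?_, ?_, ?_⟩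
    · refine Set.iUnion_subset fun q => ?_
      rintro _ ⟨x, hx, rfl⟩
      exact hρ.maps _ x (hK hx)
    · exact isCompact_iUnion fun q => hKc.image_of_continuousOn
        (((hρ.hol _).continuousOn).mono hK)
    · intro x hx
      obtain ⟨δ, hδ⟩ := hcov x hx
      have h1 : ((δ : Δ ⧸ Δ0).out)⁻¹ * δ ∈ Δ0 := by
        rw [← QuotientGroup.eq]; simp
      refine ⟨⟨_, h1⟩, ?_⟩
      show ρ (((δ : Δ ⧸ Δ0).out)⁻¹ * δ) x ∈ _
      rw [hρ.mul _ _ x hx]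
      exact Set.mem_iUnion.2 ⟨(δ : Δ ⧸ Δ0), ⟨_, hδ, rfl⟩⟩
  have hinv0 : InvForm (Tot D B) (fun δ : Δ0 => ρ δ) g := fun γ => hinv γ
  obtain ⟨σ, a, b, h, ha, ha0⟩ := split_structure hD hc hne hR hρ0
    (fun γ => hs1 γ γ.2) (fun γ => hs2 γ γ.2)
  refine extend (isOpen_tot hD) hρ hcc hfi fun x hx => ?_
  obtain ⟨l, hl, F, hF, hFa, hFx⟩ := sections_of_split hD hc hne hR h ha ha0 hpd0 hcc0 hg hinv0 hx
  exact ⟨l, hl, F, hF, fun δ hδ => hFa ⟨δ, hδ⟩, hFx⟩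

end Product

end Pool.Agent.H906.BD
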