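import Pool.Agent.H906.BD.Field

/-! # Invariant functions are stationary along the span of the limit fields -/

open Filter Topology Set Metric

namespace Pool.Agent.H906.BD

variable {E : Type*} [NormedAddCommGroup E] [NormedSpace ℂ E]
variable {Γ : Type*} [Group Γ] {D : Set E} {σ : Γ → E → E}

/-- `G` is constant to second order in the direction of `v` -/
def Stat (D : Set E) (G : E → ℝ) (v : E → E) : Prop :=
  ∀ z₀ ∈ D, ∃ ρ > 0, ∃ C, 0 ≤ C ∧ ∀ z ∈ ball z₀ ρ, ∀ τ : ℝ, |τ| ≤ ρ →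
    |G (z + (τ : ℂ) • v z) - G z| ≤ C * τ ^ 2

/-- locally Lipschitz on `D` -/
def LocLip (D : Set E) (G : E → ℝ) : Prop :=
  ∀ z₀ ∈ D, ∃ ρ > 0, ∃ C, 0 ≤ C ∧ ball z₀ ρ ⊆ D ∧ ∀ y ∈ ball z₀ ρ, ∀ z ∈ ball z₀ ρ,
    |G z - G y| ≤ C * ‖z - y‖

/-- the orbit of a small element follows the field -/
theorem orbit (hσ : HolAct D σ) {v : E → E} {z₀ z : E} {r A M η m : ℝ} {b : Γ}
    (hsub : ball z₀ (2 * r) ⊆ D) (hz : z ∈ ball z₀ r) (hA : A ≤ r) (hM : 0 ≤ M)
    (hvM : ∀ y ∈ ball z₀ (2 * r), ‖v y‖ ≤ M)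
    (hvL : ∀ x ∈ ball z₀ (2 * r), ∀ y ∈ ball z₀ (2 * r), ‖v y - v x‖ ≤ M * ‖y - x‖)
    (hm : 0 < m) (hη1 : η ≤ 1)
    (hb : ∀ y ∈ ball z₀ (2 * r), ‖(m : ℂ) • (σ b y - y) - v y‖ < η) :
    ∀ q : ℕ, q * (M + 1) / m ≤ A → ‖σ (b ^ q) z - z‖ ≤ q * (M + 1) / m ∧
      ‖σ (b ^ q) z - z - ((q / m : ℝ) : ℂ) • v z‖ ≤ q / m * (M * A + η) := by
  have hzb : z ∈ ball z₀ (2 * r) := by
    have : 0 < r := lt_of_le_of_lt dist_nonneg hz
    exact ball_subset_ball (by linarith) hz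
  have hmc : (m : ℂ) ≠ 0 := by exact_mod_cast hm.ne'
  intro q
  induction q with
  | zero =>
    intro _
    rw [pow_zero, hσ.one z (hsub hzb)]
    simp
  | succ q ih =>
    intro hq
    have hq' : q * (M + 1) / m ≤ A := by
      refine le_trans ?_ hq
      gcongr
      push_cast
      linarith
    obtain ⟨h1, h2⟩ := ih hq'
    set zq := σ (b ^ q) z with hzq
    have hzqb : zq ∈ ball z₀ (2 * r) := by
      rw [mem_ball, dist_eq_norm] at hz ⊢
      have e : zq - z₀ = (zq - z) + (z - z₀) := by abel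
      rw [e]
      have := norm_add_le (zq - z) (z - z₀)
      linarith
    have hnext : σ (b ^ (q + 1)) z = σ b zq := by
      rw [pow_succ', hσ.mul _ _ z (hsub hzb)]
    obtain ⟨e, he⟩ : ∃ e, e = (m : ℂ) • (σ b zq - zq) - v zq := ⟨_, rfl⟩
    have hen : ‖e‖ < η := by rw [he]; exact hb zq hzqb
    have hstep : σ b zq - zq = (m : ℂ)⁻¹ • (v zq + e) := by
      rw [he, add_sub_cancel, smul_smul, inv_mul_cancel₀ hmc, one_smul]
    have hminv : ‖((m : ℂ)⁻¹)‖ = 1 / m := by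
      rw [norm_inv, Complex.norm_real, Real.norm_eq_abs, abs_of_pos hm, one_div]
    have hzz : ‖zq - z‖ ≤ A := h1.trans hq'
    rw [hnext]
    constructor
    · have e1 : σ b zq - z = (σ b zq - zq) + (zq - z) := by abel
      rw [e1]
      refine (norm_add_le _ _).trans ?_
      rw [hstep, norm_smul, hminv]
      have e2 : ‖v zq + e‖ ≤ M + 1 := by
        refine (norm_add_le _ _).trans ?_
        linarith [hvM zq hzqb]
      have e3 : 1 / m * ‖v zq + e‖ ≤ 1 / m * (M + 1) := by gcongr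
      have e4 : ((q + 1 : ℕ) : ℝ) * (M + 1) / m = 1 / m * (M + 1) + q * (M + 1) / m := by
        push_cast; ring
      rw [e4]
      linarith
    · have e1 : σ b zq - z - (((q + 1 : ℕ) / m : ℝ) : ℂ) • v z =
          (zq - z - ((q / m : ℝ) : ℂ) • v z) + (m : ℂ)⁻¹ • (e + (v zq - v z)) := by
        have e2 : σ b zq - z = (σ b zq - zq) + (zq - z) := by abel
        have e3 : (((q + 1 : ℕ) / m : ℝ) : ℂ) = ((q / m : ℝ) : ℂ) + (m : ℂ)⁻¹ := by
          push_cast; field_simp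
        rw [e2, hstep, e3, add_smul, smul_add, smul_add, smul_sub]
        abel
      rw [e1]
      refine (norm_add_le _ _).trans ?_
      have e5 : ‖e + (v zq - v z)‖ ≤ M * A + η := by
        refine (norm_add_le _ _).trans ?_
        have := hvL z hzb zq hzqb
        have e6 : M * ‖zq - z‖ ≤ M * A := by gcongr
        linarith
      rw [norm_smul, hminv]
      have e6 : 1 / m * ‖e + (v zq - v z)‖ ≤ 1 / m * (M * A + η) := by gcongr
      have e7 : ((q + 1 : ℕ) : ℝ) / m * (M * A + η) =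
          q / m * (M * A + η) + 1 / m * (M * A + η) := by push_cast; ring
      rw [e7]
      linarith

theorem inv_pow (hσ : HolAct D σ) {G : E → ℝ} {b : Γ} (hG : ∀ z ∈ D, G (σ b z) = G z) {z : E}
    (hz : z ∈ D) (q : ℕ) : G (σ (b ^ q) z) = G z := by
  induction q with
  | zero => rw [pow_zero, hσ.one z hz]
  | succ q ih => rw [pow_succ', hσ.mul _ _ z hz, hG _ (hσ.maps _ _ hz), ih]

theorem stat_pos (hD : IsOpen D) (hσ : HolAct D σ) [CompleteSpace E] {S N : Set Γ}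
    (hN : N ∈ Nbh D σ) {v : E → E} (hv : IsLim D σ S v) {G : E → ℝ} (hGL : LocLip D G)
    (hG : ∀ b ∈ S ∩ N, ∀ z ∈ D, G (σ b z) = G z) :
    ∀ z₀ ∈ D, ∃ ρ > 0, ∃ C, 0 ≤ C ∧ ∀ z ∈ ball z₀ ρ, ∀ τ : ℝ, 0 ≤ τ → τ ≤ ρ →
      |G (z + (τ : ℂ) • v z) - G z| ≤ C * τ ^ 2 := by
  intro z₀ hz₀
  obtain ⟨r1, hr1, M, hM0, hr1D, hvM, hvL⟩ := exists_lip hD (hv.hol hσ) hz₀
  obtain ⟨r2, hr2, CG, hCG0, hr2D, hGl⟩ := hGL z₀ hz₀
  obtain ⟨l, h1, h2, h3, h4⟩ := hv.lim
  obtain ⟨r3, hr3, hr3D, h5⟩ := h4 z₀ hz₀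
  set r := min r1 (min r2 r3) / 2 with hr
  have hr0 : 0 < r := by positivity
  have h2r : 2 * r = min r1 (min r2 r3) := by rw [hr]; ring
  have hs1 : ball z₀ (2 * r) ⊆ ball z₀ r1 := ball_subset_ball (by rw [h2r]; exact min_le_left _ _)
  have hs2 : ball z₀ (2 * r) ⊆ ball z₀ r2 := ball_subset_ball (by
    rw [h2r]; exact (min_le_right _ _).trans (min_le_left _ _))
  have hs3 : ball z₀ (2 * r) ⊆ ball z₀ r3 := ball_subset_ball (by
    rw [h2r]; exact (min_le_right _ _).trans (min_le_right _ _))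
  have hrr : ball z₀ r ⊆ ball z₀ (2 * r) := ball_subset_ball (by linarith)
  set ρ := min r (r / (M + 1)) with hρ
  have hρ0 : 0 < ρ := by positivity
  refine ⟨ρ, hρ0, CG * (M * (M + 1)), by positivity, fun z hz τ hτ0 hτ => ?_⟩
  have hzr : z ∈ ball z₀ r := ball_subset_ball (min_le_left _ _) hz
  have hzD : z ∈ D := hr1D (hs1 (hrr hzr))
  have hA : τ * (M + 1) ≤ r := by
    have : τ ≤ r / (M + 1) := hτ.trans (min_le_right _ _)
    rwa [le_div_iff₀ (by positivity)] at this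
  have hvz := hvM z (hs1 (hrr hzr))
  have hend : z + (τ : ℂ) • v z ∈ ball z₀ (2 * r) := by
    rw [mem_ball, dist_eq_norm] at hzr ⊢
    have e : z + (τ : ℂ) • v z - z₀ = (z - z₀) + (τ : ℂ) • v z := by abel
    rw [e]
    have e1 := norm_add_le (z - z₀) ((τ : ℂ) • v z)
    have e2 : ‖(τ : ℂ) • v z‖ ≤ τ * (M + 1) := by
      rw [norm_smul, Complex.norm_real, Real.norm_eq_abs, abs_of_nonneg hτ0]
      gcongr
      linarith
    linarith
  refine le_of_forall_pos_le_add fun ε hε => ?_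
  set η := min 1 (ε / (2 * (CG + 1) * (τ + 1))) with hη
  have hη0 : 0 < η := by positivity
  have hη1 : η ≤ 1 := min_le_left _ _
  have hηε : CG * (τ * η) ≤ ε / 2 := by
    have e1 : η ≤ ε / (2 * (CG + 1) * (τ + 1)) := min_le_right _ _
    calc CG * (τ * η) ≤ (CG + 1) * ((τ + 1) * (ε / (2 * (CG + 1) * (τ + 1)))) := by
          gcongr <;> linarith
      _ = ε / 2 := by field_simp
  obtain ⟨p, hp1, hp2, hp3, hp4⟩ := ((h5 η hη0).and (h3.and ((h2.eventually hN).and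
    (h1.eventually (eventually_ge_atTop (2 * (CG + 1) * (M + 1) / ε + 1)))))).exists
  set m := p.1 with hm
  set b := p.2 with hb
  have hm0 : 0 < m := by
    have : 0 ≤ 2 * (CG + 1) * (M + 1) / ε := by positivity
    linarith
  have hmε : CG * (M / m) ≤ ε / 2 := by
    have e1 : 2 * (CG + 1) * (M + 1) / ε ≤ m := by linarith
    rw [div_le_iff₀ hε] at e1
    rw [← mul_div_assoc, div_le_iff₀ hm0]
    nlinarith
  set k := ⌊τ * m⌋₊ with hk
  have hk1 : (k : ℝ) ≤ τ * m := Nat.floor_le (by positivity)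
  have hk2 : τ * m < k + 1 := Nat.lt_floor_add_one _
  have hkA : k * (M + 1) / m ≤ τ * (M + 1) := by
    rw [div_le_iff₀ hm0]
    nlinarith
  obtain ⟨-, h6⟩ := orbit hσ (v := v) (z := z) (η := η) (m := m) (b := b)
    (hs1.trans hr1D) hzr hA hM0 (fun y hy => hvM y (hs1 hy))
    (fun x hx y hy => hvL x (hs1 hx) y (hs1 hy)) hm0 hη1 (fun y hy => hp1 y (hs3 hy)) k hkA
  have h7 : ‖σ (b ^ k) z - z‖ ≤ r := by
    have := (orbit hσ (v := v) (z := z) (η := η) (m := m) (b := b)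
      (hs1.trans hr1D) hzr hA hM0 (fun y hy => hvM y (hs1 hy))
      (fun x hx y hy => hvL x (hs1 hx) y (hs1 hy)) hm0 hη1 (fun y hy => hp1 y (hs3 hy)) k hkA).1
    linarith
  have h8 : σ (b ^ k) z ∈ ball z₀ (2 * r) := by
    rw [mem_ball, dist_eq_norm] at hzr ⊢
    have e : σ (b ^ k) z - z₀ = (σ (b ^ k) z - z) + (z - z₀) := by abel
    rw [e]
    have := norm_add_le (σ (b ^ k) z - z) (z - z₀)
    linarith
  have h9 : G (σ (b ^ k) z) = G z := inv_pow hσ (hG b ⟨hp2, hp3⟩) hzD k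
  rw [← h9]
  have h10 := hGl _ (hs2 h8) _ (hs2 hend)
  refine h10.trans ?_
  have hkm : (k : ℝ) / m ≤ τ := by rw [div_le_iff₀ hm0]; exact hk1
  have hkm2 : |τ - k / m| ≤ 1 / m := by
    have e1 : τ < (k + 1) / m := by rw [lt_div_iff₀ hm0]; exact hk2
    rw [abs_le]
    constructor
    · have : 0 < 1 / m := by positivity
      linarith
    · have : ((k : ℝ) + 1) / m = k / m + 1 / m := by ring
      linarith
  have h11 : ‖z + (τ : ℂ) • v z - σ (b ^ k) z‖ ≤ M / m + τ * (M * (τ * (M + 1)) + η) := by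
    have e : z + (τ : ℂ) • v z - σ (b ^ k) z = ((τ - k / m : ℝ) : ℂ) • v z -
        (σ (b ^ k) z - z - ((k / m : ℝ) : ℂ) • v z) := by
      rw [Complex.ofReal_sub, sub_smul]; abel
    rw [e]
    refine (norm_sub_le _ _).trans ?_
    have e1 : ‖((τ - k / m : ℝ) : ℂ) • v z‖ ≤ M / m := by
      rw [norm_smul, Complex.norm_real, Real.norm_eq_abs]
      calc |τ - k / m| * ‖v z‖ ≤ 1 / m * M := by gcongr
        _ = M / m := by ring
    have e2 : (k : ℝ) / m * (M * (τ * (M + 1)) + η) ≤ τ * (M * (τ * (M + 1)) + η) := by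
      gcongr
    linarith
  calc CG * ‖z + (τ : ℂ) • v z - σ (b ^ k) z‖
      ≤ CG * (M / m + τ * (M * (τ * (M + 1)) + η)) := by gcongr
    _ = CG * (M / m) + CG * (τ * η) + CG * (M * (M + 1)) * τ ^ 2 := by ring
    _ ≤ CG * (M * (M + 1)) * τ ^ 2 + ε := by linarith

/-- stationarity for limit fields -/
theorem stat_of_lim (hD : IsOpen D) (hσ : HolAct D σ) [CompleteSpace E] {S N : Set Γ}
    (hN : N ∈ Nbh D σ) {v : E → E} (hv : IsLim D σ S v) {G : E → ℝ} (hGL : LocLip D G)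
    (hG : ∀ b ∈ S ∩ N, ∀ z ∈ D, G (σ b z) = G z) : Stat D G v := by
  intro z₀ hz₀
  obtain ⟨r1, hr1, M, hM0, hr1D, hvM, hvL⟩ := exists_lip hD (hv.hol hσ) hz₀
  obtain ⟨r2, hr2, CG, hCG0, hr2D, hGl⟩ := hGL z₀ hz₀
  obtain ⟨r3, hr3, C, hC0, h⟩ := stat_pos hD hσ hN hv hGL hG z₀ hz₀
  set r := min r1 (min r2 r3) with hr
  have hr0 : 0 < r := by positivity
  have hs1 : ball z₀ r ⊆ ball z₀ r1 := ball_subset_ball (min_le_left _ _)
  have hs2 : ball z₀ r ⊆ ball z₀ r2 := ball_subset_ball ((min_le_right _ _).trans (min_le_left _ _))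
  have hs3 : ball z₀ r ⊆ ball z₀ r3 :=
    ball_subset_ball ((min_le_right _ _).trans (min_le_right _ _))
  set ρ := min (r / 4) (r / (4 * (M + 1))) with hρ
  have hρ0 : 0 < ρ := by positivity
  have hρr : ρ ≤ r / 4 := min_le_left _ _
  have hρM : ρ * (M + 1) ≤ r / 4 := by
    have : ρ ≤ r / (4 * (M + 1)) := min_le_right _ _
    calc ρ * (M + 1) ≤ r / (4 * (M + 1)) * (M + 1) := by gcongr
      _ = r / 4 := by field_simp
  refine ⟨ρ, hρ0, C + CG * (M * M), by positivity, fun z hz τ hτ => ?_⟩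
  have hzr : z ∈ ball z₀ r := ball_subset_ball (by linarith) hz
  rcases le_total 0 τ with h0 | h0
  · rw [abs_of_nonneg h0] at hτ
    have h3r : ρ ≤ r3 := by
      have : r ≤ r3 := (min_le_right _ _).trans (min_le_right _ _)
      linarith
    refine (h z (hs3 hzr) τ h0 (hτ.trans h3r)).trans ?_
    have : 0 ≤ CG * (M * M) * τ ^ 2 := by positivity
    linarith
  · rw [abs_of_nonpos h0] at hτ
    set t := -τ with ht
    have ht0 : 0 ≤ t := by linarith
    have e0 : (τ : ℂ) = -(t : ℂ) := by rw [ht]; push_cast; ring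
    set z' := z + (τ : ℂ) • v z with hz'
    have hvz := hvM z (hs1 hzr)
    have hzz' : ‖z' - z‖ ≤ t * M := by
      rw [hz', add_sub_cancel_left, norm_smul, Complex.norm_real, Real.norm_eq_abs,
        abs_of_nonpos h0]
      gcongr
    have htM : t * M ≤ r / 4 := by
      calc t * M ≤ ρ * (M + 1) := by
            have : M ≤ M + 1 := by linarith
            gcongr
        _ ≤ r / 4 := hρM
    have hz'r2 : z' ∈ ball z₀ (r / 2) := by
      rw [mem_ball, dist_eq_norm] at hz ⊢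
      have e : z' - z₀ = (z' - z) + (z - z₀) := by abel
      rw [e]
      have := norm_add_le (z' - z) (z - z₀)
      linarith
    have hz'r : z' ∈ ball z₀ r := ball_subset_ball (by linarith) hz'r2
    have h3r : ρ ≤ r3 := by
      have : r ≤ r3 := (min_le_right _ _).trans (min_le_right _ _)
      linarith
    have h1 := h z' (hs3 hz'r) t ht0 (hτ.trans h3r)
    have hvz' := hvM z' (hs1 hz'r)
    have h2 : z' + (t : ℂ) • v z' - z = (t : ℂ) • (v z' - v z) := by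
      rw [hz', e0, smul_sub, neg_smul]; abel
    have h3 : ‖z' + (t : ℂ) • v z' - z‖ ≤ t * (M * (t * M)) := by
      rw [h2, norm_smul, Complex.norm_real, Real.norm_eq_abs, abs_of_nonneg ht0]
      have := hvL z (hs1 hzr) z' (hs1 hz'r)
      gcongr
      refine this.trans ?_
      gcongr
    have h4 : z' + (t : ℂ) • v z' ∈ ball z₀ r := by
      rw [mem_ball, dist_eq_norm] at hz'r2 ⊢
      have e : z' + (t : ℂ) • v z' - z₀ = (z' - z₀) + (t : ℂ) • v z' := by abel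
      rw [e]
      have e1 := norm_add_le (z' - z₀) ((t : ℂ) • v z')
      have e2 : ‖(t : ℂ) • v z'‖ ≤ t * M := by
        rw [norm_smul, Complex.norm_real, Real.norm_eq_abs, abs_of_nonneg ht0]
        gcongr
      linarith
    have h5 := hGl z (hs2 hzr) _ (hs2 h4)
    have h6 : |G z' - G z| ≤ |G (z' + (t : ℂ) • v z') - G z'| +
        |G (z' + (t : ℂ) • v z') - G z| := by
      have e : G z' - G z = -(G (z' + (t : ℂ) • v z') - G z') +
          (G (z' + (t : ℂ) • v z') - G z) := by ring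
      rw [e]
      refine (abs_add_le _ _).trans ?_
      rw [abs_neg]
    have h7 : CG * ‖z' + (t : ℂ) • v z' - z‖ ≤ CG * (t * (M * (t * M))) := by gcongr
    have h8 : t ^ 2 = τ ^ 2 := by rw [ht]; ring
    calc |G z' - G z| ≤ C * t ^ 2 + CG * (t * (M * (t * M))) := by linarith
      _ = (C + CG * (M * M)) * τ ^ 2 := by rw [← h8]; ring

theorem Stat.zero (G : E → ℝ) : Stat D G 0 := by
  intro z₀ _
  refine ⟨1, one_pos, 0, le_rfl, fun z _ τ _ => ?_⟩
  simp

theorem Stat.smul {G : E → ℝ} {v : E → E} (h : Stat D G v) (c : ℝ) :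
    Stat D G (fun z => (c : ℂ) • v z) := by
  intro z₀ hz₀
  obtain ⟨ρ, hρ, C, hC, h1⟩ := h z₀ hz₀
  refine ⟨min ρ (ρ / (|c| + 1)), by positivity, C * c ^ 2, by positivity, fun z hz τ hτ => ?_⟩
  have hz' : z ∈ ball z₀ ρ := ball_subset_ball (min_le_left _ _) hz
  have h2 : |τ * c| ≤ ρ := by
    rw [abs_mul]
    have e1 : |τ| ≤ ρ / (|c| + 1) := hτ.trans (min_le_right _ _)
    calc |τ| * |c| ≤ ρ / (|c| + 1) * (|c| + 1) := by
          gcongr
          linarith
      _ = ρ := by field_simp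
  have h3 := h1 z hz' (τ * c) h2
  have e : ((τ * c : ℝ) : ℂ) • v z = (τ : ℂ) • ((c : ℂ) • v z) := by
    rw [smul_smul]; push_cast; rfl
  rw [e] at h3
  refine h3.trans (le_of_eq ?_)
  ring

theorem Stat.add (hD : IsOpen D) {G : E → ℝ} (hGL : LocLip D G) {v w : E → E}
    (hv : Stat D G v) (hw : Stat D G w) (hvd : DifferentiableOn ℂ v D)
    (hwd : DifferentiableOn ℂ w D) : Stat D G (v + w) := by
  intro z₀ hz₀
  obtain ⟨r1, hr1, M, hM0, hr1D, hvM, hvL⟩ := exists_lip hD hvd hz₀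
  obtain ⟨r1', hr1', M', hM0', hr1D', hwM, hwL⟩ := exists_lip hD hwd hz₀
  obtain ⟨r2, hr2, CG, hCG0, hr2D, hGl⟩ := hGL z₀ hz₀
  obtain ⟨r3, hr3, C, hC0, hv1⟩ := hv z₀ hz₀
  obtain ⟨r4, hr4, C', hC0', hw1⟩ := hw z₀ hz₀
  set r := min r1 (min r1' (min r2 (min r3 r4))) with hr
  have hr0 : 0 < r := by positivity
  have l1 : r ≤ r1 := min_le_left _ _
  have l2 : r ≤ r1' := (min_le_right _ _).trans (min_le_left _ _)
  have l3 : r ≤ r2 := (min_le_right _ _).trans ((min_le_right _ _).trans (min_le_left _ _))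
  have l4 : r ≤ r3 := (min_le_right _ _).trans ((min_le_right _ _).trans
    ((min_le_right _ _).trans (min_le_left _ _)))
  have l5 : r ≤ r4 := (min_le_right _ _).trans ((min_le_right _ _).trans
    ((min_le_right _ _).trans (min_le_right _ _)))
  set Q := M + M' + 1 with hQ
  have hQ0 : 0 < Q := by positivity
  set ρ := min (r / 4) (r / (4 * Q)) with hρ
  have hρ0 : 0 < ρ := by positivity
  have hρr : ρ ≤ r / 4 := min_le_left _ _
  have hρQ : ρ * Q ≤ r / 4 := by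
    have : ρ ≤ r / (4 * Q) := min_le_right _ _
    calc ρ * Q ≤ r / (4 * Q) * Q := by gcongr
      _ = r / 4 := by field_simp
  refine ⟨ρ, hρ0, C + C' + CG * (M' * M), by positivity, fun z hz τ hτ => ?_⟩
  rw [mem_ball, dist_eq_norm] at hz
  set z1 := z + (τ : ℂ) • v z with hz1
  set z2 := z1 + (τ : ℂ) • w z1 with hz2
  set z3 := z + (τ : ℂ) • (v + w) z with hz3
  have hzr : ‖z - z₀‖ < r := by linarith
  have hzm : ∀ {s : ℝ}, r ≤ s → z ∈ ball z₀ s := fun hs => by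
    rw [mem_ball, dist_eq_norm]; linarith
  have nrm : ∀ x : E, ‖(τ : ℂ) • x‖ = |τ| * ‖x‖ := fun x => by
    rw [norm_smul, Complex.norm_real, Real.norm_eq_abs]
  have a1 : ‖z1 - z‖ ≤ |τ| * M := by
    rw [hz1, add_sub_cancel_left, nrm]
    have := hvM z (hzm l1)
    gcongr
  have b1 : |τ| * M ≤ r / 4 := by
    calc |τ| * M ≤ ρ * Q := by
          gcongr
          rw [hQ]; linarith
      _ ≤ r / 4 := hρQ
  have b2 : |τ| * M' ≤ r / 4 := by
    calc |τ| * M' ≤ ρ * Q := by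
          gcongr
          rw [hQ]; linarith
      _ ≤ r / 4 := hρQ
  have c1 : ‖z1 - z₀‖ < r / 2 := by
    have e : z1 - z₀ = (z1 - z) + (z - z₀) := by abel
    rw [e]
    have := norm_add_le (z1 - z) (z - z₀)
    linarith
  have hz1m : ∀ {s : ℝ}, r ≤ s → z1 ∈ ball z₀ s := fun hs => by
    rw [mem_ball, dist_eq_norm]; linarith
  have a2 : ‖z2 - z1‖ ≤ |τ| * M' := by
    rw [hz2, add_sub_cancel_left, nrm]
    have := hwM z1 (hz1m l2)
    gcongr
  have c2 : ‖z2 - z₀‖ < r := by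
    have e : z2 - z₀ = (z2 - z1) + (z1 - z₀) := by abel
    rw [e]
    have := norm_add_le (z2 - z1) (z1 - z₀)
    linarith
  have e3 : z3 - z2 = (τ : ℂ) • (w z - w z1) := by
    rw [hz3, hz2, hz1, Pi.add_apply, smul_add, smul_sub]; abel
  have a3 : ‖z3 - z2‖ ≤ |τ| * (M' * (|τ| * M)) := by
    rw [e3, nrm]
    have := hwL z1 (hz1m l2) z (hzm l2)
    rw [norm_sub_rev z z1] at this
    gcongr
    refine this.trans ?_
    gcongr
  have c3 : ‖z3 - z₀‖ < r := by
    have e : z3 - z₀ = (z - z₀) + (τ : ℂ) • v z + (τ : ℂ) • w z := by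
      rw [hz3, Pi.add_apply, smul_add]; abel
    rw [e]
    refine (norm_add₃_le).trans_lt ?_
    rw [nrm, nrm]
    have f1 := hvM z (hzm l1)
    have f2 := hwM z (hzm l2)
    have f3 : |τ| * ‖v z‖ ≤ |τ| * M := by gcongr
    have f4 : |τ| * ‖w z‖ ≤ |τ| * M' := by gcongr
    linarith
  have g1 := hv1 z (hzm l4) τ (by linarith)
  have g2 := hw1 z1 (hz1m l5) τ (by linarith)
  have g3 := hGl z2 (by rw [mem_ball, dist_eq_norm]; linarith) z3
    (by rw [mem_ball, dist_eq_norm]; linarith)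
  have g4 : CG * ‖z3 - z2‖ ≤ CG * (M' * M) * τ ^ 2 := by
    calc CG * ‖z3 - z2‖ ≤ CG * (|τ| * (M' * (|τ| * M))) := by gcongr
      _ = CG * (M' * M) * |τ| ^ 2 := by ring
      _ = CG * (M' * M) * τ ^ 2 := by rw [sq_abs]
  have e : G z3 - G z = (G z3 - G z2) + (G z2 - G z1) + (G z1 - G z) := by ring
  rw [e]
  refine (abs_add_three _ _ _).trans ?_
  calc |G z3 - G z2| + |G z2 - G z1| + |G z1 - G z|
      ≤ CG * (M' * M) * τ ^ 2 + C' * τ ^ 2 + C * τ ^ 2 := by linarith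
    _ = _ := by ring

end Pool.Agent.H906.BD
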