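import Pool.Agent.H906.BD.Setup

/-! # T06 Ibp: the operator `Lap A φ = ∑ A_{kj} ∂_j \bar∂_k φ` is symmetric for divergence free `A`

Proof. All integrands vanish off the compact set `tsupport ψ ⊆ U`. For a `C^1` function `h` with
compact support on `ℂ^N`, `∫ dz j h = 0` and `∫ dzb k h = 0` (`integral_fderiv_eq_zero`-type lemma:
e.g. `integral_bilinear_hasLineDerivAt_right_eq_neg_left_of_integrable` or
`HasCompactSupport`-version of `integral_mul_fderiv_eq_neg_fderiv_mul_of_integrable`,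
applied to the real directions `Pi.single k 1`, `Pi.single k I`). Then for every `j, k`:
`∫ φ A_{kj} ∂_j\bar∂_k ψ = - ∫ (∂_jφ) A_{kj} \bar∂_k ψ - ∫ φ (∂_j A_{kj}) \bar∂_k ψ`; summed over
`j` the last term is zero (`row`). And
`- ∫ (∂_jφ) A_{kj} \bar∂_k ψ = ∫ ψ (\bar∂_k∂_j φ) A_{kj} + ∫ ψ (∂_jφ) \bar∂_k A_{kj}`; summed over
`k` the last term is zero (`col`). Finally `\bar∂_k ∂_j φ = ∂_j \bar∂_k φ` on `U` by the symmetry of
the second derivative of a `C^2` function. (The products such as `A_{kj} φ \bar∂_k ψ` are `C^1`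
with compact support in `U`: `A, φ` are only smooth on `U`, `ψ` on the whole space.) -/

open Filter Topology Set Metric MeasureTheory

namespace Pool.Agent.H906.BD

variable {N : Type*} [Fintype N] [DecidableEq N]

/-- `∂_j` and `\bar∂_j` are linear combinations of directional derivatives -/
noncomputable def ibp_D (c : ℂ) (j : N) (f : (N → ℂ) → ℂ) (x : N → ℂ) : ℂ :=
  (fderiv ℝ f x (Pi.single j 1) + c * fderiv ℝ f x (Pi.single j Complex.I)) / 2

theorem ibp_dz (j : N) (f : (N → ℂ) → ℂ) : dz j f = ibp_D (-Complex.I) j f := by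
  funext x
  unfold dz ibp_D
  ring

theorem ibp_dzb (j : N) (f : (N → ℂ) → ℂ) : dzb j f = ibp_D Complex.I j f := rfl

theorem ibp_mul (c : ℂ) (j : N) {f g : (N → ℂ) → ℂ} {x : N → ℂ} (hf : DifferentiableAt ℝ f x)
    (hg : DifferentiableAt ℝ g x) : ibp_D c j (fun y => f y * g y) x =
      ibp_D c j f x * g x + f x * ibp_D c j g x := by
  unfold ibp_D
  have h1 : fderiv ℝ (fun y => f y * g y) x = f x • fderiv ℝ g x + g x • fderiv ℝ f x :=
    (hf.hasFDerivAt.mul hg.hasFDerivAt).fderiv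
  rw [h1]
  simp only [ContinuousLinearMap.add_apply, ContinuousLinearMap.smul_apply, smul_eq_mul]
  ring

theorem ibp_zero (c : ℂ) (j : N) {f : (N → ℂ) → ℂ} {x : N → ℂ} (hx : x ∉ tsupport f) :
    ibp_D c j f x = 0 := by
  unfold ibp_D
  have h1 : fderiv ℝ f x = 0 := by
    by_contra h
    exact hx (support_fderiv_subset ℝ h)
  rw [h1]
  simp

theorem ibp_contDiffAt (c : ℂ) (j : N) {n : ℕ} {f : (N → ℂ) → ℂ} {x : N → ℂ}
    (hf : ContDiffAt ℝ (n + 1 : ℕ) f x) : ContDiffAt ℝ n (ibp_D c j f) x := by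
  have h1 : ContDiffAt ℝ n (fderiv ℝ f) x := hf.fderiv_right (by norm_cast)
  unfold ibp_D
  exact ((h1.clm_apply contDiffAt_const).add
    (contDiffAt_const.mul (h1.clm_apply contDiffAt_const))).div_const 2

theorem ibp_symm (c c' : ℂ) (j k : N) {f : (N → ℂ) → ℂ} {x : N → ℂ}
    (hf : ContDiffAt ℝ 2 f x) : ibp_D c j (ibp_D c' k f) x = ibp_D c' k (ibp_D c j f) x := by
  have h1 : ContDiffAt ℝ 1 (fderiv ℝ f) x := hf.fderiv_right (by norm_num)
  have h2 : HasFDerivAt (fderiv ℝ f) (fderiv ℝ (fderiv ℝ f) x) x :=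
    (h1.differentiableAt (by norm_num)).hasFDerivAt
  have hs : IsSymmSndFDerivAt ℝ f x := hf.isSymmSndFDerivAt (by simp)
  have h3 : ∀ (c : ℂ) (k : N) (v : N → ℂ), fderiv ℝ (ibp_D c k f) x v =
      (fderiv ℝ (fderiv ℝ f) x v (Pi.single k 1) +
        c * fderiv ℝ (fderiv ℝ f) x v (Pi.single k Complex.I)) / 2 := by
    intro c k v
    have e1 : ∀ w : N → ℂ, HasFDerivAt (fun y => fderiv ℝ f y w)
        ((fderiv ℝ (fderiv ℝ f) x).flip w) x := by
      intro w
      exact (ContinuousLinearMap.apply ℝ ℂ w).hasFDerivAt.comp x h2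
    have e2 : HasFDerivAt (fun y => (fderiv ℝ f y (Pi.single k 1) +
        c * fderiv ℝ f y (Pi.single k Complex.I)) * (2 : ℂ)⁻¹)
        ((2 : ℂ)⁻¹ • ((fderiv ℝ (fderiv ℝ f) x).flip (Pi.single k 1) +
          c • (fderiv ℝ (fderiv ℝ f) x).flip (Pi.single k Complex.I))) x :=
      (((e1 (Pi.single k 1)).add ((e1 (Pi.single k Complex.I)).const_mul c)).mul_const
      ((2 : ℂ)⁻¹))
    have e3 : ibp_D c k f = fun y => (fderiv ℝ f y (Pi.single k 1) +
        c * fderiv ℝ f y (Pi.single k Complex.I)) * (2 : ℂ)⁻¹ := by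
      funext y
      unfold ibp_D
      rw [div_eq_mul_inv]
    rw [e3]
    rw [e2.fderiv]
    simp only [ContinuousLinearMap.smul_apply, ContinuousLinearMap.add_apply,
      ContinuousLinearMap.flip_apply, smul_eq_mul]
    ring
  unfold ibp_D at h3 ⊢
  rw [h3, h3, h3, h3, hs (Pi.single k 1) (Pi.single j 1), hs (Pi.single k 1)
    (Pi.single j Complex.I), hs (Pi.single k Complex.I) (Pi.single j 1),
    hs (Pi.single k Complex.I) (Pi.single j Complex.I)]
  ring

theorem ibp_supp (c : ℂ) (j : N) (f : (N → ℂ) → ℂ) : tsupport (ibp_D c j f) ⊆ tsupport f := by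
  refine closure_minimal (fun x hx => ?_) isClosed_closure
  by_contra h
  exact hx (ibp_zero c j h)

/-- the integral of a derivative of a `C^1` function with compact support -/
theorem ibp_int (c : ℂ) (j : N) {h : (N → ℂ) → ℂ} (hh : ContDiff ℝ 1 h)
    (hc : HasCompactSupport h) : Integrable (ibp_D c j h) ∧ ∫ x, ibp_D c j h x = 0 := by
  have hf : Continuous (fderiv ℝ h) := hh.continuous_fderiv (by norm_num)
  have hi : ∀ v : N → ℂ, Integrable (fun x => fderiv ℝ h x v) := by
    intro v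
    refine Continuous.integrable_of_hasCompactSupport (hf.clm_apply continuous_const) ?_
    exact hc.fderiv_apply ℝ v
  have hz : ∀ v : N → ℂ, ∫ x, fderiv ℝ h x v = 0 := by
    intro v
    have h1 := integral_mul_fderiv_eq_neg_fderiv_mul_of_integrable (μ := (volume : Measure (N → ℂ)))
      (f := fun _ : N → ℂ => (1 : ℂ)) (g := h) (v := v) (by simp) (by simpa using hi v)
      (by simpa using hh.continuous.integrable_of_hasCompactSupport hc)
      (fun x _ => differentiableAt_const _) (fun x _ => (hh.differentiable (by norm_num)) x)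
    simpa using h1
  refine ⟨?_, ?_⟩
  · unfold ibp_D
    exact ((hi _).add ((hi _).const_mul c)).div_const 2
  · unfold ibp_D
    rw [integral_div, integral_add (hi _) ((hi _).const_mul c), integral_const_mul, hz, hz]
    simp

theorem ibp_ext {h : (N → ℂ) → ℂ} {S U : Set (N → ℂ)} (hS : IsClosed S) (hSU : S ⊆ U)
    (h0 : ∀ x ∉ S, h x = 0) (hU : ∀ x ∈ U, ContDiffAt ℝ 1 h x) : ContDiff ℝ 1 h := by
  rw [contDiff_iff_contDiffAt]
  intro x
  by_cases hx : x ∈ S
  · exact hU x (hSU hx)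
  · have h1 : h =ᶠ[𝓝 x] fun _ => 0 := by
      filter_upwards [hS.isOpen_compl.mem_nhds hx] with y hy
      exact h0 y hy
    exact contDiffAt_const.congr_of_eventuallyEq h1

theorem lap_symm {U : Set (N → ℂ)} (hU : IsOpen U) {A : (N → ℂ) → Matrix N N ℂ}
    (hA : DivFree U A) {φ ψ : (N → ℂ) → ℂ} (hφ : ContDiffOn ℝ 2 φ U) (hψ : ContDiff ℝ 2 ψ)
    (hψc : HasCompactSupport ψ) (hψU : tsupport ψ ⊆ U) :
    ∫ x, φ x * Lap A ψ x = ∫ x, ψ x * Lap A φ x := by
  have hcl : IsClosed (tsupport ψ) := isClosed_tsupport ψ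
  have hφa : ∀ x ∈ U, ContDiffAt ℝ 2 φ x := fun x hx => hφ.contDiffAt (hU.mem_nhds hx)
  have hAa : ∀ k j, ∀ x ∈ U, ContDiffAt ℝ 1 (fun x => A x k j) x :=
    fun k j x hx => (hA.smooth k j).contDiffAt (hU.mem_nhds hx)
  have hDφ : ∀ (c : ℂ) (j : N), ∀ x ∈ U, ContDiffAt ℝ 1 (ibp_D c j φ) x :=
    fun c j x hx => ibp_contDiffAt (n := 1) c j (hφa x hx)
  have hDψ : ∀ (c : ℂ) (j : N), ∀ x, ContDiffAt ℝ 1 (ibp_D c j ψ) x :=
    fun c j x => ibp_contDiffAt (n := 1) c j hψ.contDiffAt
  have hD0 : ∀ (c : ℂ) (j : N), ∀ x ∉ tsupport ψ, ibp_D c j ψ x = 0 :=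
    fun c j x hx => ibp_zero c j hx
  have hψ0 : ∀ x ∉ tsupport ψ, ψ x = 0 := fun x hx => image_eq_zero_of_notMem_tsupport hx
  have hφ1 : ∀ x ∈ U, ContDiffAt ℝ 1 φ x := fun x hx => (hφa x hx).of_le (by norm_num)
  have hψ1 : ∀ x, ContDiffAt ℝ 1 ψ x := fun x => hψ.contDiffAt.of_le (by norm_num)
  -- the auxiliary functions
  obtain ⟨h1, hh1⟩ : ∃ h1 : N → N → (N → ℂ) → ℂ,
    h1 = fun j k x => φ x * (A x k j * ibp_D Complex.I k ψ x) := ⟨_, rfl⟩
  obtain ⟨h2, hh2⟩ : ∃ h2 : N → N → (N → ℂ) → ℂ,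
    h2 = fun j k x => ψ x * (A x k j * ibp_D (-Complex.I) j φ x) := ⟨_, rfl⟩
  obtain ⟨G, hG⟩ : ∃ G : N → N → (N → ℂ) → ℂ,
    G = fun j k x => ibp_D (-Complex.I) j φ x * (A x k j * ibp_D Complex.I k ψ x) := ⟨_, rfl⟩
  have hc : ∀ {h : (N → ℂ) → ℂ}, (∀ x ∉ tsupport ψ, h x = 0) → HasCompactSupport h := by
    intro h h0
    refine HasCompactSupport.intro hψc.isCompact h0
  have s1 : ∀ j k, ContDiff ℝ 1 (h1 j k) ∧ HasCompactSupport (h1 j k) := by
    intro j k
    have h0 : ∀ x ∉ tsupport ψ, h1 j k x = 0 := by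
      intro x hx
      rw [hh1]
      show φ x * (A x k j * ibp_D Complex.I k ψ x) = 0
      rw [hD0 _ _ x hx, mul_zero, mul_zero]
    refine ⟨ibp_ext hcl hψU h0 fun x hx => ?_, hc h0⟩
    rw [hh1]
    exact (hφ1 x hx).mul ((hAa k j x hx).mul (hDψ _ _ x))
  have s2 : ∀ j k, ContDiff ℝ 1 (h2 j k) ∧ HasCompactSupport (h2 j k) := by
    intro j k
    have h0 : ∀ x ∉ tsupport ψ, h2 j k x = 0 := by
      intro x hx
      rw [hh2]
      show ψ x * _ = 0
      rw [hψ0 x hx, zero_mul]
    refine ⟨ibp_ext hcl hψU h0 fun x hx => ?_, hc h0⟩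
    rw [hh2]
    exact (hψ1 x).mul ((hAa k j x hx).mul (hDφ _ _ x hx))
  have s3 : ∀ j k, Integrable (G j k) := by
    intro j k
    have h0 : ∀ x ∉ tsupport ψ, G j k x = 0 := by
      intro x hx
      rw [hG]
      show ibp_D (-Complex.I) j φ x * (A x k j * ibp_D Complex.I k ψ x) = 0
      rw [hD0 _ _ x hx, mul_zero, mul_zero]
    have h1 : ContDiff ℝ 1 (G j k) := by
      refine ibp_ext hcl hψU h0 fun x hx => ?_
      rw [hG]
      exact (hDφ _ _ x hx).mul ((hAa k j x hx).mul (hDψ _ _ x))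
    exact h1.continuous.integrable_of_hasCompactSupport (hc h0)
  have i1 : ∀ j k, Integrable (ibp_D (-Complex.I) j (h1 j k)) ∧
      ∫ x, ibp_D (-Complex.I) j (h1 j k) x = 0 := fun j k => ibp_int _ _ (s1 j k).1 (s1 j k).2
  have i2 : ∀ j k, Integrable (ibp_D Complex.I k (h2 j k)) ∧
      ∫ x, ibp_D Complex.I k (h2 j k) x = 0 := fun j k => ibp_int _ _ (s2 j k).1 (s2 j k).2
  -- pointwise identities
  have p1 : ∀ x, φ x * Lap A ψ x = ∑ j, ∑ k, (ibp_D (-Complex.I) j (h1 j k) x - G j k x) := by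
    intro x
    unfold Lap
    by_cases hx : x ∈ U
    · have e1 : ∀ j k, ibp_D (-Complex.I) j (h1 j k) x = G j k x +
          φ x * (A x k j * dz j (dzb k ψ) x) +
          φ x * (dz j (fun y => A y k j) x * ibp_D Complex.I k ψ x) := by
        intro j k
        rw [hh1, hG, ibp_dz, ibp_dz, ibp_dzb]
        have d1 := (hφ1 x hx).differentiableAt (by norm_num)
        have d2 := (hAa k j x hx).differentiableAt (by norm_num)
        have d3 := (hDψ Complex.I k x).differentiableAt (by norm_num)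
        have q1 := ibp_mul (-Complex.I) j (f := φ)
          (g := fun y => A y k j * ibp_D Complex.I k ψ y) d1 (d2.mul d3)
        have q2 := ibp_mul (-Complex.I) j (f := fun y => A y k j)
          (g := ibp_D Complex.I k ψ) d2 d3
        show ibp_D (-Complex.I) j (fun y => φ y * (A y k j * ibp_D Complex.I k ψ y)) x =
          ibp_D (-Complex.I) j φ x * (A x k j * ibp_D Complex.I k ψ x) +
          φ x * (A x k j * ibp_D (-Complex.I) j (ibp_D Complex.I k ψ) x) +
          φ x * (ibp_D (-Complex.I) j (fun y => A y k j) x * ibp_D Complex.I k ψ x)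
        rw [q1]
        show ibp_D (-Complex.I) j φ x * (A x k j * ibp_D Complex.I k ψ x) +
          φ x * ibp_D (-Complex.I) j (fun y => A y k j * ibp_D Complex.I k ψ y) x = _
        rw [q2]
        ring
      have e2 : ∑ j, ∑ k, φ x * (dz j (fun y => A y k j) x * ibp_D Complex.I k ψ x) = 0 := by
        rw [Finset.sum_comm]
        refine Finset.sum_eq_zero fun k _ => ?_
        rw [← Finset.mul_sum, ← Finset.sum_mul, hA.row x hx k, zero_mul, mul_zero]
      have e3 : ∑ j, ∑ k, (ibp_D (-Complex.I) j (h1 j k) x - G j k x) =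
          ∑ j, ∑ k, φ x * (A x k j * dz j (dzb k ψ) x) +
          ∑ j, ∑ k, φ x * (dz j (fun y => A y k j) x * ibp_D Complex.I k ψ x) := by
        rw [← Finset.sum_add_distrib]
        refine Finset.sum_congr rfl fun j _ => ?_
        rw [← Finset.sum_add_distrib]
        refine Finset.sum_congr rfl fun k _ => ?_
        rw [e1]
        ring
      rw [e3, e2, add_zero, Finset.mul_sum]
      refine Finset.sum_congr rfl fun j _ => ?_
      rw [Finset.mul_sum]
    · have hx' : x ∉ tsupport ψ := fun h => hx (hψU h)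
      have e1 : ∑ j, ∑ k, A x k j * dz j (dzb k ψ) x = 0 := by
        refine Finset.sum_eq_zero fun j _ => Finset.sum_eq_zero fun k _ => ?_
        rw [ibp_dz, ibp_dzb, ibp_zero _ _ (fun h => hx' (ibp_supp _ _ _ h)), mul_zero]
      rw [e1, mul_zero]
      symm
      refine Finset.sum_eq_zero fun j _ => Finset.sum_eq_zero fun k _ => ?_
      have e2 : tsupport (h1 j k) ⊆ tsupport ψ := by
        refine closure_minimal (fun y hy => ?_) hcl
        by_contra hy'
        apply hy
        rw [hh1]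
        show φ y * (A y k j * ibp_D Complex.I k ψ y) = 0
        rw [hD0 _ _ y hy', mul_zero, mul_zero]
      rw [ibp_zero _ _ (fun h => hx' (e2 h)), hG]
      show 0 - ibp_D (-Complex.I) j φ x * (A x k j * ibp_D Complex.I k ψ x) = 0
      rw [hD0 _ _ x hx', mul_zero, mul_zero, sub_zero]
  have p2 : ∀ x, ψ x * Lap A φ x = ∑ j, ∑ k, (ibp_D Complex.I k (h2 j k) x - G j k x) := by
    intro x
    unfold Lap
    by_cases hx : x ∈ U
    · have e1 : ∀ j k, ibp_D Complex.I k (h2 j k) x = G j k x +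
          ψ x * (A x k j * dz j (dzb k φ) x) +
          ψ x * (dzb k (fun y => A y k j) x * ibp_D (-Complex.I) j φ x) := by
        intro j k
        rw [hh2, hG, ibp_dz, ibp_dzb, ibp_dzb, ibp_symm _ _ _ _ (hφa x hx)]
        have d1 := (hψ1 x).differentiableAt (by norm_num)
        have d2 := (hAa k j x hx).differentiableAt (by norm_num)
        have d3 := (hDφ (-Complex.I) j x hx).differentiableAt (by norm_num)
        have q1 := ibp_mul Complex.I k (f := ψ)
          (g := fun y => A y k j * ibp_D (-Complex.I) j φ y) d1 (d2.mul d3)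
        have q2 := ibp_mul Complex.I k (f := fun y => A y k j)
          (g := ibp_D (-Complex.I) j φ) d2 d3
        show ibp_D Complex.I k (fun y => ψ y * (A y k j * ibp_D (-Complex.I) j φ y)) x =
          ibp_D (-Complex.I) j φ x * (A x k j * ibp_D Complex.I k ψ x) +
          ψ x * (A x k j * ibp_D Complex.I k (ibp_D (-Complex.I) j φ) x) +
          ψ x * (ibp_D Complex.I k (fun y => A y k j) x * ibp_D (-Complex.I) j φ x)
        rw [q1]
        show ibp_D Complex.I k ψ x * (A x k j * ibp_D (-Complex.I) j φ x) +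
          ψ x * ibp_D Complex.I k (fun y => A y k j * ibp_D (-Complex.I) j φ y) x = _
        rw [q2]
        ring
      have e2 : ∑ j, ∑ k, ψ x * (dzb k (fun y => A y k j) x * ibp_D (-Complex.I) j φ x) = 0 := by
        refine Finset.sum_eq_zero fun j _ => ?_
        rw [← Finset.mul_sum, ← Finset.sum_mul, hA.col x hx j, zero_mul, mul_zero]
      have e3 : ∑ j, ∑ k, (ibp_D Complex.I k (h2 j k) x - G j k x) =
          ∑ j, ∑ k, ψ x * (A x k j * dz j (dzb k φ) x) +
          ∑ j, ∑ k, ψ x * (dzb k (fun y => A y k j) x * ibp_D (-Complex.I) j φ x) := by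
        rw [← Finset.sum_add_distrib]
        refine Finset.sum_congr rfl fun j _ => ?_
        rw [← Finset.sum_add_distrib]
        refine Finset.sum_congr rfl fun k _ => ?_
        rw [e1]
        ring
      rw [e3, e2, add_zero, Finset.mul_sum]
      refine Finset.sum_congr rfl fun j _ => ?_
      rw [Finset.mul_sum]
    · have hx' : x ∉ tsupport ψ := fun h => hx (hψU h)
      rw [hψ0 x hx', zero_mul]
      symm
      refine Finset.sum_eq_zero fun j _ => Finset.sum_eq_zero fun k _ => ?_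
      have e2 : tsupport (h2 j k) ⊆ tsupport ψ := by
        refine closure_minimal (fun y hy => ?_) hcl
        by_contra hy'
        apply hy
        rw [hh2]
        show ψ y * _ = 0
        rw [hψ0 y hy', zero_mul]
      rw [ibp_zero _ _ (fun h => hx' (e2 h)), hG]
      show 0 - ibp_D (-Complex.I) j φ x * (A x k j * ibp_D Complex.I k ψ x) = 0
      rw [hD0 _ _ x hx', mul_zero, mul_zero, sub_zero]
  have i3 : ∀ j k, Integrable (fun x => ibp_D (-Complex.I) j (h1 j k) x - G j k x) :=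
    fun j k => (i1 j k).1.sub (s3 j k)
  have i4 : ∀ j k, Integrable (fun x => ibp_D Complex.I k (h2 j k) x - G j k x) :=
    fun j k => (i2 j k).1.sub (s3 j k)
  have i5 : ∀ j, Integrable (fun x => ∑ k, (ibp_D (-Complex.I) j (h1 j k) x - G j k x)) :=
    fun j => integrable_finsetSum _ fun k _ => i3 j k
  have i6 : ∀ j, Integrable (fun x => ∑ k, (ibp_D Complex.I k (h2 j k) x - G j k x)) :=
    fun j => integrable_finsetSum _ fun k _ => i4 j k
  rw [integral_congr_ae (Eventually.of_forall p1), integral_congr_ae (Eventually.of_forall p2)]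
  rw [integral_finsetSum _ fun j _ => i5 j, integral_finsetSum _ fun j _ => i6 j]
  refine Finset.sum_congr rfl fun j _ => ?_
  rw [integral_finsetSum _ fun k _ => i3 j k, integral_finsetSum _ fun k _ => i4 j k]
  refine Finset.sum_congr rfl fun k _ => ?_
  rw [integral_sub (i1 j k).1 (s3 j k), integral_sub (i2 j k).1 (s3 j k), (i1 j k).2, (i2 j k).2]

end Pool.Agent.H906.BD
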