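import Pool.Agent.H906.BD.Setup

/-! # Elementary properties of the operator `Lap` -/

set_option linter.unusedSectionVars false

open Filter Topology Set Metric MeasureTheory
open scoped ComplexOrder

namespace Pool.Agent.H906.BD

variable {N : Type*} [Fintype N] [DecidableEq N]

theorem dzb_contDiffOn {U : Set (N → ℂ)} (hU : IsOpen U) {φ : (N → ℂ) → ℂ}
    (hφ : ContDiffOn ℝ 2 φ U) (k : N) : ContDiffOn ℝ 1 (dzb k φ) U := by
  have h1 : ContDiffOn ℝ 1 (fderiv ℝ φ) U := hφ.fderiv_of_isOpen hU (by norm_num)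
  unfold dzb
  exact ((h1.clm_apply contDiffOn_const).add
    (contDiffOn_const.mul (h1.clm_apply contDiffOn_const))).div_const _

theorem dz_continuousOn {U : Set (N → ℂ)} (hU : IsOpen U) {φ : (N → ℂ) → ℂ}
    (hφ : ContDiffOn ℝ 1 φ U) (k : N) : ContinuousOn (dz k φ) U := by
  have h1 : ContinuousOn (fderiv ℝ φ) U := hφ.continuousOn_fderiv_of_isOpen hU (by norm_num)
  unfold dz
  exact ((h1.clm_apply continuousOn_const).sub
    (continuousOn_const.mul (h1.clm_apply continuousOn_const))).div_const _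

theorem lap_continuousOn {U : Set (N → ℂ)} (hU : IsOpen U) {A : (N → ℂ) → Matrix N N ℂ}
    (hA : ∀ k j, ContinuousOn (fun x => A x k j) U) {φ : (N → ℂ) → ℂ}
    (hφ : ContDiffOn ℝ 2 φ U) : ContinuousOn (Lap A φ) U := by
  unfold Lap
  exact continuousOn_finsetSum _ fun j _ => continuousOn_finsetSum _ fun k _ =>
    (hA k j).mul (dz_continuousOn hU (dzb_contDiffOn hU hφ k) j)

theorem dzb_congr {φ φ' : (N → ℂ) → ℂ} {x : N → ℂ} (h : φ =ᶠ[𝓝 x] φ') (k : N) :
    dzb k φ =ᶠ[𝓝 x] dzb k φ' := by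
  filter_upwards [eventually_eventually_nhds.2 h] with y hy
  have : fderiv ℝ φ y = fderiv ℝ φ' y := Filter.EventuallyEq.fderiv_eq hy
  simp only [dzb, this]

theorem dz_congr {φ φ' : (N → ℂ) → ℂ} {x : N → ℂ} (h : φ =ᶠ[𝓝 x] φ') (k : N) :
    dz k φ x = dz k φ' x := by
  have : fderiv ℝ φ x = fderiv ℝ φ' x := Filter.EventuallyEq.fderiv_eq h
  simp only [dz, this]

theorem levi_congr {φ φ' : (N → ℂ) → ℂ} {x : N → ℂ} (h : φ =ᶠ[𝓝 x] φ') :
    levi φ x = levi φ' x := by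
  ext j k
  exact dz_congr (dzb_congr h k) j

theorem lap_congr {A : (N → ℂ) → Matrix N N ℂ} {φ φ' : (N → ℂ) → ℂ} {x : N → ℂ}
    (h : φ =ᶠ[𝓝 x] φ') : Lap A φ x = Lap A φ' x := by
  unfold Lap
  exact Finset.sum_congr rfl fun j _ => Finset.sum_congr rfl fun k _ => by
    rw [dz_congr (dzb_congr h k) j]

theorem lap_const (A : (N → ℂ) → Matrix N N ℂ) (c : ℂ) (x : N → ℂ) :
    Lap A (fun _ => c) x = 0 := by
  unfold Lap
  refine Finset.sum_eq_zero fun j _ => Finset.sum_eq_zero fun k _ => ?_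
  have : dzb k (fun _ : N → ℂ => c) = fun _ => 0 := by
    funext y; simp [dzb]
  rw [this]
  simp [dz]

theorem dzb_sum {ι : Type*} {s : Finset ι} {φ : ι → (N → ℂ) → ℂ} {x : N → ℂ}
    (h : ∀ i ∈ s, DifferentiableAt ℝ (φ i) x) (k : N) :
    dzb k (fun y => ∑ i ∈ s, φ i y) x = ∑ i ∈ s, dzb k (φ i) x := by
  unfold dzb
  rw [fderiv_fun_sum h]
  simp only [sum_apply, Finset.mul_sum]
  rw [← Finset.sum_add_distrib, Finset.sum_div]

theorem dz_sum {ι : Type*} {s : Finset ι} {φ : ι → (N → ℂ) → ℂ} {x : N → ℂ}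
    (h : ∀ i ∈ s, DifferentiableAt ℝ (φ i) x) (k : N) :
    dz k (fun y => ∑ i ∈ s, φ i y) x = ∑ i ∈ s, dz k (φ i) x := by
  unfold dz
  rw [fderiv_fun_sum h]
  simp only [sum_apply, Finset.mul_sum]
  rw [← Finset.sum_sub_distrib, Finset.sum_div]

theorem lap_sum {U : Set (N → ℂ)} (hU : IsOpen U) (A : (N → ℂ) → Matrix N N ℂ) {ι : Type*}
    {s : Finset ι} {φ : ι → (N → ℂ) → ℂ} (h : ∀ i ∈ s, ContDiffOn ℝ 2 (φ i) U) {x : N → ℂ}
    (hx : x ∈ U) : Lap A (fun y => ∑ i ∈ s, φ i y) x = ∑ i ∈ s, Lap A (φ i) x := by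
  unfold Lap
  have key : ∀ j k, dz j (dzb k (fun y => ∑ i ∈ s, φ i y)) x =
      ∑ i ∈ s, dz j (dzb k (φ i)) x := by
    intro j k
    have h1 : dzb k (fun y => ∑ i ∈ s, φ i y) =ᶠ[𝓝 x] fun y => ∑ i ∈ s, dzb k (φ i) y := by
      filter_upwards [hU.mem_nhds hx] with y hy
      exact dzb_sum (fun i hi => ((h i hi).differentiableOn (by norm_num)).differentiableAt
        (hU.mem_nhds hy)) k
    rw [dz_congr h1]
    exact dz_sum (fun i hi => ((dzb_contDiffOn hU (h i hi) k).differentiableOn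
      (by norm_num)).differentiableAt (hU.mem_nhds hx)) j
  simp only [key, Finset.mul_sum]
  calc ∑ j, ∑ k, ∑ i ∈ s, A x k j * dz j (dzb k (φ i)) x
      = ∑ j, ∑ i ∈ s, ∑ k, A x k j * dz j (dzb k (φ i)) x :=
        Finset.sum_congr rfl fun j _ => Finset.sum_comm
    _ = _ := Finset.sum_comm

/-- a function which is continuous on the open set `U` and vanishes off a closed subset of `U` -/
theorem continuous_of_zero_off {X : Type*} [TopologicalSpace X] {U K : Set X} (hU : IsOpen U)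
    (hK : IsClosed K) (hKU : K ⊆ U) {f : X → ℂ} (hf : ContinuousOn f U) (h0 : ∀ x ∉ K, f x = 0) :
    Continuous f := by
  rw [continuous_iff_continuousAt]
  intro x
  by_cases hx : x ∈ K
  · exact hf.continuousAt (hU.mem_nhds (hKU hx))
  · have h1 : f =ᶠ[𝓝 x] fun _ => 0 := by
      filter_upwards [hK.isOpen_compl.mem_nhds hx] with y hy using h0 y hy
    exact h1.continuousAt

theorem lap_zero_off {A : (N → ℂ) → Matrix N N ℂ} {φ : (N → ℂ) → ℂ} {x : N → ℂ}
    (hx : x ∉ tsupport φ) : Lap A φ x = 0 := by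
  have h1 : φ =ᶠ[𝓝 x] fun _ => 0 := notMem_tsupport_iff_eventuallyEq.1 hx
  rw [lap_congr h1, lap_const]

end Pool.Agent.H906.BD
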