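import Pool.Agent.H906.BD.Hol

/-! # Groups of biholomorphic maps of a bounded domain: neighbourhoods of the identity -/

open Filter Topology Set Metric

namespace Pool.Agent.H906.BD

variable {E : Type*} [NormedAddCommGroup E] [NormedSpace ℂ E]
variable {Γ : Type*} [Group Γ]

/-- A group acts on the open set `D` by holomorphic maps. -/
structure HolAct (D : Set E) (σ : Γ → E → E) : Prop where
  maps : ∀ γ, ∀ x ∈ D, σ γ x ∈ D
  one : ∀ x ∈ D, σ 1 x = x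
  mul : ∀ γ δ, ∀ x ∈ D, σ (γ * δ) x = σ γ (σ δ x)
  hol : ∀ γ, DifferentiableOn ℂ (σ γ) D

/-- `γ` and its inverse are `ε`-close to the identity on `K` -/
def Near (σ : Γ → E → E) (K : Set E) (ε : ℝ) (γ : Γ) : Prop :=
  ∀ z ∈ K, ‖σ γ z - z‖ < ε ∧ ‖σ γ⁻¹ z - z‖ < ε

omit [NormedSpace ℂ E] in
theorem Near.mono {σ : Γ → E → E} {K K' : Set E} {ε ε' : ℝ} {γ : Γ} (h : Near σ K ε γ)
    (hK : K' ⊆ K) (hε : ε ≤ ε') : Near σ K' ε' γ :=
  fun z hz => ⟨(h z (hK hz)).1.trans_le hε, (h z (hK hz)).2.trans_le hε⟩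

/-- the filter of neighbourhoods of the identity -/
def Nbh (D : Set E) (σ : Γ → E → E) : Filter Γ where
  sets := {S | ∃ K ⊆ D, IsCompact K ∧ ∃ ε > 0, ∀ γ, Near σ K ε γ → γ ∈ S}
  univ_sets := ⟨∅, empty_subset _, isCompact_empty, 1, one_pos, fun _ _ => mem_univ _⟩
  sets_of_superset := by
    rintro S T ⟨K, hK, hKc, ε, hε, h⟩ hST
    exact ⟨K, hK, hKc, ε, hε, fun γ hγ => hST (h γ hγ)⟩
  inter_sets := by
    rintro S T ⟨K, hK, hKc, ε, hε, h⟩ ⟨K', hK', hKc', ε', hε', h'⟩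
    exact ⟨K ∪ K', union_subset hK hK', hKc.union hKc', min ε ε', lt_min hε hε', fun γ hγ =>
      ⟨h γ (hγ.mono subset_union_left (min_le_left _ _)),
        h' γ (hγ.mono subset_union_right (min_le_right _ _))⟩⟩

variable {D : Set E} {σ : Γ → E → E}

omit [NormedSpace ℂ E] in
theorem mem_Nbh {S : Set Γ} : S ∈ Nbh D σ ↔
    ∃ K ⊆ D, IsCompact K ∧ ∃ ε > 0, ∀ γ, Near σ K ε γ → γ ∈ S := Iff.rfl

omit [NormedSpace ℂ E] in
theorem eventually_near {K : Set E} (hK : K ⊆ D) (hKc : IsCompact K) {ε : ℝ} (hε : 0 < ε) :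
    ∀ᶠ γ in Nbh D σ, Near σ K ε γ := ⟨K, hK, hKc, ε, hε, fun _ h => h⟩

omit [NormedSpace ℂ E] in
theorem tendsto_Nbh {ι : Type*} {l : Filter ι} {g : ι → Γ}
    (h : ∀ K ⊆ D, IsCompact K → ∀ ε > 0, ∀ᶠ i in l, Near σ K ε (g i)) :
    Tendsto g l (Nbh D σ) := by
  rintro S ⟨K, hK, hKc, ε, hε, hS⟩
  have h1 := h K hK hKc ε hε
  show ∀ᶠ i in l, g i ∈ S
  filter_upwards [h1] with i hi
  exact hS _ hi

omit [NormedSpace ℂ E] in
theorem near_inv {K : Set E} {ε : ℝ} {γ : Γ} (h : Near σ K ε γ) : Near σ K ε γ⁻¹ := by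
  intro z hz
  rw [inv_inv]
  exact ⟨(h z hz).2, (h z hz).1⟩

omit [NormedSpace ℂ E] in
theorem tendsto_inv : Tendsto (fun γ : Γ => γ⁻¹) (Nbh D σ) (Nbh D σ) :=
  tendsto_Nbh fun K hK hKc ε hε => by
    filter_upwards [eventually_near (σ := σ) hK hKc hε] with γ hγ
    exact near_inv hγ

omit [NormedSpace ℂ E] in
/-- compact thickening -/
theorem exists_thick [ProperSpace E] (hD : IsOpen D) {K : Set E} (hK : K ⊆ D) (hKc : IsCompact K) :
    ∃ δ > 0, IsCompact (cthickening δ K) ∧ cthickening δ K ⊆ D := by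
  obtain ⟨δ, hδ, h⟩ := hKc.exists_cthickening_subset_open hD hK
  exact ⟨δ, hδ, hKc.cthickening, h⟩

omit [NormedSpace ℂ E] in
theorem mem_thick {K : Set E} {δ : ℝ} {z w : E} (hz : z ∈ K) (hw : ‖w - z‖ ≤ δ) :
    w ∈ cthickening δ K := by
  refine closedBall_subset_cthickening hz δ ?_
  rwa [mem_closedBall, dist_eq_norm]

theorem near_mul [ProperSpace E] (hσ : HolAct D σ) {K : Set E} (hK : K ⊆ D) {δ ε : ℝ}
    (hε : ε ≤ δ) {γ γ' : Γ}
    (h : Near σ (cthickening δ K) ε γ) (h' : Near σ (cthickening δ K) ε γ') :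
    Near σ K (2 * ε) (γ * γ') := by
  intro z hz
  have hδ : 0 ≤ δ := by
    by_contra hneg
    have h0 := (h z (self_subset_cthickening K hz)).1
    have := norm_nonneg (σ γ z - z)
    linarith
  have hzt : z ∈ cthickening δ K := self_subset_cthickening K hz
  rw [mul_inv_rev]
  have a1 := h' z hzt
  have a2 := h z hzt
  have m1 : σ γ' z ∈ cthickening δ K := mem_thick hz (a1.1.le.trans hε)
  have m2 : σ γ⁻¹ z ∈ cthickening δ K := mem_thick hz (a2.2.le.trans hε)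
  have b1 := (h _ m1).1
  have b2 := (h' _ m2).2
  rw [hσ.mul _ _ z (hK hz), hσ.mul _ _ z (hK hz)]
  constructor
  · have e : σ γ (σ γ' z) - z = (σ γ (σ γ' z) - σ γ' z) + (σ γ' z - z) := by abel
    rw [e]
    have := norm_add_le (σ γ (σ γ' z) - σ γ' z) (σ γ' z - z)
    linarith [a1.1]
  · have e : σ γ'⁻¹ (σ γ⁻¹ z) - z = (σ γ'⁻¹ (σ γ⁻¹ z) - σ γ⁻¹ z) + (σ γ⁻¹ z - z) := by abel
    rw [e]
    have := norm_add_le (σ γ'⁻¹ (σ γ⁻¹ z) - σ γ⁻¹ z) (σ γ⁻¹ z - z)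
    linarith [a2.2]

theorem tendsto_mul [ProperSpace E] (hD : IsOpen D) (hσ : HolAct D σ) {ι : Type*} {l : Filter ι}
    {g g' : ι → Γ} (hg : Tendsto g l (Nbh D σ)) (hg' : Tendsto g' l (Nbh D σ)) :
    Tendsto (fun i => g i * g' i) l (Nbh D σ) := by
  refine tendsto_Nbh fun K hK hKc ε hε => ?_
  obtain ⟨δ, hδ, hc, hsub⟩ := exists_thick hD hK hKc
  have hm : 0 < min δ (ε / 2) := by positivity
  filter_upwards [hg.eventually (eventually_near hsub hc hm),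
    hg'.eventually (eventually_near hsub hc hm)] with i h1 h2
  refine (near_mul hσ hK (min_le_left _ _) h1 h2).mono Subset.rfl ?_
  have := min_le_right δ (ε / 2)
  linarith

theorem HolAct.inv_act (hσ : HolAct D σ) (γ : Γ) {z : E} (hz : z ∈ D) : σ γ⁻¹ (σ γ z) = z := by
  rw [← hσ.mul _ _ z hz, inv_mul_cancel, hσ.one z hz]

theorem HolAct.act_inv (hσ : HolAct D σ) (γ : Γ) {z : E} (hz : z ∈ D) : σ γ (σ γ⁻¹ z) = z := by
  rw [← hσ.mul _ _ z hz, mul_inv_cancel, hσ.one z hz]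

theorem tendsto_conj [ProperSpace E] (hD : IsOpen D) (hσ : HolAct D σ) (γ : Γ) {ι : Type*}
    {l : Filter ι} {g : ι → Γ} (hg : Tendsto g l (Nbh D σ)) :
    Tendsto (fun i => γ * g i * γ⁻¹) l (Nbh D σ) := by
  refine tendsto_Nbh fun K hK hKc ε hε => ?_
  -- the compact set `σ γ⁻¹ K`
  have hcont : ContinuousOn (σ γ⁻¹) K := (hσ.hol γ⁻¹).continuousOn.mono hK
  set K' := σ γ⁻¹ '' K with hK'
  have hK'c : IsCompact K' := hKc.image_of_continuousOn hcont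
  have hK'D : K' ⊆ D := by
    rintro _ ⟨z, hz, rfl⟩
    exact hσ.maps _ _ (hK hz)
  obtain ⟨δ, hδ, hc, hsub⟩ := exists_thick hD hK'D hK'c
  have huc : UniformContinuousOn (σ γ) (cthickening δ K') :=
    hc.uniformContinuousOn_of_continuous ((hσ.hol γ).continuousOn.mono hsub)
  rw [Metric.uniformContinuousOn_iff] at huc
  obtain ⟨η, hη, hη2⟩ := huc ε hε
  have hm : 0 < min δ η := by positivity
  filter_upwards [hg.eventually (eventually_near hK'D hK'c hm)] with i hi z hz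
  have hw : σ γ⁻¹ z ∈ K' := mem_image_of_mem _ hz
  have hwt := self_subset_cthickening (δ := δ) K' hw
  have key : ∀ β : Γ, ‖σ β (σ γ⁻¹ z) - σ γ⁻¹ z‖ < min δ η →
      ‖σ (γ * β * γ⁻¹) z - z‖ < ε := by
    intro β hβ
    have h1 : σ β (σ γ⁻¹ z) ∈ cthickening δ K' := mem_thick hw (hβ.le.trans (min_le_left _ _))
    have h2 := hη2 _ h1 _ hwt (by rw [dist_eq_norm]; exact hβ.trans_le (min_le_right _ _))
    rw [hσ.act_inv γ (hK hz), dist_eq_norm] at h2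
    rw [mul_assoc, hσ.mul _ _ z (hK hz), hσ.mul _ _ z (hK hz)]
    exact h2
  refine ⟨key _ (hi _ hw).1, ?_⟩
  have e : (γ * g i * γ⁻¹)⁻¹ = γ * (g i)⁻¹ * γ⁻¹ := by group
  rw [e]
  exact key _ (hi _ hw).2

/-- `γ` acts trivially -/
def Triv (D : Set E) (σ : Γ → E → E) (γ : Γ) : Prop := ∀ z ∈ D, σ γ z = z

omit [NormedSpace ℂ E] in
theorem eventually_of_triv {S : Set Γ} (hS : S ∈ Nbh D σ) {γ : Γ} (h1 : Triv D σ γ)
    (h2 : Triv D σ γ⁻¹) : γ ∈ S := by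
  obtain ⟨K, hK, -, ε, hε, h⟩ := hS
  refine h γ fun z hz => ?_
  rw [h1 z (hK hz), h2 z (hK hz), sub_self, norm_zero]
  exact ⟨hε, hε⟩

theorem Triv.inv (hσ : HolAct D σ) {γ : Γ} (h : Triv D σ γ) : Triv D σ γ⁻¹ := by
  intro z hz
  have := hσ.inv_act γ hz
  rwa [h z hz] at this

end Pool.Agent.H906.BD
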