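import Pool.Agent.H906.BD.Setup

/-! # T15 NormProd: a diagonal matrix which preserves a lattice of `ℂ^B` has determinant of modulus one

Proof. `L` is a discrete subgroup spanning `ℂ^B` over `ℝ` (`hfin` gives discreteness), so it is a
`ℤ`-lattice: it has a `ℤ`-basis which is an `ℝ`-basis of `ℂ^B` (Mathlib: `IsZLattice`,
`ZLattice.module_free`, `Basis.ofZLatticeBasis`; `L.toIntSubmodule`). The `ℝ`-linear map
`T : x ↦ d * x` maps `L` onto `L`, so its matrix in this basis is integral with integral inverse,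
`|det_ℝ T| = 1`. (Alternative: `T` preserves the covolume, `ZLattice.covolume`.) And
`det_ℝ T = ∏ |d_j|²` (`LinearMap.det_restrictScalars` + `Algebra.norm_complex_apply`, or
`LinearMap.det_pi`-type lemma, each factor `x ↦ d_j x` on `ℂ` has real determinant `|d_j|²`).
If `B` is empty the claim is trivial. -/

open Filter Topology Set Metric

namespace Pool.Agent.H906.BD

theorem normprod_disc {B : Type*} [Fintype B] (L : AddSubgroup (B → ℂ))
    (hfin : ∀ r : ℝ, {x : B → ℂ | x ∈ L ∧ ‖x‖ ≤ r}.Finite) :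
    DiscreteTopology (AddSubgroup.toIntSubmodule L) := by
  refine discreteTopology_of_isOpen_singleton_zero ?_
  rw [isOpen_induced_iff]
  have hF : ({x : B → ℂ | x ∈ L ∧ ‖x‖ ≤ 1} \ {0}).Finite := (hfin 1).subset diff_subset
  refine ⟨ball 0 1 ∩ ({x : B → ℂ | x ∈ L ∧ ‖x‖ ≤ 1} \ {0})ᶜ, isOpen_ball.inter
    hF.isClosed.isOpen_compl, ?_⟩
  ext x
  simp only [mem_preimage, mem_inter_iff, mem_ball_zero_iff, mem_compl_iff, mem_diff,
    mem_setOf_eq, mem_singleton_iff, not_and, not_not]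
  constructor
  · rintro ⟨h1, h2⟩
    exact Subtype.ext (h2 ⟨x.2, h1.le⟩)
  · rintro rfl
    simp

theorem norm_prod_eq_one {B : Type*} [Fintype B] (L : AddSubgroup (B → ℂ))
    (hfin : ∀ r : ℝ, {x : B → ℂ | x ∈ L ∧ ‖x‖ ≤ r}.Finite)
    (hspan : Submodule.span ℝ (L : Set (B → ℂ)) = ⊤) {d : B → ℂ} (hd : ∀ x ∈ L, d * x ∈ L)
    (hd' : ∀ x ∈ L, ∃ y ∈ L, d * y = x) : ‖∏ j, d j‖ = 1 := by
  classical
  have hdisc := normprod_disc L hfin
  set Lz : Submodule ℤ (B → ℂ) := AddSubgroup.toIntSubmodule L with hLz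
  have hlat : IsZLattice ℝ Lz := ⟨hspan⟩
  have hfree : Module.Free ℤ Lz := ZLattice.module_free ℝ Lz
  have hfinM : Module.Finite ℤ Lz := ZLattice.module_finite ℝ Lz
  let b := Module.Free.chooseBasis ℤ Lz
  let bR := b.ofZLatticeBasis ℝ Lz
  let TC : (B → ℂ) →ₗ[ℂ] (B → ℂ) := LinearMap.mulLeft ℂ d
  let T : (B → ℂ) →ₗ[ℝ] (B → ℂ) := TC.restrictScalars ℝ
  let Tz : Lz →ₗ[ℤ] Lz := (LinearMap.mulLeft ℤ d).restrict (fun x hx => hd x hx)
  have hTz : ∀ x : Lz, ((Tz x : Lz) : B → ℂ) = d * (x : B → ℂ) := fun x => rfl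
  have hsurj : Function.Surjective Tz := by
    intro x
    obtain ⟨y, hy, hy'⟩ := hd' x x.2
    exact ⟨⟨y, hy⟩, Subtype.ext hy'⟩
  have hinj : Function.Injective Tz := OrzechProperty.injective_of_surjective_endomorphism Tz hsurj
  have hunit : IsUnit (LinearMap.det Tz) :=
    LinearEquiv.isUnit_det' (LinearEquiv.ofBijective Tz ⟨hinj, hsurj⟩)
  have hdet : LinearMap.det T = ((LinearMap.det Tz : ℤ) : ℝ) := by
    rw [← LinearMap.det_toMatrix bR T, ← LinearMap.det_toMatrix b Tz, Int.cast_det]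
    refine congrArg Matrix.det ?_
    ext i j
    rw [LinearMap.toMatrix_apply, Matrix.map_apply, LinearMap.toMatrix_apply]
    have e1 : bR j = ((b j : Lz) : B → ℂ) := b.ofZLatticeBasis_apply ℝ Lz j
    have e2 : T (bR j) = ((Tz (b j) : Lz) : B → ℂ) := by
      rw [e1]
      rfl
    rw [e2]
    exact b.ofZLatticeBasis_repr_apply ℝ Lz (Tz (b j)) i
  have hTC : TC = Matrix.toLin' (Matrix.diagonal d) := by
    ext x i
    simp [TC, Matrix.toLin'_apply, Matrix.mulVec_diagonal]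
  have hdetC : LinearMap.det TC = ∏ j, d j := by
    rw [hTC, LinearMap.det_toLin', Matrix.det_diagonal]
  have hdet2 : LinearMap.det T = Complex.normSq (∏ j, d j) := by
    rw [← hdetC, ← Algebra.norm_complex_apply]
    exact LinearMap.det_restrictScalars
  have h1 : |LinearMap.det T| = 1 := by
    rw [hdet, ← Int.cast_abs, Int.isUnit_iff_abs_eq.1 hunit, Int.cast_one]
  rw [hdet2, abs_of_nonneg (Complex.normSq_nonneg _), Complex.normSq_eq_norm_sq] at h1
  have h2 : (‖∏ j, d j‖ - 1) * (‖∏ j, d j‖ + 1) = 0 := by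
    ring_nf
    rw [h1]
    norm_num
  rcases mul_eq_zero.1 h2 with h3 | h3
  · linarith
  · have := norm_nonneg (∏ j, d j)
    linarith

end Pool.Agent.H906.BD
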