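import Pool.Agent.H906.BD.Setup

/-! # T09 Part: a `C^2` partition function for a properly discontinuous cocompact action

Proof. Let `K ⊆ U` be compact with `Γ K = U` (`CC`) and `K' = K ∪ {x₁}`. Choose `β : ℂ^N → ℝ` smooth
with compact support in `U`, `0 ≤ β ≤ 1`, `β = 1` on `K'` (`exists_contDiff_tsupport_subset` /
`exists_contMDiff...`; e.g. `exists_smooth_zero_one_of_isClosed` or
`IsCompact.exists_contDiff...` or a finite sum of `ContDiffBump`s). Put
`s(x) = ∑ᶠ γ, β (ρ γ x)` for `x ∈ U`: every `x ∈ U` has a compact neighbourhood `W ⊆ U`, and only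
finitely many `γ` satisfy `ρ γ '' W ∩ tsupport β ≠ ∅` (apply `PD` to `W ∪ tsupport β`), so on the
interior of `W` it is a finite sum of functions of class `C^2` (`ρ γ` is `C^2` on `U` by
`hol_contDiffOn_real`). `s > 0` on `U`; `s (ρ δ x) = s x` (reindex by `γ ↦ γ δ`). Put
`χ = β / s` on `U`, `0` off `U`. It is `C^2` (near points of `tsupport β` because `s` is `C^2` and
positive on `U`, elsewhere it is locally zero), `≥ 0`, `χ x₁ > 0`, with support in `tsupport β`, and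
`∑ᶠ γ, χ (ρ γ x) = (∑ᶠ β (ρ γ x)) / s x = 1`. -/

open Filter Topology Set Metric

namespace Pool.Agent.H906.BD

variable {N : Type*} [Fintype N] [DecidableEq N] {Γ : Type*} [Group Γ]

omit [DecidableEq N] in
/-- a smooth function with compact support in `U`, positive on a given compact set -/
theorem part_bump {U : Set (N → ℂ)} (hU : IsOpen U) {K : Set (N → ℂ)} (hK : IsCompact K)
    (hKU : K ⊆ U) :
    ∃ β : (N → ℂ) → ℝ, ContDiff ℝ 2 β ∧ HasCompactSupport β ∧ tsupport β ⊆ U ∧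
      (∀ x, 0 ≤ β x) ∧ ∀ x ∈ K, 0 < β x := by
  have key : ∀ K : Set (N → ℂ), IsCompact K → K ⊆ U →
      ∃ β : (N → ℂ) → ℝ, ContDiff ℝ 2 β ∧ HasCompactSupport β ∧ tsupport β ⊆ U ∧
      (∀ x, 0 ≤ β x) ∧ ∀ x ∈ K, 0 < β x := by
    intro K hK hKU
    refine hK.induction_on (p := fun s => ∃ β : (N → ℂ) → ℝ, ContDiff ℝ 2 β ∧
      HasCompactSupport β ∧ tsupport β ⊆ U ∧ (∀ x, 0 ≤ β x) ∧ ∀ x ∈ s, 0 < β x) ?_ ?_ ?_ ?_
    · refine ⟨fun _ => 0, contDiff_const, HasCompactSupport.zero, ?_, fun _ => le_rfl, ?_⟩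
      · intro x hx
        have h0 : tsupport (fun _ : N → ℂ => (0 : ℝ)) = ∅ := tsupport_eq_empty_iff.2 rfl
        rw [h0] at hx
        exact absurd hx (notMem_empty x)
      · intro x hx
        exact absurd hx (notMem_empty x)
    · rintro s t hst ⟨β, h1, h2, h3, h4, h5⟩
      exact ⟨β, h1, h2, h3, h4, fun x hx => h5 x (hst hx)⟩
    · rintro s t ⟨β, h1, h2, h3, h4, h5⟩ ⟨β', h1', h2', h3', h4', h5'⟩
      refine ⟨fun x => β x + β' x, h1.add h1', h2.add h2', ?_, fun x => add_nonneg (h4 x) (h4' x),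
        ?_⟩
      · exact (tsupport_add β β').trans (union_subset h3 h3')
      · rintro x (hx | hx)
        · exact add_pos_of_pos_of_nonneg (h5 x hx) (h4' x)
        · exact add_pos_of_nonneg_of_pos (h4 x) (h5' x hx)
    · intro x hx
      obtain ⟨f, hf1, hf2, hf3, hf4, hf5⟩ := exists_contDiff_tsupport_subset (n := 2)
        (hU.mem_nhds (hKU hx))
      refine ⟨f ⁻¹' (Ioi 0), ?_, f, hf3, hf2, hf1, ?_, fun y hy => hy⟩
      · refine mem_nhdsWithin_of_mem_nhds (hf3.continuous.continuousAt.preimage_mem_nhds ?_)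
        rw [hf5]
        exact Ioi_mem_nhds one_pos
      · intro y
        exact (hf4 (mem_range_self y)).1
  exact key K hK hKU

omit [DecidableEq N] [Group Γ] in
/-- near a point only finitely many translates meet the support -/
theorem part_locfin {U : Set (N → ℂ)} (hU : IsOpen U) {ρ : Γ → (N → ℂ) → (N → ℂ)}
    (hpd : PD U ρ) {β : (N → ℂ) → ℝ} (hβc : HasCompactSupport β) (hβU : tsupport β ⊆ U)
    {x₀ : N → ℂ} (hx₀ : x₀ ∈ U) :
    ∃ F : Finset Γ, ∀ᶠ x in 𝓝 x₀, ∀ γ, β (ρ γ x) ≠ 0 → γ ∈ F := by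
  obtain ⟨W, hWc, hxW, hWU⟩ := exists_compact_subset hU hx₀
  have hfin := hpd (W ∪ tsupport β) (union_subset hWU hβU) (hWc.union hβc)
  refine ⟨hfin.toFinset, ?_⟩
  filter_upwards [isOpen_interior.mem_nhds hxW] with x hx γ hγ
  rw [Set.Finite.mem_toFinset]
  refine ⟨ρ γ x, ⟨x, Or.inl (interior_subset hx), rfl⟩, Or.inr ?_⟩
  exact subset_tsupport β hγ

theorem exists_partition {U : Set (N → ℂ)} (hU : IsOpen U) {ρ : Γ → (N → ℂ) → (N → ℂ)}
    (hρ : HolAct U ρ) (hpd : PD U ρ) (hcc : CC U ρ) {x₁ : N → ℂ} (hx₁ : x₁ ∈ U) :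
    ∃ χ : (N → ℂ) → ℝ, ContDiff ℝ 2 χ ∧ HasCompactSupport χ ∧ tsupport χ ⊆ U ∧
      (∀ x, 0 ≤ χ x) ∧ 0 < χ x₁ ∧ ∀ x ∈ U, ∑ᶠ γ, χ (ρ γ x) = 1 := by
  obtain ⟨K, hKU, hKc, hK⟩ := hcc
  obtain ⟨β, hβ2, hβc, hβU, hβ0, hβp⟩ := part_bump hU (hKc.union isCompact_singleton)
    (union_subset hKU (singleton_subset_iff.2 hx₁))
  set s : (N → ℂ) → ℝ := fun x => ∑ᶠ γ, β (ρ γ x) with hs
  -- `s` is locally a finite sum
  have hloc : ∀ x₀ ∈ U, ∃ F : Finset Γ, ∀ᶠ x in 𝓝 x₀, s x = ∑ γ ∈ F, β (ρ γ x) := by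
    intro x₀ hx₀
    obtain ⟨F, hF⟩ := part_locfin hU hpd hβc hβU hx₀
    refine ⟨F, ?_⟩
    filter_upwards [hF] with x hx
    exact finsum_eq_sum_of_support_subset _ (fun γ hγ => hx γ hγ)
  have hfin : ∀ x₀ ∈ U, (Function.support fun γ => β (ρ γ x₀)).Finite := by
    intro x₀ hx₀
    obtain ⟨F, hF⟩ := part_locfin hU hpd hβc hβU hx₀
    exact F.finite_toSet.subset (fun γ hγ => hF.self_of_nhds γ hγ)
  have hsC : ∀ x₀ ∈ U, ContDiffAt ℝ 2 s x₀ := by
    intro x₀ hx₀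
    obtain ⟨F, hF⟩ := hloc x₀ hx₀
    have h1 : ContDiffAt ℝ 2 (fun x => ∑ γ ∈ F, β (ρ γ x)) x₀ := by
      refine ContDiffAt.sum (fun γ _ => ?_)
      have h2 : ContDiffAt ℝ 2 (ρ γ) x₀ :=
        (hol_contDiffOn_real hU 2 (hρ.hol γ)).contDiffAt (hU.mem_nhds hx₀)
      exact (hβ2.contDiffAt (x := ρ γ x₀)).comp x₀ h2
    exact h1.congr_of_eventuallyEq hF
  have hs0 : ∀ x, 0 ≤ s x := fun x => finsum_nonneg (fun γ => hβ0 _)
  have hspos : ∀ x ∈ U, 0 < s x := by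
    intro x hx
    obtain ⟨γ, hγ⟩ := hK x hx
    have h1 : 0 < β (ρ γ x) := hβp _ (Or.inl hγ)
    have h2 : β (ρ γ x) ≤ s x := by
      have h3 : s x = ∑ γ ∈ (hfin x hx).toFinset, β (ρ γ x) :=
        finsum_eq_sum_of_support_subset _ (by simp)
      rw [h3]
      refine Finset.single_le_sum (f := fun γ => β (ρ γ x)) (fun γ _ => hβ0 _) ?_
      rw [Set.Finite.mem_toFinset]
      exact h1.ne'
    exact h1.trans_le h2
  have hsinv : ∀ δ, ∀ x ∈ U, s (ρ δ x) = s x := by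
    intro δ x hx
    have h1 : ∀ γ, β (ρ γ (ρ δ x)) = (fun γ => β (ρ γ x)) (Equiv.mulRight δ γ) := by
      intro γ
      simp only [Equiv.coe_mulRight]
      rw [hρ.mul γ δ x hx]
    simp only [hs]
    rw [finsum_congr h1]
    exact finsum_comp_equiv (f := fun γ => β (ρ γ x)) (Equiv.mulRight δ)
  refine ⟨fun x => β x / s x, ?_, ?_, ?_, fun x => div_nonneg (hβ0 x) (hs0 x), ?_, ?_⟩
  · rw [contDiff_iff_contDiffAt]
    intro x
    by_cases hx : x ∈ U
    · exact hβ2.contDiffAt.div (hsC x hx) (hspos x hx).ne'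
    · have h1 : x ∉ tsupport β := fun h => hx (hβU h)
      have h2 : (fun x => β x / s x) =ᶠ[𝓝 x] fun _ => 0 := by
        filter_upwards [notMem_tsupport_iff_eventuallyEq.1 h1] with y hy
        simp only [Pi.zero_apply] at hy
        simp [hy]
      exact contDiffAt_const.congr_of_eventuallyEq h2
  · refine hβc.mono ?_
    intro x hx h0
    apply hx
    simp [h0]
  · refine (closure_mono ?_).trans hβU
    intro x hx h0
    apply hx
    simp [h0]
  · exact div_pos (hβp _ (Or.inr rfl)) (hspos _ hx₁)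
  · intro x hx
    have h1 : ∀ γ, β (ρ γ x) / s (ρ γ x) = β (ρ γ x) * (s x)⁻¹ := by
      intro γ
      rw [hsinv γ x hx, div_eq_mul_inv]
    show ∑ᶠ γ, β (ρ γ x) / s (ρ γ x) = 1
    rw [finsum_congr h1, ← finsum_mul]
    exact mul_inv_cancel₀ (hspos x hx).ne'

end Pool.Agent.H906.BD
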