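import Pool.Agent.H906.BD.LapBasic

/-! # The sequence of approximants -/

open Filter Topology Set Metric

namespace Pool.Agent.H906.BD

/-- the approximants `log (exp (-2 j p) + ∑_{i ≤ j} q_i ^ p) / (2 p)`, `p = (j + 1)²` -/
noncomputable def ua {E : Type*} (j : ℕ) {r : ℕ} (g : ℕ → E → ℂ)
    (f : ℕ → Fin r → E → ℂ) (x : E) : ℝ :=
  Real.log (Real.exp (-(2 * (j : ℝ) * ((j : ℝ) + 1) ^ 2)) +
    ∑ i ∈ Finset.range (j + 1), (‖g i x‖ ^ 2 * Real.exp (∑ l, ‖f i l x‖ ^ 2)) ^ ((j + 1) ^ 2)) /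
      (2 * ((j : ℝ) + 1) ^ 2)

theorem ua_eq {E : Type*} [NormedAddCommGroup E] [NormedSpace ℂ E] (j : ℕ) {r : ℕ}
    (g : ℕ → E → ℂ) (f : ℕ → Fin r → E → ℂ) :
    ua j g f = app ((j + 1) ^ 2) (Real.exp (-(2 * (j : ℝ) * ((j : ℝ) + 1) ^ 2))) (j + 1) g f := by
  funext x
  unfold ua app qe
  push_cast
  rfl

end Pool.Agent.H906.BD
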