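import Pool.Agent.H906.BD.SupF

/-! # Setup: coordinates, Jacobians, Kähler forms, the group acting on `D × ℂ^B`

Common definitions: abundance for Kähler quotients of `D × ℂ^b`. -/

open Filter Topology Set Metric MeasureTheory
open scoped ComplexOrder

namespace Pool.Agent.H906.BD

section Coord

variable {N : Type*} [Fintype N] [DecidableEq N]

/-- `∂ f / ∂ x_k = (∂ f / ∂ Re x_k - i ∂ f / ∂ Im x_k) / 2` -/
noncomputable def dz (k : N) (f : (N → ℂ) → ℂ) (x : N → ℂ) : ℂ :=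
  (fderiv ℝ f x (Pi.single k 1) - Complex.I * fderiv ℝ f x (Pi.single k Complex.I)) / 2

/-- `∂ f / ∂ \bar x_k = (∂ f / ∂ Re x_k + i ∂ f / ∂ Im x_k) / 2` -/
noncomputable def dzb (k : N) (f : (N → ℂ) → ℂ) (x : N → ℂ) : ℂ :=
  (fderiv ℝ f x (Pi.single k 1) + Complex.I * fderiv ℝ f x (Pi.single k Complex.I)) / 2

/-- the complex Jacobian matrix -/
noncomputable def Jac (f : (N → ℂ) → (N → ℂ)) (x : N → ℂ) : Matrix N N ℂ :=
  Matrix.of fun k i => fderiv ℂ f x (Pi.single i 1) k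

/-- the matrix of the Levi form, `(∂² φ / ∂ x_j ∂ \bar x_k)_{j k}` -/
noncomputable def levi (φ : (N → ℂ) → ℂ) (x : N → ℂ) : Matrix N N ℂ :=
  Matrix.of fun j k => dz j (dzb k φ) x

/-- the second order operator `∑ A_{kj} ∂_j \bar∂_k` -/
noncomputable def Lap (A : (N → ℂ) → Matrix N N ℂ) (φ : (N → ℂ) → ℂ) (x : N → ℂ) : ℂ :=
  ∑ j, ∑ k, A x k j * dz j (dzb k φ) x

/-- `C^1` matrices with divergence free rows and columns -/
structure DivFree (U : Set (N → ℂ)) (A : (N → ℂ) → Matrix N N ℂ) : Prop where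
  smooth : ∀ k j, ContDiffOn ℝ 1 (fun x => A x k j) U
  row : ∀ x ∈ U, ∀ k, ∑ j, dz j (fun y => A y k j) x = 0
  col : ∀ x ∈ U, ∀ j, ∑ k, dzb k (fun y => A y k j) x = 0

/-- A Kähler form `i ∑ g_{jk} d x_j ∧ d \bar x_k` on `U` with coefficients of class `C^1`. -/
structure Kahler (U : Set (N → ℂ)) (g : (N → ℂ) → Matrix N N ℂ) : Prop where
  smooth : ∀ i j, ContDiffOn ℝ 1 (fun x => g x i j) U
  pos : ∀ x ∈ U, (g x).PosDef
  closed : ∀ x ∈ U, ∀ i j k, dz i (fun y => g y j k) x = dz j (fun y => g y i k) x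

variable {Γ : Type*} [Group Γ]

/-- invariance of the hermitian form with matrix `g` -/
def InvForm (U : Set (N → ℂ)) (ρ : Γ → (N → ℂ) → (N → ℂ)) (g : (N → ℂ) → Matrix N N ℂ) : Prop :=
  ∀ γ, ∀ x ∈ U, (Jac (ρ γ) x).transpose * g (ρ γ x) * (Jac (ρ γ) x).map star = g x

/-- the action is properly discontinuous -/
def PD (U : Set (N → ℂ)) (ρ : Γ → (N → ℂ) → (N → ℂ)) : Prop :=
  ∀ K ⊆ U, IsCompact K → {γ : Γ | (ρ γ '' K ∩ K).Nonempty}.Finite

/-- the quotient is compact -/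
def CC (U : Set (N → ℂ)) (ρ : Γ → (N → ℂ) → (N → ℂ)) : Prop :=
  ∃ K ⊆ U, IsCompact K ∧ ∀ x ∈ U, ∃ γ, ρ γ x ∈ K

end Coord

section Product

variable {A B : Type*} [Fintype A] [Fintype B] [DecidableEq A] [DecidableEq B]
variable {Γ : Type*} [Group Γ]

/-- the component in `ℂ^A` -/
def prA (x : A ⊕ B → ℂ) : A → ℂ := fun i => x (Sum.inl i)

/-- the component in `ℂ^B` -/
def prB (x : A ⊕ B → ℂ) : B → ℂ := fun j => x (Sum.inr j)

/-- the product `D × ℂ^B` -/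
def Tot (D : Set (A → ℂ)) (B : Type*) : Set (A ⊕ B → ℂ) := {x | prA x ∈ D}

/-- The group `Γ` acts on `D × ℂ^B` by
`(z, w) ↦ (σ_γ (z), (a_{γ,j} w_j + b_{γ,j})_j)`. -/
structure SplitAct (D : Set (A → ℂ)) (ρ : Γ → (A ⊕ B → ℂ) → (A ⊕ B → ℂ))
    (σ : Γ → (A → ℂ) → (A → ℂ)) (a b : Γ → B → ℂ) : Prop where
  act : HolAct (Tot D B) ρ
  base : HolAct D σ
  fst : ∀ γ, ∀ x ∈ Tot D B, prA (ρ γ x) = σ γ (prA x)
  snd : ∀ γ, ∀ x ∈ Tot D B, ∀ j, ρ γ x (Sum.inr j) = a γ j * x (Sum.inr j) + b γ j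

end Product

/-- elements of `S` near the identity commute on `D` -/
def CommNear {E : Type*} [NormedAddCommGroup E] {Γ : Type*} [Group Γ] (D : Set E)
    (σ : Γ → E → E) (S : Subgroup Γ) : Prop :=
  ∃ N ∈ Nbh D σ, ∀ a ∈ S, a ∈ N → ∀ b ∈ S, b ∈ N → ∀ z ∈ D, σ a (σ b z) = σ b (σ a z)

section Functions

variable {E F : Type*} [NormedAddCommGroup E] [NormedSpace ℂ E]
  [NormedAddCommGroup F] [NormedSpace ℂ F]

/-- the determinant `det (d f_i (v_j))` -/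
noncomputable def detf {r : ℕ} (v : Fin r → E → E) (f : Fin r → E → ℂ) (z : E) : ℂ :=
  (Matrix.of fun i j => fderiv ℂ (f i) z (v j z)).det

/-- `|g|² exp (∑ |f_l|²)` -/
noncomputable def qe {r : ℕ} (g : E → ℂ) (f : Fin r → E → ℂ) (x : E) : ℝ :=
  ‖g x‖ ^ 2 * Real.exp (∑ l, ‖f l x‖ ^ 2)

/-- the approximants `log (ε + ∑_{i<n} q_i ^ p) / (2 p)` of `log sup_i q_i / 2` -/
noncomputable def app (p : ℕ) (ε : ℝ) (n : ℕ) {r : ℕ} (g : ℕ → E → ℂ) (f : ℕ → Fin r → E → ℂ)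
    (x : E) : ℝ :=
  Real.log (ε + ∑ i ∈ Finset.range n, qe (g i) (f i) x ^ p) / (2 * p)

/-- holomorphic maps are smooth -/
theorem hol_contDiffOn [FiniteDimensional ℂ E] [CompleteSpace F] {U : Set E} (hU : IsOpen U)
    (n : ℕ) : ∀ {f : E → F}, DifferentiableOn ℂ f U → ContDiffOn ℂ n f U := by
  induction n with
  | zero =>
    intro f hf
    exact contDiffOn_zero.2 hf.continuousOn
  | succ n ih =>
    intro f hf
    rw [show ((n + 1 : ℕ) : WithTop ℕ∞) = (n : WithTop ℕ∞) + 1 by norm_cast]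
    rw [contDiffOn_succ_iff_fderiv_of_isOpen hU]
    refine ⟨hf, fun h => absurd h (by simp), ?_⟩
    rw [contDiffOn_clm_apply]
    intro y
    exact ih (hol_fderiv_apply hU hf (differentiableOn_const y))

theorem hol_contDiffOn_real [FiniteDimensional ℂ E] [CompleteSpace F] {U : Set E}
    (hU : IsOpen U) (n : ℕ) {f : E → F} (hf : DifferentiableOn ℂ f U) : ContDiffOn ℝ n f U :=
  (hol_contDiffOn hU n hf).restrict_scalars ℝ

end Functions

end Pool.Agent.H906.BD
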