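import Pool.Agent.H906.BD.LapBasic
import Pool.Agent.H906.BD.Adj
import Pool.Agent.H906.BD.Ibp
import Pool.Agent.H906.BD.Equi
import Pool.Agent.H906.BD.Cov
import Pool.Agent.H906.BD.Part

/-! # T20 Stokes: no strictly plurisubharmonic function with additive character on a compact Kähler quotient

`U ⊆ ℂ^N` open, `Γ` acts holomorphically, properly discontinuously, cocompactly, `g` an invariant Kähler
matrix. `u : U → ℝ` locally integrable with `u ∘ γ = u + c_γ` almost everywhere, `c_{γ⁻¹} = - c_γ`, is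
the weak limit of `C^2` plurisubharmonic functions `u_j` whose Levi traces are `≥ δ` near `x₁`. This is
impossible.

All tools are proved (files imported above): `divFree_adjugate`, `lap_symm`, `lap_comp`,
`integral_image`, `exists_partition`, and `BD/LapBasic.lean` (`lap_continuousOn`, `lap_congr`, `lap_const`,
`lap_sum`, `continuous_of_zero_off`, `lap_zero_off`). Write `A x = (g x).adjugate`, `L = Lap A`.

Proof. Let `χ` be the partition function with `χ x₁ > 0`, `ψ x = (χ x : ℂ)`, `K₀ = tsupport χ`. `L ψ` is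
continuous with support in `K₀` (`continuous_of_zero_off`, `lap_zero_off`).
(a) `∫ u_j · L ψ = ∫ ψ · L u_j` (`lap_symm`). For `x ∈ U`, `L u_j (x) = trace (A x * levi u_j x)`. There are
`ρ > 0, λ > 0` with `closedBall x₁ ρ ⊆ U ∩ ball x₁ r`-sized and `A x - λ • 1` positive semidefinite for `x` in
this closed ball (`A x` is positive definite: `adjugate = det • inverse`; continuity in `x`, compactness of the
unit sphere of `ℂ^N`). For positive semidefinite `P, H`: `0 ≤ re (trace (P * H))`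
(`P = Cᴴ * C`, `trace (C * H * Cᴴ) ≥ 0`). So `re (L u_j) ≥ 0` on `U` and `≥ λ δ` on the ball; so
`re ∫ ψ L u_j ≥ λ δ ∫_{ball} χ > 0` for all large `j`. So `re (∫ u · L ψ) > 0` in the limit (`hlim`
with `φ = L ψ`).
(b) `∫ u · L ψ = 0`: let `K' ⊆ U` be a compact thickening of `K₀` (`exists_thick`), `V ⊆ K'` the open
thickening, `S' = {γ | (ρ γ '' K' ∩ K').Nonempty}`, finite and closed under inverses. On `V`,
`∑_{γ ∈ S'} ψ (ρ γ x) = 1`, so `∑_{γ ∈ S'} L (ψ ∘ ρ γ) = 0` on `V ⊇ K₀`. Put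
`I_γ = ∫_U u · (ψ ∘ ρ γ) · L ψ`, `I*_γ = ∫_U u · ψ · L (ψ ∘ ρ γ)`, `a_γ = ∫_U ψ · L (ψ ∘ ρ γ)`. Then
`∫ u L ψ = ∑_{S'} I_γ`, `∑_{S'} I*_γ = 0`. Change of variables `x = ρ γ⁻¹ y` (`integral_image` for
`ρ γ⁻¹ : U → U` bijective, `lap_comp`): `I_γ = ∫_U u(ρ γ⁻¹ y) ψ(y) L(ψ ∘ ρ γ⁻¹)(y) dy
= I*_{γ⁻¹} + c_{γ⁻¹} a_{γ⁻¹}`. So `∫ u L ψ = ∑_{S'} c_γ a_γ`. By `lap_symm`
(`φ = ψ ∘ ρ γ`, which is `C^2` on `U` by `hol_contDiffOn_real`) and the same change of variables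
`a_γ = ∫ (ψ ∘ ρ γ) L ψ = a_{γ⁻¹}`; since `c_{γ⁻¹} = - c_γ` the sum `∑_{S'} c_γ a_γ` equals its
negative, so it is zero. Integrability of `u · (continuous with compact support in U)`: `hlu`
(`LocallyIntegrableOn.integrableOn_compact...`). -/

set_option linter.unusedSectionVars false

open Filter Topology Set Metric MeasureTheory
open scoped ComplexOrder

namespace Pool.Agent.H906.BD

variable {N : Type*} [Fintype N] [DecidableEq N] {Γ : Type*} [Group Γ]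

/-- the operator as a trace -/
theorem stokes_lap_trace (A : (N → ℂ) → Matrix N N ℂ) (φ : (N → ℂ) → ℂ) (x : N → ℂ) :
    Lap A φ x = Matrix.trace (A x * levi φ x) := by
  unfold Lap Matrix.trace
  rw [Finset.sum_comm]
  refine Finset.sum_congr rfl fun k _ => ?_
  rw [Matrix.diag_apply, Matrix.mul_apply]
  rfl

/-- the trace of the product of two nonnegative matrices -/
theorem stokes_trace {P H : Matrix N N ℂ} (hP : P.PosSemidef)
    (hH : ∀ ξ : N → ℂ, 0 ≤ (∑ p, ∑ q, ξ p * star (ξ q) * H p q).re) :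
    0 ≤ (Matrix.trace (P * H)).re := by
  obtain ⟨m, v, rfl⟩ := Matrix.posSemidef_iff_eq_sum_vecMulVec.1 hP
  rw [Finset.sum_mul, Matrix.trace_sum, Complex.re_sum]
  refine Finset.sum_nonneg fun i _ => ?_
  have h := hH (fun p => star (v i p))
  have e : Matrix.trace (Matrix.vecMulVec (v i) (star (v i)) * H) =
      ∑ p, ∑ q, star (v i p) * star (star (v i q)) * H p q := by
    unfold Matrix.trace
    rw [Finset.sum_comm]
    refine Finset.sum_congr rfl fun k _ => ?_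
    rw [Matrix.diag_apply, Matrix.mul_apply]
    refine Finset.sum_congr rfl fun q _ => ?_
    rw [Matrix.vecMulVec_apply, star_star, Pi.star_apply]
    ring
  rw [e]
  exact h

/-- a locally integrable function times a continuous function with compact support -/
theorem stokes_int {U K : Set (N → ℂ)} {u : (N → ℂ) → ℝ} (hlu : LocallyIntegrableOn u U volume)
    (hK : IsCompact K) (hKU : K ⊆ U) {h : (N → ℂ) → ℂ} (hh : ContinuousOn h U)
    (h0 : ∀ x ∉ K, h x = 0) : Integrable (fun x => (u x : ℂ) * h x) := by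
  have h1 : IntegrableOn (fun x => (u x : ℂ)) K volume :=
    (hlu.integrableOn_compact_subset hKU hK).ofReal
  have h2 : IntegrableOn (fun x => (u x : ℂ) * h x) K volume :=
    h1.mul_continuousOn (hh.mono hKU) hK
  rwa [integrableOn_iff_integrable_of_support_subset] at h2
  intro x hx
  by_contra hxK
  exact hx (by simp [h0 x hxK])

/-- continuous functions on `U` which vanish off a compact subset are integrable -/
theorem stokes_int' {U K : Set (N → ℂ)} (hU : IsOpen U) (hK : IsCompact K) (hKU : K ⊆ U)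
    {h : (N → ℂ) → ℂ} (hh : ContinuousOn h U) (h0 : ∀ x ∉ K, h x = 0) : Integrable h :=
  (continuous_of_zero_off hU hK.isClosed hKU hh h0).integrable_of_hasCompactSupport
    (HasCompactSupport.intro hK h0)

/-- the quadratic form -/
theorem stokes_hom (M : Matrix N N ℂ) (ξ : N → ℂ) (t : ℝ) :
    (star ((t : ℂ) • ξ) ⬝ᵥ (M.mulVec ((t : ℂ) • ξ))).re = t ^ 2 * (star ξ ⬝ᵥ (M.mulVec ξ)).re := by
  rw [Matrix.mulVec_smul, star_smul, smul_dotProduct, dotProduct_smul, smul_smul, smul_eq_mul]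
  have e : star (t : ℂ) * (t : ℂ) = ((t ^ 2 : ℝ) : ℂ) := by
    rw [show star (t : ℂ) = (t : ℂ) from Complex.conj_ofReal t]
    push_cast
    ring
  rw [e, Complex.re_ofReal_mul]

/-- a uniform lower bound of the positive definite matrices `A x` near `x₁` -/
theorem stokes_lower [Nonempty N] {U : Set (N → ℂ)} (hU : IsOpen U)
    {A : (N → ℂ) → Matrix N N ℂ} (hA : ∀ k j, ContinuousOn (fun x => A x k j) U)
    (hp : ∀ x ∈ U, (A x).PosDef) {x₁ : N → ℂ} (hx₁ : x₁ ∈ U) :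
    ∃ ρ > 0, ∃ l > 0, closedBall x₁ ρ ⊆ U ∧
      ∀ x ∈ closedBall x₁ ρ, (A x - (((l : ℝ) : ℂ)) • (1 : Matrix N N ℂ)).PosSemidef := by
  obtain ⟨ρ, hρ, hρU⟩ := Metric.nhds_basis_closedBall.mem_iff.1 (hU.mem_nhds hx₁)
  let F : (N → ℂ) × (N → ℂ) → ℝ := fun q => (star q.2 ⬝ᵥ ((A q.1).mulVec q.2)).re
  have hF : ContinuousOn F (closedBall x₁ ρ ×ˢ sphere (0 : N → ℂ) 1) := by
    have h1 : ∀ i j, ContinuousOn (fun q : (N → ℂ) × (N → ℂ) => A q.1 i j)
        (closedBall x₁ ρ ×ˢ sphere (0 : N → ℂ) 1) := fun i j =>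
      (hA i j).comp continuousOn_fst fun q hq => hρU hq.1
    have h2 : ∀ i, ContinuousOn (fun q : (N → ℂ) × (N → ℂ) => q.2 i)
        (closedBall x₁ ρ ×ˢ sphere (0 : N → ℂ) 1) := fun i => by fun_prop
    have h3 : ContinuousOn (fun q : (N → ℂ) × (N → ℂ) =>
        ∑ i, star (q.2 i) * ∑ j, A q.1 i j * q.2 j)
        (closedBall x₁ ρ ×ˢ sphere (0 : N → ℂ) 1) :=
      continuousOn_finsetSum _ fun i _ => (continuous_star.comp_continuousOn (h2 i)).mul
        (continuousOn_finsetSum _ fun j _ => (h1 i j).mul (h2 j))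
    exact Complex.continuous_re.comp_continuousOn h3
  have hne : (closedBall x₁ ρ ×ˢ sphere (0 : N → ℂ) 1).Nonempty := by
    refine ⟨(x₁, fun _ => 1), mem_closedBall_self hρ.le, ?_⟩
    rw [mem_sphere_zero_iff_norm, pi_norm_const]
    exact norm_one
  obtain ⟨⟨x0, ξ0⟩, hq0, hmin⟩ :=
    ((isCompact_closedBall x₁ ρ).prod (isCompact_sphere (0 : N → ℂ) 1)).exists_isMinOn hne hF
  have hm : 0 < F (x0, ξ0) := by
    have hξ : ξ0 ≠ 0 := by
      intro h
      have := hq0.2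
      rw [mem_sphere_zero_iff_norm] at this
      simp only [h, norm_zero] at this
      exact zero_ne_one this
    exact (hp x0 (hρU hq0.1)).re_dotProduct_pos hξ
  obtain ⟨m, hmdef⟩ : ∃ m, m = F (x0, ξ0) := ⟨_, rfl⟩
  rw [← hmdef] at hm
  have hcard : (0 : ℝ) < Fintype.card N := by exact_mod_cast Fintype.card_pos
  refine ⟨ρ, hρ, m / Fintype.card N, by positivity, hρU, fun x hx => ?_⟩
  have hlow : ∀ ξ : N → ℂ, m * ‖ξ‖ ^ 2 ≤ (star ξ ⬝ᵥ ((A x).mulVec ξ)).re := by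
    intro ξ
    by_cases hξ : ξ = 0
    · rw [hξ]
      simp
    · have hn : 0 < ‖ξ‖ := norm_pos_iff.2 hξ
      have h1 : ‖(((‖ξ‖⁻¹ : ℝ) : ℂ)) • ξ‖ = 1 := by
        rw [norm_smul, Complex.norm_real, norm_inv, norm_norm, inv_mul_cancel₀ hn.ne']
      have h2 : m ≤ F (x, (((‖ξ‖⁻¹ : ℝ) : ℂ)) • ξ) := by
        rw [hmdef]
        exact hmin (a := (x, (((‖ξ‖⁻¹ : ℝ) : ℂ)) • ξ)) ⟨hx, by
          rw [mem_sphere_zero_iff_norm]; exact h1⟩
      have h3 : F (x, (((‖ξ‖⁻¹ : ℝ) : ℂ)) • ξ) =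
          (‖ξ‖⁻¹) ^ 2 * (star ξ ⬝ᵥ ((A x).mulVec ξ)).re := stokes_hom _ _ _
      rw [h3] at h2
      calc m * ‖ξ‖ ^ 2 ≤ ((‖ξ‖⁻¹) ^ 2 * (star ξ ⬝ᵥ ((A x).mulVec ξ)).re) * ‖ξ‖ ^ 2 :=
            mul_le_mul_of_nonneg_right h2 (by positivity)
        _ = _ := by field_simp
  have hher : (A x - (((m / Fintype.card N : ℝ) : ℂ)) • (1 : Matrix N N ℂ)).IsHermitian := by
    refine (hp x (hρU hx)).isHermitian.sub ?_
    unfold Matrix.IsHermitian
    rw [Matrix.conjTranspose_smul, Matrix.conjTranspose_one]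
    congr 1
    exact Complex.conj_ofReal _
  refine Matrix.PosSemidef.of_dotProduct_mulVec_nonneg hher fun ξ => ?_
  rw [Complex.nonneg_iff]
  refine ⟨?_, (hher.im_star_dotProduct_mulVec_self ξ).symm⟩
  rw [Matrix.sub_mulVec, dotProduct_sub, Matrix.smul_mulVec, Matrix.one_mulVec, dotProduct_smul,
    smul_eq_mul, Complex.sub_re, Complex.re_ofReal_mul]
  have h4 : (star ξ ⬝ᵥ ξ).re ≤ Fintype.card N * ‖ξ‖ ^ 2 := by
    unfold dotProduct
    rw [Complex.re_sum]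
    have h5 : ∀ i ∈ Finset.univ, ((star ξ) i * ξ i).re ≤ ‖ξ‖ ^ 2 := by
      intro i _
      have h6 : ((star ξ) i * ξ i).re = ‖ξ i‖ ^ 2 := by
        rw [Pi.star_apply, ← Complex.normSq_eq_norm_sq, Complex.normSq_apply]
        simp
      rw [h6]
      exact pow_le_pow_left₀ (norm_nonneg _) (norm_le_pi_norm ξ i) 2
    calc _ ≤ ∑ _i : N, ‖ξ‖ ^ 2 := Finset.sum_le_sum h5
      _ = _ := by rw [Finset.sum_const, Finset.card_univ, nsmul_eq_mul]
  have h7 : m / Fintype.card N * (star ξ ⬝ᵥ ξ).re ≤ m * ‖ξ‖ ^ 2 := by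
    calc _ ≤ m / Fintype.card N * (Fintype.card N * ‖ξ‖ ^ 2) :=
          mul_le_mul_of_nonneg_left h4 (by positivity)
      _ = _ := by field_simp
  have := hlow ξ
  linarith

/-- the adjugate of a positive definite matrix -/
theorem stokes_adj {M : Matrix N N ℂ} (hM : M.PosDef) : M.adjugate.PosDef := by
  have hd : 0 < M.det := hM.det_pos
  have e : M.adjugate = M.det • M⁻¹ := by
    have hu : IsUnit M.det := isUnit_iff_ne_zero.2 hd.ne'
    rw [Matrix.inv_def, smul_smul, Ring.mul_inverse_cancel _ hu, one_smul]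
  rw [e]
  exact hM.inv.smul hd

/-- (a): the integral is positive -/
theorem stokes_pos [Nonempty N] {U : Set (N → ℂ)} (hU : IsOpen U)
    {A : (N → ℂ) → Matrix N N ℂ} (hA : DivFree U A) (hAp : ∀ x ∈ U, (A x).PosDef)
    {u : (N → ℂ) → ℝ} {uj : ℕ → (N → ℂ) → ℝ} (huj : ∀ j, ContDiffOn ℝ 2 (uj j) U)
    (hpsh : ∀ j, ∀ x ∈ U, ∀ ξ : N → ℂ,
      0 ≤ (∑ p, ∑ q, ξ p * star (ξ q) * levi (fun y => (uj j y : ℂ)) x p q).re)
    (hlim : ∀ φ : (N → ℂ) → ℂ, Continuous φ → HasCompactSupport φ → tsupport φ ⊆ U →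
      Tendsto (fun j => ∫ x, (uj j x : ℂ) * φ x) atTop (𝓝 (∫ x, (u x : ℂ) * φ x)))
    {x₁ : N → ℂ} (hx₁ : x₁ ∈ U) {r δ : ℝ} (hr : 0 < r) (hδ : 0 < δ)
    (hstr : ∀ᶠ j in atTop, ∀ x ∈ ball x₁ r, x ∈ U →
      δ ≤ (∑ k, levi (fun y => (uj j y : ℂ)) x k k).re)
    {χ : (N → ℂ) → ℝ} (hχ : ContDiff ℝ 2 χ) (hχc : HasCompactSupport χ) (hχU : tsupport χ ⊆ U)
    (hχ0 : ∀ x, 0 ≤ χ x) (hχ1 : 0 < χ x₁) :
    0 < (∫ x, (u x : ℂ) * Lap A (fun y => (χ y : ℂ)) x).re := by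
  have hAc : ∀ k j, ContinuousOn (fun x => A x k j) U := fun k j => (hA.smooth k j).continuousOn
  obtain ⟨ρ, hρ, l, hl, hρU, hlow⟩ := stokes_lower hU hAc hAp hx₁
  obtain ⟨ψ, hψdef⟩ : ∃ ψ : (N → ℂ) → ℂ, ψ = fun y => (χ y : ℂ) := ⟨_, rfl⟩
  rw [← hψdef]
  have hψ : ContDiff ℝ 2 ψ := by
    rw [hψdef]
    exact Complex.ofRealCLM.contDiff.comp hχ
  have hψ0 : ∀ x ∉ tsupport χ, ψ x = 0 := by
    intro x hx
    rw [hψdef]
    show ((χ x : ℝ) : ℂ) = 0
    rw [image_eq_zero_of_notMem_tsupport hx, Complex.ofReal_zero]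
  have hψs : tsupport ψ ⊆ tsupport χ := by
    refine closure_minimal (fun x hx => ?_) (isClosed_tsupport χ)
    by_contra h
    exact hx (hψ0 x h)
  have hψc : HasCompactSupport ψ := HasCompactSupport.intro hχc hψ0
  have hL0 : ∀ x ∉ tsupport χ, Lap A ψ x = 0 := fun x hx => lap_zero_off fun h => hx (hψs h)
  have hLc : Continuous (Lap A ψ) := continuous_of_zero_off hU (isClosed_tsupport χ) hχU
    (lap_continuousOn hU hAc hψ.contDiffOn) hL0
  have hLs : HasCompactSupport (Lap A ψ) := HasCompactSupport.intro hχc hL0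
  have hLt : tsupport (Lap A ψ) ⊆ U := by
    refine Subset.trans (closure_minimal (fun x hx => ?_) (isClosed_tsupport χ)) hχU
    by_contra h
    exact hx (hL0 x h)
  -- a small ball
  obtain ⟨s, hs, hsχ⟩ : ∃ s > 0, ∀ x ∈ ball x₁ s, χ x₁ / 2 ≤ χ x := by
    have h1 : ∀ᶠ x in 𝓝 x₁, χ x₁ / 2 < χ x :=
      hχ.continuous.continuousAt.eventually (lt_mem_nhds (by linarith))
    obtain ⟨s, hs, h2⟩ := Metric.eventually_nhds_iff_ball.1 h1
    exact ⟨s, hs, fun x hx => (h2 x hx).le⟩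
  obtain ⟨t, ht, hts, htr, htρ⟩ : ∃ t > 0, t ≤ s ∧ t ≤ r ∧ t ≤ ρ :=
    ⟨min s (min r ρ), by positivity, min_le_left _ _, (min_le_right _ _).trans (min_le_left _ _),
      (min_le_right _ _).trans (min_le_right _ _)⟩
  obtain ⟨η, hη⟩ : ∃ η, η = χ x₁ / 2 * (l * δ) := ⟨_, rfl⟩
  have hη0 : 0 < η := by rw [hη]; positivity
  have hvol : 0 < volume.real (ball x₁ t) := by
    refine ENNReal.toReal_pos ?_ ?_
    · exact (Metric.measure_ball_pos volume x₁ ht).ne'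
    · exact measure_ball_lt_top.ne
  -- the lower bound
  have hlb : ∀ᶠ j in atTop, volume.real (ball x₁ t) * η ≤
      (∫ x, (uj j x : ℂ) * Lap A ψ x).re := by
    filter_upwards [hstr] with j hj
    obtain ⟨v, hv⟩ : ∃ v : (N → ℂ) → ℂ, v = fun y => (uj j y : ℂ) := ⟨_, rfl⟩
    have hvC : ContDiffOn ℝ 2 v U := by
      rw [hv]
      exact Complex.ofRealCLM.contDiff.comp_contDiffOn (huj j)
    have e1 : ∫ x, (uj j x : ℂ) * Lap A ψ x = ∫ x, ψ x * Lap A v x := by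
      rw [← lap_symm hU hA hvC hψ hψc (hψs.trans hχU), hv]
    have hint : Integrable (fun x => ψ x * Lap A v x) :=
      stokes_int' hU hχc hχU (hψ.continuous.continuousOn.mul (lap_continuousOn hU hAc hvC))
        fun x hx => by rw [hψ0 x hx, zero_mul]
    have e2 : (∫ x, ψ x * Lap A v x).re = ∫ x, (ψ x * Lap A v x).re :=
      (Complex.reCLM.integral_comp_comm hint).symm
    have e3 : ∀ x, (ψ x * Lap A v x).re = χ x * (Lap A v x).re := by
      intro x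
      rw [hψdef, Complex.re_ofReal_mul]
    have hpos : ∀ x ∈ U, 0 ≤ (Lap A v x).re := by
      intro x hx
      rw [stokes_lap_trace]
      refine stokes_trace (hAp x hx).posSemidef ?_
      rw [hv]
      exact hpsh j x hx
    have hpos2 : ∀ x ∈ ball x₁ t, l * δ ≤ (Lap A v x).re := by
      intro x hx
      have hxρ : x ∈ closedBall x₁ ρ := by
        rw [mem_closedBall]
        rw [mem_ball] at hx
        linarith
      have hxr : x ∈ ball x₁ r := ball_subset_ball htr hx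
      have h1 := stokes_trace (hlow x hxρ) (hpsh j x (hρU hxρ))
      have h2 := hj x hxr (hρU hxρ)
      have h3 : Matrix.trace ((A x - (((l : ℝ) : ℂ)) • (1 : Matrix N N ℂ)) *
          levi (fun y => (uj j y : ℂ)) x) =
          Lap A v x - ((l : ℝ) : ℂ) * ∑ k, levi (fun y => (uj j y : ℂ)) x k k := by
        rw [Matrix.sub_mul, Matrix.trace_sub, Matrix.smul_mul, Matrix.one_mul, Matrix.trace_smul,
          stokes_lap_trace, hv]
        rfl
      rw [h3, Complex.sub_re, Complex.re_ofReal_mul] at h1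
      have h4 : l * δ ≤ l * (∑ k, levi (fun y => (uj j y : ℂ)) x k k).re :=
        mul_le_mul_of_nonneg_left h2 hl.le
      linarith
    rw [e1, e2]
    have e4 : ∫ x, (ball x₁ t).indicator (fun _ => η) x = volume.real (ball x₁ t) * η := by
      rw [integral_indicator measurableSet_ball, setIntegral_const, smul_eq_mul]
    rw [← e4]
    refine integral_mono ?_ hint.re ?_
    · exact (integrable_indicator_iff measurableSet_ball).2
        (integrableOn_const (measure_ball_lt_top.ne))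
    · intro x
      show (ball x₁ t).indicator (fun _ => η) x ≤ (ψ x * Lap A v x).re
      rw [e3]
      by_cases hx : x ∈ ball x₁ t
      · rw [indicator_of_mem hx, hη]
        exact mul_le_mul (hsχ x (ball_subset_ball hts hx)) (hpos2 x hx) (by positivity) (hχ0 x)
      · rw [indicator_of_notMem hx]
        by_cases hxU : x ∈ U
        · exact mul_nonneg (hχ0 x) (hpos x hxU)
        · rw [image_eq_zero_of_notMem_tsupport (fun h => hxU (hχU h)), zero_mul]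
  have hl2 := hlim (Lap A ψ) hLc hLs hLt
  have hl3 : Tendsto (fun j => (∫ x, (uj j x : ℂ) * Lap A ψ x).re) atTop
      (𝓝 (∫ x, (u x : ℂ) * Lap A ψ x).re) := (Complex.continuous_re.tendsto _).comp hl2
  exact lt_of_lt_of_le (mul_pos hvol hη0) (ge_of_tendsto hl3 hlb)

/-- (b): the integral is zero -/
theorem stokes_zero {U : Set (N → ℂ)} (hU : IsOpen U) {ρ : Γ → (N → ℂ) → (N → ℂ)}
    (hρ : HolAct U ρ) (hpd : PD U ρ) {g : (N → ℂ) → Matrix N N ℂ}
    (hg : Kahler U g) (hinv : InvForm U ρ g) {u : (N → ℂ) → ℝ} {c : Γ → ℝ}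
    (hc : ∀ γ, c γ⁻¹ = - c γ)
    (hu : ∀ γ, ∀ᵐ x ∂(volume.restrict U), u (ρ γ x) = u x + c γ)
    (hlu : LocallyIntegrableOn u U volume) {χ : (N → ℂ) → ℝ} (hχ : ContDiff ℝ 2 χ)
    (hχc : HasCompactSupport χ) (hχU : tsupport χ ⊆ U) (hsum : ∀ x ∈ U, ∑ᶠ γ, χ (ρ γ x) = 1) :
    ∫ x, (u x : ℂ) * Lap (fun y => (g y).adjugate) (fun y => (χ y : ℂ)) x = 0 := by
  have hA : DivFree U (fun y => (g y).adjugate) := divFree_adjugate hU hg
  obtain ⟨A, hAdef⟩ : ∃ A : (N → ℂ) → Matrix N N ℂ, A = fun y => (g y).adjugate := ⟨_, rfl⟩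
  rw [← hAdef] at hA
  rw [← hAdef]
  have hAc : ∀ k j, ContinuousOn (fun x => A x k j) U := fun k j => (hA.smooth k j).continuousOn
  obtain ⟨ψ, hψdef⟩ : ∃ ψ : (N → ℂ) → ℂ, ψ = fun y => (χ y : ℂ) := ⟨_, rfl⟩
  rw [← hψdef]
  obtain ⟨K, hKdef⟩ : ∃ K : Set (N → ℂ), K = tsupport χ := ⟨_, rfl⟩
  have hK : IsCompact K := by rw [hKdef]; exact hχc
  have hKU : K ⊆ U := by rw [hKdef]; exact hχU
  have hψ : ContDiff ℝ 2 ψ := by
    rw [hψdef]
    exact Complex.ofRealCLM.contDiff.comp hχ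
  have hψ0 : ∀ x ∉ K, ψ x = 0 := by
    intro x hx
    rw [hKdef] at hx
    rw [hψdef]
    show ((χ x : ℝ) : ℂ) = 0
    rw [image_eq_zero_of_notMem_tsupport hx, Complex.ofReal_zero]
  have hψs : tsupport ψ ⊆ K := by
    refine closure_minimal (fun x hx => ?_) hK.isClosed
    by_contra h
    exact hx (hψ0 x h)
  have hψc : HasCompactSupport ψ := HasCompactSupport.intro hK hψ0
  have hL0 : ∀ x ∉ K, Lap A ψ x = 0 := fun x hx => lap_zero_off fun h => hx (hψs h)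
  have hLc : ContinuousOn (Lap A ψ) U := lap_continuousOn hU hAc hψ.contDiffOn
  obtain ⟨φ, hφdef⟩ : ∃ φ : Γ → (N → ℂ) → ℂ, φ = fun γ x => ψ (ρ γ x) := ⟨_, rfl⟩
  have hφa : ∀ γ x, φ γ x = ψ (ρ γ x) := fun γ x => by rw [hφdef]
  have hφ : ∀ γ, ContDiffOn ℝ 2 (φ γ) U := by
    intro γ
    have h1 : ContDiffOn ℝ 2 (ρ γ) U := hol_contDiffOn_real hU 2 (hρ.hol γ)
    rw [hφdef]
    exact hψ.comp_contDiffOn h1
  have hLφ : ∀ γ, ContinuousOn (Lap A (φ γ)) U := fun γ => lap_continuousOn hU hAc (hφ γ)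
  -- change of variables
  have hcov : ∀ (γ : Γ) (f : (N → ℂ) → ℂ), ∫ x in U, f x =
      ∫ y in U, ((‖(Jac (ρ γ) y).det‖ ^ 2 : ℝ) : ℂ) * f (ρ γ y) := by
    intro γ f
    have him : ρ γ '' U = U := by
      apply Subset.antisymm
      · rintro _ ⟨x, hx, rfl⟩
        exact hρ.maps γ x hx
      · intro x hx
        exact ⟨ρ γ⁻¹ x, hρ.maps _ x hx, hρ.act_inv γ hx⟩
    have hinj : InjOn (ρ γ) U := by
      intro x hx y hy h
      rw [← hρ.inv_act γ hx, h, hρ.inv_act γ hy]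
    have h := integral_image hU (hρ.hol γ) hinj f
    rw [him] at h
    exact h
  have hlapc : ∀ γ, ∀ y ∈ U, ((‖(Jac (ρ γ) y).det‖ ^ 2 : ℝ) : ℂ) * Lap A ψ (ρ γ y) =
      Lap A (φ γ) y := by
    intro γ y hy
    have h := lap_comp hU (hρ.hol γ) (hρ.maps γ) (hinv γ) hψ.contDiffOn hy
    rw [hAdef, hφdef]
    exact h.symm
  -- integrability
  have hJint : ∀ γ, Integrable (fun x => (u x : ℂ) * (ψ x * Lap A (φ γ) x)) := fun γ =>
    stokes_int hlu hK hKU (hψ.continuous.continuousOn.mul (hLφ γ))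
      fun x hx => by rw [hψ0 x hx, zero_mul]
  have hIint : ∀ γ, Integrable (fun x => (u x : ℂ) * (φ γ x * Lap A ψ x)) := fun γ =>
    stokes_int hlu hK hKU ((hφ γ).continuousOn.mul hLc)
      fun x hx => by rw [hL0 x hx, mul_zero]
  have haint : ∀ γ, Integrable (fun x => ψ x * Lap A (φ γ) x) := fun γ =>
    stokes_int' hU hK hKU (hψ.continuous.continuousOn.mul (hLφ γ))
      fun x hx => by rw [hψ0 x hx, zero_mul]
  obtain ⟨J, hJ⟩ : ∃ J : Γ → ℂ, J = fun γ => ∫ x in U, (u x : ℂ) * (ψ x * Lap A (φ γ) x) :=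
    ⟨_, rfl⟩
  obtain ⟨a, ha⟩ : ∃ a : Γ → ℂ, a = fun γ => ∫ x in U, ψ x * Lap A (φ γ) x := ⟨_, rfl⟩
  have hI : ∀ γ, ∫ x in U, (u x : ℂ) * (φ γ x * Lap A ψ x) =
      J γ⁻¹ + (c γ⁻¹ : ℂ) * a γ⁻¹ := by
    intro γ
    rw [hcov γ⁻¹]
    have e1 : ∫ y in U, ((‖(Jac (ρ γ⁻¹) y).det‖ ^ 2 : ℝ) : ℂ) *
        ((u (ρ γ⁻¹ y) : ℂ) * (φ γ (ρ γ⁻¹ y) * Lap A ψ (ρ γ⁻¹ y))) =
        ∫ y in U, ((u y : ℂ) * (ψ y * Lap A (φ γ⁻¹) y) +
          (c γ⁻¹ : ℂ) * (ψ y * Lap A (φ γ⁻¹) y)) := by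
      refine integral_congr_ae ?_
      filter_upwards [hu γ⁻¹, ae_restrict_mem hU.measurableSet] with y hy hyU
      have h1 := hlapc γ⁻¹ y hyU
      have h2 : φ γ (ρ γ⁻¹ y) = ψ y := by rw [hφa, hρ.act_inv γ hyU]
      rw [hy, h2, ← h1]
      push_cast
      ring
    rw [e1, integral_add (hJint γ⁻¹).integrableOn ((haint γ⁻¹).integrableOn.const_mul _),
      integral_const_mul, hJ, ha]
  have ha2 : ∀ γ, a γ = a γ⁻¹ := by
    intro γ
    have e1 : a γ = ∫ x, ψ x * Lap A (φ γ) x := by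
      rw [ha]
      exact setIntegral_eq_integral_of_forall_compl_eq_zero fun x hx => by
        rw [hψ0 x (fun h => hx (hKU h)), zero_mul]
    have e2 : ∫ x in U, φ γ x * Lap A ψ x = ∫ x, φ γ x * Lap A ψ x :=
      setIntegral_eq_integral_of_forall_compl_eq_zero fun x hx => by
        rw [hL0 x (fun h => hx (hKU h)), mul_zero]
    rw [e1, ← lap_symm hU hA (hφ γ) hψ hψc (hψs.trans hKU), ← e2, hcov γ⁻¹, ha]
    refine setIntegral_congr_fun hU.measurableSet fun y hy => ?_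
    have h1 := hlapc γ⁻¹ y hy
    have h2 : φ γ (ρ γ⁻¹ y) = ψ y := by rw [hφa, hρ.act_inv γ hy]
    show ((‖(Jac (ρ γ⁻¹) y).det‖ ^ 2 : ℝ) : ℂ) * (φ γ (ρ γ⁻¹ y) * Lap A ψ (ρ γ⁻¹ y)) =
      ψ y * Lap A (φ γ⁻¹) y
    rw [h2, ← h1]
    ring
  -- the finite set
  obtain ⟨δ, hδ, hthc, hth⟩ := exists_thick hU hKU hK
  have hfin := hpd (cthickening δ K) hth hthc
  obtain ⟨T, hT⟩ : ∃ T : Finset Γ, ∀ γ, γ ∈ T ↔
      (ρ γ '' cthickening δ K ∩ cthickening δ K).Nonempty :=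
    ⟨hfin.toFinset, fun γ => by rw [Set.Finite.mem_toFinset]; rfl⟩
  have hTinv : ∀ γ ∈ T, γ⁻¹ ∈ T := by
    intro γ hγ
    rw [hT] at hγ ⊢
    obtain ⟨w, ⟨z, hz, hzw⟩, hw⟩ := hγ
    refine ⟨z, ⟨w, hw, ?_⟩, hz⟩
    rw [← hzw]
    exact hρ.inv_act γ (hth hz)
  have hsum1 : ∀ x ∈ cthickening δ K, ∑ γ ∈ T, φ γ x = 1 := by
    intro x hx
    have h1 := hsum x (hth hx)
    rw [finsum_eq_sum_of_support_subset (s := T)] at h1
    · have h2 : ∑ γ ∈ T, φ γ x = ((∑ γ ∈ T, χ (ρ γ x) : ℝ) : ℂ) := by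
        rw [Complex.ofReal_sum]
        refine Finset.sum_congr rfl fun γ _ => ?_
        rw [hφa, hψdef]
      rw [h2, h1, Complex.ofReal_one]
    · intro γ hγ
      rw [Finset.mem_coe, hT]
      refine ⟨ρ γ x, ⟨x, hx, rfl⟩, self_subset_cthickening K ?_⟩
      rw [hKdef]
      exact subset_tsupport χ hγ
  have hreidx : ∀ f : Γ → ℂ, ∑ γ ∈ T, f γ⁻¹ = ∑ γ ∈ T, f γ := by
    intro f
    refine Finset.sum_nbij' (fun γ => γ⁻¹) (fun γ => γ⁻¹) hTinv hTinv ?_ ?_ ?_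
    · intro γ _
      exact inv_inv γ
    · intro γ _
      exact inv_inv γ
    · intro γ _
      rfl
  -- the first decomposition
  have e1 : ∫ x, (u x : ℂ) * Lap A ψ x = ∑ γ ∈ T, ∫ x in U, (u x : ℂ) * (φ γ x * Lap A ψ x) := by
    have e2 : ∀ γ, ∫ x in U, (u x : ℂ) * (φ γ x * Lap A ψ x) =
        ∫ x, (u x : ℂ) * (φ γ x * Lap A ψ x) := fun γ =>
      setIntegral_eq_integral_of_forall_compl_eq_zero fun x hx => by
        rw [hL0 x (fun h => hx (hKU h)), mul_zero, mul_zero]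
    rw [Finset.sum_congr rfl fun γ _ => e2 γ, ← integral_finsetSum _ fun γ _ => hIint γ]
    refine integral_congr_ae (Eventually.of_forall fun x => ?_)
    show (u x : ℂ) * Lap A ψ x = ∑ γ ∈ T, (u x : ℂ) * (φ γ x * Lap A ψ x)
    by_cases hx : x ∈ K
    · rw [← Finset.mul_sum, ← Finset.sum_mul, hsum1 x (self_subset_cthickening K hx), one_mul]
    · rw [hL0 x hx]
      simp
  -- the second sum vanishes
  have e3 : ∑ γ ∈ T, J γ = 0 := by
    rw [hJ]
    show ∑ γ ∈ T, ∫ x in U, (u x : ℂ) * (ψ x * Lap A (φ γ) x) = 0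
    rw [← integral_finsetSum _ fun γ _ => (hJint γ).integrableOn]
    have h0 : ∀ x ∈ U, ∑ γ ∈ T, (u x : ℂ) * (ψ x * Lap A (φ γ) x) = 0 := by
      intro x hxU
      by_cases hx : x ∈ K
      · rw [← Finset.mul_sum, ← Finset.mul_sum, ← lap_sum hU A (fun γ _ => hφ γ) hxU]
        have h1 : (fun y => ∑ γ ∈ T, φ γ y) =ᶠ[𝓝 x] fun _ => 1 := by
          have h2 : thickening δ K ∈ 𝓝 x :=
            isOpen_thickening.mem_nhds (self_subset_thickening hδ K hx)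
          filter_upwards [h2] with y hy
          exact hsum1 y (thickening_subset_cthickening δ K hy)
        rw [lap_congr h1, lap_const, mul_zero, mul_zero]
      · rw [hψ0 x hx]
        simp
    rw [setIntegral_congr_fun hU.measurableSet h0]
    simp
  rw [e1, Finset.sum_congr rfl fun γ _ => hI γ, Finset.sum_add_distrib, hreidx J, e3, zero_add]
  have e4 : ∑ γ ∈ T, (c γ⁻¹ : ℂ) * a γ⁻¹ = ∑ γ ∈ T, (c γ : ℂ) * a γ :=
    hreidx fun γ => (c γ : ℂ) * a γ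
  have e5 : ∑ γ ∈ T, (c γ⁻¹ : ℂ) * a γ⁻¹ = - ∑ γ ∈ T, (c γ : ℂ) * a γ := by
    rw [← Finset.sum_neg_distrib]
    refine Finset.sum_congr rfl fun γ _ => ?_
    rw [hc, ← ha2]
    push_cast
    ring
  rw [e4] at e5 ⊢
  exact self_eq_neg.1 e5

theorem stokes_contra {U : Set (N → ℂ)} (hU : IsOpen U) {ρ : Γ → (N → ℂ) → (N → ℂ)}
    (hρ : HolAct U ρ) (hpd : PD U ρ) (hcc : CC U ρ) {g : (N → ℂ) → Matrix N N ℂ}
    (hg : Kahler U g) (hinv : InvForm U ρ g) {u : (N → ℂ) → ℝ} {uj : ℕ → (N → ℂ) → ℝ}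
    {c : Γ → ℝ} (huj : ∀ j, ContDiffOn ℝ 2 (uj j) U)
    (hpsh : ∀ j, ∀ x ∈ U, (levi (fun y => (uj j y : ℂ)) x).IsHermitian ∧ ∀ ξ : N → ℂ,
      0 ≤ (∑ p, ∑ q, ξ p * star (ξ q) * levi (fun y => (uj j y : ℂ)) x p q).re)
    (hc : ∀ γ, c γ⁻¹ = - c γ)
    (hu : ∀ γ, ∀ᵐ x ∂(volume.restrict U), u (ρ γ x) = u x + c γ)
    (hlu : LocallyIntegrableOn u U volume)
    (hlim : ∀ φ : (N → ℂ) → ℂ, Continuous φ → HasCompactSupport φ → tsupport φ ⊆ U →
      Tendsto (fun j => ∫ x, (uj j x : ℂ) * φ x) atTop (𝓝 (∫ x, (u x : ℂ) * φ x)))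
    {x₁ : N → ℂ} (hx₁ : x₁ ∈ U) {r δ : ℝ} (hr : 0 < r) (hδ : 0 < δ)
    (hstr : ∀ᶠ j in atTop, ∀ x ∈ ball x₁ r, x ∈ U →
      δ ≤ (∑ k, levi (fun y => (uj j y : ℂ)) x k k).re) : False := by
  obtain ⟨χ, hχ, hχc, hχU, hχ0, hχ1, hsum⟩ := exists_partition hU hρ hpd hcc hx₁
  rcases isEmpty_or_nonempty N with hN | hN
  · obtain ⟨j, hj⟩ := hstr.exists
    have h := hj x₁ (mem_ball_self hr) hx₁
    rw [Finset.univ_eq_empty, Finset.sum_empty, Complex.zero_re] at h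
    linarith
  · have h1 := stokes_pos hU (divFree_adjugate hU hg) (fun x hx => stokes_adj (hg.pos x hx)) huj
      (fun j x hx => (hpsh j x hx).2) hlim hx₁ hr hδ hstr hχ hχc hχU hχ0 hχ1
    have h2 := stokes_zero hU hρ hpd hg hinv hc hu hlu hχ hχc hχU hsum
    rw [h2, Complex.zero_re] at h1
    exact lt_irrefl _ h1

end Pool.Agent.H906.BD
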