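import Pool.Agent.H906.BD.Flow

/-! # Suprema of families of holomorphic functions -/

open Filter Topology Set Metric

namespace Pool.Agent.H906.BD

variable {E F : Type*} [NormedAddCommGroup E] [NormedSpace ℂ E]
  [NormedAddCommGroup F] [NormedSpace ℂ F] {D : Set E}

/-- the map `z ↦ f'(z) (w z)` is holomorphic -/
theorem hol_fderiv_apply [CompleteSpace F] {U : Set E} (hU : IsOpen U) {f : E → F}
    (hf : DifferentiableOn ℂ f U) {w : E → E} (hw : DifferentiableOn ℂ w U) :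
    DifferentiableOn ℂ (fun z => fderiv ℂ f z (w z)) U := by
  intro z₀ hz₀
  obtain ⟨R, hR, M, hRU, hM⟩ := exists_bound hU hf hz₀
  obtain ⟨r1, hr1, Q, hQ0, hr1U, hwQ, -⟩ := exists_lip hU hw hz₀
  have hM0 := bound_nonneg hR hM
  set r := min (R / 64) r1 with hr
  have hr0 : 0 < r := by positivity
  have hsR : ball z₀ r ⊆ ball z₀ R := ball_subset_ball (by
    have : r ≤ R / 64 := min_le_left _ _
    linarith)
  have hs32 : ball z₀ r ⊆ ball z₀ (R / 32) := ball_subset_ball (by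
    have : r ≤ R / 64 := min_le_left _ _
    linarith)
  have hs1 : ball z₀ r ⊆ ball z₀ r1 := ball_subset_ball (min_le_right _ _)
  -- step sizes
  set t0 := R / (64 * (Q + 1)) with ht0
  have ht0p : 0 < t0 := by positivity
  set t : ℕ → ℝ := fun n => t0 / (n + 1) with ht
  have htp : ∀ n, 0 < t n := fun n => by rw [ht]; positivity
  have htle : ∀ n, t n ≤ t0 := fun n => by
    rw [ht]
    exact div_le_self ht0p.le (by linarith [(Nat.cast_nonneg n : (0 : ℝ) ≤ n)])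
  have hmem : ∀ n, ∀ z ∈ ball z₀ r, z + (t n : ℂ) • w z ∈ ball z₀ (R / 32) := by
    intro n z hz
    have h1 := hwQ z (hs1 hz)
    rw [mem_ball, dist_eq_norm] at hz ⊢
    have e : z + (t n : ℂ) • w z - z₀ = (z - z₀) + (t n : ℂ) • w z := by abel
    rw [e]
    refine (norm_add_le _ _).trans_lt ?_
    have h2 : ‖(t n : ℂ) • w z‖ ≤ R / 64 := by
      rw [norm_smul, Complex.norm_real, Real.norm_eq_abs, abs_of_pos (htp n)]
      calc t n * ‖w z‖ ≤ t0 * (Q + 1) := by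
            have := htle n
            gcongr
            linarith
        _ = R / 64 := by rw [ht0]; field_simp
    have : r ≤ R / 64 := min_le_left _ _
    linarith
  set g : ℕ → E → F := fun n z => ((t n : ℂ)⁻¹) • (f (z + (t n : ℂ) • w z) - f z) with hg
  have hgd : ∀ n, DifferentiableOn ℂ (g n) (ball z₀ r) := by
    intro n z hz
    have h1 : DifferentiableAt ℂ w z := hw.differentiableAt (hU.mem_nhds (hr1U (hs1 hz)))
    have h2 : DifferentiableAt ℂ (fun z => z + (t n : ℂ) • w z) z :=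
      differentiableAt_id.add (h1.const_smul _)
    have h3 : DifferentiableAt ℂ f (z + (t n : ℂ) • w z) :=
      hf.differentiableAt (hU.mem_nhds (hRU (ball_subset_ball (by linarith) (hmem n z hz))))
    have h4 : DifferentiableAt ℂ f z := hf.differentiableAt (hU.mem_nhds (hRU (hsR hz)))
    exact (((h3.comp z h2).sub h4).const_smul _).differentiableWithinAt
  have hLU : LU g (fun z => fderiv ℂ f z (w z)) atTop (ball z₀ r) := by
    intro x hx
    obtain ⟨s, hs, hsub⟩ := Metric.isOpen_iff.1 (isOpen_ball (x := z₀) (ε := r)) x hx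
    refine ⟨s, hs, hsub, fun ε hε => ?_⟩
    have hlim : Tendsto (fun n => 128 * M / R ^ 2 * (Q + 1) ^ 2 * t n) atTop (𝓝 0) := by
      have h1 : Tendsto t atTop (𝓝 0) := by
        have := (tendsto_one_div_add_atTop_nhds_zero_nat (𝕜 := ℝ)).const_mul t0
        rw [mul_zero] at this
        refine this.congr fun n => ?_
        rw [ht]; ring
      have := h1.const_mul (128 * M / R ^ 2 * (Q + 1) ^ 2)
      rwa [mul_zero] at this
    filter_upwards [hlim.eventually (gt_mem_nhds hε)] with n hn z hz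
    have hzr := hsub hz
    have h1 := taylor2 (hf.mono hRU) hM (hs32 hzr) (hmem n z hzr)
    rw [add_sub_cancel_left] at h1
    have htc : (t n : ℂ) ≠ 0 := by exact_mod_cast (htp n).ne'
    have e : g n z - fderiv ℂ f z (w z) =
        ((t n : ℂ)⁻¹) • (f (z + (t n : ℂ) • w z) - f z - fderiv ℂ f z ((t n : ℂ) • w z)) := by
      rw [hg, map_smul]
      simp only
      rw [smul_sub ((t n : ℂ)⁻¹) (f (z + (t n : ℂ) • w z) - f z), smul_smul,
        inv_mul_cancel₀ htc, one_smul]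
    show ‖g n z - fderiv ℂ f z (w z)‖ < ε
    rw [e, norm_smul, norm_inv, Complex.norm_real, Real.norm_eq_abs, abs_of_pos (htp n)]
    refine lt_of_le_of_lt ?_ hn
    rw [norm_smul, Complex.norm_real, Real.norm_eq_abs, abs_of_pos (htp n)] at h1
    have h2 : ‖w z‖ ≤ Q + 1 := by linarith [hwQ z (hs1 hzr)]
    calc (t n)⁻¹ * ‖f (z + (t n : ℂ) • w z) - f z - fderiv ℂ f z ((t n : ℂ) • w z)‖
        ≤ (t n)⁻¹ * (128 * M / R ^ 2 * (t n * ‖w z‖) ^ 2) := by
          have := htp n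
          gcongr
      _ ≤ (t n)⁻¹ * (128 * M / R ^ 2 * (t n * (Q + 1)) ^ 2) := by
          have := htp n
          gcongr
      _ = 128 * M / R ^ 2 * (Q + 1) ^ 2 * t n := by
          have := (htp n).ne'
          field_simp
  have h := (hLU.limit hgd).1
  exact (h.differentiableAt (ball_mem_nhds _ hr0)).differentiableWithinAt

/-- supremum of the absolute values of a family -/
noncomputable def supF (𝓕 : Set (E → ℂ)) (z : E) : ℝ := sSup ((fun h : E → ℂ => ‖h z‖) '' 𝓕)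

/-- a locally bounded family of holomorphic functions -/
structure LocBdd (D : Set E) (𝓕 : Set (E → ℂ)) : Prop where
  ne : 𝓕.Nonempty
  hol : ∀ h ∈ 𝓕, DifferentiableOn ℂ h D
  bdd : ∀ x ∈ D, ∃ r > 0, ball x r ⊆ D ∧ ∃ M, ∀ h ∈ 𝓕, ∀ z ∈ ball x r, ‖h z‖ ≤ M

theorem LocBdd.bddAbove {𝓕 : Set (E → ℂ)} (h𝓕 : LocBdd D 𝓕) {z : E} (hz : z ∈ D) :
    BddAbove ((fun h : E → ℂ => ‖h z‖) '' 𝓕) := by
  obtain ⟨r, hr, -, M, hM⟩ := h𝓕.bdd z hz
  refine ⟨M, ?_⟩
  rintro _ ⟨h, hh, rfl⟩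
  exact hM h hh z (mem_ball_self hr)

theorem LocBdd.le_supF {𝓕 : Set (E → ℂ)} (h𝓕 : LocBdd D 𝓕) {z : E} (hz : z ∈ D) {h : E → ℂ}
    (hh : h ∈ 𝓕) : ‖h z‖ ≤ supF 𝓕 z :=
  le_csSup (h𝓕.bddAbove hz) (mem_image_of_mem _ hh)

theorem LocBdd.supF_le {𝓕 : Set (E → ℂ)} (h𝓕 : LocBdd D 𝓕) {z : E} {C : ℝ}
    (hC : ∀ h ∈ 𝓕, ‖h z‖ ≤ C) : supF 𝓕 z ≤ C := by
  refine csSup_le (h𝓕.ne.image _) ?_
  rintro _ ⟨h, hh, rfl⟩
  exact hC h hh

theorem LocBdd.locLip {𝓕 : Set (E → ℂ)} (h𝓕 : LocBdd D 𝓕) : LocLip D (supF 𝓕) := by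
  intro z₀ hz₀
  obtain ⟨r, hr, hrD, M, hM⟩ := h𝓕.bdd z₀ hz₀
  have hM0 : 0 ≤ M := by
    obtain ⟨h, hh⟩ := h𝓕.ne
    exact (norm_nonneg _).trans (hM h hh z₀ (mem_ball_self hr))
  have hs : ball z₀ (r / 4) ⊆ ball z₀ r := ball_subset_ball (by linarith)
  refine ⟨r / 4, by positivity, 4 * M / r, by positivity, hs.trans hrD, ?_⟩
  have key : ∀ y ∈ ball z₀ (r / 4), ∀ z ∈ ball z₀ (r / 4),
      supF 𝓕 z - supF 𝓕 y ≤ 4 * M / r * ‖z - y‖ := by
    intro y hy z hz
    have : supF 𝓕 z ≤ supF 𝓕 y + 4 * M / r * ‖z - y‖ := by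
      refine h𝓕.supF_le fun h hh => ?_
      have h1 := lip_ball ((h𝓕.hol h hh).mono hrD) (hM h hh) hy hz
      have h2 := h𝓕.le_supF (hrD (hs hy)) hh
      have h3 := norm_sub_norm_le (h z) (h y)
      linarith
    linarith
  intro y hy z hz
  rw [abs_le]
  have h1 := key y hy z hz
  have h2 := key z hz y hy
  rw [norm_sub_rev y z] at h2
  constructor <;> linarith

/-- holomorphic functions bounded by one -/
def HolB (D : Set E) : Set (E → ℂ) := {f | DifferentiableOn ℂ f D ∧ ∀ z ∈ D, ‖f z‖ ≤ 1}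

theorem HolB.limit [ProperSpace E] (hD : IsOpen D) {ι : Type*} (l : Ultrafilter ι)
    {f : ι → E → ℂ} (hf : ∀ i, f i ∈ HolB D) :
    ∃ g ∈ HolB D, LU f g (l : Filter ι) D := by
  obtain ⟨g, hg⟩ := exists_limit l (fun i => (hf i).1) (fun x hx => by
    obtain ⟨r, hr, hrD⟩ := Metric.isOpen_iff.1 hD x hx
    exact ⟨r, hr, hrD, 1, Eventually.of_forall fun i z hz => (hf i).2 z (hrD hz)⟩)
  refine ⟨g, ⟨(hg.limit fun i => (hf i).1).1, fun z hz => ?_⟩, hg⟩
  exact le_of_tendsto (hg.tendsto hz).norm (Eventually.of_forall fun i => (hf i).2 z hz)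

/-- the family of derivatives in the direction of `w` -/
def famD (D : Set E) (w : E → E) : Set (E → ℂ) :=
  {h | ∃ f ∈ HolB D, h = fun z => fderiv ℂ f z (w z)}

theorem locBdd_famD (hD : IsOpen D) {w : E → E} (hw : DifferentiableOn ℂ w D) :
    LocBdd D (famD D w) where
  ne := ⟨_, (fun _ => 0), ⟨differentiableOn_const _, fun z _ => by simp⟩, rfl⟩
  hol := by
    rintro _ ⟨f, hf, rfl⟩
    exact hol_fderiv_apply hD hf.1 hw
  bdd := by
    intro x hx
    obtain ⟨r, hr, M, hM0, hrD, hwM, -⟩ := exists_lip hD hw hx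
    have hs : ball x (r / 4) ⊆ ball x r := ball_subset_ball (by linarith)
    refine ⟨r / 4, by positivity, hs.trans hrD, 4 * 1 / r * M, ?_⟩
    rintro _ ⟨f, hf, rfl⟩ z hz
    have h1 := fderiv_bound (hf.1.mono hrD) (fun z hz => hf.2 z (hrD hz)) hz
    have h2 := hwM z (hs hz)
    exact ((fderiv ℂ f z).le_opNorm _).trans (by gcongr)

theorem exists_extremal [ProperSpace E] (hD : IsOpen D) {w : E → E}
    (hw : DifferentiableOn ℂ w D) {z₀ : E} (hz₀ : z₀ ∈ D) :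
    ∃ f ∈ HolB D, ‖fderiv ℂ f z₀ (w z₀)‖ = supF (famD D w) z₀ := by
  have h𝓕 := locBdd_famD hD hw
  have h1 : ∀ n : ℕ, ∃ f ∈ HolB D,
      supF (famD D w) z₀ - 1 / ((n : ℝ) + 1) < ‖fderiv ℂ f z₀ (w z₀)‖ := by
    intro n
    have hp : 0 < 1 / ((n : ℝ) + 1) := by positivity
    obtain ⟨_, ⟨_, ⟨f, hf, rfl⟩, rfl⟩, h2⟩ := exists_lt_of_lt_csSup (h𝓕.ne.image _)
      (show supF (famD D w) z₀ - 1 / ((n : ℝ) + 1) < sSup _ from by
        show supF (famD D w) z₀ - 1 / ((n : ℝ) + 1) < supF (famD D w) z₀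
        linarith)
    exact ⟨f, hf, h2⟩
  choose f hf hfn using h1
  obtain ⟨g, hg, hLU⟩ := HolB.limit hD (hyperfilter ℕ) hf
  refine ⟨g, hg, ?_⟩
  have h2 := (hLU.limit fun n => (hf n).1).2.tendsto hz₀
  have h3 : Tendsto (fun n => ‖fderiv ℂ (f n) z₀ (w z₀)‖) (hyperfilter ℕ : Filter ℕ)
      (𝓝 ‖fderiv ℂ g z₀ (w z₀)‖) :=
    (((ContinuousLinearMap.apply ℂ ℂ (w z₀)).continuous.tendsto _).comp h2).norm
  refine le_antisymm (h𝓕.le_supF hz₀ ⟨g, hg, rfl⟩) ?_
  have h4 : Tendsto (fun n : ℕ => supF (famD D w) z₀ - 1 / ((n : ℝ) + 1))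
      (hyperfilter ℕ : Filter ℕ) (𝓝 (supF (famD D w) z₀ - 0)) :=
    (tendsto_const_nhds.sub tendsto_one_div_add_atTop_nhds_zero_nat).mono_left
      Nat.hyperfilter_le_atTop
  rw [sub_zero] at h4
  exact le_of_tendsto_of_tendsto' h4 h3 fun n => (hfn n).le

end Pool.Agent.H906.BD
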